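import Pool.Agent.Lib.MP_afdd4d_co.K10.RP.B00_0
import Pool.Agent.Lib.MP_afdd4d_co.K10.RP.B00_1

/-!
# The pairs of the class 0
-/

namespace Pool.Agent.Lib.MP_afdd4d_co.K10.RP

open K8 K10.RS

theorem b00 : ∀ y < 1024, ∀ e ∈ L00, Pt.leP D (D.tP (Nat.xor 0 (Pt.fu y))) y e = true :=
  Pt.blk16 D (Pt.forall16' _ b00_0 b00_1 b00_2 b00_3 b00_4 b00_5 b00_6 b00_7 b00_8 b00_9 b00_10 b00_11 b00_12 b00_13 b00_14 b00_15)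

end Pool.Agent.Lib.MP_afdd4d_co.K10.RP
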