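import Pool.Agent.Lib.MP_afdd4d_co.K10.RP.L04
import Pool.Agent.Lib.MP_afdd4d_co.K10.RS.Dat

/-!
# The pairs of the class 4, part 1
-/

namespace Pool.Agent.Lib.MP_afdd4d_co.K10.RP

open K8 K10.RS

theorem b04_p1 :
    Pt.chB D 16 L04 512 64 = true ∧
    Pt.chB D 16 L04 576 64 = true ∧
    Pt.chB D 16 L04 640 64 = true ∧
    Pt.chB D 16 L04 704 64 = true ∧
    Pt.chB D 16 L04 768 64 = true ∧
    Pt.chB D 16 L04 832 64 = true ∧
    Pt.chB D 16 L04 896 64 = true ∧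
    Pt.chB D 16 L04 960 64 = true := by
  refine ⟨?_, ?_, ?_, ?_, ?_, ?_, ?_, ?_⟩ <;> decide +kernel

theorem b04_8 : Pt.chB D 16 L04 512 64 = true := b04_p1.1

theorem b04_9 : Pt.chB D 16 L04 576 64 = true := b04_p1.2.1

theorem b04_10 : Pt.chB D 16 L04 640 64 = true := b04_p1.2.2.1

theorem b04_11 : Pt.chB D 16 L04 704 64 = true := b04_p1.2.2.2.1

theorem b04_12 : Pt.chB D 16 L04 768 64 = true := b04_p1.2.2.2.2.1

theorem b04_13 : Pt.chB D 16 L04 832 64 = true := b04_p1.2.2.2.2.2.1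

theorem b04_14 : Pt.chB D 16 L04 896 64 = true := b04_p1.2.2.2.2.2.2.1

theorem b04_15 : Pt.chB D 16 L04 960 64 = true := b04_p1.2.2.2.2.2.2.2

end Pool.Agent.Lib.MP_afdd4d_co.K10.RP
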