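import Pool.Agent.Lib.MP_afdd4d_co.K10.RP.B04_0
import Pool.Agent.Lib.MP_afdd4d_co.K10.RP.B04_1

/-!
# The pairs of the class 4
-/

namespace Pool.Agent.Lib.MP_afdd4d_co.K10.RP

open K8 K10.RS

theorem b04 : ∀ y < 1024, ∀ e ∈ L04, Pt.leP D (D.tP (Nat.xor 16 (Pt.fu y))) y e = true :=
  Pt.blk16 D (Pt.forall16' _ b04_0 b04_1 b04_2 b04_3 b04_4 b04_5 b04_6 b04_7 b04_8 b04_9 b04_10 b04_11 b04_12 b04_13 b04_14 b04_15)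

end Pool.Agent.Lib.MP_afdd4d_co.K10.RP
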