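import Pool.Agent.Lib.MP_afdd4d_co.K10.RS.Dat
import Pool.Agent.Lib.MP_afdd4d_co.K8.PsiTr

/-!
# The pairs of a view
-/

namespace Pool.Agent.Lib.MP_afdd4d_co.K10.RP

open K8 K10.RS

/-- The condition for the pairs of a view from the check of its class. -/
theorem chT_of {κ c6 : ℕ} {L : List Pt.PE}
    (h : ∀ y < 1024, ∀ e ∈ L, Pt.leP D (D.tP (Nat.xor κ (Pt.fu y))) y e = true) (tE tK tS y0 i : ℕ)
    (hi : L[i]? = some ⟨tE, tK, tS, y0⟩) (h0 : Nat.blt y0 1024 = true)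
    (hc : Nat.beq (Nat.xor κ (Pt.fu y0)) c6 = true) :
    ∀ x < 1024, Pt.chT D c6 tE tK tS x = true :=
  Pt.chT_of_blk D h ⟨tE, tK, tS, y0⟩ i hi h0 hc

end Pool.Agent.Lib.MP_afdd4d_co.K10.RP
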