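import Pool.Agent.Lib.MP_afdd4d_co.K10.RN.Q01
import Pool.Agent.Lib.MP_afdd4d_co.K10.RP.Blk
import Pool.Agent.Lib.MP_afdd4d_co.K10.RP.E01
import Pool.Agent.Lib.MP_afdd4d_co.K10.RP.D01
import Pool.Agent.Lib.MP_afdd4d_co.K10.RP.E01p1
import Pool.Agent.Lib.MP_afdd4d_co.K10.RP.D01p1
import Pool.Agent.Lib.MP_afdd4d_co.K10.RP.Q01p1
import Pool.Agent.Lib.MP_afdd4d_co.K10.RP.W01
import Pool.Agent.Lib.MP_afdd4d_co.K10.RP.B00
import Pool.Agent.Lib.MP_afdd4d_co.K10.RP.B01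
import Pool.Agent.Lib.MP_afdd4d_co.K10.RP.B04

/-!
# The far pairs of the coset number 1
-/

namespace Pool.Agent.Lib.MP_afdd4d_co.K10.RP

open K8 K10.RS

theorem t01_0 : ∀ x < 1024, Pt.chT D (Jv.jsE K8.RN.E01.z 0) (tE01 0) (tK01 0) (tS01 0) x = true :=
  chT_of b04 (tE01 0) (tK01 0) (tS01 0) 0 0 rfl (by decide) (by decide +kernel)

theorem t01_1 : ∀ x < 1024, Pt.chT D (Jv.jsE K8.RN.E01.z 1) (tE01 1) (tK01 1) (tS01 1) x = true :=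
  chT_of b00 (tE01 1) (tK01 1) (tS01 1) 0 14 rfl (by decide) (by decide +kernel)

theorem t01_2 : ∀ x < 1024, Pt.chT D (Jv.jsE K8.RN.E01.z 2) (tE01 2) (tK01 2) (tS01 2) x = true :=
  chT_of b00 (tE01 2) (tK01 2) (tS01 2) 0 15 rfl (by decide) (by decide +kernel)

theorem t01_3 : ∀ x < 1024, Pt.chT D (Jv.jsE K8.RN.E01.z 3) (tE01 3) (tK01 3) (tS01 3) x = true :=
  chT_of b00 (tE01 3) (tK01 3) (tS01 3) 0 16 rfl (by decide) (by decide +kernel)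

theorem t01_4 : ∀ x < 1024, Pt.chT D (Jv.jsE K8.RN.E01.z 4) (tE01 4) (tK01 4) (tS01 4) x = true :=
  chT_of b00 (tE01 4) (tK01 4) (tS01 4) 0 17 rfl (by decide) (by decide +kernel)

theorem t01_5 : ∀ x < 1024, Pt.chT D (Jv.jsE K8.RN.E01.z 5) (tE01 5) (tK01 5) (tS01 5) x = true :=
  chT_of b04 (tE01 5) (tK01 5) (tS01 5) 0 1 rfl (by decide) (by decide +kernel)

theorem t01_6 : ∀ x < 1024, Pt.chT D (Jv.jsE K8.RN.E01.z 6) (tE01 6) (tK01 6) (tS01 6) x = true :=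
  chT_of b04 (tE01 6) (tK01 6) (tS01 6) 0 2 rfl (by decide) (by decide +kernel)

theorem c01 : Pt.chN D K K1_01 K2_01 K4_01 = true := by decide +kernel

theorem out01 : Pt.FarY S K8.RN.E01.g.c 7 (Pt.Out X01) :=
  Pt.farY_out D D_w K K_eq K8.RN.E01.g K8.RN.E01.z K8.RN.E01.hg (rep_mem 1 (by decide) rfl) X01 okE01 okK01 okS01 c01
    K10.RN.r1_01 r2_01 (Pt.forall7 _ t01_0 t01_1 t01_2 t01_3 t01_4 t01_5 t01_6) r4_01

theorem t01p1_0 : ∀ x < 1024, Pt.chT D (Jv.jsE K8.RN.E01.z 0) (tE01p1 0) (tK01p1 0) (tS01p1 0) x = true :=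
  chT_of b04 (tE01p1 0) (tK01p1 0) (tS01p1 0) 0 3 rfl (by decide) (by decide +kernel)

theorem t01p1_1 : ∀ x < 1024, Pt.chT D (Jv.jsE K8.RN.E01.z 1) (tE01p1 1) (tK01p1 1) (tS01p1 1) x = true :=
  chT_of b00 (tE01p1 1) (tK01p1 1) (tS01p1 1) 0 18 rfl (by decide) (by decide +kernel)

theorem t01p1_2 : ∀ x < 1024, Pt.chT D (Jv.jsE K8.RN.E01.z 2) (tE01p1 2) (tK01p1 2) (tS01p1 2) x = true :=
  chT_of b00 (tE01p1 2) (tK01p1 2) (tS01p1 2) 0 19 rfl (by decide) (by decide +kernel)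

theorem t01p1_3 : ∀ x < 1024, Pt.chT D (Jv.jsE K8.RN.E01.z 3) (tE01p1 3) (tK01p1 3) (tS01p1 3) x = true :=
  chT_of b01 (tE01p1 3) (tK01p1 3) (tS01p1 3) 0 0 rfl (by decide) (by decide +kernel)

theorem t01p1_4 : ∀ x < 1024, Pt.chT D (Jv.jsE K8.RN.E01.z 4) (tE01p1 4) (tK01p1 4) (tS01p1 4) x = true :=
  chT_of b01 (tE01p1 4) (tK01p1 4) (tS01p1 4) 0 1 rfl (by decide) (by decide +kernel)

theorem t01p1_5 : ∀ x < 1024, Pt.chT D (Jv.jsE K8.RN.E01.z 5) (tE01p1 5) (tK01p1 5) (tS01p1 5) x = true :=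
  chT_of b04 (tE01p1 5) (tK01p1 5) (tS01p1 5) 0 4 rfl (by decide) (by decide +kernel)

theorem t01p1_6 : ∀ x < 1024, Pt.chT D (Jv.jsE K8.RN.E01.z 6) (tE01p1 6) (tK01p1 6) (tS01p1 6) x = true :=
  chT_of b04 (tE01p1 6) (tK01p1 6) (tS01p1 6) 0 5 rfl (by decide) (by decide +kernel)

theorem c01p1 : Pt.chN D K K1_01p1 K2_01p1 K4_01p1 = true := by decide +kernel

theorem y01p1 : Pt.FarY S K8.RN.E01.g.c 7 (fun y => y ∈ Y01p1) :=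
  Pt.farY_lst D D_w K K_eq K8.RN.E01.g K8.RN.E01.z K8.RN.E01.hg (rep_mem 1 (by decide) rfl) Y01p1 okE01p1 okK01p1 okS01p1 c01p1
    r1_01p1 r2_01p1 (Pt.forall7 _ t01p1_0 t01p1_1 t01p1_2 t01p1_3 t01p1_4 t01p1_5 t01p1_6) r4_01p1

theorem x01p1 : ∀ l ∈ X01p1, Pt.FarY S K8.RN.E01.g.c 7 (fun y => y ∈ l) :=
  Pt.tr_spec w0_01 y01p1 (fun _ h => h) w01p1

theorem far01 : Pt.Far S K8.RN.E01.g.c 7 := Pt.far_of_out out01 x01p1

end Pool.Agent.Lib.MP_afdd4d_co.K10.RP
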