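import Pool.Agent.Lib.MP_afdd4d_co.K10.RP.B01_0
import Pool.Agent.Lib.MP_afdd4d_co.K10.RP.B01_1

/-!
# The pairs of the class 1
-/

namespace Pool.Agent.Lib.MP_afdd4d_co.K10.RP

open K8 K10.RS

theorem b01 : ∀ y < 1024, ∀ e ∈ L01, Pt.leP D (D.tP (Nat.xor 0 (Pt.fu y))) y e = true :=
  Pt.blk16 D (Pt.forall16' _ b01_0 b01_1 b01_2 b01_3 b01_4 b01_5 b01_6 b01_7 b01_8 b01_9 b01_10 b01_11 b01_12 b01_13 b01_14 b01_15)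

end Pool.Agent.Lib.MP_afdd4d_co.K10.RP
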