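import Pool.Agent.Lib.MP_afdd4d_co.K10.RP.B14_0
import Pool.Agent.Lib.MP_afdd4d_co.K10.RP.B14_1

/-!
# The pairs of the class 14
-/

namespace Pool.Agent.Lib.MP_afdd4d_co.K10.RP

open K8 K10.RS

theorem b14 : ∀ y < 1024, ∀ e ∈ L14, Pt.leP D (D.tP (Nat.xor 272 (Pt.fu y))) y e = true :=
  Pt.blk16 D (Pt.forall16' _ b14_0 b14_1 b14_2 b14_3 b14_4 b14_5 b14_6 b14_7 b14_8 b14_9 b14_10 b14_11 b14_12 b14_13 b14_14 b14_15)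

end Pool.Agent.Lib.MP_afdd4d_co.K10.RP
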