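import Pool.Agent.Lib.MP_afdd4d_co.K10.RP.T02p3
import Pool.Agent.Lib.MP_afdd4d_co.K8.RN.E02

/-!
# The differences, potentials number 3 of the coset number 2
-/

namespace Pool.Agent.Lib.MP_afdd4d_co.K10.RP

open K8

theorem d02p3 :
    (Pt.chD tS02p3 (Jv.jsE K8.RN.E02.z) 120912044183858271 0 = true ∧
    Pt.chD tS02p3 (Jv.jsE K8.RN.E02.z) 120912044183858271 1 = true ∧
    Pt.chD tS02p3 (Jv.jsE K8.RN.E02.z) 120912044183858271 2 = true ∧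
    Pt.chD tS02p3 (Jv.jsE K8.RN.E02.z) 120912044183858271 3 = true) ∧
    (Pt.chD tS02p3 (Jv.jsE K8.RN.E02.z) 120912044183858271 4 = true ∧
    Pt.chD tS02p3 (Jv.jsE K8.RN.E02.z) 120912044183858271 5 = true ∧
    Pt.chD tS02p3 (Jv.jsE K8.RN.E02.z) 120912044183858271 6 = true ∧
    Pt.chD tS02p3 (Jv.jsE K8.RN.E02.z) 120912044183858271 7 = true) ∧
    (Pt.chD tS02p3 (Jv.jsE K8.RN.E02.z) 120912044183858271 8 = true ∧
    Pt.chD tS02p3 (Jv.jsE K8.RN.E02.z) 120912044183858271 9 = true ∧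
    Pt.chD tS02p3 (Jv.jsE K8.RN.E02.z) 120912044183858271 10 = true ∧
    Pt.chD tS02p3 (Jv.jsE K8.RN.E02.z) 120912044183858271 11 = true) ∧
    (Pt.chD tS02p3 (Jv.jsE K8.RN.E02.z) 120912044183858271 12 = true ∧
    Pt.chD tS02p3 (Jv.jsE K8.RN.E02.z) 120912044183858271 13 = true ∧
    Pt.chD tS02p3 (Jv.jsE K8.RN.E02.z) 120912044183858271 14 = true ∧
    Pt.chD tS02p3 (Jv.jsE K8.RN.E02.z) 120912044183858271 15 = true) := by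
  refine ⟨⟨?_, ?_, ?_, ?_⟩, ⟨?_, ?_, ?_, ?_⟩, ⟨?_, ?_, ?_, ?_⟩, ⟨?_, ?_, ?_, ?_⟩⟩ <;> decide +kernel

theorem r4_02p3 : ∀ τ < 16, Pt.chD tS02p3 (Jv.jsE K8.RN.E02.z) 120912044183858271 τ = true :=
  Jv.Tabs.forall16 _ d02p3.1 d02p3.2.1 d02p3.2.2.1 d02p3.2.2.2

end Pool.Agent.Lib.MP_afdd4d_co.K10.RP
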