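import Pool.Agent.Lib.MP_afdd4d_co.K10.RN.Q02
import Pool.Agent.Lib.MP_afdd4d_co.K10.RP.Blk
import Pool.Agent.Lib.MP_afdd4d_co.K10.RP.E02
import Pool.Agent.Lib.MP_afdd4d_co.K10.RP.D02
import Pool.Agent.Lib.MP_afdd4d_co.K10.RP.E02p1
import Pool.Agent.Lib.MP_afdd4d_co.K10.RP.D02p1
import Pool.Agent.Lib.MP_afdd4d_co.K10.RP.Q02p1
import Pool.Agent.Lib.MP_afdd4d_co.K10.RP.E02p2
import Pool.Agent.Lib.MP_afdd4d_co.K10.RP.D02p2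
import Pool.Agent.Lib.MP_afdd4d_co.K10.RP.Q02p2
import Pool.Agent.Lib.MP_afdd4d_co.K10.RP.E02p3
import Pool.Agent.Lib.MP_afdd4d_co.K10.RP.D02p3
import Pool.Agent.Lib.MP_afdd4d_co.K10.RP.Q02p3
import Pool.Agent.Lib.MP_afdd4d_co.K10.RP.W02
import Pool.Agent.Lib.MP_afdd4d_co.K10.RP.B01
import Pool.Agent.Lib.MP_afdd4d_co.K10.RP.B04
import Pool.Agent.Lib.MP_afdd4d_co.K10.RP.B14

/-!
# The far pairs of the coset number 2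
-/

namespace Pool.Agent.Lib.MP_afdd4d_co.K10.RP

open K8 K10.RS

theorem t02_0 : ∀ x < 1024, Pt.chT D (Jv.jsE K8.RN.E02.z 0) (tE02 0) (tK02 0) (tS02 0) x = true :=
  chT_of b14 (tE02 0) (tK02 0) (tS02 0) 0 0 rfl (by decide) (by decide +kernel)

theorem t02_1 : ∀ x < 1024, Pt.chT D (Jv.jsE K8.RN.E02.z 1) (tE02 1) (tK02 1) (tS02 1) x = true :=
  chT_of b01 (tE02 1) (tK02 1) (tS02 1) 0 2 rfl (by decide) (by decide +kernel)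

theorem t02_2 : ∀ x < 1024, Pt.chT D (Jv.jsE K8.RN.E02.z 2) (tE02 2) (tK02 2) (tS02 2) x = true :=
  chT_of b01 (tE02 2) (tK02 2) (tS02 2) 0 3 rfl (by decide) (by decide +kernel)

theorem t02_3 : ∀ x < 1024, Pt.chT D (Jv.jsE K8.RN.E02.z 3) (tE02 3) (tK02 3) (tS02 3) x = true :=
  chT_of b01 (tE02 3) (tK02 3) (tS02 3) 0 4 rfl (by decide) (by decide +kernel)

theorem t02_4 : ∀ x < 1024, Pt.chT D (Jv.jsE K8.RN.E02.z 4) (tE02 4) (tK02 4) (tS02 4) x = true :=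
  chT_of b04 (tE02 4) (tK02 4) (tS02 4) 0 6 rfl (by decide) (by decide +kernel)

theorem t02_5 : ∀ x < 1024, Pt.chT D (Jv.jsE K8.RN.E02.z 5) (tE02 5) (tK02 5) (tS02 5) x = true :=
  chT_of b04 (tE02 5) (tK02 5) (tS02 5) 0 7 rfl (by decide) (by decide +kernel)

theorem t02_6 : ∀ x < 1024, Pt.chT D (Jv.jsE K8.RN.E02.z 6) (tE02 6) (tK02 6) (tS02 6) x = true :=
  chT_of b14 (tE02 6) (tK02 6) (tS02 6) 0 1 rfl (by decide) (by decide +kernel)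

theorem c02 : Pt.chN D K K1_02 K2_02 K4_02 = true := by decide +kernel

theorem out02 : Pt.FarY S K8.RN.E02.g.c 7 (Pt.Out X02) :=
  Pt.farY_out D D_w K K_eq K8.RN.E02.g K8.RN.E02.z K8.RN.E02.hg (rep_mem 2 (by decide) rfl) X02 okE02 okK02 okS02 c02
    K10.RN.r1_02 r2_02 (Pt.forall7 _ t02_0 t02_1 t02_2 t02_3 t02_4 t02_5 t02_6) r4_02

theorem t02p1_0 : ∀ x < 1024, Pt.chT D (Jv.jsE K8.RN.E02.z 0) (tE02p1 0) (tK02p1 0) (tS02p1 0) x = true :=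
  chT_of b14 (tE02p1 0) (tK02p1 0) (tS02p1 0) 0 2 rfl (by decide) (by decide +kernel)

theorem t02p1_1 : ∀ x < 1024, Pt.chT D (Jv.jsE K8.RN.E02.z 1) (tE02p1 1) (tK02p1 1) (tS02p1 1) x = true :=
  chT_of b01 (tE02p1 1) (tK02p1 1) (tS02p1 1) 0 5 rfl (by decide) (by decide +kernel)

theorem t02p1_2 : ∀ x < 1024, Pt.chT D (Jv.jsE K8.RN.E02.z 2) (tE02p1 2) (tK02p1 2) (tS02p1 2) x = true :=
  chT_of b01 (tE02p1 2) (tK02p1 2) (tS02p1 2) 0 6 rfl (by decide) (by decide +kernel)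

theorem t02p1_3 : ∀ x < 1024, Pt.chT D (Jv.jsE K8.RN.E02.z 3) (tE02p1 3) (tK02p1 3) (tS02p1 3) x = true :=
  chT_of b01 (tE02p1 3) (tK02p1 3) (tS02p1 3) 0 7 rfl (by decide) (by decide +kernel)

theorem t02p1_4 : ∀ x < 1024, Pt.chT D (Jv.jsE K8.RN.E02.z 4) (tE02p1 4) (tK02p1 4) (tS02p1 4) x = true :=
  chT_of b04 (tE02p1 4) (tK02p1 4) (tS02p1 4) 0 8 rfl (by decide) (by decide +kernel)

theorem t02p1_5 : ∀ x < 1024, Pt.chT D (Jv.jsE K8.RN.E02.z 5) (tE02p1 5) (tK02p1 5) (tS02p1 5) x = true :=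
  chT_of b04 (tE02p1 5) (tK02p1 5) (tS02p1 5) 0 9 rfl (by decide) (by decide +kernel)

theorem t02p1_6 : ∀ x < 1024, Pt.chT D (Jv.jsE K8.RN.E02.z 6) (tE02p1 6) (tK02p1 6) (tS02p1 6) x = true :=
  chT_of b14 (tE02p1 6) (tK02p1 6) (tS02p1 6) 0 3 rfl (by decide) (by decide +kernel)

theorem c02p1 : Pt.chN D K K1_02p1 K2_02p1 K4_02p1 = true := by decide +kernel

theorem y02p1 : Pt.FarY S K8.RN.E02.g.c 7 (fun y => y ∈ Y02p1) :=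
  Pt.farY_lst D D_w K K_eq K8.RN.E02.g K8.RN.E02.z K8.RN.E02.hg (rep_mem 2 (by decide) rfl) Y02p1 okE02p1 okK02p1 okS02p1 c02p1
    r1_02p1 r2_02p1 (Pt.forall7 _ t02p1_0 t02p1_1 t02p1_2 t02p1_3 t02p1_4 t02p1_5 t02p1_6) r4_02p1

theorem x02p1 : ∀ l ∈ X02p1, Pt.FarY S K8.RN.E02.g.c 7 (fun y => y ∈ l) :=
  Pt.tr_spec w0_02 y02p1 (fun _ h => h) w02p1

theorem t02p2_0 : ∀ x < 1024, Pt.chT D (Jv.jsE K8.RN.E02.z 0) (tE02p2 0) (tK02p2 0) (tS02p2 0) x = true :=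
  chT_of b14 (tE02p2 0) (tK02p2 0) (tS02p2 0) 0 4 rfl (by decide) (by decide +kernel)

theorem t02p2_1 : ∀ x < 1024, Pt.chT D (Jv.jsE K8.RN.E02.z 1) (tE02p2 1) (tK02p2 1) (tS02p2 1) x = true :=
  chT_of b01 (tE02p2 1) (tK02p2 1) (tS02p2 1) 0 8 rfl (by decide) (by decide +kernel)

theorem t02p2_2 : ∀ x < 1024, Pt.chT D (Jv.jsE K8.RN.E02.z 2) (tE02p2 2) (tK02p2 2) (tS02p2 2) x = true :=
  chT_of b01 (tE02p2 2) (tK02p2 2) (tS02p2 2) 0 9 rfl (by decide) (by decide +kernel)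

theorem t02p2_3 : ∀ x < 1024, Pt.chT D (Jv.jsE K8.RN.E02.z 3) (tE02p2 3) (tK02p2 3) (tS02p2 3) x = true :=
  chT_of b01 (tE02p2 3) (tK02p2 3) (tS02p2 3) 0 10 rfl (by decide) (by decide +kernel)

theorem t02p2_4 : ∀ x < 1024, Pt.chT D (Jv.jsE K8.RN.E02.z 4) (tE02p2 4) (tK02p2 4) (tS02p2 4) x = true :=
  chT_of b04 (tE02p2 4) (tK02p2 4) (tS02p2 4) 0 10 rfl (by decide) (by decide +kernel)

theorem t02p2_5 : ∀ x < 1024, Pt.chT D (Jv.jsE K8.RN.E02.z 5) (tE02p2 5) (tK02p2 5) (tS02p2 5) x = true :=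
  chT_of b04 (tE02p2 5) (tK02p2 5) (tS02p2 5) 0 11 rfl (by decide) (by decide +kernel)

theorem t02p2_6 : ∀ x < 1024, Pt.chT D (Jv.jsE K8.RN.E02.z 6) (tE02p2 6) (tK02p2 6) (tS02p2 6) x = true :=
  chT_of b14 (tE02p2 6) (tK02p2 6) (tS02p2 6) 0 5 rfl (by decide) (by decide +kernel)

theorem c02p2 : Pt.chN D K K1_02p2 K2_02p2 K4_02p2 = true := by decide +kernel

theorem y02p2 : Pt.FarY S K8.RN.E02.g.c 7 (fun y => y ∈ Y02p2) :=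
  Pt.farY_lst D D_w K K_eq K8.RN.E02.g K8.RN.E02.z K8.RN.E02.hg (rep_mem 2 (by decide) rfl) Y02p2 okE02p2 okK02p2 okS02p2 c02p2
    r1_02p2 r2_02p2 (Pt.forall7 _ t02p2_0 t02p2_1 t02p2_2 t02p2_3 t02p2_4 t02p2_5 t02p2_6) r4_02p2

theorem x02p2 : ∀ l ∈ X02p2, Pt.FarY S K8.RN.E02.g.c 7 (fun y => y ∈ l) :=
  Pt.tr_spec w0_02 y02p2 (fun _ h => h) w02p2

theorem t02p3_0 : ∀ x < 1024, Pt.chT D (Jv.jsE K8.RN.E02.z 0) (tE02p3 0) (tK02p3 0) (tS02p3 0) x = true :=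
  chT_of b14 (tE02p3 0) (tK02p3 0) (tS02p3 0) 0 6 rfl (by decide) (by decide +kernel)

theorem t02p3_1 : ∀ x < 1024, Pt.chT D (Jv.jsE K8.RN.E02.z 1) (tE02p3 1) (tK02p3 1) (tS02p3 1) x = true :=
  chT_of b01 (tE02p3 1) (tK02p3 1) (tS02p3 1) 0 11 rfl (by decide) (by decide +kernel)

theorem t02p3_2 : ∀ x < 1024, Pt.chT D (Jv.jsE K8.RN.E02.z 2) (tE02p3 2) (tK02p3 2) (tS02p3 2) x = true :=
  chT_of b01 (tE02p3 2) (tK02p3 2) (tS02p3 2) 0 12 rfl (by decide) (by decide +kernel)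

theorem t02p3_3 : ∀ x < 1024, Pt.chT D (Jv.jsE K8.RN.E02.z 3) (tE02p3 3) (tK02p3 3) (tS02p3 3) x = true :=
  chT_of b01 (tE02p3 3) (tK02p3 3) (tS02p3 3) 0 13 rfl (by decide) (by decide +kernel)

theorem t02p3_4 : ∀ x < 1024, Pt.chT D (Jv.jsE K8.RN.E02.z 4) (tE02p3 4) (tK02p3 4) (tS02p3 4) x = true :=
  chT_of b04 (tE02p3 4) (tK02p3 4) (tS02p3 4) 0 12 rfl (by decide) (by decide +kernel)

theorem t02p3_5 : ∀ x < 1024, Pt.chT D (Jv.jsE K8.RN.E02.z 5) (tE02p3 5) (tK02p3 5) (tS02p3 5) x = true :=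
  chT_of b04 (tE02p3 5) (tK02p3 5) (tS02p3 5) 0 13 rfl (by decide) (by decide +kernel)

theorem t02p3_6 : ∀ x < 1024, Pt.chT D (Jv.jsE K8.RN.E02.z 6) (tE02p3 6) (tK02p3 6) (tS02p3 6) x = true :=
  chT_of b14 (tE02p3 6) (tK02p3 6) (tS02p3 6) 0 7 rfl (by decide) (by decide +kernel)

theorem c02p3 : Pt.chN D K K1_02p3 K2_02p3 K4_02p3 = true := by decide +kernel

theorem y02p3 : Pt.FarY S K8.RN.E02.g.c 7 (fun y => y ∈ Y02p3) :=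
  Pt.farY_lst D D_w K K_eq K8.RN.E02.g K8.RN.E02.z K8.RN.E02.hg (rep_mem 2 (by decide) rfl) Y02p3 okE02p3 okK02p3 okS02p3 c02p3
    r1_02p3 r2_02p3 (Pt.forall7 _ t02p3_0 t02p3_1 t02p3_2 t02p3_3 t02p3_4 t02p3_5 t02p3_6) r4_02p3

theorem x02p3 : ∀ l ∈ X02p3, Pt.FarY S K8.RN.E02.g.c 7 (fun y => y ∈ l) :=
  Pt.tr_spec w0_02 y02p3 (fun _ h => h) w02p3

theorem far02 : Pt.Far S K8.RN.E02.g.c 7 := Pt.far_of_out out02 (Pt.farY_all (Pt.farY_all x02p1 x02p2) x02p3)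

end Pool.Agent.Lib.MP_afdd4d_co.K10.RP
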