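import Pool.Agent.Lib.MP_afdd4d_co.K10.RP.B11_0
import Pool.Agent.Lib.MP_afdd4d_co.K10.RP.B11_1

/-!
# The pairs of the class 11
-/

namespace Pool.Agent.Lib.MP_afdd4d_co.K10.RP

open K8 K10.RS

theorem b11 : ∀ y < 1024, ∀ e ∈ L11, Pt.leP D (D.tP (Nat.xor 256 (Pt.fu y))) y e = true :=
  Pt.blk16 D (Pt.forall16' _ b11_0 b11_1 b11_2 b11_3 b11_4 b11_5 b11_6 b11_7 b11_8 b11_9 b11_10 b11_11 b11_12 b11_13 b11_14 b11_15)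

end Pool.Agent.Lib.MP_afdd4d_co.K10.RP
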