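import Pool.Agent.Lib.MP_afdd4d_co.K10.RP.B16_0
import Pool.Agent.Lib.MP_afdd4d_co.K10.RP.B16_1

/-!
# The pairs of the class 16
-/

namespace Pool.Agent.Lib.MP_afdd4d_co.K10.RP

open K8 K10.RS

theorem b16 : ∀ y < 1024, ∀ e ∈ L16, Pt.leP D (D.tP (Nat.xor 2048 (Pt.fu y))) y e = true :=
  Pt.blk16 D (Pt.forall16' _ b16_0 b16_1 b16_2 b16_3 b16_4 b16_5 b16_6 b16_7 b16_8 b16_9 b16_10 b16_11 b16_12 b16_13 b16_14 b16_15)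

end Pool.Agent.Lib.MP_afdd4d_co.K10.RP
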