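import Pool.Agent.Lib.MP_afdd4d_co.K10.RP.B20_0
import Pool.Agent.Lib.MP_afdd4d_co.K10.RP.B20_1

/-!
# The pairs of the class 20
-/

namespace Pool.Agent.Lib.MP_afdd4d_co.K10.RP

open K8 K10.RS

theorem b20 : ∀ y < 1024, ∀ e ∈ L20, Pt.leP D (D.tP (Nat.xor 2320 (Pt.fu y))) y e = true :=
  Pt.blk16 D (Pt.forall16' _ b20_0 b20_1 b20_2 b20_3 b20_4 b20_5 b20_6 b20_7 b20_8 b20_9 b20_10 b20_11 b20_12 b20_13 b20_14 b20_15)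

end Pool.Agent.Lib.MP_afdd4d_co.K10.RP
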