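import Pool.Agent.Lib.MP_afdd4d_co.K10.RP.T03p1
import Pool.Agent.Lib.MP_afdd4d_co.K8.RN.E03

/-!
# The differences, potentials number 1 of the coset number 3
-/

namespace Pool.Agent.Lib.MP_afdd4d_co.K10.RP

open K8

theorem d03p1 :
    (Pt.chD tS03p1 (Jv.jsE K8.RN.E03.z) 120911237292446365 0 = true ∧
    Pt.chD tS03p1 (Jv.jsE K8.RN.E03.z) 120911237292446365 1 = true ∧
    Pt.chD tS03p1 (Jv.jsE K8.RN.E03.z) 120911237292446365 2 = true ∧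
    Pt.chD tS03p1 (Jv.jsE K8.RN.E03.z) 120911237292446365 3 = true) ∧
    (Pt.chD tS03p1 (Jv.jsE K8.RN.E03.z) 120911237292446365 4 = true ∧
    Pt.chD tS03p1 (Jv.jsE K8.RN.E03.z) 120911237292446365 5 = true ∧
    Pt.chD tS03p1 (Jv.jsE K8.RN.E03.z) 120911237292446365 6 = true ∧
    Pt.chD tS03p1 (Jv.jsE K8.RN.E03.z) 120911237292446365 7 = true) ∧
    (Pt.chD tS03p1 (Jv.jsE K8.RN.E03.z) 120911237292446365 8 = true ∧
    Pt.chD tS03p1 (Jv.jsE K8.RN.E03.z) 120911237292446365 9 = true ∧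
    Pt.chD tS03p1 (Jv.jsE K8.RN.E03.z) 120911237292446365 10 = true ∧
    Pt.chD tS03p1 (Jv.jsE K8.RN.E03.z) 120911237292446365 11 = true) ∧
    (Pt.chD tS03p1 (Jv.jsE K8.RN.E03.z) 120911237292446365 12 = true ∧
    Pt.chD tS03p1 (Jv.jsE K8.RN.E03.z) 120911237292446365 13 = true ∧
    Pt.chD tS03p1 (Jv.jsE K8.RN.E03.z) 120911237292446365 14 = true ∧
    Pt.chD tS03p1 (Jv.jsE K8.RN.E03.z) 120911237292446365 15 = true) := by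
  refine ⟨⟨?_, ?_, ?_, ?_⟩, ⟨?_, ?_, ?_, ?_⟩, ⟨?_, ?_, ?_, ?_⟩, ⟨?_, ?_, ?_, ?_⟩⟩ <;> decide +kernel

theorem r4_03p1 : ∀ τ < 16, Pt.chD tS03p1 (Jv.jsE K8.RN.E03.z) 120911237292446365 τ = true :=
  Jv.Tabs.forall16 _ d03p1.1 d03p1.2.1 d03p1.2.2.1 d03p1.2.2.2

end Pool.Agent.Lib.MP_afdd4d_co.K10.RP
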