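import Pool.Agent.Lib.MP_afdd4d_co.K10.RN.Q03
import Pool.Agent.Lib.MP_afdd4d_co.K10.RP.Blk
import Pool.Agent.Lib.MP_afdd4d_co.K10.RP.E03
import Pool.Agent.Lib.MP_afdd4d_co.K10.RP.D03
import Pool.Agent.Lib.MP_afdd4d_co.K10.RP.E03p1
import Pool.Agent.Lib.MP_afdd4d_co.K10.RP.D03p1
import Pool.Agent.Lib.MP_afdd4d_co.K10.RP.Q03p1
import Pool.Agent.Lib.MP_afdd4d_co.K10.RP.E03p2
import Pool.Agent.Lib.MP_afdd4d_co.K10.RP.D03p2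
import Pool.Agent.Lib.MP_afdd4d_co.K10.RP.Q03p2
import Pool.Agent.Lib.MP_afdd4d_co.K10.RP.W03
import Pool.Agent.Lib.MP_afdd4d_co.K10.RP.B01
import Pool.Agent.Lib.MP_afdd4d_co.K10.RP.B04
import Pool.Agent.Lib.MP_afdd4d_co.K10.RP.B11
import Pool.Agent.Lib.MP_afdd4d_co.K10.RP.B16
import Pool.Agent.Lib.MP_afdd4d_co.K10.RP.B20

/-!
# The far pairs of the coset number 3
-/

namespace Pool.Agent.Lib.MP_afdd4d_co.K10.RP

open K8 K10.RS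

theorem t03_0 : ∀ x < 1024, Pt.chT D (Jv.jsE K8.RN.E03.z 0) (tE03 0) (tK03 0) (tS03 0) x = true :=
  chT_of b20 (tE03 0) (tK03 0) (tS03 0) 1 0 rfl (by decide) (by decide +kernel)

theorem t03_1 : ∀ x < 1024, Pt.chT D (Jv.jsE K8.RN.E03.z 1) (tE03 1) (tK03 1) (tS03 1) x = true :=
  chT_of b01 (tE03 1) (tK03 1) (tS03 1) 0 14 rfl (by decide) (by decide +kernel)

theorem t03_2 : ∀ x < 1024, Pt.chT D (Jv.jsE K8.RN.E03.z 2) (tE03 2) (tK03 2) (tS03 2) x = true :=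
  chT_of b01 (tE03 2) (tK03 2) (tS03 2) 0 15 rfl (by decide) (by decide +kernel)

theorem t03_3 : ∀ x < 1024, Pt.chT D (Jv.jsE K8.RN.E03.z 3) (tE03 3) (tK03 3) (tS03 3) x = true :=
  chT_of b04 (tE03 3) (tK03 3) (tS03 3) 0 14 rfl (by decide) (by decide +kernel)

theorem t03_4 : ∀ x < 1024, Pt.chT D (Jv.jsE K8.RN.E03.z 4) (tE03 4) (tK03 4) (tS03 4) x = true :=
  chT_of b11 (tE03 4) (tK03 4) (tS03 4) 0 0 rfl (by decide) (by decide +kernel)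

theorem t03_5 : ∀ x < 1024, Pt.chT D (Jv.jsE K8.RN.E03.z 5) (tE03 5) (tK03 5) (tS03 5) x = true :=
  chT_of b11 (tE03 5) (tK03 5) (tS03 5) 0 1 rfl (by decide) (by decide +kernel)

theorem t03_6 : ∀ x < 1024, Pt.chT D (Jv.jsE K8.RN.E03.z 6) (tE03 6) (tK03 6) (tS03 6) x = true :=
  chT_of b16 (tE03 6) (tK03 6) (tS03 6) 0 0 rfl (by decide) (by decide +kernel)

theorem c03 : Pt.chN D K K1_03 K2_03 K4_03 = true := by decide +kernel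

theorem out03 : Pt.FarY S K8.RN.E03.g.c 7 (Pt.Out X03) :=
  Pt.farY_out D D_w K K_eq K8.RN.E03.g K8.RN.E03.z K8.RN.E03.hg (rep_mem 3 (by decide) rfl) X03 okE03 okK03 okS03 c03
    K10.RN.r1_03 r2_03 (Pt.forall7 _ t03_0 t03_1 t03_2 t03_3 t03_4 t03_5 t03_6) r4_03

theorem t03p1_0 : ∀ x < 1024, Pt.chT D (Jv.jsE K8.RN.E03.z 0) (tE03p1 0) (tK03p1 0) (tS03p1 0) x = true :=
  chT_of b20 (tE03p1 0) (tK03p1 0) (tS03p1 0) 1 1 rfl (by decide) (by decide +kernel)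

theorem t03p1_1 : ∀ x < 1024, Pt.chT D (Jv.jsE K8.RN.E03.z 1) (tE03p1 1) (tK03p1 1) (tS03p1 1) x = true :=
  chT_of b01 (tE03p1 1) (tK03p1 1) (tS03p1 1) 0 16 rfl (by decide) (by decide +kernel)

theorem t03p1_2 : ∀ x < 1024, Pt.chT D (Jv.jsE K8.RN.E03.z 2) (tE03p1 2) (tK03p1 2) (tS03p1 2) x = true :=
  chT_of b01 (tE03p1 2) (tK03p1 2) (tS03p1 2) 0 17 rfl (by decide) (by decide +kernel)

theorem t03p1_3 : ∀ x < 1024, Pt.chT D (Jv.jsE K8.RN.E03.z 3) (tE03p1 3) (tK03p1 3) (tS03p1 3) x = true :=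
  chT_of b04 (tE03p1 3) (tK03p1 3) (tS03p1 3) 0 15 rfl (by decide) (by decide +kernel)

theorem t03p1_4 : ∀ x < 1024, Pt.chT D (Jv.jsE K8.RN.E03.z 4) (tE03p1 4) (tK03p1 4) (tS03p1 4) x = true :=
  chT_of b11 (tE03p1 4) (tK03p1 4) (tS03p1 4) 0 2 rfl (by decide) (by decide +kernel)

theorem t03p1_5 : ∀ x < 1024, Pt.chT D (Jv.jsE K8.RN.E03.z 5) (tE03p1 5) (tK03p1 5) (tS03p1 5) x = true :=
  chT_of b11 (tE03p1 5) (tK03p1 5) (tS03p1 5) 0 3 rfl (by decide) (by decide +kernel)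

theorem t03p1_6 : ∀ x < 1024, Pt.chT D (Jv.jsE K8.RN.E03.z 6) (tE03p1 6) (tK03p1 6) (tS03p1 6) x = true :=
  chT_of b16 (tE03p1 6) (tK03p1 6) (tS03p1 6) 0 1 rfl (by decide) (by decide +kernel)

theorem c03p1 : Pt.chN D K K1_03p1 K2_03p1 K4_03p1 = true := by decide +kernel

theorem y03p1 : Pt.FarY S K8.RN.E03.g.c 7 (fun y => y ∈ Y03p1) :=
  Pt.farY_lst D D_w K K_eq K8.RN.E03.g K8.RN.E03.z K8.RN.E03.hg (rep_mem 3 (by decide) rfl) Y03p1 okE03p1 okK03p1 okS03p1 c03p1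
    r1_03p1 r2_03p1 (Pt.forall7 _ t03p1_0 t03p1_1 t03p1_2 t03p1_3 t03p1_4 t03p1_5 t03p1_6) r4_03p1

theorem x03p1 : ∀ l ∈ X03p1, Pt.FarY S K8.RN.E03.g.c 7 (fun y => y ∈ l) :=
  Pt.tr_spec w0_03 y03p1 (fun _ h => h) w03p1

theorem t03p2_0 : ∀ x < 1024, Pt.chT D (Jv.jsE K8.RN.E03.z 0) (tE03p2 0) (tK03p2 0) (tS03p2 0) x = true :=
  chT_of b20 (tE03p2 0) (tK03p2 0) (tS03p2 0) 1 2 rfl (by decide) (by decide +kernel)

theorem t03p2_1 : ∀ x < 1024, Pt.chT D (Jv.jsE K8.RN.E03.z 1) (tE03p2 1) (tK03p2 1) (tS03p2 1) x = true :=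
  chT_of b01 (tE03p2 1) (tK03p2 1) (tS03p2 1) 0 18 rfl (by decide) (by decide +kernel)

theorem t03p2_2 : ∀ x < 1024, Pt.chT D (Jv.jsE K8.RN.E03.z 2) (tE03p2 2) (tK03p2 2) (tS03p2 2) x = true :=
  chT_of b01 (tE03p2 2) (tK03p2 2) (tS03p2 2) 0 19 rfl (by decide) (by decide +kernel)

theorem t03p2_3 : ∀ x < 1024, Pt.chT D (Jv.jsE K8.RN.E03.z 3) (tE03p2 3) (tK03p2 3) (tS03p2 3) x = true :=
  chT_of b04 (tE03p2 3) (tK03p2 3) (tS03p2 3) 0 16 rfl (by decide) (by decide +kernel)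

theorem t03p2_4 : ∀ x < 1024, Pt.chT D (Jv.jsE K8.RN.E03.z 4) (tE03p2 4) (tK03p2 4) (tS03p2 4) x = true :=
  chT_of b11 (tE03p2 4) (tK03p2 4) (tS03p2 4) 0 4 rfl (by decide) (by decide +kernel)

theorem t03p2_5 : ∀ x < 1024, Pt.chT D (Jv.jsE K8.RN.E03.z 5) (tE03p2 5) (tK03p2 5) (tS03p2 5) x = true :=
  chT_of b11 (tE03p2 5) (tK03p2 5) (tS03p2 5) 0 5 rfl (by decide) (by decide +kernel)

theorem t03p2_6 : ∀ x < 1024, Pt.chT D (Jv.jsE K8.RN.E03.z 6) (tE03p2 6) (tK03p2 6) (tS03p2 6) x = true :=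
  chT_of b16 (tE03p2 6) (tK03p2 6) (tS03p2 6) 0 2 rfl (by decide) (by decide +kernel)

theorem c03p2 : Pt.chN D K K1_03p2 K2_03p2 K4_03p2 = true := by decide +kernel

theorem y03p2 : Pt.FarY S K8.RN.E03.g.c 7 (fun y => y ∈ Y03p2) :=
  Pt.farY_lst D D_w K K_eq K8.RN.E03.g K8.RN.E03.z K8.RN.E03.hg (rep_mem 3 (by decide) rfl) Y03p2 okE03p2 okK03p2 okS03p2 c03p2
    r1_03p2 r2_03p2 (Pt.forall7 _ t03p2_0 t03p2_1 t03p2_2 t03p2_3 t03p2_4 t03p2_5 t03p2_6) r4_03p2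

theorem x03p2 : ∀ l ∈ X03p2, Pt.FarY S K8.RN.E03.g.c 7 (fun y => y ∈ l) :=
  Pt.tr_spec w0_03 y03p2 (fun _ h => h) w03p2

theorem far03 : Pt.Far S K8.RN.E03.g.c 7 := Pt.far_of_out out03 (Pt.farY_all x03p1 x03p2)

end Pool.Agent.Lib.MP_afdd4d_co.K10.RP
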