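import Pool.Agent.Lib.MP_afdd4d_co.K10.RP.B02_0
import Pool.Agent.Lib.MP_afdd4d_co.K10.RP.B02_1

/-!
# The pairs of the class 2
-/

namespace Pool.Agent.Lib.MP_afdd4d_co.K10.RP

open K8 K10.RS

theorem b02 : ∀ y < 1024, ∀ e ∈ L02, Pt.leP D (D.tP (Nat.xor 0 (Pt.fu y))) y e = true :=
  Pt.blk16 D (Pt.forall16' _ b02_0 b02_1 b02_2 b02_3 b02_4 b02_5 b02_6 b02_7 b02_8 b02_9 b02_10 b02_11 b02_12 b02_13 b02_14 b02_15)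

end Pool.Agent.Lib.MP_afdd4d_co.K10.RP
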