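import Pool.Agent.Lib.MP_afdd4d_co.K10.RP.B05_0
import Pool.Agent.Lib.MP_afdd4d_co.K10.RP.B05_1

/-!
# The pairs of the class 5
-/

namespace Pool.Agent.Lib.MP_afdd4d_co.K10.RP

open K8 K10.RS

theorem b05 : ∀ y < 1024, ∀ e ∈ L05, Pt.leP D (D.tP (Nat.xor 16 (Pt.fu y))) y e = true :=
  Pt.blk16 D (Pt.forall16' _ b05_0 b05_1 b05_2 b05_3 b05_4 b05_5 b05_6 b05_7 b05_8 b05_9 b05_10 b05_11 b05_12 b05_13 b05_14 b05_15)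

end Pool.Agent.Lib.MP_afdd4d_co.K10.RP
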