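import Pool.Agent.Lib.MP_afdd4d_co.K10.RN.Q04
import Pool.Agent.Lib.MP_afdd4d_co.K10.RP.Blk
import Pool.Agent.Lib.MP_afdd4d_co.K10.RP.E04
import Pool.Agent.Lib.MP_afdd4d_co.K10.RP.D04
import Pool.Agent.Lib.MP_afdd4d_co.K10.RP.E04p1
import Pool.Agent.Lib.MP_afdd4d_co.K10.RP.D04p1
import Pool.Agent.Lib.MP_afdd4d_co.K10.RP.Q04p1
import Pool.Agent.Lib.MP_afdd4d_co.K10.RP.E04p2
import Pool.Agent.Lib.MP_afdd4d_co.K10.RP.D04p2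
import Pool.Agent.Lib.MP_afdd4d_co.K10.RP.Q04p2
import Pool.Agent.Lib.MP_afdd4d_co.K10.RP.W04
import Pool.Agent.Lib.MP_afdd4d_co.K10.RP.B02
import Pool.Agent.Lib.MP_afdd4d_co.K10.RP.B04
import Pool.Agent.Lib.MP_afdd4d_co.K10.RP.B05
import Pool.Agent.Lib.MP_afdd4d_co.K10.RP.B20

/-!
# The far pairs of the coset number 4
-/

namespace Pool.Agent.Lib.MP_afdd4d_co.K10.RP

open K8 K10.RS

theorem t04_0 : ∀ x < 1024, Pt.chT D (Jv.jsE K8.RN.E04.z 0) (tE04 0) (tK04 0) (tS04 0) x = true :=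
  chT_of b20 (tE04 0) (tK04 0) (tS04 0) 0 3 rfl (by decide) (by decide +kernel)

theorem t04_1 : ∀ x < 1024, Pt.chT D (Jv.jsE K8.RN.E04.z 1) (tE04 1) (tK04 1) (tS04 1) x = true :=
  chT_of b02 (tE04 1) (tK04 1) (tS04 1) 0 0 rfl (by decide) (by decide +kernel)

theorem t04_2 : ∀ x < 1024, Pt.chT D (Jv.jsE K8.RN.E04.z 2) (tE04 2) (tK04 2) (tS04 2) x = true :=
  chT_of b02 (tE04 2) (tK04 2) (tS04 2) 0 1 rfl (by decide) (by decide +kernel)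

theorem t04_3 : ∀ x < 1024, Pt.chT D (Jv.jsE K8.RN.E04.z 3) (tE04 3) (tK04 3) (tS04 3) x = true :=
  chT_of b04 (tE04 3) (tK04 3) (tS04 3) 0 17 rfl (by decide) (by decide +kernel)

theorem t04_4 : ∀ x < 1024, Pt.chT D (Jv.jsE K8.RN.E04.z 4) (tE04 4) (tK04 4) (tS04 4) x = true :=
  chT_of b04 (tE04 4) (tK04 4) (tS04 4) 0 18 rfl (by decide) (by decide +kernel)

theorem t04_5 : ∀ x < 1024, Pt.chT D (Jv.jsE K8.RN.E04.z 5) (tE04 5) (tK04 5) (tS04 5) x = true :=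
  chT_of b04 (tE04 5) (tK04 5) (tS04 5) 0 19 rfl (by decide) (by decide +kernel)

theorem t04_6 : ∀ x < 1024, Pt.chT D (Jv.jsE K8.RN.E04.z 6) (tE04 6) (tK04 6) (tS04 6) x = true :=
  chT_of b20 (tE04 6) (tK04 6) (tS04 6) 0 4 rfl (by decide) (by decide +kernel)

theorem c04 : Pt.chN D K K1_04 K2_04 K4_04 = true := by decide +kernel

theorem out04 : Pt.FarY S K8.RN.E04.g.c 7 (Pt.Out X04) :=
  Pt.farY_out D D_w K K_eq K8.RN.E04.g K8.RN.E04.z K8.RN.E04.hg (rep_mem 4 (by decide) rfl) X04 okE04 okK04 okS04 c04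
    K10.RN.r1_04 r2_04 (Pt.forall7 _ t04_0 t04_1 t04_2 t04_3 t04_4 t04_5 t04_6) r4_04

theorem t04p1_0 : ∀ x < 1024, Pt.chT D (Jv.jsE K8.RN.E04.z 0) (tE04p1 0) (tK04p1 0) (tS04p1 0) x = true :=
  chT_of b20 (tE04p1 0) (tK04p1 0) (tS04p1 0) 0 5 rfl (by decide) (by decide +kernel)

theorem t04p1_1 : ∀ x < 1024, Pt.chT D (Jv.jsE K8.RN.E04.z 1) (tE04p1 1) (tK04p1 1) (tS04p1 1) x = true :=
  chT_of b02 (tE04p1 1) (tK04p1 1) (tS04p1 1) 0 2 rfl (by decide) (by decide +kernel)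

theorem t04p1_2 : ∀ x < 1024, Pt.chT D (Jv.jsE K8.RN.E04.z 2) (tE04p1 2) (tK04p1 2) (tS04p1 2) x = true :=
  chT_of b02 (tE04p1 2) (tK04p1 2) (tS04p1 2) 0 3 rfl (by decide) (by decide +kernel)

theorem t04p1_3 : ∀ x < 1024, Pt.chT D (Jv.jsE K8.RN.E04.z 3) (tE04p1 3) (tK04p1 3) (tS04p1 3) x = true :=
  chT_of b04 (tE04p1 3) (tK04p1 3) (tS04p1 3) 0 20 rfl (by decide) (by decide +kernel)

theorem t04p1_4 : ∀ x < 1024, Pt.chT D (Jv.jsE K8.RN.E04.z 4) (tE04p1 4) (tK04p1 4) (tS04p1 4) x = true :=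
  chT_of b05 (tE04p1 4) (tK04p1 4) (tS04p1 4) 0 0 rfl (by decide) (by decide +kernel)

theorem t04p1_5 : ∀ x < 1024, Pt.chT D (Jv.jsE K8.RN.E04.z 5) (tE04p1 5) (tK04p1 5) (tS04p1 5) x = true :=
  chT_of b05 (tE04p1 5) (tK04p1 5) (tS04p1 5) 0 1 rfl (by decide) (by decide +kernel)

theorem t04p1_6 : ∀ x < 1024, Pt.chT D (Jv.jsE K8.RN.E04.z 6) (tE04p1 6) (tK04p1 6) (tS04p1 6) x = true :=
  chT_of b20 (tE04p1 6) (tK04p1 6) (tS04p1 6) 0 6 rfl (by decide) (by decide +kernel)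

theorem c04p1 : Pt.chN D K K1_04p1 K2_04p1 K4_04p1 = true := by decide +kernel

theorem y04p1 : Pt.FarY S K8.RN.E04.g.c 7 (fun y => y ∈ Y04p1) :=
  Pt.farY_lst D D_w K K_eq K8.RN.E04.g K8.RN.E04.z K8.RN.E04.hg (rep_mem 4 (by decide) rfl) Y04p1 okE04p1 okK04p1 okS04p1 c04p1
    r1_04p1 r2_04p1 (Pt.forall7 _ t04p1_0 t04p1_1 t04p1_2 t04p1_3 t04p1_4 t04p1_5 t04p1_6) r4_04p1

theorem x04p1 : ∀ l ∈ X04p1, Pt.FarY S K8.RN.E04.g.c 7 (fun y => y ∈ l) :=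
  Pt.tr_spec w0_04 y04p1 (fun _ h => h) w04p1

theorem t04p2_0 : ∀ x < 1024, Pt.chT D (Jv.jsE K8.RN.E04.z 0) (tE04p2 0) (tK04p2 0) (tS04p2 0) x = true :=
  chT_of b20 (tE04p2 0) (tK04p2 0) (tS04p2 0) 0 7 rfl (by decide) (by decide +kernel)

theorem t04p2_1 : ∀ x < 1024, Pt.chT D (Jv.jsE K8.RN.E04.z 1) (tE04p2 1) (tK04p2 1) (tS04p2 1) x = true :=
  chT_of b02 (tE04p2 1) (tK04p2 1) (tS04p2 1) 0 4 rfl (by decide) (by decide +kernel)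

theorem t04p2_2 : ∀ x < 1024, Pt.chT D (Jv.jsE K8.RN.E04.z 2) (tE04p2 2) (tK04p2 2) (tS04p2 2) x = true :=
  chT_of b02 (tE04p2 2) (tK04p2 2) (tS04p2 2) 0 5 rfl (by decide) (by decide +kernel)

theorem t04p2_3 : ∀ x < 1024, Pt.chT D (Jv.jsE K8.RN.E04.z 3) (tE04p2 3) (tK04p2 3) (tS04p2 3) x = true :=
  chT_of b05 (tE04p2 3) (tK04p2 3) (tS04p2 3) 0 2 rfl (by decide) (by decide +kernel)

theorem t04p2_4 : ∀ x < 1024, Pt.chT D (Jv.jsE K8.RN.E04.z 4) (tE04p2 4) (tK04p2 4) (tS04p2 4) x = true :=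
  chT_of b05 (tE04p2 4) (tK04p2 4) (tS04p2 4) 0 3 rfl (by decide) (by decide +kernel)

theorem t04p2_5 : ∀ x < 1024, Pt.chT D (Jv.jsE K8.RN.E04.z 5) (tE04p2 5) (tK04p2 5) (tS04p2 5) x = true :=
  chT_of b05 (tE04p2 5) (tK04p2 5) (tS04p2 5) 0 4 rfl (by decide) (by decide +kernel)

theorem t04p2_6 : ∀ x < 1024, Pt.chT D (Jv.jsE K8.RN.E04.z 6) (tE04p2 6) (tK04p2 6) (tS04p2 6) x = true :=
  chT_of b20 (tE04p2 6) (tK04p2 6) (tS04p2 6) 0 8 rfl (by decide) (by decide +kernel)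

theorem c04p2 : Pt.chN D K K1_04p2 K2_04p2 K4_04p2 = true := by decide +kernel

theorem y04p2 : Pt.FarY S K8.RN.E04.g.c 7 (fun y => y ∈ Y04p2) :=
  Pt.farY_lst D D_w K K_eq K8.RN.E04.g K8.RN.E04.z K8.RN.E04.hg (rep_mem 4 (by decide) rfl) Y04p2 okE04p2 okK04p2 okS04p2 c04p2
    r1_04p2 r2_04p2 (Pt.forall7 _ t04p2_0 t04p2_1 t04p2_2 t04p2_3 t04p2_4 t04p2_5 t04p2_6) r4_04p2

theorem x04p2 : ∀ l ∈ X04p2, Pt.FarY S K8.RN.E04.g.c 7 (fun y => y ∈ l) :=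
  Pt.tr_spec w0_04 y04p2 (fun _ h => h) w04p2

theorem far04 : Pt.Far S K8.RN.E04.g.c 7 := Pt.far_of_out out04 (Pt.farY_all x04p1 x04p2)

end Pool.Agent.Lib.MP_afdd4d_co.K10.RP
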