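import Pool.Agent.Lib.MP_afdd4d_co.K10.RP.B17_0
import Pool.Agent.Lib.MP_afdd4d_co.K10.RP.B17_1

/-!
# The pairs of the class 17
-/

namespace Pool.Agent.Lib.MP_afdd4d_co.K10.RP

open K8 K10.RS

theorem b17 : ∀ y < 1024, ∀ e ∈ L17, Pt.leP D (D.tP (Nat.xor 2064 (Pt.fu y))) y e = true :=
  Pt.blk16 D (Pt.forall16' _ b17_0 b17_1 b17_2 b17_3 b17_4 b17_5 b17_6 b17_7 b17_8 b17_9 b17_10 b17_11 b17_12 b17_13 b17_14 b17_15)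

end Pool.Agent.Lib.MP_afdd4d_co.K10.RP
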