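import Pool.Agent.Lib.MP_afdd4d_co.K10.RP.B18_0
import Pool.Agent.Lib.MP_afdd4d_co.K10.RP.B18_1

/-!
# The pairs of the class 18
-/

namespace Pool.Agent.Lib.MP_afdd4d_co.K10.RP

open K8 K10.RS

theorem b18 : ∀ y < 1024, ∀ e ∈ L18, Pt.leP D (D.tP (Nat.xor 2304 (Pt.fu y))) y e = true :=
  Pt.blk16 D (Pt.forall16' _ b18_0 b18_1 b18_2 b18_3 b18_4 b18_5 b18_6 b18_7 b18_8 b18_9 b18_10 b18_11 b18_12 b18_13 b18_14 b18_15)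

end Pool.Agent.Lib.MP_afdd4d_co.K10.RP
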