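import Pool.Agent.Lib.MP_afdd4d_co.K10.RN.Q05
import Pool.Agent.Lib.MP_afdd4d_co.K10.RP.Blk
import Pool.Agent.Lib.MP_afdd4d_co.K10.RP.E05
import Pool.Agent.Lib.MP_afdd4d_co.K10.RP.D05
import Pool.Agent.Lib.MP_afdd4d_co.K10.RP.E05p1
import Pool.Agent.Lib.MP_afdd4d_co.K10.RP.D05p1
import Pool.Agent.Lib.MP_afdd4d_co.K10.RP.Q05p1
import Pool.Agent.Lib.MP_afdd4d_co.K10.RP.E05p2
import Pool.Agent.Lib.MP_afdd4d_co.K10.RP.D05p2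
import Pool.Agent.Lib.MP_afdd4d_co.K10.RP.Q05p2
import Pool.Agent.Lib.MP_afdd4d_co.K10.RP.W05
import Pool.Agent.Lib.MP_afdd4d_co.K10.RP.B02
import Pool.Agent.Lib.MP_afdd4d_co.K10.RP.B05
import Pool.Agent.Lib.MP_afdd4d_co.K10.RP.B11
import Pool.Agent.Lib.MP_afdd4d_co.K10.RP.B14
import Pool.Agent.Lib.MP_afdd4d_co.K10.RP.B17
import Pool.Agent.Lib.MP_afdd4d_co.K10.RP.B18

/-!
# The far pairs of the coset number 5
-/

namespace Pool.Agent.Lib.MP_afdd4d_co.K10.RP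

open K8 K10.RS

theorem t05_0 : ∀ x < 1024, Pt.chT D (Jv.jsE K8.RN.E05.z 0) (tE05 0) (tK05 0) (tS05 0) x = true :=
  chT_of b18 (tE05 0) (tK05 0) (tS05 0) 1 0 rfl (by decide) (by decide +kernel)

theorem t05_1 : ∀ x < 1024, Pt.chT D (Jv.jsE K8.RN.E05.z 1) (tE05 1) (tK05 1) (tS05 1) x = true :=
  chT_of b02 (tE05 1) (tK05 1) (tS05 1) 0 6 rfl (by decide) (by decide +kernel)

theorem t05_2 : ∀ x < 1024, Pt.chT D (Jv.jsE K8.RN.E05.z 2) (tE05 2) (tK05 2) (tS05 2) x = true :=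
  chT_of b02 (tE05 2) (tK05 2) (tS05 2) 0 7 rfl (by decide) (by decide +kernel)

theorem t05_3 : ∀ x < 1024, Pt.chT D (Jv.jsE K8.RN.E05.z 3) (tE05 3) (tK05 3) (tS05 3) x = true :=
  chT_of b05 (tE05 3) (tK05 3) (tS05 3) 0 5 rfl (by decide) (by decide +kernel)

theorem t05_4 : ∀ x < 1024, Pt.chT D (Jv.jsE K8.RN.E05.z 4) (tE05 4) (tK05 4) (tS05 4) x = true :=
  chT_of b11 (tE05 4) (tK05 4) (tS05 4) 0 6 rfl (by decide) (by decide +kernel)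

theorem t05_5 : ∀ x < 1024, Pt.chT D (Jv.jsE K8.RN.E05.z 5) (tE05 5) (tK05 5) (tS05 5) x = true :=
  chT_of b14 (tE05 5) (tK05 5) (tS05 5) 0 8 rfl (by decide) (by decide +kernel)

theorem t05_6 : ∀ x < 1024, Pt.chT D (Jv.jsE K8.RN.E05.z 6) (tE05 6) (tK05 6) (tS05 6) x = true :=
  chT_of b17 (tE05 6) (tK05 6) (tS05 6) 0 0 rfl (by decide) (by decide +kernel)

theorem c05 : Pt.chN D K K1_05 K2_05 K4_05 = true := by decide +kernel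

theorem out05 : Pt.FarY S K8.RN.E05.g.c 7 (Pt.Out X05) :=
  Pt.farY_out D D_w K K_eq K8.RN.E05.g K8.RN.E05.z K8.RN.E05.hg (rep_mem 5 (by decide) rfl) X05 okE05 okK05 okS05 c05
    K10.RN.r1_05 r2_05 (Pt.forall7 _ t05_0 t05_1 t05_2 t05_3 t05_4 t05_5 t05_6) r4_05

theorem t05p1_0 : ∀ x < 1024, Pt.chT D (Jv.jsE K8.RN.E05.z 0) (tE05p1 0) (tK05p1 0) (tS05p1 0) x = true :=
  chT_of b18 (tE05p1 0) (tK05p1 0) (tS05p1 0) 1 1 rfl (by decide) (by decide +kernel)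

theorem t05p1_1 : ∀ x < 1024, Pt.chT D (Jv.jsE K8.RN.E05.z 1) (tE05p1 1) (tK05p1 1) (tS05p1 1) x = true :=
  chT_of b02 (tE05p1 1) (tK05p1 1) (tS05p1 1) 0 8 rfl (by decide) (by decide +kernel)

theorem t05p1_2 : ∀ x < 1024, Pt.chT D (Jv.jsE K8.RN.E05.z 2) (tE05p1 2) (tK05p1 2) (tS05p1 2) x = true :=
  chT_of b02 (tE05p1 2) (tK05p1 2) (tS05p1 2) 0 9 rfl (by decide) (by decide +kernel)

theorem t05p1_3 : ∀ x < 1024, Pt.chT D (Jv.jsE K8.RN.E05.z 3) (tE05p1 3) (tK05p1 3) (tS05p1 3) x = true :=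
  chT_of b05 (tE05p1 3) (tK05p1 3) (tS05p1 3) 0 6 rfl (by decide) (by decide +kernel)

theorem t05p1_4 : ∀ x < 1024, Pt.chT D (Jv.jsE K8.RN.E05.z 4) (tE05p1 4) (tK05p1 4) (tS05p1 4) x = true :=
  chT_of b11 (tE05p1 4) (tK05p1 4) (tS05p1 4) 0 7 rfl (by decide) (by decide +kernel)

theorem t05p1_5 : ∀ x < 1024, Pt.chT D (Jv.jsE K8.RN.E05.z 5) (tE05p1 5) (tK05p1 5) (tS05p1 5) x = true :=
  chT_of b14 (tE05p1 5) (tK05p1 5) (tS05p1 5) 0 9 rfl (by decide) (by decide +kernel)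

theorem t05p1_6 : ∀ x < 1024, Pt.chT D (Jv.jsE K8.RN.E05.z 6) (tE05p1 6) (tK05p1 6) (tS05p1 6) x = true :=
  chT_of b17 (tE05p1 6) (tK05p1 6) (tS05p1 6) 0 1 rfl (by decide) (by decide +kernel)

theorem c05p1 : Pt.chN D K K1_05p1 K2_05p1 K4_05p1 = true := by decide +kernel

theorem y05p1 : Pt.FarY S K8.RN.E05.g.c 7 (fun y => y ∈ Y05p1) :=
  Pt.farY_lst D D_w K K_eq K8.RN.E05.g K8.RN.E05.z K8.RN.E05.hg (rep_mem 5 (by decide) rfl) Y05p1 okE05p1 okK05p1 okS05p1 c05p1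
    r1_05p1 r2_05p1 (Pt.forall7 _ t05p1_0 t05p1_1 t05p1_2 t05p1_3 t05p1_4 t05p1_5 t05p1_6) r4_05p1

theorem x05p1 : ∀ l ∈ X05p1, Pt.FarY S K8.RN.E05.g.c 7 (fun y => y ∈ l) :=
  Pt.tr_spec w0_05 y05p1 (fun _ h => h) w05p1

theorem t05p2_0 : ∀ x < 1024, Pt.chT D (Jv.jsE K8.RN.E05.z 0) (tE05p2 0) (tK05p2 0) (tS05p2 0) x = true :=
  chT_of b18 (tE05p2 0) (tK05p2 0) (tS05p2 0) 1 2 rfl (by decide) (by decide +kernel)

theorem t05p2_1 : ∀ x < 1024, Pt.chT D (Jv.jsE K8.RN.E05.z 1) (tE05p2 1) (tK05p2 1) (tS05p2 1) x = true :=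
  chT_of b02 (tE05p2 1) (tK05p2 1) (tS05p2 1) 0 10 rfl (by decide) (by decide +kernel)

theorem t05p2_2 : ∀ x < 1024, Pt.chT D (Jv.jsE K8.RN.E05.z 2) (tE05p2 2) (tK05p2 2) (tS05p2 2) x = true :=
  chT_of b02 (tE05p2 2) (tK05p2 2) (tS05p2 2) 0 11 rfl (by decide) (by decide +kernel)

theorem t05p2_3 : ∀ x < 1024, Pt.chT D (Jv.jsE K8.RN.E05.z 3) (tE05p2 3) (tK05p2 3) (tS05p2 3) x = true :=
  chT_of b05 (tE05p2 3) (tK05p2 3) (tS05p2 3) 0 7 rfl (by decide) (by decide +kernel)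

theorem t05p2_4 : ∀ x < 1024, Pt.chT D (Jv.jsE K8.RN.E05.z 4) (tE05p2 4) (tK05p2 4) (tS05p2 4) x = true :=
  chT_of b11 (tE05p2 4) (tK05p2 4) (tS05p2 4) 0 8 rfl (by decide) (by decide +kernel)

theorem t05p2_5 : ∀ x < 1024, Pt.chT D (Jv.jsE K8.RN.E05.z 5) (tE05p2 5) (tK05p2 5) (tS05p2 5) x = true :=
  chT_of b14 (tE05p2 5) (tK05p2 5) (tS05p2 5) 0 10 rfl (by decide) (by decide +kernel)

theorem t05p2_6 : ∀ x < 1024, Pt.chT D (Jv.jsE K8.RN.E05.z 6) (tE05p2 6) (tK05p2 6) (tS05p2 6) x = true :=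
  chT_of b17 (tE05p2 6) (tK05p2 6) (tS05p2 6) 0 2 rfl (by decide) (by decide +kernel)

theorem c05p2 : Pt.chN D K K1_05p2 K2_05p2 K4_05p2 = true := by decide +kernel

theorem y05p2 : Pt.FarY S K8.RN.E05.g.c 7 (fun y => y ∈ Y05p2) :=
  Pt.farY_lst D D_w K K_eq K8.RN.E05.g K8.RN.E05.z K8.RN.E05.hg (rep_mem 5 (by decide) rfl) Y05p2 okE05p2 okK05p2 okS05p2 c05p2
    r1_05p2 r2_05p2 (Pt.forall7 _ t05p2_0 t05p2_1 t05p2_2 t05p2_3 t05p2_4 t05p2_5 t05p2_6) r4_05p2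

theorem x05p2 : ∀ l ∈ X05p2, Pt.FarY S K8.RN.E05.g.c 7 (fun y => y ∈ l) :=
  Pt.tr_spec w0_05 y05p2 (fun _ h => h) w05p2

theorem far05 : Pt.Far S K8.RN.E05.g.c 7 := Pt.far_of_out out05 (Pt.farY_all x05p1 x05p2)

end Pool.Agent.Lib.MP_afdd4d_co.K10.RP
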