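import Pool.Agent.Lib.MP_afdd4d_co.K10.RP.B31_0
import Pool.Agent.Lib.MP_afdd4d_co.K10.RP.B31_1

/-!
# The pairs of the class 31
-/

namespace Pool.Agent.Lib.MP_afdd4d_co.K10.RP

open K8 K10.RS

theorem b31 : ∀ y < 1024, ∀ e ∈ L31, Pt.leP D (D.tP (Nat.xor 10512 (Pt.fu y))) y e = true :=
  Pt.blk16 D (Pt.forall16' _ b31_0 b31_1 b31_2 b31_3 b31_4 b31_5 b31_6 b31_7 b31_8 b31_9 b31_10 b31_11 b31_12 b31_13 b31_14 b31_15)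

end Pool.Agent.Lib.MP_afdd4d_co.K10.RP
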