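import Pool.Agent.Lib.MP_afdd4d_co.K10.RP.T06p3
import Pool.Agent.Lib.MP_afdd4d_co.K8.RN.E06

/-!
# The differences, potentials number 3 of the coset number 6
-/

namespace Pool.Agent.Lib.MP_afdd4d_co.K10.RP

open K8

theorem d06p3 :
    (Pt.chD tS06p3 (Jv.jsE K8.RN.E06.z) 120911269148283380 0 = true ∧
    Pt.chD tS06p3 (Jv.jsE K8.RN.E06.z) 120911269148283380 1 = true ∧
    Pt.chD tS06p3 (Jv.jsE K8.RN.E06.z) 120911269148283380 2 = true ∧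
    Pt.chD tS06p3 (Jv.jsE K8.RN.E06.z) 120911269148283380 3 = true) ∧
    (Pt.chD tS06p3 (Jv.jsE K8.RN.E06.z) 120911269148283380 4 = true ∧
    Pt.chD tS06p3 (Jv.jsE K8.RN.E06.z) 120911269148283380 5 = true ∧
    Pt.chD tS06p3 (Jv.jsE K8.RN.E06.z) 120911269148283380 6 = true ∧
    Pt.chD tS06p3 (Jv.jsE K8.RN.E06.z) 120911269148283380 7 = true) ∧
    (Pt.chD tS06p3 (Jv.jsE K8.RN.E06.z) 120911269148283380 8 = true ∧
    Pt.chD tS06p3 (Jv.jsE K8.RN.E06.z) 120911269148283380 9 = true ∧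
    Pt.chD tS06p3 (Jv.jsE K8.RN.E06.z) 120911269148283380 10 = true ∧
    Pt.chD tS06p3 (Jv.jsE K8.RN.E06.z) 120911269148283380 11 = true) ∧
    (Pt.chD tS06p3 (Jv.jsE K8.RN.E06.z) 120911269148283380 12 = true ∧
    Pt.chD tS06p3 (Jv.jsE K8.RN.E06.z) 120911269148283380 13 = true ∧
    Pt.chD tS06p3 (Jv.jsE K8.RN.E06.z) 120911269148283380 14 = true ∧
    Pt.chD tS06p3 (Jv.jsE K8.RN.E06.z) 120911269148283380 15 = true) := by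
  refine ⟨⟨?_, ?_, ?_, ?_⟩, ⟨?_, ?_, ?_, ?_⟩, ⟨?_, ?_, ?_, ?_⟩, ⟨?_, ?_, ?_, ?_⟩⟩ <;> decide +kernel

theorem r4_06p3 : ∀ τ < 16, Pt.chD tS06p3 (Jv.jsE K8.RN.E06.z) 120911269148283380 τ = true :=
  Jv.Tabs.forall16 _ d06p3.1 d06p3.2.1 d06p3.2.2.1 d06p3.2.2.2

end Pool.Agent.Lib.MP_afdd4d_co.K10.RP
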