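import Pool.Agent.Lib.MP_afdd4d_co.K10.RN.Q06
import Pool.Agent.Lib.MP_afdd4d_co.K10.RP.Blk
import Pool.Agent.Lib.MP_afdd4d_co.K10.RP.E06
import Pool.Agent.Lib.MP_afdd4d_co.K10.RP.D06
import Pool.Agent.Lib.MP_afdd4d_co.K10.RP.E06p1
import Pool.Agent.Lib.MP_afdd4d_co.K10.RP.D06p1
import Pool.Agent.Lib.MP_afdd4d_co.K10.RP.Q06p1
import Pool.Agent.Lib.MP_afdd4d_co.K10.RP.E06p2
import Pool.Agent.Lib.MP_afdd4d_co.K10.RP.D06p2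
import Pool.Agent.Lib.MP_afdd4d_co.K10.RP.Q06p2
import Pool.Agent.Lib.MP_afdd4d_co.K10.RP.E06p3
import Pool.Agent.Lib.MP_afdd4d_co.K10.RP.D06p3
import Pool.Agent.Lib.MP_afdd4d_co.K10.RP.Q06p3
import Pool.Agent.Lib.MP_afdd4d_co.K10.RP.W06
import Pool.Agent.Lib.MP_afdd4d_co.K10.RP.B02
import Pool.Agent.Lib.MP_afdd4d_co.K10.RP.B05
import Pool.Agent.Lib.MP_afdd4d_co.K10.RP.B11
import Pool.Agent.Lib.MP_afdd4d_co.K10.RP.B28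
import Pool.Agent.Lib.MP_afdd4d_co.K10.RP.B31

/-!
# The far pairs of the coset number 6
-/

namespace Pool.Agent.Lib.MP_afdd4d_co.K10.RP

open K8 K10.RS

theorem t06_0 : ∀ x < 1024, Pt.chT D (Jv.jsE K8.RN.E06.z 0) (tE06 0) (tK06 0) (tS06 0) x = true :=
  chT_of b31 (tE06 0) (tK06 0) (tS06 0) 1 0 rfl (by decide) (by decide +kernel)

theorem t06_1 : ∀ x < 1024, Pt.chT D (Jv.jsE K8.RN.E06.z 1) (tE06 1) (tK06 1) (tS06 1) x = true :=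
  chT_of b02 (tE06 1) (tK06 1) (tS06 1) 0 12 rfl (by decide) (by decide +kernel)

theorem t06_2 : ∀ x < 1024, Pt.chT D (Jv.jsE K8.RN.E06.z 2) (tE06 2) (tK06 2) (tS06 2) x = true :=
  chT_of b05 (tE06 2) (tK06 2) (tS06 2) 0 8 rfl (by decide) (by decide +kernel)

theorem t06_3 : ∀ x < 1024, Pt.chT D (Jv.jsE K8.RN.E06.z 3) (tE06 3) (tK06 3) (tS06 3) x = true :=
  chT_of b05 (tE06 3) (tK06 3) (tS06 3) 0 9 rfl (by decide) (by decide +kernel)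

theorem t06_4 : ∀ x < 1024, Pt.chT D (Jv.jsE K8.RN.E06.z 4) (tE06 4) (tK06 4) (tS06 4) x = true :=
  chT_of b11 (tE06 4) (tK06 4) (tS06 4) 0 9 rfl (by decide) (by decide +kernel)

theorem t06_5 : ∀ x < 1024, Pt.chT D (Jv.jsE K8.RN.E06.z 5) (tE06 5) (tK06 5) (tS06 5) x = true :=
  chT_of b11 (tE06 5) (tK06 5) (tS06 5) 0 10 rfl (by decide) (by decide +kernel)

theorem t06_6 : ∀ x < 1024, Pt.chT D (Jv.jsE K8.RN.E06.z 6) (tE06 6) (tK06 6) (tS06 6) x = true :=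
  chT_of b28 (tE06 6) (tK06 6) (tS06 6) 0 0 rfl (by decide) (by decide +kernel)

theorem c06 : Pt.chN D K K1_06 K2_06 K4_06 = true := by decide +kernel

theorem out06 : Pt.FarY S K8.RN.E06.g.c 7 (Pt.Out X06) :=
  Pt.farY_out D D_w K K_eq K8.RN.E06.g K8.RN.E06.z K8.RN.E06.hg (rep_mem 6 (by decide) rfl) X06 okE06 okK06 okS06 c06
    K10.RN.r1_06 r2_06 (Pt.forall7 _ t06_0 t06_1 t06_2 t06_3 t06_4 t06_5 t06_6) r4_06

theorem t06p1_0 : ∀ x < 1024, Pt.chT D (Jv.jsE K8.RN.E06.z 0) (tE06p1 0) (tK06p1 0) (tS06p1 0) x = true :=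
  chT_of b31 (tE06p1 0) (tK06p1 0) (tS06p1 0) 1 1 rfl (by decide) (by decide +kernel)

theorem t06p1_1 : ∀ x < 1024, Pt.chT D (Jv.jsE K8.RN.E06.z 1) (tE06p1 1) (tK06p1 1) (tS06p1 1) x = true :=
  chT_of b02 (tE06p1 1) (tK06p1 1) (tS06p1 1) 0 13 rfl (by decide) (by decide +kernel)

theorem t06p1_2 : ∀ x < 1024, Pt.chT D (Jv.jsE K8.RN.E06.z 2) (tE06p1 2) (tK06p1 2) (tS06p1 2) x = true :=
  chT_of b05 (tE06p1 2) (tK06p1 2) (tS06p1 2) 0 10 rfl (by decide) (by decide +kernel)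

theorem t06p1_3 : ∀ x < 1024, Pt.chT D (Jv.jsE K8.RN.E06.z 3) (tE06p1 3) (tK06p1 3) (tS06p1 3) x = true :=
  chT_of b05 (tE06p1 3) (tK06p1 3) (tS06p1 3) 0 11 rfl (by decide) (by decide +kernel)

theorem t06p1_4 : ∀ x < 1024, Pt.chT D (Jv.jsE K8.RN.E06.z 4) (tE06p1 4) (tK06p1 4) (tS06p1 4) x = true :=
  chT_of b11 (tE06p1 4) (tK06p1 4) (tS06p1 4) 0 11 rfl (by decide) (by decide +kernel)

theorem t06p1_5 : ∀ x < 1024, Pt.chT D (Jv.jsE K8.RN.E06.z 5) (tE06p1 5) (tK06p1 5) (tS06p1 5) x = true :=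
  chT_of b11 (tE06p1 5) (tK06p1 5) (tS06p1 5) 0 12 rfl (by decide) (by decide +kernel)

theorem t06p1_6 : ∀ x < 1024, Pt.chT D (Jv.jsE K8.RN.E06.z 6) (tE06p1 6) (tK06p1 6) (tS06p1 6) x = true :=
  chT_of b28 (tE06p1 6) (tK06p1 6) (tS06p1 6) 0 1 rfl (by decide) (by decide +kernel)

theorem c06p1 : Pt.chN D K K1_06p1 K2_06p1 K4_06p1 = true := by decide +kernel

theorem y06p1 : Pt.FarY S K8.RN.E06.g.c 7 (fun y => y ∈ Y06p1) :=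
  Pt.farY_lst D D_w K K_eq K8.RN.E06.g K8.RN.E06.z K8.RN.E06.hg (rep_mem 6 (by decide) rfl) Y06p1 okE06p1 okK06p1 okS06p1 c06p1
    r1_06p1 r2_06p1 (Pt.forall7 _ t06p1_0 t06p1_1 t06p1_2 t06p1_3 t06p1_4 t06p1_5 t06p1_6) r4_06p1

theorem x06p1 : ∀ l ∈ X06p1, Pt.FarY S K8.RN.E06.g.c 7 (fun y => y ∈ l) :=
  Pt.tr_spec w0_06 y06p1 (fun _ h => h) w06p1

theorem t06p2_0 : ∀ x < 1024, Pt.chT D (Jv.jsE K8.RN.E06.z 0) (tE06p2 0) (tK06p2 0) (tS06p2 0) x = true :=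
  chT_of b31 (tE06p2 0) (tK06p2 0) (tS06p2 0) 1 2 rfl (by decide) (by decide +kernel)

theorem t06p2_1 : ∀ x < 1024, Pt.chT D (Jv.jsE K8.RN.E06.z 1) (tE06p2 1) (tK06p2 1) (tS06p2 1) x = true :=
  chT_of b02 (tE06p2 1) (tK06p2 1) (tS06p2 1) 0 14 rfl (by decide) (by decide +kernel)

theorem t06p2_2 : ∀ x < 1024, Pt.chT D (Jv.jsE K8.RN.E06.z 2) (tE06p2 2) (tK06p2 2) (tS06p2 2) x = true :=
  chT_of b05 (tE06p2 2) (tK06p2 2) (tS06p2 2) 0 12 rfl (by decide) (by decide +kernel)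

theorem t06p2_3 : ∀ x < 1024, Pt.chT D (Jv.jsE K8.RN.E06.z 3) (tE06p2 3) (tK06p2 3) (tS06p2 3) x = true :=
  chT_of b05 (tE06p2 3) (tK06p2 3) (tS06p2 3) 0 13 rfl (by decide) (by decide +kernel)

theorem t06p2_4 : ∀ x < 1024, Pt.chT D (Jv.jsE K8.RN.E06.z 4) (tE06p2 4) (tK06p2 4) (tS06p2 4) x = true :=
  chT_of b11 (tE06p2 4) (tK06p2 4) (tS06p2 4) 0 13 rfl (by decide) (by decide +kernel)

theorem t06p2_5 : ∀ x < 1024, Pt.chT D (Jv.jsE K8.RN.E06.z 5) (tE06p2 5) (tK06p2 5) (tS06p2 5) x = true :=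
  chT_of b11 (tE06p2 5) (tK06p2 5) (tS06p2 5) 0 14 rfl (by decide) (by decide +kernel)

theorem t06p2_6 : ∀ x < 1024, Pt.chT D (Jv.jsE K8.RN.E06.z 6) (tE06p2 6) (tK06p2 6) (tS06p2 6) x = true :=
  chT_of b28 (tE06p2 6) (tK06p2 6) (tS06p2 6) 0 2 rfl (by decide) (by decide +kernel)

theorem c06p2 : Pt.chN D K K1_06p2 K2_06p2 K4_06p2 = true := by decide +kernel

theorem y06p2 : Pt.FarY S K8.RN.E06.g.c 7 (fun y => y ∈ Y06p2) :=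
  Pt.farY_lst D D_w K K_eq K8.RN.E06.g K8.RN.E06.z K8.RN.E06.hg (rep_mem 6 (by decide) rfl) Y06p2 okE06p2 okK06p2 okS06p2 c06p2
    r1_06p2 r2_06p2 (Pt.forall7 _ t06p2_0 t06p2_1 t06p2_2 t06p2_3 t06p2_4 t06p2_5 t06p2_6) r4_06p2

theorem x06p2 : ∀ l ∈ X06p2, Pt.FarY S K8.RN.E06.g.c 7 (fun y => y ∈ l) :=
  Pt.tr_spec w0_06 y06p2 (fun _ h => h) w06p2

theorem t06p3_0 : ∀ x < 1024, Pt.chT D (Jv.jsE K8.RN.E06.z 0) (tE06p3 0) (tK06p3 0) (tS06p3 0) x = true :=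
  chT_of b31 (tE06p3 0) (tK06p3 0) (tS06p3 0) 1 3 rfl (by decide) (by decide +kernel)

theorem t06p3_1 : ∀ x < 1024, Pt.chT D (Jv.jsE K8.RN.E06.z 1) (tE06p3 1) (tK06p3 1) (tS06p3 1) x = true :=
  chT_of b02 (tE06p3 1) (tK06p3 1) (tS06p3 1) 0 15 rfl (by decide) (by decide +kernel)

theorem t06p3_2 : ∀ x < 1024, Pt.chT D (Jv.jsE K8.RN.E06.z 2) (tE06p3 2) (tK06p3 2) (tS06p3 2) x = true :=
  chT_of b05 (tE06p3 2) (tK06p3 2) (tS06p3 2) 0 14 rfl (by decide) (by decide +kernel)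

theorem t06p3_3 : ∀ x < 1024, Pt.chT D (Jv.jsE K8.RN.E06.z 3) (tE06p3 3) (tK06p3 3) (tS06p3 3) x = true :=
  chT_of b05 (tE06p3 3) (tK06p3 3) (tS06p3 3) 0 15 rfl (by decide) (by decide +kernel)

theorem t06p3_4 : ∀ x < 1024, Pt.chT D (Jv.jsE K8.RN.E06.z 4) (tE06p3 4) (tK06p3 4) (tS06p3 4) x = true :=
  chT_of b11 (tE06p3 4) (tK06p3 4) (tS06p3 4) 0 15 rfl (by decide) (by decide +kernel)

theorem t06p3_5 : ∀ x < 1024, Pt.chT D (Jv.jsE K8.RN.E06.z 5) (tE06p3 5) (tK06p3 5) (tS06p3 5) x = true :=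
  chT_of b11 (tE06p3 5) (tK06p3 5) (tS06p3 5) 0 16 rfl (by decide) (by decide +kernel)

theorem t06p3_6 : ∀ x < 1024, Pt.chT D (Jv.jsE K8.RN.E06.z 6) (tE06p3 6) (tK06p3 6) (tS06p3 6) x = true :=
  chT_of b28 (tE06p3 6) (tK06p3 6) (tS06p3 6) 0 3 rfl (by decide) (by decide +kernel)

theorem c06p3 : Pt.chN D K K1_06p3 K2_06p3 K4_06p3 = true := by decide +kernel

theorem y06p3 : Pt.FarY S K8.RN.E06.g.c 7 (fun y => y ∈ Y06p3) :=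
  Pt.farY_lst D D_w K K_eq K8.RN.E06.g K8.RN.E06.z K8.RN.E06.hg (rep_mem 6 (by decide) rfl) Y06p3 okE06p3 okK06p3 okS06p3 c06p3
    r1_06p3 r2_06p3 (Pt.forall7 _ t06p3_0 t06p3_1 t06p3_2 t06p3_3 t06p3_4 t06p3_5 t06p3_6) r4_06p3

theorem x06p3 : ∀ l ∈ X06p3, Pt.FarY S K8.RN.E06.g.c 7 (fun y => y ∈ l) :=
  Pt.tr_spec w0_06 y06p3 (fun _ h => h) w06p3

theorem far06 : Pt.Far S K8.RN.E06.g.c 7 := Pt.far_of_out out06 (Pt.farY_all (Pt.farY_all x06p1 x06p2) x06p3)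

end Pool.Agent.Lib.MP_afdd4d_co.K10.RP
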