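import Pool.Agent.Lib.MP_afdd4d_co.K10.RP.B24_0
import Pool.Agent.Lib.MP_afdd4d_co.K10.RP.B24_1

/-!
# The pairs of the class 24
-/

namespace Pool.Agent.Lib.MP_afdd4d_co.K10.RP

open K8 K10.RS

theorem b24 : ∀ y < 1024, ∀ e ∈ L24, Pt.leP D (D.tP (Nat.xor 8192 (Pt.fu y))) y e = true :=
  Pt.blk16 D (Pt.forall16' _ b24_0 b24_1 b24_2 b24_3 b24_4 b24_5 b24_6 b24_7 b24_8 b24_9 b24_10 b24_11 b24_12 b24_13 b24_14 b24_15)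

end Pool.Agent.Lib.MP_afdd4d_co.K10.RP
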