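import Pool.Agent.Lib.MP_afdd4d_co.K10.RP.B32_0
import Pool.Agent.Lib.MP_afdd4d_co.K10.RP.B32_1

/-!
# The pairs of the class 32
-/

namespace Pool.Agent.Lib.MP_afdd4d_co.K10.RP

open K8 K10.RS

theorem b32 : ∀ y < 1024, ∀ e ∈ L32, Pt.leP D (D.tP (Nat.xor 16384 (Pt.fu y))) y e = true :=
  Pt.blk16 D (Pt.forall16' _ b32_0 b32_1 b32_2 b32_3 b32_4 b32_5 b32_6 b32_7 b32_8 b32_9 b32_10 b32_11 b32_12 b32_13 b32_14 b32_15)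

end Pool.Agent.Lib.MP_afdd4d_co.K10.RP
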