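import Pool.Agent.Lib.MP_afdd4d_co.K10.RP.B46_0
import Pool.Agent.Lib.MP_afdd4d_co.K10.RP.B46_1

/-!
# The pairs of the class 46
-/

namespace Pool.Agent.Lib.MP_afdd4d_co.K10.RP

open K8 K10.RS

theorem b46 : ∀ y < 1024, ∀ e ∈ L46, Pt.leP D (D.tP (Nat.xor 26896 (Pt.fu y))) y e = true :=
  Pt.blk16 D (Pt.forall16' _ b46_0 b46_1 b46_2 b46_3 b46_4 b46_5 b46_6 b46_7 b46_8 b46_9 b46_10 b46_11 b46_12 b46_13 b46_14 b46_15)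

end Pool.Agent.Lib.MP_afdd4d_co.K10.RP
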