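import Pool.Agent.Lib.MP_afdd4d_co.K10.RN.Q07
import Pool.Agent.Lib.MP_afdd4d_co.K10.RP.Blk
import Pool.Agent.Lib.MP_afdd4d_co.K10.RP.E07
import Pool.Agent.Lib.MP_afdd4d_co.K10.RP.D07
import Pool.Agent.Lib.MP_afdd4d_co.K10.RP.E07p1
import Pool.Agent.Lib.MP_afdd4d_co.K10.RP.D07p1
import Pool.Agent.Lib.MP_afdd4d_co.K10.RP.Q07p1
import Pool.Agent.Lib.MP_afdd4d_co.K10.RP.W07
import Pool.Agent.Lib.MP_afdd4d_co.K10.RP.B05
import Pool.Agent.Lib.MP_afdd4d_co.K10.RP.B11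
import Pool.Agent.Lib.MP_afdd4d_co.K10.RP.B16
import Pool.Agent.Lib.MP_afdd4d_co.K10.RP.B24
import Pool.Agent.Lib.MP_afdd4d_co.K10.RP.B32
import Pool.Agent.Lib.MP_afdd4d_co.K10.RP.B46

/-!
# The far pairs of the coset number 7
-/

namespace Pool.Agent.Lib.MP_afdd4d_co.K10.RP

open K8 K10.RS

theorem t07_0 : ∀ x < 1024, Pt.chT D (Jv.jsE K8.RN.E07.z 0) (tE07 0) (tK07 0) (tS07 0) x = true :=
  chT_of b46 (tE07 0) (tK07 0) (tS07 0) 20 0 rfl (by decide) (by decide +kernel)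

theorem t07_1 : ∀ x < 1024, Pt.chT D (Jv.jsE K8.RN.E07.z 1) (tE07 1) (tK07 1) (tS07 1) x = true :=
  chT_of b05 (tE07 1) (tK07 1) (tS07 1) 0 16 rfl (by decide) (by decide +kernel)

theorem t07_2 : ∀ x < 1024, Pt.chT D (Jv.jsE K8.RN.E07.z 2) (tE07 2) (tK07 2) (tS07 2) x = true :=
  chT_of b11 (tE07 2) (tK07 2) (tS07 2) 0 17 rfl (by decide) (by decide +kernel)

theorem t07_3 : ∀ x < 1024, Pt.chT D (Jv.jsE K8.RN.E07.z 3) (tE07 3) (tK07 3) (tS07 3) x = true :=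
  chT_of b16 (tE07 3) (tK07 3) (tS07 3) 0 3 rfl (by decide) (by decide +kernel)

theorem t07_4 : ∀ x < 1024, Pt.chT D (Jv.jsE K8.RN.E07.z 4) (tE07 4) (tK07 4) (tS07 4) x = true :=
  chT_of b16 (tE07 4) (tK07 4) (tS07 4) 0 4 rfl (by decide) (by decide +kernel)

theorem t07_5 : ∀ x < 1024, Pt.chT D (Jv.jsE K8.RN.E07.z 5) (tE07 5) (tK07 5) (tS07 5) x = true :=
  chT_of b24 (tE07 5) (tK07 5) (tS07 5) 0 0 rfl (by decide) (by decide +kernel)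

theorem t07_6 : ∀ x < 1024, Pt.chT D (Jv.jsE K8.RN.E07.z 6) (tE07 6) (tK07 6) (tS07 6) x = true :=
  chT_of b32 (tE07 6) (tK07 6) (tS07 6) 0 0 rfl (by decide) (by decide +kernel)

theorem c07 : Pt.chN D K K1_07 K2_07 K4_07 = true := by decide +kernel

theorem out07 : Pt.FarY S K8.RN.E07.g.c 7 (Pt.Out X07) :=
  Pt.farY_out D D_w K K_eq K8.RN.E07.g K8.RN.E07.z K8.RN.E07.hg (rep_mem 7 (by decide) rfl) X07 okE07 okK07 okS07 c07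
    K10.RN.r1_07 r2_07 (Pt.forall7 _ t07_0 t07_1 t07_2 t07_3 t07_4 t07_5 t07_6) r4_07

theorem t07p1_0 : ∀ x < 1024, Pt.chT D (Jv.jsE K8.RN.E07.z 0) (tE07p1 0) (tK07p1 0) (tS07p1 0) x = true :=
  chT_of b46 (tE07p1 0) (tK07p1 0) (tS07p1 0) 20 1 rfl (by decide) (by decide +kernel)

theorem t07p1_1 : ∀ x < 1024, Pt.chT D (Jv.jsE K8.RN.E07.z 1) (tE07p1 1) (tK07p1 1) (tS07p1 1) x = true :=
  chT_of b05 (tE07p1 1) (tK07p1 1) (tS07p1 1) 0 17 rfl (by decide) (by decide +kernel)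

theorem t07p1_2 : ∀ x < 1024, Pt.chT D (Jv.jsE K8.RN.E07.z 2) (tE07p1 2) (tK07p1 2) (tS07p1 2) x = true :=
  chT_of b11 (tE07p1 2) (tK07p1 2) (tS07p1 2) 0 18 rfl (by decide) (by decide +kernel)

theorem t07p1_3 : ∀ x < 1024, Pt.chT D (Jv.jsE K8.RN.E07.z 3) (tE07p1 3) (tK07p1 3) (tS07p1 3) x = true :=
  chT_of b16 (tE07p1 3) (tK07p1 3) (tS07p1 3) 0 5 rfl (by decide) (by decide +kernel)

theorem t07p1_4 : ∀ x < 1024, Pt.chT D (Jv.jsE K8.RN.E07.z 4) (tE07p1 4) (tK07p1 4) (tS07p1 4) x = true :=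
  chT_of b16 (tE07p1 4) (tK07p1 4) (tS07p1 4) 0 6 rfl (by decide) (by decide +kernel)

theorem t07p1_5 : ∀ x < 1024, Pt.chT D (Jv.jsE K8.RN.E07.z 5) (tE07p1 5) (tK07p1 5) (tS07p1 5) x = true :=
  chT_of b24 (tE07p1 5) (tK07p1 5) (tS07p1 5) 0 1 rfl (by decide) (by decide +kernel)

theorem t07p1_6 : ∀ x < 1024, Pt.chT D (Jv.jsE K8.RN.E07.z 6) (tE07p1 6) (tK07p1 6) (tS07p1 6) x = true :=
  chT_of b32 (tE07p1 6) (tK07p1 6) (tS07p1 6) 0 1 rfl (by decide) (by decide +kernel)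

theorem c07p1 : Pt.chN D K K1_07p1 K2_07p1 K4_07p1 = true := by decide +kernel

theorem y07p1 : Pt.FarY S K8.RN.E07.g.c 7 (fun y => y ∈ Y07p1) :=
  Pt.farY_lst D D_w K K_eq K8.RN.E07.g K8.RN.E07.z K8.RN.E07.hg (rep_mem 7 (by decide) rfl) Y07p1 okE07p1 okK07p1 okS07p1 c07p1
    r1_07p1 r2_07p1 (Pt.forall7 _ t07p1_0 t07p1_1 t07p1_2 t07p1_3 t07p1_4 t07p1_5 t07p1_6) r4_07p1

theorem x07p1 : ∀ l ∈ X07p1, Pt.FarY S K8.RN.E07.g.c 7 (fun y => y ∈ l) :=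
  Pt.tr_spec w0_07 y07p1 (fun _ h => h) w07p1

theorem far07 : Pt.Far S K8.RN.E07.g.c 7 := Pt.far_of_out out07 x07p1

end Pool.Agent.Lib.MP_afdd4d_co.K10.RP
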