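import Pool.Agent.Lib.MP_afdd4d_co.K10.RP.B06_0
import Pool.Agent.Lib.MP_afdd4d_co.K10.RP.B06_1

/-!
# The pairs of the class 6
-/

namespace Pool.Agent.Lib.MP_afdd4d_co.K10.RP

open K8 K10.RS

theorem b06 : ∀ y < 1024, ∀ e ∈ L06, Pt.leP D (D.tP (Nat.xor 16 (Pt.fu y))) y e = true :=
  Pt.blk16 D (Pt.forall16' _ b06_0 b06_1 b06_2 b06_3 b06_4 b06_5 b06_6 b06_7 b06_8 b06_9 b06_10 b06_11 b06_12 b06_13 b06_14 b06_15)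

end Pool.Agent.Lib.MP_afdd4d_co.K10.RP
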