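import Pool.Agent.Lib.MP_afdd4d_co.K10.RP.T08p1
import Pool.Agent.Lib.MP_afdd4d_co.K8.RN.E08

/-!
# The differences, potentials number 1 of the coset number 8
-/

namespace Pool.Agent.Lib.MP_afdd4d_co.K10.RP

open K8

theorem d08p1 :
    (Pt.chD tS08p1 (Jv.jsE K8.RN.E08.z) 120911280040545020 0 = true ∧
    Pt.chD tS08p1 (Jv.jsE K8.RN.E08.z) 120911280040545020 1 = true ∧
    Pt.chD tS08p1 (Jv.jsE K8.RN.E08.z) 120911280040545020 2 = true ∧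
    Pt.chD tS08p1 (Jv.jsE K8.RN.E08.z) 120911280040545020 3 = true) ∧
    (Pt.chD tS08p1 (Jv.jsE K8.RN.E08.z) 120911280040545020 4 = true ∧
    Pt.chD tS08p1 (Jv.jsE K8.RN.E08.z) 120911280040545020 5 = true ∧
    Pt.chD tS08p1 (Jv.jsE K8.RN.E08.z) 120911280040545020 6 = true ∧
    Pt.chD tS08p1 (Jv.jsE K8.RN.E08.z) 120911280040545020 7 = true) ∧
    (Pt.chD tS08p1 (Jv.jsE K8.RN.E08.z) 120911280040545020 8 = true ∧
    Pt.chD tS08p1 (Jv.jsE K8.RN.E08.z) 120911280040545020 9 = true ∧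
    Pt.chD tS08p1 (Jv.jsE K8.RN.E08.z) 120911280040545020 10 = true ∧
    Pt.chD tS08p1 (Jv.jsE K8.RN.E08.z) 120911280040545020 11 = true) ∧
    (Pt.chD tS08p1 (Jv.jsE K8.RN.E08.z) 120911280040545020 12 = true ∧
    Pt.chD tS08p1 (Jv.jsE K8.RN.E08.z) 120911280040545020 13 = true ∧
    Pt.chD tS08p1 (Jv.jsE K8.RN.E08.z) 120911280040545020 14 = true ∧
    Pt.chD tS08p1 (Jv.jsE K8.RN.E08.z) 120911280040545020 15 = true) := by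
  refine ⟨⟨?_, ?_, ?_, ?_⟩, ⟨?_, ?_, ?_, ?_⟩, ⟨?_, ?_, ?_, ?_⟩, ⟨?_, ?_, ?_, ?_⟩⟩ <;> decide +kernel

theorem r4_08p1 : ∀ τ < 16, Pt.chD tS08p1 (Jv.jsE K8.RN.E08.z) 120911280040545020 τ = true :=
  Jv.Tabs.forall16 _ d08p1.1 d08p1.2.1 d08p1.2.2.1 d08p1.2.2.2

end Pool.Agent.Lib.MP_afdd4d_co.K10.RP
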