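import Pool.Agent.Lib.MP_afdd4d_co.K10.RN.Q08
import Pool.Agent.Lib.MP_afdd4d_co.K10.RP.Blk
import Pool.Agent.Lib.MP_afdd4d_co.K10.RP.E08
import Pool.Agent.Lib.MP_afdd4d_co.K10.RP.D08
import Pool.Agent.Lib.MP_afdd4d_co.K10.RP.E08p1
import Pool.Agent.Lib.MP_afdd4d_co.K10.RP.D08p1
import Pool.Agent.Lib.MP_afdd4d_co.K10.RP.Q08p1
import Pool.Agent.Lib.MP_afdd4d_co.K10.RP.W08
import Pool.Agent.Lib.MP_afdd4d_co.K10.RP.B02
import Pool.Agent.Lib.MP_afdd4d_co.K10.RP.B05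
import Pool.Agent.Lib.MP_afdd4d_co.K10.RP.B06
import Pool.Agent.Lib.MP_afdd4d_co.K10.RP.B31

/-!
# The far pairs of the coset number 8
-/

namespace Pool.Agent.Lib.MP_afdd4d_co.K10.RP

open K8 K10.RS

theorem t08_0 : ∀ x < 1024, Pt.chT D (Jv.jsE K8.RN.E08.z 0) (tE08 0) (tK08 0) (tS08 0) x = true :=
  chT_of b31 (tE08 0) (tK08 0) (tS08 0) 0 4 rfl (by decide) (by decide +kernel)

theorem t08_1 : ∀ x < 1024, Pt.chT D (Jv.jsE K8.RN.E08.z 1) (tE08 1) (tK08 1) (tS08 1) x = true :=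
  chT_of b02 (tE08 1) (tK08 1) (tS08 1) 0 16 rfl (by decide) (by decide +kernel)

theorem t08_2 : ∀ x < 1024, Pt.chT D (Jv.jsE K8.RN.E08.z 2) (tE08 2) (tK08 2) (tS08 2) x = true :=
  chT_of b05 (tE08 2) (tK08 2) (tS08 2) 0 18 rfl (by decide) (by decide +kernel)

theorem t08_3 : ∀ x < 1024, Pt.chT D (Jv.jsE K8.RN.E08.z 3) (tE08 3) (tK08 3) (tS08 3) x = true :=
  chT_of b05 (tE08 3) (tK08 3) (tS08 3) 0 19 rfl (by decide) (by decide +kernel)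

theorem t08_4 : ∀ x < 1024, Pt.chT D (Jv.jsE K8.RN.E08.z 4) (tE08 4) (tK08 4) (tS08 4) x = true :=
  chT_of b05 (tE08 4) (tK08 4) (tS08 4) 0 20 rfl (by decide) (by decide +kernel)

theorem t08_5 : ∀ x < 1024, Pt.chT D (Jv.jsE K8.RN.E08.z 5) (tE08 5) (tK08 5) (tS08 5) x = true :=
  chT_of b06 (tE08 5) (tK08 5) (tS08 5) 0 0 rfl (by decide) (by decide +kernel)

theorem t08_6 : ∀ x < 1024, Pt.chT D (Jv.jsE K8.RN.E08.z 6) (tE08 6) (tK08 6) (tS08 6) x = true :=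
  chT_of b31 (tE08 6) (tK08 6) (tS08 6) 0 5 rfl (by decide) (by decide +kernel)

theorem c08 : Pt.chN D K K1_08 K2_08 K4_08 = true := by decide +kernel

theorem out08 : Pt.FarY S K8.RN.E08.g.c 7 (Pt.Out X08) :=
  Pt.farY_out D D_w K K_eq K8.RN.E08.g K8.RN.E08.z K8.RN.E08.hg (rep_mem 8 (by decide) rfl) X08 okE08 okK08 okS08 c08
    K10.RN.r1_08 r2_08 (Pt.forall7 _ t08_0 t08_1 t08_2 t08_3 t08_4 t08_5 t08_6) r4_08

theorem t08p1_0 : ∀ x < 1024, Pt.chT D (Jv.jsE K8.RN.E08.z 0) (tE08p1 0) (tK08p1 0) (tS08p1 0) x = true :=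
  chT_of b31 (tE08p1 0) (tK08p1 0) (tS08p1 0) 0 6 rfl (by decide) (by decide +kernel)

theorem t08p1_1 : ∀ x < 1024, Pt.chT D (Jv.jsE K8.RN.E08.z 1) (tE08p1 1) (tK08p1 1) (tS08p1 1) x = true :=
  chT_of b02 (tE08p1 1) (tK08p1 1) (tS08p1 1) 0 17 rfl (by decide) (by decide +kernel)

theorem t08p1_2 : ∀ x < 1024, Pt.chT D (Jv.jsE K8.RN.E08.z 2) (tE08p1 2) (tK08p1 2) (tS08p1 2) x = true :=
  chT_of b06 (tE08p1 2) (tK08p1 2) (tS08p1 2) 0 1 rfl (by decide) (by decide +kernel)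

theorem t08p1_3 : ∀ x < 1024, Pt.chT D (Jv.jsE K8.RN.E08.z 3) (tE08p1 3) (tK08p1 3) (tS08p1 3) x = true :=
  chT_of b06 (tE08p1 3) (tK08p1 3) (tS08p1 3) 0 2 rfl (by decide) (by decide +kernel)

theorem t08p1_4 : ∀ x < 1024, Pt.chT D (Jv.jsE K8.RN.E08.z 4) (tE08p1 4) (tK08p1 4) (tS08p1 4) x = true :=
  chT_of b06 (tE08p1 4) (tK08p1 4) (tS08p1 4) 0 3 rfl (by decide) (by decide +kernel)

theorem t08p1_5 : ∀ x < 1024, Pt.chT D (Jv.jsE K8.RN.E08.z 5) (tE08p1 5) (tK08p1 5) (tS08p1 5) x = true :=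
  chT_of b06 (tE08p1 5) (tK08p1 5) (tS08p1 5) 0 4 rfl (by decide) (by decide +kernel)

theorem t08p1_6 : ∀ x < 1024, Pt.chT D (Jv.jsE K8.RN.E08.z 6) (tE08p1 6) (tK08p1 6) (tS08p1 6) x = true :=
  chT_of b31 (tE08p1 6) (tK08p1 6) (tS08p1 6) 0 7 rfl (by decide) (by decide +kernel)

theorem c08p1 : Pt.chN D K K1_08p1 K2_08p1 K4_08p1 = true := by decide +kernel

theorem y08p1 : Pt.FarY S K8.RN.E08.g.c 7 (fun y => y ∈ Y08p1) :=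
  Pt.farY_lst D D_w K K_eq K8.RN.E08.g K8.RN.E08.z K8.RN.E08.hg (rep_mem 8 (by decide) rfl) Y08p1 okE08p1 okK08p1 okS08p1 c08p1
    r1_08p1 r2_08p1 (Pt.forall7 _ t08p1_0 t08p1_1 t08p1_2 t08p1_3 t08p1_4 t08p1_5 t08p1_6) r4_08p1

theorem x08p1 : ∀ l ∈ X08p1, Pt.FarY S K8.RN.E08.g.c 7 (fun y => y ∈ l) :=
  Pt.tr_spec w0_08 y08p1 (fun _ h => h) w08p1

theorem far08 : Pt.Far S K8.RN.E08.g.c 7 := Pt.far_of_out out08 x08p1

end Pool.Agent.Lib.MP_afdd4d_co.K10.RP
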