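import Pool.Agent.Lib.MP_afdd4d_co.K10.RP.B43_0
import Pool.Agent.Lib.MP_afdd4d_co.K10.RP.B43_1

/-!
# The pairs of the class 43
-/

namespace Pool.Agent.Lib.MP_afdd4d_co.K10.RP

open K8 K10.RS

theorem b43 : ∀ y < 1024, ∀ e ∈ L43, Pt.leP D (D.tP (Nat.xor 26624 (Pt.fu y))) y e = true :=
  Pt.blk16 D (Pt.forall16' _ b43_0 b43_1 b43_2 b43_3 b43_4 b43_5 b43_6 b43_7 b43_8 b43_9 b43_10 b43_11 b43_12 b43_13 b43_14 b43_15)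

end Pool.Agent.Lib.MP_afdd4d_co.K10.RP
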