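import Pool.Agent.Lib.MP_afdd4d_co.K10.RP.T10p1
import Pool.Agent.Lib.MP_afdd4d_co.K8.RN.E10
import Pool.Agent.Lib.MP_afdd4d_co.K10.RS.Dat

/-!
# The 4-graphs, potentials number 1 of the coset number 10
-/

namespace Pool.Agent.Lib.MP_afdd4d_co.K10.RP

open K8 K10.RS

theorem q10p1 :
    (Pt.chHm D (D.QE K8.RN.E10.g 0) (Pt.xLL D.w 0 [Y10p1]) tK10p1 K1_10p1 0 = true ∧
    Pt.chHm D (D.QE K8.RN.E10.g 1) (Pt.xLL D.w 1 [Y10p1]) tK10p1 K1_10p1 1 = true ∧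
    Pt.chHm D (D.QE K8.RN.E10.g 2) (Pt.xLL D.w 2 [Y10p1]) tK10p1 K1_10p1 2 = true ∧
    Pt.chHm D (D.QE K8.RN.E10.g 3) (Pt.xLL D.w 3 [Y10p1]) tK10p1 K1_10p1 3 = true) ∧
    (Pt.chHm D (D.QE K8.RN.E10.g 4) (Pt.xLL D.w 4 [Y10p1]) tK10p1 K1_10p1 4 = true ∧
    Pt.chHm D (D.QE K8.RN.E10.g 5) (Pt.xLL D.w 5 [Y10p1]) tK10p1 K1_10p1 5 = true ∧
    Pt.chHm D (D.QE K8.RN.E10.g 6) (Pt.xLL D.w 6 [Y10p1]) tK10p1 K1_10p1 6 = true ∧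
    Pt.chHm D (D.QE K8.RN.E10.g 7) (Pt.xLL D.w 7 [Y10p1]) tK10p1 K1_10p1 7 = true) ∧
    (Pt.chHm D (D.QE K8.RN.E10.g 8) (Pt.xLL D.w 8 [Y10p1]) tK10p1 K1_10p1 8 = true ∧
    Pt.chHm D (D.QE K8.RN.E10.g 9) (Pt.xLL D.w 9 [Y10p1]) tK10p1 K1_10p1 9 = true ∧
    Pt.chHm D (D.QE K8.RN.E10.g 10) (Pt.xLL D.w 10 [Y10p1]) tK10p1 K1_10p1 10 = true ∧
    Pt.chHm D (D.QE K8.RN.E10.g 11) (Pt.xLL D.w 11 [Y10p1]) tK10p1 K1_10p1 11 = true) ∧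
    (Pt.chHm D (D.QE K8.RN.E10.g 12) (Pt.xLL D.w 12 [Y10p1]) tK10p1 K1_10p1 12 = true ∧
    Pt.chHm D (D.QE K8.RN.E10.g 13) (Pt.xLL D.w 13 [Y10p1]) tK10p1 K1_10p1 13 = true ∧
    Pt.chHm D (D.QE K8.RN.E10.g 14) (Pt.xLL D.w 14 [Y10p1]) tK10p1 K1_10p1 14 = true ∧
    Pt.chHm D (D.QE K8.RN.E10.g 15) (Pt.xLL D.w 15 [Y10p1]) tK10p1 K1_10p1 15 = true) := by
  refine ⟨⟨?_, ?_, ?_, ?_⟩, ⟨?_, ?_, ?_, ?_⟩, ⟨?_, ?_, ?_, ?_⟩, ⟨?_, ?_, ?_, ?_⟩⟩ <;> decide +kernel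

theorem r1_10p1 : ∀ τ < 16, Pt.chHm D (D.QE K8.RN.E10.g τ) (Pt.xLL D.w τ [Y10p1]) tK10p1 K1_10p1 τ = true :=
  Jv.Tabs.forall16 _ q10p1.1 q10p1.2.1 q10p1.2.2.1 q10p1.2.2.2

end Pool.Agent.Lib.MP_afdd4d_co.K10.RP
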