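import Pool.Agent.Lib.MP_afdd4d_co.K10.RP.X10
import Pool.Agent.Lib.MP_afdd4d_co.K8.RN.E10
import Pool.Agent.Lib.MP_afdd4d_co.K10.RP.T10p1

/-!
# The equivalences of the coset number 10
-/

namespace Pool.Agent.Lib.MP_afdd4d_co.K10.RP

open K8

set_option maxRecDepth 100000

theorem w0_10 : Pt.c0 K8.RN.E10.g.c = true := by decide +kernel

/-- The permutations of the part 1. -/
def P10p1 : List (List ℕ) := [
  [1754760, 1726088, 1754704, 1726032, 1754200, 1725528],
  [1754760, 1754704, 1754200],
  [1754760, 1754704, 1754200],
  [1754760, 1754704, 1754200],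
  [1754760, 1726088, 1754704, 1726032, 1754200, 1725528],
  [1754760, 1726088, 1754312, 1725640, 1753808, 1725136],
  [1754760, 1754704, 1754200],
  [1754760, 1754704, 1754200],
  [1754760, 1726088, 1754312, 1725640, 1754704, 1726032, 1753808, 1725136, 1754200, 1725528, 1753752, 1725080],
  [1754760, 1754312, 1753808],
  [1754760, 1726088],
  [1754760, 1726088, 1754312, 1725640, 1753808, 1725136],
  [1754760, 1726088, 1754704, 1726032, 1754200, 1725528],
  [1754760, 1726088, 1754704, 1726032, 1754200, 1725528],
  [1754760, 1726088, 1754704, 1726032, 1754200, 1725528],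
  [1754760, 1726088, 1754704, 1726032, 1754200, 1725528],
  [1754760, 1726088, 1754312, 1725640, 1754704, 1726032, 1753808, 1725136, 1754200, 1725528, 1753752, 1725080],
  [1754760, 1726088, 1754312, 1725640, 1754704, 1726032, 1753808, 1725136, 1754200, 1725528, 1753752, 1725080],
  [1754760, 1726088, 1754312, 1725640, 1754704, 1726032],
  [1754760, 1726088, 1754312, 1725640, 1754704, 1726032],
  [1754760, 1726088, 1754312, 1725640, 1754704, 1726032, 1753808, 1725136, 1754200, 1725528, 1753752, 1725080],
  [1754760, 1726088, 1754312, 1725640, 1753808, 1725136],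
  [1754760, 1726088, 1754312, 1725640, 1754704, 1726032, 1753808, 1725136, 1754200, 1725528, 1753752, 1725080],
  [1754760, 1726088, 1754312, 1725640, 1754704, 1726032],
  [1754760, 1726088, 1754704, 1726032, 1754200, 1725528],
  [1754760, 1726088, 1754312, 1725640, 1754704, 1726032, 1753808, 1725136, 1754200, 1725528, 1753752, 1725080],
  [1754760, 1726088, 1754312, 1725640, 1754704, 1726032, 1753808, 1725136, 1754200, 1725528, 1753752, 1725080],
  [1754760, 1726088, 1754312, 1725640, 1754704, 1726032, 1753808, 1725136, 1754200, 1725528, 1753752, 1725080],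
  [1754760, 1726088, 1754312, 1725640, 1754704, 1726032, 1753808, 1725136, 1754200, 1725528, 1753752, 1725080],
  [1754760, 1726088, 1754312, 1725640, 1753808, 1725136],
  [1754760, 1726088, 1754312, 1725640, 1754704, 1726032],
  [1754760, 1726088, 1754312, 1725640, 1754704, 1726032],
  [1754760, 1726088, 1754312, 1725640, 1753808, 1725136],
  [1754760, 1726088, 1754312, 1725640, 1754704, 1726032],
  [1754760, 1754312, 1754704],
  [1754760, 1754704, 1754200],
  [1754760, 1726088, 1754704, 1726032, 1754200, 1725528],
  [1754760, 1754312, 1754704, 1753808, 1754200, 1753752],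
  [1754760, 1754312, 1754704, 1753808, 1754200, 1753752]]

theorem w10p1 : Pt.tr K8.RN.E10.g.c Y10p1 X10p1 P10p1 = true := by decide +kernel

end Pool.Agent.Lib.MP_afdd4d_co.K10.RP
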