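import Pool.Agent.Lib.MP_afdd4d_co.K10.RN.Q10
import Pool.Agent.Lib.MP_afdd4d_co.K10.RP.Blk
import Pool.Agent.Lib.MP_afdd4d_co.K10.RP.E10
import Pool.Agent.Lib.MP_afdd4d_co.K10.RP.D10
import Pool.Agent.Lib.MP_afdd4d_co.K10.RP.E10p1
import Pool.Agent.Lib.MP_afdd4d_co.K10.RP.D10p1
import Pool.Agent.Lib.MP_afdd4d_co.K10.RP.Q10p1
import Pool.Agent.Lib.MP_afdd4d_co.K10.RP.W10
import Pool.Agent.Lib.MP_afdd4d_co.K10.RP.B06
import Pool.Agent.Lib.MP_afdd4d_co.K10.RP.B12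
import Pool.Agent.Lib.MP_afdd4d_co.K10.RP.B43
import Pool.Agent.Lib.MP_afdd4d_co.K10.RP.B46

/-!
# The far pairs of the coset number 10
-/

namespace Pool.Agent.Lib.MP_afdd4d_co.K10.RP

open K8 K10.RS

theorem t10_0 : ∀ x < 1024, Pt.chT D (Jv.jsE K8.RN.E10.z 0) (tE10 0) (tK10 0) (tS10 0) x = true :=
  chT_of b46 (tE10 0) (tK10 0) (tS10 0) 1 2 rfl (by decide) (by decide +kernel)

theorem t10_1 : ∀ x < 1024, Pt.chT D (Jv.jsE K8.RN.E10.z 1) (tE10 1) (tK10 1) (tS10 1) x = true :=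
  chT_of b06 (tE10 1) (tK10 1) (tS10 1) 0 13 rfl (by decide) (by decide +kernel)

theorem t10_2 : ∀ x < 1024, Pt.chT D (Jv.jsE K8.RN.E10.z 2) (tE10 2) (tK10 2) (tS10 2) x = true :=
  chT_of b06 (tE10 2) (tK10 2) (tS10 2) 0 14 rfl (by decide) (by decide +kernel)

theorem t10_3 : ∀ x < 1024, Pt.chT D (Jv.jsE K8.RN.E10.z 3) (tE10 3) (tK10 3) (tS10 3) x = true :=
  chT_of b06 (tE10 3) (tK10 3) (tS10 3) 0 15 rfl (by decide) (by decide +kernel)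

theorem t10_4 : ∀ x < 1024, Pt.chT D (Jv.jsE K8.RN.E10.z 4) (tE10 4) (tK10 4) (tS10 4) x = true :=
  chT_of b12 (tE10 4) (tK10 4) (tS10 4) 0 0 rfl (by decide) (by decide +kernel)

theorem t10_5 : ∀ x < 1024, Pt.chT D (Jv.jsE K8.RN.E10.z 5) (tE10 5) (tK10 5) (tS10 5) x = true :=
  chT_of b12 (tE10 5) (tK10 5) (tS10 5) 0 1 rfl (by decide) (by decide +kernel)

theorem t10_6 : ∀ x < 1024, Pt.chT D (Jv.jsE K8.RN.E10.z 6) (tE10 6) (tK10 6) (tS10 6) x = true :=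
  chT_of b43 (tE10 6) (tK10 6) (tS10 6) 0 0 rfl (by decide) (by decide +kernel)

theorem c10 : Pt.chN D K K1_10 K2_10 K4_10 = true := by decide +kernel

theorem out10 : Pt.FarY S K8.RN.E10.g.c 7 (Pt.Out X10) :=
  Pt.farY_out D D_w K K_eq K8.RN.E10.g K8.RN.E10.z K8.RN.E10.hg (rep_mem 10 (by decide) rfl) X10 okE10 okK10 okS10 c10
    K10.RN.r1_10 r2_10 (Pt.forall7 _ t10_0 t10_1 t10_2 t10_3 t10_4 t10_5 t10_6) r4_10

theorem t10p1_0 : ∀ x < 1024, Pt.chT D (Jv.jsE K8.RN.E10.z 0) (tE10p1 0) (tK10p1 0) (tS10p1 0) x = true :=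
  chT_of b46 (tE10p1 0) (tK10p1 0) (tS10p1 0) 1 3 rfl (by decide) (by decide +kernel)

theorem t10p1_1 : ∀ x < 1024, Pt.chT D (Jv.jsE K8.RN.E10.z 1) (tE10p1 1) (tK10p1 1) (tS10p1 1) x = true :=
  chT_of b06 (tE10p1 1) (tK10p1 1) (tS10p1 1) 0 16 rfl (by decide) (by decide +kernel)

theorem t10p1_2 : ∀ x < 1024, Pt.chT D (Jv.jsE K8.RN.E10.z 2) (tE10p1 2) (tK10p1 2) (tS10p1 2) x = true :=
  chT_of b06 (tE10p1 2) (tK10p1 2) (tS10p1 2) 0 17 rfl (by decide) (by decide +kernel)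

theorem t10p1_3 : ∀ x < 1024, Pt.chT D (Jv.jsE K8.RN.E10.z 3) (tE10p1 3) (tK10p1 3) (tS10p1 3) x = true :=
  chT_of b06 (tE10p1 3) (tK10p1 3) (tS10p1 3) 0 18 rfl (by decide) (by decide +kernel)

theorem t10p1_4 : ∀ x < 1024, Pt.chT D (Jv.jsE K8.RN.E10.z 4) (tE10p1 4) (tK10p1 4) (tS10p1 4) x = true :=
  chT_of b12 (tE10p1 4) (tK10p1 4) (tS10p1 4) 0 2 rfl (by decide) (by decide +kernel)

theorem t10p1_5 : ∀ x < 1024, Pt.chT D (Jv.jsE K8.RN.E10.z 5) (tE10p1 5) (tK10p1 5) (tS10p1 5) x = true :=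
  chT_of b12 (tE10p1 5) (tK10p1 5) (tS10p1 5) 0 3 rfl (by decide) (by decide +kernel)

theorem t10p1_6 : ∀ x < 1024, Pt.chT D (Jv.jsE K8.RN.E10.z 6) (tE10p1 6) (tK10p1 6) (tS10p1 6) x = true :=
  chT_of b43 (tE10p1 6) (tK10p1 6) (tS10p1 6) 0 1 rfl (by decide) (by decide +kernel)

theorem c10p1 : Pt.chN D K K1_10p1 K2_10p1 K4_10p1 = true := by decide +kernel

theorem y10p1 : Pt.FarY S K8.RN.E10.g.c 7 (fun y => y ∈ Y10p1) :=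
  Pt.farY_lst D D_w K K_eq K8.RN.E10.g K8.RN.E10.z K8.RN.E10.hg (rep_mem 10 (by decide) rfl) Y10p1 okE10p1 okK10p1 okS10p1 c10p1
    r1_10p1 r2_10p1 (Pt.forall7 _ t10p1_0 t10p1_1 t10p1_2 t10p1_3 t10p1_4 t10p1_5 t10p1_6) r4_10p1

theorem x10p1 : ∀ l ∈ X10p1, Pt.FarY S K8.RN.E10.g.c 7 (fun y => y ∈ l) :=
  Pt.tr_spec w0_10 y10p1 (fun _ h => h) w10p1

theorem far10 : Pt.Far S K8.RN.E10.g.c 7 := Pt.far_of_out out10 x10p1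

end Pool.Agent.Lib.MP_afdd4d_co.K10.RP
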