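import Pool.Agent.Lib.MP_afdd4d_co.K10.RP.B03_0
import Pool.Agent.Lib.MP_afdd4d_co.K10.RP.B03_1

/-!
# The pairs of the class 3
-/

namespace Pool.Agent.Lib.MP_afdd4d_co.K10.RP

open K8 K10.RS

theorem b03 : ∀ y < 1024, ∀ e ∈ L03, Pt.leP D (D.tP (Nat.xor 0 (Pt.fu y))) y e = true :=
  Pt.blk16 D (Pt.forall16' _ b03_0 b03_1 b03_2 b03_3 b03_4 b03_5 b03_6 b03_7 b03_8 b03_9 b03_10 b03_11 b03_12 b03_13 b03_14 b03_15)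

end Pool.Agent.Lib.MP_afdd4d_co.K10.RP
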