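import Pool.Agent.Lib.MP_afdd4d_co.K10.RP.B07_0
import Pool.Agent.Lib.MP_afdd4d_co.K10.RP.B07_1

/-!
# The pairs of the class 7
-/

namespace Pool.Agent.Lib.MP_afdd4d_co.K10.RP

open K8 K10.RS

theorem b07 : ∀ y < 1024, ∀ e ∈ L07, Pt.leP D (D.tP (Nat.xor 16 (Pt.fu y))) y e = true :=
  Pt.blk16 D (Pt.forall16' _ b07_0 b07_1 b07_2 b07_3 b07_4 b07_5 b07_6 b07_7 b07_8 b07_9 b07_10 b07_11 b07_12 b07_13 b07_14 b07_15)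

end Pool.Agent.Lib.MP_afdd4d_co.K10.RP
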