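import Pool.Agent.Lib.MP_afdd4d_co.K10.RP.B12_0
import Pool.Agent.Lib.MP_afdd4d_co.K10.RP.B12_1

/-!
# The pairs of the class 12
-/

namespace Pool.Agent.Lib.MP_afdd4d_co.K10.RP

open K8 K10.RS

theorem b12 : ∀ y < 1024, ∀ e ∈ L12, Pt.leP D (D.tP (Nat.xor 256 (Pt.fu y))) y e = true :=
  Pt.blk16 D (Pt.forall16' _ b12_0 b12_1 b12_2 b12_3 b12_4 b12_5 b12_6 b12_7 b12_8 b12_9 b12_10 b12_11 b12_12 b12_13 b12_14 b12_15)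

end Pool.Agent.Lib.MP_afdd4d_co.K10.RP
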