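import Pool.Agent.Lib.MP_afdd4d_co.K10.RP.L15
import Pool.Agent.Lib.MP_afdd4d_co.K10.RS.Dat

/-!
# The pairs of the class 15, part 1
-/

namespace Pool.Agent.Lib.MP_afdd4d_co.K10.RP

open K8 K10.RS

theorem b15_p1 :
    Pt.chB D 272 L15 512 64 = true ∧
    Pt.chB D 272 L15 576 64 = true ∧
    Pt.chB D 272 L15 640 64 = true ∧
    Pt.chB D 272 L15 704 64 = true ∧
    Pt.chB D 272 L15 768 64 = true ∧
    Pt.chB D 272 L15 832 64 = true ∧
    Pt.chB D 272 L15 896 64 = true ∧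
    Pt.chB D 272 L15 960 64 = true := by
  refine ⟨?_, ?_, ?_, ?_, ?_, ?_, ?_, ?_⟩ <;> decide +kernel

theorem b15_8 : Pt.chB D 272 L15 512 64 = true := b15_p1.1

theorem b15_9 : Pt.chB D 272 L15 576 64 = true := b15_p1.2.1

theorem b15_10 : Pt.chB D 272 L15 640 64 = true := b15_p1.2.2.1

theorem b15_11 : Pt.chB D 272 L15 704 64 = true := b15_p1.2.2.2.1

theorem b15_12 : Pt.chB D 272 L15 768 64 = true := b15_p1.2.2.2.2.1

theorem b15_13 : Pt.chB D 272 L15 832 64 = true := b15_p1.2.2.2.2.2.1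

theorem b15_14 : Pt.chB D 272 L15 896 64 = true := b15_p1.2.2.2.2.2.2.1

theorem b15_15 : Pt.chB D 272 L15 960 64 = true := b15_p1.2.2.2.2.2.2.2

end Pool.Agent.Lib.MP_afdd4d_co.K10.RP
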