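import Pool.Agent.Lib.MP_afdd4d_co.K10.RP.B15_0
import Pool.Agent.Lib.MP_afdd4d_co.K10.RP.B15_1

/-!
# The pairs of the class 15
-/

namespace Pool.Agent.Lib.MP_afdd4d_co.K10.RP

open K8 K10.RS

theorem b15 : ∀ y < 1024, ∀ e ∈ L15, Pt.leP D (D.tP (Nat.xor 272 (Pt.fu y))) y e = true :=
  Pt.blk16 D (Pt.forall16' _ b15_0 b15_1 b15_2 b15_3 b15_4 b15_5 b15_6 b15_7 b15_8 b15_9 b15_10 b15_11 b15_12 b15_13 b15_14 b15_15)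

end Pool.Agent.Lib.MP_afdd4d_co.K10.RP
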