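import Pool.Agent.Lib.MP_afdd4d_co.K10.RP.B26_0
import Pool.Agent.Lib.MP_afdd4d_co.K10.RP.B26_1

/-!
# The pairs of the class 26
-/

namespace Pool.Agent.Lib.MP_afdd4d_co.K10.RP

open K8 K10.RS

theorem b26 : ∀ y < 1024, ∀ e ∈ L26, Pt.leP D (D.tP (Nat.xor 8448 (Pt.fu y))) y e = true :=
  Pt.blk16 D (Pt.forall16' _ b26_0 b26_1 b26_2 b26_3 b26_4 b26_5 b26_6 b26_7 b26_8 b26_9 b26_10 b26_11 b26_12 b26_13 b26_14 b26_15)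

end Pool.Agent.Lib.MP_afdd4d_co.K10.RP
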