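import Pool.Agent.Lib.MP_afdd4d_co.K10.RN.Q11
import Pool.Agent.Lib.MP_afdd4d_co.K10.RP.Blk
import Pool.Agent.Lib.MP_afdd4d_co.K10.RP.E11
import Pool.Agent.Lib.MP_afdd4d_co.K10.RP.D11
import Pool.Agent.Lib.MP_afdd4d_co.K10.RP.E11p1
import Pool.Agent.Lib.MP_afdd4d_co.K10.RP.D11p1
import Pool.Agent.Lib.MP_afdd4d_co.K10.RP.Q11p1
import Pool.Agent.Lib.MP_afdd4d_co.K10.RP.E11p2
import Pool.Agent.Lib.MP_afdd4d_co.K10.RP.D11p2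
import Pool.Agent.Lib.MP_afdd4d_co.K10.RP.Q11p2
import Pool.Agent.Lib.MP_afdd4d_co.K10.RP.W11
import Pool.Agent.Lib.MP_afdd4d_co.K10.RP.B03
import Pool.Agent.Lib.MP_afdd4d_co.K10.RP.B06
import Pool.Agent.Lib.MP_afdd4d_co.K10.RP.B07
import Pool.Agent.Lib.MP_afdd4d_co.K10.RP.B12
import Pool.Agent.Lib.MP_afdd4d_co.K10.RP.B15
import Pool.Agent.Lib.MP_afdd4d_co.K10.RP.B18
import Pool.Agent.Lib.MP_afdd4d_co.K10.RP.B26
import Pool.Agent.Lib.MP_afdd4d_co.K10.RP.B28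

/-!
# The far pairs of the coset number 11
-/

namespace Pool.Agent.Lib.MP_afdd4d_co.K10.RP

open K8 K10.RS

theorem t11_0 : ∀ x < 1024, Pt.chT D (Jv.jsE K8.RN.E11.z 0) (tE11 0) (tK11 0) (tS11 0) x = true :=
  chT_of b28 (tE11 0) (tK11 0) (tS11 0) 3 4 rfl (by decide) (by decide +kernel)

theorem t11_1 : ∀ x < 1024, Pt.chT D (Jv.jsE K8.RN.E11.z 1) (tE11 1) (tK11 1) (tS11 1) x = true :=
  chT_of b03 (tE11 1) (tK11 1) (tS11 1) 0 3 rfl (by decide) (by decide +kernel)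

theorem t11_2 : ∀ x < 1024, Pt.chT D (Jv.jsE K8.RN.E11.z 2) (tE11 2) (tK11 2) (tS11 2) x = true :=
  chT_of b06 (tE11 2) (tK11 2) (tS11 2) 0 19 rfl (by decide) (by decide +kernel)

theorem t11_3 : ∀ x < 1024, Pt.chT D (Jv.jsE K8.RN.E11.z 3) (tE11 3) (tK11 3) (tS11 3) x = true :=
  chT_of b12 (tE11 3) (tK11 3) (tS11 3) 0 4 rfl (by decide) (by decide +kernel)

theorem t11_4 : ∀ x < 1024, Pt.chT D (Jv.jsE K8.RN.E11.z 4) (tE11 4) (tK11 4) (tS11 4) x = true :=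
  chT_of b15 (tE11 4) (tK11 4) (tS11 4) 0 1 rfl (by decide) (by decide +kernel)

theorem t11_5 : ∀ x < 1024, Pt.chT D (Jv.jsE K8.RN.E11.z 5) (tE11 5) (tK11 5) (tS11 5) x = true :=
  chT_of b18 (tE11 5) (tK11 5) (tS11 5) 0 3 rfl (by decide) (by decide +kernel)

theorem t11_6 : ∀ x < 1024, Pt.chT D (Jv.jsE K8.RN.E11.z 6) (tE11 6) (tK11 6) (tS11 6) x = true :=
  chT_of b26 (tE11 6) (tK11 6) (tS11 6) 0 0 rfl (by decide) (by decide +kernel)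

theorem c11 : Pt.chN D K K1_11 K2_11 K4_11 = true := by decide +kernel

theorem out11 : Pt.FarY S K8.RN.E11.g.c 7 (Pt.Out X11) :=
  Pt.farY_out D D_w K K_eq K8.RN.E11.g K8.RN.E11.z K8.RN.E11.hg (rep_mem 11 (by decide) rfl) X11 okE11 okK11 okS11 c11
    K10.RN.r1_11 r2_11 (Pt.forall7 _ t11_0 t11_1 t11_2 t11_3 t11_4 t11_5 t11_6) r4_11

theorem t11p1_0 : ∀ x < 1024, Pt.chT D (Jv.jsE K8.RN.E11.z 0) (tE11p1 0) (tK11p1 0) (tS11p1 0) x = true :=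
  chT_of b28 (tE11p1 0) (tK11p1 0) (tS11p1 0) 3 5 rfl (by decide) (by decide +kernel)

theorem t11p1_1 : ∀ x < 1024, Pt.chT D (Jv.jsE K8.RN.E11.z 1) (tE11p1 1) (tK11p1 1) (tS11p1 1) x = true :=
  chT_of b03 (tE11p1 1) (tK11p1 1) (tS11p1 1) 0 4 rfl (by decide) (by decide +kernel)

theorem t11p1_2 : ∀ x < 1024, Pt.chT D (Jv.jsE K8.RN.E11.z 2) (tE11p1 2) (tK11p1 2) (tS11p1 2) x = true :=
  chT_of b06 (tE11p1 2) (tK11p1 2) (tS11p1 2) 0 20 rfl (by decide) (by decide +kernel)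

theorem t11p1_3 : ∀ x < 1024, Pt.chT D (Jv.jsE K8.RN.E11.z 3) (tE11p1 3) (tK11p1 3) (tS11p1 3) x = true :=
  chT_of b12 (tE11p1 3) (tK11p1 3) (tS11p1 3) 0 5 rfl (by decide) (by decide +kernel)

theorem t11p1_4 : ∀ x < 1024, Pt.chT D (Jv.jsE K8.RN.E11.z 4) (tE11p1 4) (tK11p1 4) (tS11p1 4) x = true :=
  chT_of b15 (tE11p1 4) (tK11p1 4) (tS11p1 4) 0 2 rfl (by decide) (by decide +kernel)

theorem t11p1_5 : ∀ x < 1024, Pt.chT D (Jv.jsE K8.RN.E11.z 5) (tE11p1 5) (tK11p1 5) (tS11p1 5) x = true :=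
  chT_of b18 (tE11p1 5) (tK11p1 5) (tS11p1 5) 0 4 rfl (by decide) (by decide +kernel)

theorem t11p1_6 : ∀ x < 1024, Pt.chT D (Jv.jsE K8.RN.E11.z 6) (tE11p1 6) (tK11p1 6) (tS11p1 6) x = true :=
  chT_of b26 (tE11p1 6) (tK11p1 6) (tS11p1 6) 0 1 rfl (by decide) (by decide +kernel)

theorem c11p1 : Pt.chN D K K1_11p1 K2_11p1 K4_11p1 = true := by decide +kernel

theorem y11p1 : Pt.FarY S K8.RN.E11.g.c 7 (fun y => y ∈ Y11p1) :=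
  Pt.farY_lst D D_w K K_eq K8.RN.E11.g K8.RN.E11.z K8.RN.E11.hg (rep_mem 11 (by decide) rfl) Y11p1 okE11p1 okK11p1 okS11p1 c11p1
    r1_11p1 r2_11p1 (Pt.forall7 _ t11p1_0 t11p1_1 t11p1_2 t11p1_3 t11p1_4 t11p1_5 t11p1_6) r4_11p1

theorem x11p1 : ∀ l ∈ X11p1, Pt.FarY S K8.RN.E11.g.c 7 (fun y => y ∈ l) :=
  Pt.tr_spec w0_11 y11p1 (fun _ h => h) w11p1

theorem t11p2_0 : ∀ x < 1024, Pt.chT D (Jv.jsE K8.RN.E11.z 0) (tE11p2 0) (tK11p2 0) (tS11p2 0) x = true :=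
  chT_of b28 (tE11p2 0) (tK11p2 0) (tS11p2 0) 3 6 rfl (by decide) (by decide +kernel)

theorem t11p2_1 : ∀ x < 1024, Pt.chT D (Jv.jsE K8.RN.E11.z 1) (tE11p2 1) (tK11p2 1) (tS11p2 1) x = true :=
  chT_of b03 (tE11p2 1) (tK11p2 1) (tS11p2 1) 0 5 rfl (by decide) (by decide +kernel)

theorem t11p2_2 : ∀ x < 1024, Pt.chT D (Jv.jsE K8.RN.E11.z 2) (tE11p2 2) (tK11p2 2) (tS11p2 2) x = true :=
  chT_of b07 (tE11p2 2) (tK11p2 2) (tS11p2 2) 0 0 rfl (by decide) (by decide +kernel)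

theorem t11p2_3 : ∀ x < 1024, Pt.chT D (Jv.jsE K8.RN.E11.z 3) (tE11p2 3) (tK11p2 3) (tS11p2 3) x = true :=
  chT_of b12 (tE11p2 3) (tK11p2 3) (tS11p2 3) 0 6 rfl (by decide) (by decide +kernel)

theorem t11p2_4 : ∀ x < 1024, Pt.chT D (Jv.jsE K8.RN.E11.z 4) (tE11p2 4) (tK11p2 4) (tS11p2 4) x = true :=
  chT_of b15 (tE11p2 4) (tK11p2 4) (tS11p2 4) 0 3 rfl (by decide) (by decide +kernel)

theorem t11p2_5 : ∀ x < 1024, Pt.chT D (Jv.jsE K8.RN.E11.z 5) (tE11p2 5) (tK11p2 5) (tS11p2 5) x = true :=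
  chT_of b18 (tE11p2 5) (tK11p2 5) (tS11p2 5) 0 5 rfl (by decide) (by decide +kernel)

theorem t11p2_6 : ∀ x < 1024, Pt.chT D (Jv.jsE K8.RN.E11.z 6) (tE11p2 6) (tK11p2 6) (tS11p2 6) x = true :=
  chT_of b26 (tE11p2 6) (tK11p2 6) (tS11p2 6) 0 2 rfl (by decide) (by decide +kernel)

theorem c11p2 : Pt.chN D K K1_11p2 K2_11p2 K4_11p2 = true := by decide +kernel

theorem y11p2 : Pt.FarY S K8.RN.E11.g.c 7 (fun y => y ∈ Y11p2) :=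
  Pt.farY_lst D D_w K K_eq K8.RN.E11.g K8.RN.E11.z K8.RN.E11.hg (rep_mem 11 (by decide) rfl) Y11p2 okE11p2 okK11p2 okS11p2 c11p2
    r1_11p2 r2_11p2 (Pt.forall7 _ t11p2_0 t11p2_1 t11p2_2 t11p2_3 t11p2_4 t11p2_5 t11p2_6) r4_11p2

theorem x11p2 : ∀ l ∈ X11p2, Pt.FarY S K8.RN.E11.g.c 7 (fun y => y ∈ l) :=
  Pt.tr_spec w0_11 y11p2 (fun _ h => h) w11p2

theorem far11 : Pt.Far S K8.RN.E11.g.c 7 := Pt.far_of_out out11 (Pt.farY_all x11p1 x11p2)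

end Pool.Agent.Lib.MP_afdd4d_co.K10.RP
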