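import Pool.Agent.Lib.MP_afdd4d_co.K10.RP.B39_0
import Pool.Agent.Lib.MP_afdd4d_co.K10.RP.B39_1

/-!
# The pairs of the class 39
-/

namespace Pool.Agent.Lib.MP_afdd4d_co.K10.RP

open K8 K10.RS

theorem b39 : ∀ y < 1024, ∀ e ∈ L39, Pt.leP D (D.tP (Nat.xor 24576 (Pt.fu y))) y e = true :=
  Pt.blk16 D (Pt.forall16' _ b39_0 b39_1 b39_2 b39_3 b39_4 b39_5 b39_6 b39_7 b39_8 b39_9 b39_10 b39_11 b39_12 b39_13 b39_14 b39_15)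

end Pool.Agent.Lib.MP_afdd4d_co.K10.RP
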