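import Pool.Agent.Lib.MP_afdd4d_co.K10.RP.B45_0
import Pool.Agent.Lib.MP_afdd4d_co.K10.RP.B45_1

/-!
# The pairs of the class 45
-/

namespace Pool.Agent.Lib.MP_afdd4d_co.K10.RP

open K8 K10.RS

theorem b45 : ∀ y < 1024, ∀ e ∈ L45, Pt.leP D (D.tP (Nat.xor 26880 (Pt.fu y))) y e = true :=
  Pt.blk16 D (Pt.forall16' _ b45_0 b45_1 b45_2 b45_3 b45_4 b45_5 b45_6 b45_7 b45_8 b45_9 b45_10 b45_11 b45_12 b45_13 b45_14 b45_15)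

end Pool.Agent.Lib.MP_afdd4d_co.K10.RP
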