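import Pool.Agent.Lib.MP_afdd4d_co.K10.RP.T12p1
import Pool.Agent.Lib.MP_afdd4d_co.K10.RS.Dat

/-!
# The even 4-graphs, potentials number 1 of the coset number 12
-/

namespace Pool.Agent.Lib.MP_afdd4d_co.K10.RP

open K8 K10.RS

theorem e12p1 :
    (Pt.chE D tE12p1 K2_12p1 0 = true ∧
    Pt.chE D tE12p1 K2_12p1 1 = true ∧
    Pt.chE D tE12p1 K2_12p1 2 = true ∧
    Pt.chE D tE12p1 K2_12p1 3 = true) ∧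
    (Pt.chE D tE12p1 K2_12p1 4 = true ∧
    Pt.chE D tE12p1 K2_12p1 5 = true ∧
    Pt.chE D tE12p1 K2_12p1 6 = true ∧
    Pt.chE D tE12p1 K2_12p1 7 = true) ∧
    (Pt.chE D tE12p1 K2_12p1 8 = true ∧
    Pt.chE D tE12p1 K2_12p1 9 = true ∧
    Pt.chE D tE12p1 K2_12p1 10 = true ∧
    Pt.chE D tE12p1 K2_12p1 11 = true) ∧
    (Pt.chE D tE12p1 K2_12p1 12 = true ∧
    Pt.chE D tE12p1 K2_12p1 13 = true ∧
    Pt.chE D tE12p1 K2_12p1 14 = true ∧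
    Pt.chE D tE12p1 K2_12p1 15 = true) := by
  refine ⟨⟨?_, ?_, ?_, ?_⟩, ⟨?_, ?_, ?_, ?_⟩, ⟨?_, ?_, ?_, ?_⟩, ⟨?_, ?_, ?_, ?_⟩⟩ <;> decide +kernel

theorem r2_12p1 : ∀ τ < 16, Pt.chE D tE12p1 K2_12p1 τ = true :=
  Jv.Tabs.forall16 _ e12p1.1 e12p1.2.1 e12p1.2.2.1 e12p1.2.2.2

end Pool.Agent.Lib.MP_afdd4d_co.K10.RP
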