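import Pool.Agent.Lib.MP_afdd4d_co.K10.RN.Q12
import Pool.Agent.Lib.MP_afdd4d_co.K10.RP.Blk
import Pool.Agent.Lib.MP_afdd4d_co.K10.RP.E12
import Pool.Agent.Lib.MP_afdd4d_co.K10.RP.D12
import Pool.Agent.Lib.MP_afdd4d_co.K10.RP.E12p1
import Pool.Agent.Lib.MP_afdd4d_co.K10.RP.D12p1
import Pool.Agent.Lib.MP_afdd4d_co.K10.RP.Q12p1
import Pool.Agent.Lib.MP_afdd4d_co.K10.RP.E12p2
import Pool.Agent.Lib.MP_afdd4d_co.K10.RP.D12p2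
import Pool.Agent.Lib.MP_afdd4d_co.K10.RP.Q12p2
import Pool.Agent.Lib.MP_afdd4d_co.K10.RP.W12
import Pool.Agent.Lib.MP_afdd4d_co.K10.RP.B07
import Pool.Agent.Lib.MP_afdd4d_co.K10.RP.B12
import Pool.Agent.Lib.MP_afdd4d_co.K10.RP.B18
import Pool.Agent.Lib.MP_afdd4d_co.K10.RP.B39
import Pool.Agent.Lib.MP_afdd4d_co.K10.RP.B45

/-!
# The far pairs of the coset number 12
-/

namespace Pool.Agent.Lib.MP_afdd4d_co.K10.RP

open K8 K10.RS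

theorem t12_0 : ∀ x < 1024, Pt.chT D (Jv.jsE K8.RN.E12.z 0) (tE12 0) (tK12 0) (tS12 0) x = true :=
  chT_of b45 (tE12 0) (tK12 0) (tS12 0) 3 0 rfl (by decide) (by decide +kernel)

theorem t12_1 : ∀ x < 1024, Pt.chT D (Jv.jsE K8.RN.E12.z 1) (tE12 1) (tK12 1) (tS12 1) x = true :=
  chT_of b07 (tE12 1) (tK12 1) (tS12 1) 0 1 rfl (by decide) (by decide +kernel)

theorem t12_2 : ∀ x < 1024, Pt.chT D (Jv.jsE K8.RN.E12.z 2) (tE12 2) (tK12 2) (tS12 2) x = true :=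
  chT_of b07 (tE12 2) (tK12 2) (tS12 2) 0 2 rfl (by decide) (by decide +kernel)

theorem t12_3 : ∀ x < 1024, Pt.chT D (Jv.jsE K8.RN.E12.z 3) (tE12 3) (tK12 3) (tS12 3) x = true :=
  chT_of b12 (tE12 3) (tK12 3) (tS12 3) 0 7 rfl (by decide) (by decide +kernel)

theorem t12_4 : ∀ x < 1024, Pt.chT D (Jv.jsE K8.RN.E12.z 4) (tE12 4) (tK12 4) (tS12 4) x = true :=
  chT_of b12 (tE12 4) (tK12 4) (tS12 4) 0 8 rfl (by decide) (by decide +kernel)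

theorem t12_5 : ∀ x < 1024, Pt.chT D (Jv.jsE K8.RN.E12.z 5) (tE12 5) (tK12 5) (tS12 5) x = true :=
  chT_of b18 (tE12 5) (tK12 5) (tS12 5) 0 6 rfl (by decide) (by decide +kernel)

theorem t12_6 : ∀ x < 1024, Pt.chT D (Jv.jsE K8.RN.E12.z 6) (tE12 6) (tK12 6) (tS12 6) x = true :=
  chT_of b39 (tE12 6) (tK12 6) (tS12 6) 0 0 rfl (by decide) (by decide +kernel)

theorem c12 : Pt.chN D K K1_12 K2_12 K4_12 = true := by decide +kernel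

theorem out12 : Pt.FarY S K8.RN.E12.g.c 7 (Pt.Out X12) :=
  Pt.farY_out D D_w K K_eq K8.RN.E12.g K8.RN.E12.z K8.RN.E12.hg (rep_mem 12 (by decide) rfl) X12 okE12 okK12 okS12 c12
    K10.RN.r1_12 r2_12 (Pt.forall7 _ t12_0 t12_1 t12_2 t12_3 t12_4 t12_5 t12_6) r4_12

theorem t12p1_0 : ∀ x < 1024, Pt.chT D (Jv.jsE K8.RN.E12.z 0) (tE12p1 0) (tK12p1 0) (tS12p1 0) x = true :=
  chT_of b45 (tE12p1 0) (tK12p1 0) (tS12p1 0) 3 1 rfl (by decide) (by decide +kernel)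

theorem t12p1_1 : ∀ x < 1024, Pt.chT D (Jv.jsE K8.RN.E12.z 1) (tE12p1 1) (tK12p1 1) (tS12p1 1) x = true :=
  chT_of b07 (tE12p1 1) (tK12p1 1) (tS12p1 1) 0 3 rfl (by decide) (by decide +kernel)

theorem t12p1_2 : ∀ x < 1024, Pt.chT D (Jv.jsE K8.RN.E12.z 2) (tE12p1 2) (tK12p1 2) (tS12p1 2) x = true :=
  chT_of b07 (tE12p1 2) (tK12p1 2) (tS12p1 2) 0 4 rfl (by decide) (by decide +kernel)

theorem t12p1_3 : ∀ x < 1024, Pt.chT D (Jv.jsE K8.RN.E12.z 3) (tE12p1 3) (tK12p1 3) (tS12p1 3) x = true :=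
  chT_of b12 (tE12p1 3) (tK12p1 3) (tS12p1 3) 0 9 rfl (by decide) (by decide +kernel)

theorem t12p1_4 : ∀ x < 1024, Pt.chT D (Jv.jsE K8.RN.E12.z 4) (tE12p1 4) (tK12p1 4) (tS12p1 4) x = true :=
  chT_of b12 (tE12p1 4) (tK12p1 4) (tS12p1 4) 0 10 rfl (by decide) (by decide +kernel)

theorem t12p1_5 : ∀ x < 1024, Pt.chT D (Jv.jsE K8.RN.E12.z 5) (tE12p1 5) (tK12p1 5) (tS12p1 5) x = true :=
  chT_of b18 (tE12p1 5) (tK12p1 5) (tS12p1 5) 0 7 rfl (by decide) (by decide +kernel)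

theorem t12p1_6 : ∀ x < 1024, Pt.chT D (Jv.jsE K8.RN.E12.z 6) (tE12p1 6) (tK12p1 6) (tS12p1 6) x = true :=
  chT_of b39 (tE12p1 6) (tK12p1 6) (tS12p1 6) 0 1 rfl (by decide) (by decide +kernel)

theorem c12p1 : Pt.chN D K K1_12p1 K2_12p1 K4_12p1 = true := by decide +kernel

theorem y12p1 : Pt.FarY S K8.RN.E12.g.c 7 (fun y => y ∈ Y12p1) :=
  Pt.farY_lst D D_w K K_eq K8.RN.E12.g K8.RN.E12.z K8.RN.E12.hg (rep_mem 12 (by decide) rfl) Y12p1 okE12p1 okK12p1 okS12p1 c12p1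
    r1_12p1 r2_12p1 (Pt.forall7 _ t12p1_0 t12p1_1 t12p1_2 t12p1_3 t12p1_4 t12p1_5 t12p1_6) r4_12p1

theorem x12p1 : ∀ l ∈ X12p1, Pt.FarY S K8.RN.E12.g.c 7 (fun y => y ∈ l) :=
  Pt.tr_spec w0_12 y12p1 (fun _ h => h) w12p1

theorem t12p2_0 : ∀ x < 1024, Pt.chT D (Jv.jsE K8.RN.E12.z 0) (tE12p2 0) (tK12p2 0) (tS12p2 0) x = true :=
  chT_of b45 (tE12p2 0) (tK12p2 0) (tS12p2 0) 3 2 rfl (by decide) (by decide +kernel)

theorem t12p2_1 : ∀ x < 1024, Pt.chT D (Jv.jsE K8.RN.E12.z 1) (tE12p2 1) (tK12p2 1) (tS12p2 1) x = true :=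
  chT_of b07 (tE12p2 1) (tK12p2 1) (tS12p2 1) 0 5 rfl (by decide) (by decide +kernel)

theorem t12p2_2 : ∀ x < 1024, Pt.chT D (Jv.jsE K8.RN.E12.z 2) (tE12p2 2) (tK12p2 2) (tS12p2 2) x = true :=
  chT_of b07 (tE12p2 2) (tK12p2 2) (tS12p2 2) 0 6 rfl (by decide) (by decide +kernel)

theorem t12p2_3 : ∀ x < 1024, Pt.chT D (Jv.jsE K8.RN.E12.z 3) (tE12p2 3) (tK12p2 3) (tS12p2 3) x = true :=
  chT_of b12 (tE12p2 3) (tK12p2 3) (tS12p2 3) 0 11 rfl (by decide) (by decide +kernel)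

theorem t12p2_4 : ∀ x < 1024, Pt.chT D (Jv.jsE K8.RN.E12.z 4) (tE12p2 4) (tK12p2 4) (tS12p2 4) x = true :=
  chT_of b12 (tE12p2 4) (tK12p2 4) (tS12p2 4) 0 12 rfl (by decide) (by decide +kernel)

theorem t12p2_5 : ∀ x < 1024, Pt.chT D (Jv.jsE K8.RN.E12.z 5) (tE12p2 5) (tK12p2 5) (tS12p2 5) x = true :=
  chT_of b18 (tE12p2 5) (tK12p2 5) (tS12p2 5) 0 8 rfl (by decide) (by decide +kernel)

theorem t12p2_6 : ∀ x < 1024, Pt.chT D (Jv.jsE K8.RN.E12.z 6) (tE12p2 6) (tK12p2 6) (tS12p2 6) x = true :=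
  chT_of b39 (tE12p2 6) (tK12p2 6) (tS12p2 6) 0 2 rfl (by decide) (by decide +kernel)

theorem c12p2 : Pt.chN D K K1_12p2 K2_12p2 K4_12p2 = true := by decide +kernel

theorem y12p2 : Pt.FarY S K8.RN.E12.g.c 7 (fun y => y ∈ Y12p2) :=
  Pt.farY_lst D D_w K K_eq K8.RN.E12.g K8.RN.E12.z K8.RN.E12.hg (rep_mem 12 (by decide) rfl) Y12p2 okE12p2 okK12p2 okS12p2 c12p2
    r1_12p2 r2_12p2 (Pt.forall7 _ t12p2_0 t12p2_1 t12p2_2 t12p2_3 t12p2_4 t12p2_5 t12p2_6) r4_12p2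

theorem x12p2 : ∀ l ∈ X12p2, Pt.FarY S K8.RN.E12.g.c 7 (fun y => y ∈ l) :=
  Pt.tr_spec w0_12 y12p2 (fun _ h => h) w12p2

theorem far12 : Pt.Far S K8.RN.E12.g.c 7 := Pt.far_of_out out12 (Pt.farY_all x12p1 x12p2)

end Pool.Agent.Lib.MP_afdd4d_co.K10.RP
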