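import Pool.Agent.Lib.MP_afdd4d_co.K10.RN.Q13
import Pool.Agent.Lib.MP_afdd4d_co.K10.RP.Blk
import Pool.Agent.Lib.MP_afdd4d_co.K10.RP.E13
import Pool.Agent.Lib.MP_afdd4d_co.K10.RP.D13
import Pool.Agent.Lib.MP_afdd4d_co.K10.RP.E13p1
import Pool.Agent.Lib.MP_afdd4d_co.K10.RP.D13p1
import Pool.Agent.Lib.MP_afdd4d_co.K10.RP.Q13p1
import Pool.Agent.Lib.MP_afdd4d_co.K10.RP.W13
import Pool.Agent.Lib.MP_afdd4d_co.K10.RP.B03
import Pool.Agent.Lib.MP_afdd4d_co.K10.RP.B07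
import Pool.Agent.Lib.MP_afdd4d_co.K10.RP.B18
import Pool.Agent.Lib.MP_afdd4d_co.K10.RP.B24

/-!
# The far pairs of the coset number 13
-/

namespace Pool.Agent.Lib.MP_afdd4d_co.K10.RP

open K8 K10.RS

theorem t13_0 : ∀ x < 1024, Pt.chT D (Jv.jsE K8.RN.E13.z 0) (tE13 0) (tK13 0) (tS13 0) x = true :=
  chT_of b24 (tE13 0) (tK13 0) (tS13 0) 19 2 rfl (by decide) (by decide +kernel)

theorem t13_1 : ∀ x < 1024, Pt.chT D (Jv.jsE K8.RN.E13.z 1) (tE13 1) (tK13 1) (tS13 1) x = true :=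
  chT_of b03 (tE13 1) (tK13 1) (tS13 1) 0 6 rfl (by decide) (by decide +kernel)

theorem t13_2 : ∀ x < 1024, Pt.chT D (Jv.jsE K8.RN.E13.z 2) (tE13 2) (tK13 2) (tS13 2) x = true :=
  chT_of b07 (tE13 2) (tK13 2) (tS13 2) 0 7 rfl (by decide) (by decide +kernel)

theorem t13_3 : ∀ x < 1024, Pt.chT D (Jv.jsE K8.RN.E13.z 3) (tE13 3) (tK13 3) (tS13 3) x = true :=
  chT_of b18 (tE13 3) (tK13 3) (tS13 3) 0 9 rfl (by decide) (by decide +kernel)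

theorem t13_4 : ∀ x < 1024, Pt.chT D (Jv.jsE K8.RN.E13.z 4) (tE13 4) (tK13 4) (tS13 4) x = true :=
  chT_of b18 (tE13 4) (tK13 4) (tS13 4) 0 10 rfl (by decide) (by decide +kernel)

theorem t13_5 : ∀ x < 1024, Pt.chT D (Jv.jsE K8.RN.E13.z 5) (tE13 5) (tK13 5) (tS13 5) x = true :=
  chT_of b18 (tE13 5) (tK13 5) (tS13 5) 0 11 rfl (by decide) (by decide +kernel)

theorem t13_6 : ∀ x < 1024, Pt.chT D (Jv.jsE K8.RN.E13.z 6) (tE13 6) (tK13 6) (tS13 6) x = true :=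
  chT_of b24 (tE13 6) (tK13 6) (tS13 6) 0 3 rfl (by decide) (by decide +kernel)

theorem c13 : Pt.chN D K K1_13 K2_13 K4_13 = true := by decide +kernel

theorem out13 : Pt.FarY S K8.RN.E13.g.c 7 (Pt.Out X13) :=
  Pt.farY_out D D_w K K_eq K8.RN.E13.g K8.RN.E13.z K8.RN.E13.hg (rep_mem 13 (by decide) rfl) X13 okE13 okK13 okS13 c13
    K10.RN.r1_13 r2_13 (Pt.forall7 _ t13_0 t13_1 t13_2 t13_3 t13_4 t13_5 t13_6) r4_13

theorem t13p1_0 : ∀ x < 1024, Pt.chT D (Jv.jsE K8.RN.E13.z 0) (tE13p1 0) (tK13p1 0) (tS13p1 0) x = true :=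
  chT_of b24 (tE13p1 0) (tK13p1 0) (tS13p1 0) 19 4 rfl (by decide) (by decide +kernel)

theorem t13p1_1 : ∀ x < 1024, Pt.chT D (Jv.jsE K8.RN.E13.z 1) (tE13p1 1) (tK13p1 1) (tS13p1 1) x = true :=
  chT_of b03 (tE13p1 1) (tK13p1 1) (tS13p1 1) 0 7 rfl (by decide) (by decide +kernel)

theorem t13p1_2 : ∀ x < 1024, Pt.chT D (Jv.jsE K8.RN.E13.z 2) (tE13p1 2) (tK13p1 2) (tS13p1 2) x = true :=
  chT_of b07 (tE13p1 2) (tK13p1 2) (tS13p1 2) 0 8 rfl (by decide) (by decide +kernel)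

theorem t13p1_3 : ∀ x < 1024, Pt.chT D (Jv.jsE K8.RN.E13.z 3) (tE13p1 3) (tK13p1 3) (tS13p1 3) x = true :=
  chT_of b18 (tE13p1 3) (tK13p1 3) (tS13p1 3) 0 12 rfl (by decide) (by decide +kernel)

theorem t13p1_4 : ∀ x < 1024, Pt.chT D (Jv.jsE K8.RN.E13.z 4) (tE13p1 4) (tK13p1 4) (tS13p1 4) x = true :=
  chT_of b18 (tE13p1 4) (tK13p1 4) (tS13p1 4) 0 13 rfl (by decide) (by decide +kernel)

theorem t13p1_5 : ∀ x < 1024, Pt.chT D (Jv.jsE K8.RN.E13.z 5) (tE13p1 5) (tK13p1 5) (tS13p1 5) x = true :=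
  chT_of b18 (tE13p1 5) (tK13p1 5) (tS13p1 5) 0 14 rfl (by decide) (by decide +kernel)

theorem t13p1_6 : ∀ x < 1024, Pt.chT D (Jv.jsE K8.RN.E13.z 6) (tE13p1 6) (tK13p1 6) (tS13p1 6) x = true :=
  chT_of b24 (tE13p1 6) (tK13p1 6) (tS13p1 6) 0 5 rfl (by decide) (by decide +kernel)

theorem c13p1 : Pt.chN D K K1_13p1 K2_13p1 K4_13p1 = true := by decide +kernel

theorem y13p1 : Pt.FarY S K8.RN.E13.g.c 7 (fun y => y ∈ Y13p1) :=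
  Pt.farY_lst D D_w K K_eq K8.RN.E13.g K8.RN.E13.z K8.RN.E13.hg (rep_mem 13 (by decide) rfl) Y13p1 okE13p1 okK13p1 okS13p1 c13p1
    r1_13p1 r2_13p1 (Pt.forall7 _ t13p1_0 t13p1_1 t13p1_2 t13p1_3 t13p1_4 t13p1_5 t13p1_6) r4_13p1

theorem x13p1 : ∀ l ∈ X13p1, Pt.FarY S K8.RN.E13.g.c 7 (fun y => y ∈ l) :=
  Pt.tr_spec w0_13 y13p1 (fun _ h => h) w13p1

theorem far13 : Pt.Far S K8.RN.E13.g.c 7 := Pt.far_of_out out13 x13p1

end Pool.Agent.Lib.MP_afdd4d_co.K10.RP
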