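import Pool.Agent.Lib.MP_afdd4d_co.K10.RP.B25_0
import Pool.Agent.Lib.MP_afdd4d_co.K10.RP.B25_1

/-!
# The pairs of the class 25
-/

namespace Pool.Agent.Lib.MP_afdd4d_co.K10.RP

open K8 K10.RS

theorem b25 : ∀ y < 1024, ∀ e ∈ L25, Pt.leP D (D.tP (Nat.xor 8208 (Pt.fu y))) y e = true :=
  Pt.blk16 D (Pt.forall16' _ b25_0 b25_1 b25_2 b25_3 b25_4 b25_5 b25_6 b25_7 b25_8 b25_9 b25_10 b25_11 b25_12 b25_13 b25_14 b25_15)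

end Pool.Agent.Lib.MP_afdd4d_co.K10.RP
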