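import Pool.Agent.Lib.MP_afdd4d_co.K10.RP.B33_0
import Pool.Agent.Lib.MP_afdd4d_co.K10.RP.B33_1

/-!
# The pairs of the class 33
-/

namespace Pool.Agent.Lib.MP_afdd4d_co.K10.RP

open K8 K10.RS

theorem b33 : ∀ y < 1024, ∀ e ∈ L33, Pt.leP D (D.tP (Nat.xor 16400 (Pt.fu y))) y e = true :=
  Pt.blk16 D (Pt.forall16' _ b33_0 b33_1 b33_2 b33_3 b33_4 b33_5 b33_6 b33_7 b33_8 b33_9 b33_10 b33_11 b33_12 b33_13 b33_14 b33_15)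

end Pool.Agent.Lib.MP_afdd4d_co.K10.RP
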