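import Pool.Agent.Lib.MP_afdd4d_co.K10.RP.X14
import Pool.Agent.Lib.MP_afdd4d_co.K8.RN.E14
import Pool.Agent.Lib.MP_afdd4d_co.K10.RP.T14p1
import Pool.Agent.Lib.MP_afdd4d_co.K10.RP.T14p2

/-!
# The equivalences of the coset number 14
-/

namespace Pool.Agent.Lib.MP_afdd4d_co.K10.RP

open K8

set_option maxRecDepth 100000

theorem w0_14 : Pt.c0 K8.RN.E14.g.c = true := by decide +kernel

/-- The permutations of the part 1. -/
def P14p1 : List (List ℕ) := [
  [1754760, 1525328],
  [1754760, 1525328],
  [1754760, 1751176, 1525328, 1521744],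
  [1754760, 1525328],
  [1754760, 1525328],
  [1754760, 1751176, 1525328, 1521744],
  [1754760, 1525328],
  [1754760, 1525328],
  [1754760, 1751176, 1525328, 1521744],
  [1754760, 1751176, 1525328, 1521744],
  [1754760, 1525328],
  [1754760, 1751176, 1525328, 1521744],
  [1754760, 1751176, 1525328, 1521744],
  [1754760, 1751176, 1525328, 1521744],
  [1754760, 1751176, 1525328, 1521744],
  [1754760, 1751176, 1525328, 1521744],
  [1754760, 1751176, 1525328, 1521744],
  [1754760, 1751176, 1525328, 1521744],
  [1754760, 1751176, 1525328, 1521744],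
  [1754760, 1751176, 1525328, 1521744],
  [1754760, 1751176, 1525328, 1521744],
  [1754760, 1751176, 1525328, 1521744],
  [1754760, 1751176, 1525328, 1521744],
  [1754760, 1751176, 1525328, 1521744],
  [1754760, 1751176, 1525328, 1521744],
  [1754760, 1751176, 1525328, 1521744],
  [1754760, 1751176, 1525328, 1521744],
  [1754760, 1751176, 1525328, 1521744],
  [1754760, 1751176, 1525328, 1521744],
  [1754760, 1751176, 1525328, 1521744],
  [1754760, 1751176, 1525328, 1521744],
  [1754760, 1751176, 1525328, 1521744],
  [1754760, 1751176, 1525328, 1521744],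
  [1754760, 1525328],
  [1754760, 1751176, 1525328, 1521744],
  [1754760, 1525328],
  [1754760, 1751176, 1525328, 1521744],
  [1754760, 1525328],
  [1754760, 1751176, 1525328, 1521744],
  [1754760, 1751176, 1525328, 1521744],
  [1754760, 1525328],
  [1754760, 1525328],
  [1754760, 1525328],
  [1754760, 1525328],
  [1754760, 1525328],
  [1754760, 1751176, 1525328, 1521744],
  [1754760, 1525328],
  [1754760, 1525328],
  [1754760, 1525328],
  [1754760, 1525328],
  [1754760, 1525328],
  [1754760, 1751176, 1525328, 1521744],
  [1754760, 1751176, 1525328, 1521744],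
  [1754760, 1751176, 1525328, 1521744],
  [1754760, 1751176, 1525328, 1521744],
  [1754760, 1751176, 1525328, 1521744],
  [1754760, 1751176, 1525328, 1521744],
  [1754760, 1751176, 1525328, 1521744],
  [1754760, 1751176, 1525328, 1521744],
  [1754760, 1751176, 1525328, 1521744],
  [1754760, 1751176, 1525328, 1521744],
  [1754760, 1751176, 1525328, 1521744],
  [1754760, 1751176, 1525328, 1521744],
  [1754760, 1751176, 1525328, 1521744]]

theorem w14p1 : Pt.tr K8.RN.E14.g.c Y14p1 X14p1 P14p1 = true := by decide +kernel

/-- The permutations of the part 2. -/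
def P14p2 : List (List ℕ) := [
  [1754760, 1525328],
  [1754760, 1751176, 1525328, 1521744],
  [1754760, 1751176, 1525328, 1521744],
  [1754760, 1751176, 1525328, 1521744],
  [1754760, 1751176, 1525328, 1521744],
  [1754760, 1525328],
  [1754760, 1525328],
  [1754760, 1751176, 1525328, 1521744],
  [1754760, 1525328],
  [1754760, 1525328],
  [1754760, 1751176, 1525328, 1521744],
  [1754760, 1751176, 1525328, 1521744],
  [1754760, 1751176, 1525328, 1521744],
  [1754760, 1751176, 1525328, 1521744],
  [1754760, 1751176, 1525328, 1521744],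
  [1754760, 1525328],
  [1754760, 1525328],
  [1754760, 1751176, 1525328, 1521744],
  [1754760, 1751176, 1525328, 1521744],
  [1754760, 1751176, 1525328, 1521744],
  [1754760, 1751176],
  [1754760, 1751176, 1525328, 1521744],
  [1754760, 1751176, 1525328, 1521744],
  [1754760, 1525328],
  [1754760, 1525328],
  [1754760, 1751176, 1525328, 1521744]]

theorem w14p2 : Pt.tr K8.RN.E14.g.c Y14p2 X14p2 P14p2 = true := by decide +kernel

end Pool.Agent.Lib.MP_afdd4d_co.K10.RP
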