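import Pool.Agent.Lib.MP_afdd4d_co.K10.RN.Q14
import Pool.Agent.Lib.MP_afdd4d_co.K10.RP.Blk
import Pool.Agent.Lib.MP_afdd4d_co.K10.RP.E14
import Pool.Agent.Lib.MP_afdd4d_co.K10.RP.D14
import Pool.Agent.Lib.MP_afdd4d_co.K10.RP.E14p1
import Pool.Agent.Lib.MP_afdd4d_co.K10.RP.D14p1
import Pool.Agent.Lib.MP_afdd4d_co.K10.RP.Q14p1
import Pool.Agent.Lib.MP_afdd4d_co.K10.RP.E14p2
import Pool.Agent.Lib.MP_afdd4d_co.K10.RP.D14p2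
import Pool.Agent.Lib.MP_afdd4d_co.K10.RP.Q14p2
import Pool.Agent.Lib.MP_afdd4d_co.K10.RP.W14
import Pool.Agent.Lib.MP_afdd4d_co.K10.RP.B07
import Pool.Agent.Lib.MP_afdd4d_co.K10.RP.B12
import Pool.Agent.Lib.MP_afdd4d_co.K10.RP.B16
import Pool.Agent.Lib.MP_afdd4d_co.K10.RP.B25
import Pool.Agent.Lib.MP_afdd4d_co.K10.RP.B33
import Pool.Agent.Lib.MP_afdd4d_co.K10.RP.B45

/-!
# The far pairs of the coset number 14
-/

namespace Pool.Agent.Lib.MP_afdd4d_co.K10.RP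

open K8 K10.RS

theorem t14_0 : ∀ x < 1024, Pt.chT D (Jv.jsE K8.RN.E14.z 0) (tE14 0) (tK14 0) (tS14 0) x = true :=
  chT_of b45 (tE14 0) (tK14 0) (tS14 0) 20 3 rfl (by decide) (by decide +kernel)

theorem t14_1 : ∀ x < 1024, Pt.chT D (Jv.jsE K8.RN.E14.z 1) (tE14 1) (tK14 1) (tS14 1) x = true :=
  chT_of b07 (tE14 1) (tK14 1) (tS14 1) 0 9 rfl (by decide) (by decide +kernel)

theorem t14_2 : ∀ x < 1024, Pt.chT D (Jv.jsE K8.RN.E14.z 2) (tE14 2) (tK14 2) (tS14 2) x = true :=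
  chT_of b12 (tE14 2) (tK14 2) (tS14 2) 0 13 rfl (by decide) (by decide +kernel)

theorem t14_3 : ∀ x < 1024, Pt.chT D (Jv.jsE K8.RN.E14.z 3) (tE14 3) (tK14 3) (tS14 3) x = true :=
  chT_of b16 (tE14 3) (tK14 3) (tS14 3) 0 7 rfl (by decide) (by decide +kernel)

theorem t14_4 : ∀ x < 1024, Pt.chT D (Jv.jsE K8.RN.E14.z 4) (tE14 4) (tK14 4) (tS14 4) x = true :=
  chT_of b16 (tE14 4) (tK14 4) (tS14 4) 0 8 rfl (by decide) (by decide +kernel)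

theorem t14_5 : ∀ x < 1024, Pt.chT D (Jv.jsE K8.RN.E14.z 5) (tE14 5) (tK14 5) (tS14 5) x = true :=
  chT_of b25 (tE14 5) (tK14 5) (tS14 5) 0 0 rfl (by decide) (by decide +kernel)

theorem t14_6 : ∀ x < 1024, Pt.chT D (Jv.jsE K8.RN.E14.z 6) (tE14 6) (tK14 6) (tS14 6) x = true :=
  chT_of b33 (tE14 6) (tK14 6) (tS14 6) 0 0 rfl (by decide) (by decide +kernel)

theorem c14 : Pt.chN D K K1_14 K2_14 K4_14 = true := by decide +kernel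

theorem out14 : Pt.FarY S K8.RN.E14.g.c 7 (Pt.Out X14) :=
  Pt.farY_out D D_w K K_eq K8.RN.E14.g K8.RN.E14.z K8.RN.E14.hg (rep_mem 14 (by decide) rfl) X14 okE14 okK14 okS14 c14
    K10.RN.r1_14 r2_14 (Pt.forall7 _ t14_0 t14_1 t14_2 t14_3 t14_4 t14_5 t14_6) r4_14

theorem t14p1_0 : ∀ x < 1024, Pt.chT D (Jv.jsE K8.RN.E14.z 0) (tE14p1 0) (tK14p1 0) (tS14p1 0) x = true :=
  chT_of b45 (tE14p1 0) (tK14p1 0) (tS14p1 0) 20 4 rfl (by decide) (by decide +kernel)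

theorem t14p1_1 : ∀ x < 1024, Pt.chT D (Jv.jsE K8.RN.E14.z 1) (tE14p1 1) (tK14p1 1) (tS14p1 1) x = true :=
  chT_of b07 (tE14p1 1) (tK14p1 1) (tS14p1 1) 0 10 rfl (by decide) (by decide +kernel)

theorem t14p1_2 : ∀ x < 1024, Pt.chT D (Jv.jsE K8.RN.E14.z 2) (tE14p1 2) (tK14p1 2) (tS14p1 2) x = true :=
  chT_of b12 (tE14p1 2) (tK14p1 2) (tS14p1 2) 0 14 rfl (by decide) (by decide +kernel)

theorem t14p1_3 : ∀ x < 1024, Pt.chT D (Jv.jsE K8.RN.E14.z 3) (tE14p1 3) (tK14p1 3) (tS14p1 3) x = true :=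
  chT_of b16 (tE14p1 3) (tK14p1 3) (tS14p1 3) 0 9 rfl (by decide) (by decide +kernel)

theorem t14p1_4 : ∀ x < 1024, Pt.chT D (Jv.jsE K8.RN.E14.z 4) (tE14p1 4) (tK14p1 4) (tS14p1 4) x = true :=
  chT_of b16 (tE14p1 4) (tK14p1 4) (tS14p1 4) 0 10 rfl (by decide) (by decide +kernel)

theorem t14p1_5 : ∀ x < 1024, Pt.chT D (Jv.jsE K8.RN.E14.z 5) (tE14p1 5) (tK14p1 5) (tS14p1 5) x = true :=
  chT_of b25 (tE14p1 5) (tK14p1 5) (tS14p1 5) 0 1 rfl (by decide) (by decide +kernel)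

theorem t14p1_6 : ∀ x < 1024, Pt.chT D (Jv.jsE K8.RN.E14.z 6) (tE14p1 6) (tK14p1 6) (tS14p1 6) x = true :=
  chT_of b33 (tE14p1 6) (tK14p1 6) (tS14p1 6) 0 1 rfl (by decide) (by decide +kernel)

theorem c14p1 : Pt.chN D K K1_14p1 K2_14p1 K4_14p1 = true := by decide +kernel

theorem y14p1 : Pt.FarY S K8.RN.E14.g.c 7 (fun y => y ∈ Y14p1) :=
  Pt.farY_lst D D_w K K_eq K8.RN.E14.g K8.RN.E14.z K8.RN.E14.hg (rep_mem 14 (by decide) rfl) Y14p1 okE14p1 okK14p1 okS14p1 c14p1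
    r1_14p1 r2_14p1 (Pt.forall7 _ t14p1_0 t14p1_1 t14p1_2 t14p1_3 t14p1_4 t14p1_5 t14p1_6) r4_14p1

theorem x14p1 : ∀ l ∈ X14p1, Pt.FarY S K8.RN.E14.g.c 7 (fun y => y ∈ l) :=
  Pt.tr_spec w0_14 y14p1 (fun _ h => h) w14p1

theorem t14p2_0 : ∀ x < 1024, Pt.chT D (Jv.jsE K8.RN.E14.z 0) (tE14p2 0) (tK14p2 0) (tS14p2 0) x = true :=
  chT_of b45 (tE14p2 0) (tK14p2 0) (tS14p2 0) 20 5 rfl (by decide) (by decide +kernel)

theorem t14p2_1 : ∀ x < 1024, Pt.chT D (Jv.jsE K8.RN.E14.z 1) (tE14p2 1) (tK14p2 1) (tS14p2 1) x = true :=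
  chT_of b07 (tE14p2 1) (tK14p2 1) (tS14p2 1) 0 11 rfl (by decide) (by decide +kernel)

theorem t14p2_2 : ∀ x < 1024, Pt.chT D (Jv.jsE K8.RN.E14.z 2) (tE14p2 2) (tK14p2 2) (tS14p2 2) x = true :=
  chT_of b12 (tE14p2 2) (tK14p2 2) (tS14p2 2) 0 15 rfl (by decide) (by decide +kernel)

theorem t14p2_3 : ∀ x < 1024, Pt.chT D (Jv.jsE K8.RN.E14.z 3) (tE14p2 3) (tK14p2 3) (tS14p2 3) x = true :=
  chT_of b16 (tE14p2 3) (tK14p2 3) (tS14p2 3) 0 11 rfl (by decide) (by decide +kernel)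

theorem t14p2_4 : ∀ x < 1024, Pt.chT D (Jv.jsE K8.RN.E14.z 4) (tE14p2 4) (tK14p2 4) (tS14p2 4) x = true :=
  chT_of b16 (tE14p2 4) (tK14p2 4) (tS14p2 4) 0 12 rfl (by decide) (by decide +kernel)

theorem t14p2_5 : ∀ x < 1024, Pt.chT D (Jv.jsE K8.RN.E14.z 5) (tE14p2 5) (tK14p2 5) (tS14p2 5) x = true :=
  chT_of b25 (tE14p2 5) (tK14p2 5) (tS14p2 5) 0 2 rfl (by decide) (by decide +kernel)

theorem t14p2_6 : ∀ x < 1024, Pt.chT D (Jv.jsE K8.RN.E14.z 6) (tE14p2 6) (tK14p2 6) (tS14p2 6) x = true :=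
  chT_of b33 (tE14p2 6) (tK14p2 6) (tS14p2 6) 0 2 rfl (by decide) (by decide +kernel)

theorem c14p2 : Pt.chN D K K1_14p2 K2_14p2 K4_14p2 = true := by decide +kernel

theorem y14p2 : Pt.FarY S K8.RN.E14.g.c 7 (fun y => y ∈ Y14p2) :=
  Pt.farY_lst D D_w K K_eq K8.RN.E14.g K8.RN.E14.z K8.RN.E14.hg (rep_mem 14 (by decide) rfl) Y14p2 okE14p2 okK14p2 okS14p2 c14p2
    r1_14p2 r2_14p2 (Pt.forall7 _ t14p2_0 t14p2_1 t14p2_2 t14p2_3 t14p2_4 t14p2_5 t14p2_6) r4_14p2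

theorem x14p2 : ∀ l ∈ X14p2, Pt.FarY S K8.RN.E14.g.c 7 (fun y => y ∈ l) :=
  Pt.tr_spec w0_14 y14p2 (fun _ h => h) w14p2

theorem far14 : Pt.Far S K8.RN.E14.g.c 7 := Pt.far_of_out out14 (Pt.farY_all x14p1 x14p2)

end Pool.Agent.Lib.MP_afdd4d_co.K10.RP
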