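import Pool.Agent.Lib.MP_afdd4d_co.K10.RN.Q15
import Pool.Agent.Lib.MP_afdd4d_co.K10.RP.Blk
import Pool.Agent.Lib.MP_afdd4d_co.K10.RP.E15
import Pool.Agent.Lib.MP_afdd4d_co.K10.RP.D15
import Pool.Agent.Lib.MP_afdd4d_co.K10.RP.B07
import Pool.Agent.Lib.MP_afdd4d_co.K10.RP.B46

/-!
# The far pairs of the coset number 15
-/

namespace Pool.Agent.Lib.MP_afdd4d_co.K10.RP

open K8 K10.RS

theorem t15_0 : ∀ x < 1024, Pt.chT D (Jv.jsE K8.RN.E15.z 0) (tE15 0) (tK15 0) (tS15 0) x = true :=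
  chT_of b46 (tE15 0) (tK15 0) (tS15 0) 0 4 rfl (by decide) (by decide +kernel)

theorem t15_1 : ∀ x < 1024, Pt.chT D (Jv.jsE K8.RN.E15.z 1) (tE15 1) (tK15 1) (tS15 1) x = true :=
  chT_of b07 (tE15 1) (tK15 1) (tS15 1) 0 12 rfl (by decide) (by decide +kernel)

theorem t15_2 : ∀ x < 1024, Pt.chT D (Jv.jsE K8.RN.E15.z 2) (tE15 2) (tK15 2) (tS15 2) x = true :=
  chT_of b07 (tE15 2) (tK15 2) (tS15 2) 0 13 rfl (by decide) (by decide +kernel)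

theorem t15_3 : ∀ x < 1024, Pt.chT D (Jv.jsE K8.RN.E15.z 3) (tE15 3) (tK15 3) (tS15 3) x = true :=
  chT_of b07 (tE15 3) (tK15 3) (tS15 3) 0 14 rfl (by decide) (by decide +kernel)

theorem t15_4 : ∀ x < 1024, Pt.chT D (Jv.jsE K8.RN.E15.z 4) (tE15 4) (tK15 4) (tS15 4) x = true :=
  chT_of b07 (tE15 4) (tK15 4) (tS15 4) 0 15 rfl (by decide) (by decide +kernel)

theorem t15_5 : ∀ x < 1024, Pt.chT D (Jv.jsE K8.RN.E15.z 5) (tE15 5) (tK15 5) (tS15 5) x = true :=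
  chT_of b07 (tE15 5) (tK15 5) (tS15 5) 0 16 rfl (by decide) (by decide +kernel)

theorem t15_6 : ∀ x < 1024, Pt.chT D (Jv.jsE K8.RN.E15.z 6) (tE15 6) (tK15 6) (tS15 6) x = true :=
  chT_of b46 (tE15 6) (tK15 6) (tS15 6) 0 5 rfl (by decide) (by decide +kernel)

theorem c15 : Pt.chN D K K1_15 K2_15 K4_15 = true := by decide +kernel

theorem out15 : Pt.FarY S K8.RN.E15.g.c 7 (Pt.Out X15) :=
  Pt.farY_out D D_w K K_eq K8.RN.E15.g K8.RN.E15.z K8.RN.E15.hg (rep_mem 15 (by decide) rfl) X15 okE15 okK15 okS15 c15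
    K10.RN.r1_15 r2_15 (Pt.forall7 _ t15_0 t15_1 t15_2 t15_3 t15_4 t15_5 t15_6) r4_15

theorem far15 : Pt.Far S K8.RN.E15.g.c 7 := Pt.far_of_out out15 (fun l hl => absurd hl List.not_mem_nil)

end Pool.Agent.Lib.MP_afdd4d_co.K10.RP
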