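import Pool.Agent.Lib.MP_afdd4d_co.K10.RP.B44_0
import Pool.Agent.Lib.MP_afdd4d_co.K10.RP.B44_1

/-!
# The pairs of the class 44
-/

namespace Pool.Agent.Lib.MP_afdd4d_co.K10.RP

open K8 K10.RS

theorem b44 : ∀ y < 1024, ∀ e ∈ L44, Pt.leP D (D.tP (Nat.xor 26640 (Pt.fu y))) y e = true :=
  Pt.blk16 D (Pt.forall16' _ b44_0 b44_1 b44_2 b44_3 b44_4 b44_5 b44_6 b44_7 b44_8 b44_9 b44_10 b44_11 b44_12 b44_13 b44_14 b44_15)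

end Pool.Agent.Lib.MP_afdd4d_co.K10.RP
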