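import Pool.Agent.Lib.MP_afdd4d_co.K10.RP.X16
import Pool.Agent.Lib.MP_afdd4d_co.K8.RN.E16
import Pool.Agent.Lib.MP_afdd4d_co.K10.RP.T16p1

/-!
# The equivalences of the coset number 16
-/

namespace Pool.Agent.Lib.MP_afdd4d_co.K10.RP

open K8

set_option maxRecDepth 100000

theorem w0_16 : Pt.c0 K8.RN.E16.g.c = true := by decide +kernel

/-- The permutations of the part 1. -/
def P16p1 : List (List ℕ) := [
  [1754760, 1754312, 1754704, 1753808, 1754200, 1753752, 153230, 152782, 153174, 152278, 152670, 152222],
  [1754760, 1754312, 1753808, 153230, 152782, 152278],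
  [1754760, 1754704, 1754200, 153230, 153174, 152670],
  [1754760, 1754704, 1754200, 153230, 153174, 152670],
  [1754760, 1754704, 1754200, 153230, 153174, 152670],
  [1754760],
  [1754760, 1754704, 1754200, 153230, 153174, 152670],
  [1754760, 1754704, 1754200, 153230, 153174, 152670],
  [1754760, 1754704, 1754200, 153230, 153174, 152670],
  [1754760, 1754312, 1754704, 1753808, 1754200, 1753752, 153230, 152782, 153174, 152278, 152670, 152222],
  [1754760, 1754704, 1754200, 153230, 153174, 152670],
  [1754760, 1754704, 1754200, 153230, 153174, 152670],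
  [1754760, 1754704, 1754200, 153230, 153174, 152670],
  [1754760, 1754704, 1754200, 153230, 153174, 152670],
  [1754760, 1754704, 1754200, 153230, 153174, 152670],
  [1754760, 1754704, 1754200, 153230, 153174, 152670],
  [1754760, 1754312, 1754704, 1753808, 1754200, 1753752, 153230, 152782, 153174, 152278, 152670, 152222],
  [1754760, 1754312, 1754704, 1753808, 1754200, 1753752, 153230, 152782, 153174, 152278, 152670, 152222],
  [1754760, 1754704, 1754200, 153230, 153174, 152670],
  [1754760, 1754312, 1754704, 1753808, 1754200, 1753752, 153230, 152782, 153174, 152278, 152670, 152222],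
  [1754760, 1754704, 1754200, 153230, 153174, 152670],
  [1754760, 1754312, 1754704, 153230, 152782, 153174],
  [1754760, 1754312, 1754704, 1753808, 1754200, 1753752, 153230, 152782, 153174, 152278, 152670, 152222],
  [1754760, 1754704, 1754200, 153230, 153174, 152670],
  [1754760, 1754704, 1754200, 153230, 153174, 152670],
  [1754760, 1754312, 1754704, 153230, 152782, 153174],
  [1754760, 1754312, 1754704, 153230, 152782, 153174],
  [1754760, 1754312, 1754704, 153230, 152782, 153174],
  [1754760, 1754312, 1754704, 153230, 152782, 153174],
  [1754760, 1754312, 1754704, 1753808, 1754200, 1753752, 153230, 152782, 153174, 152278, 152670, 152222],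
  [1754760, 1754312, 1754704, 1753808, 1754200, 1753752, 153230, 152782, 153174, 152278, 152670, 152222]]

theorem w16p1 : Pt.tr K8.RN.E16.g.c Y16p1 X16p1 P16p1 = true := by decide +kernel

end Pool.Agent.Lib.MP_afdd4d_co.K10.RP
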