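import Pool.Agent.Lib.MP_afdd4d_co.K10.RN.Q16
import Pool.Agent.Lib.MP_afdd4d_co.K10.RP.Blk
import Pool.Agent.Lib.MP_afdd4d_co.K10.RP.E16
import Pool.Agent.Lib.MP_afdd4d_co.K10.RP.D16
import Pool.Agent.Lib.MP_afdd4d_co.K10.RP.E16p1
import Pool.Agent.Lib.MP_afdd4d_co.K10.RP.D16p1
import Pool.Agent.Lib.MP_afdd4d_co.K10.RP.Q16p1
import Pool.Agent.Lib.MP_afdd4d_co.K10.RP.W16
import Pool.Agent.Lib.MP_afdd4d_co.K10.RP.B07
import Pool.Agent.Lib.MP_afdd4d_co.K10.RP.B08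
import Pool.Agent.Lib.MP_afdd4d_co.K10.RP.B12
import Pool.Agent.Lib.MP_afdd4d_co.K10.RP.B15
import Pool.Agent.Lib.MP_afdd4d_co.K10.RP.B44
import Pool.Agent.Lib.MP_afdd4d_co.K10.RP.B45

/-!
# The far pairs of the coset number 16
-/

namespace Pool.Agent.Lib.MP_afdd4d_co.K10.RP

open K8 K10.RS

theorem t16_0 : ∀ x < 1024, Pt.chT D (Jv.jsE K8.RN.E16.z 0) (tE16 0) (tK16 0) (tS16 0) x = true :=
  chT_of b45 (tE16 0) (tK16 0) (tS16 0) 1 6 rfl (by decide) (by decide +kernel)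

theorem t16_1 : ∀ x < 1024, Pt.chT D (Jv.jsE K8.RN.E16.z 1) (tE16 1) (tK16 1) (tS16 1) x = true :=
  chT_of b07 (tE16 1) (tK16 1) (tS16 1) 0 17 rfl (by decide) (by decide +kernel)

theorem t16_2 : ∀ x < 1024, Pt.chT D (Jv.jsE K8.RN.E16.z 2) (tE16 2) (tK16 2) (tS16 2) x = true :=
  chT_of b07 (tE16 2) (tK16 2) (tS16 2) 0 18 rfl (by decide) (by decide +kernel)

theorem t16_3 : ∀ x < 1024, Pt.chT D (Jv.jsE K8.RN.E16.z 3) (tE16 3) (tK16 3) (tS16 3) x = true :=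
  chT_of b07 (tE16 3) (tK16 3) (tS16 3) 0 19 rfl (by decide) (by decide +kernel)

theorem t16_4 : ∀ x < 1024, Pt.chT D (Jv.jsE K8.RN.E16.z 4) (tE16 4) (tK16 4) (tS16 4) x = true :=
  chT_of b12 (tE16 4) (tK16 4) (tS16 4) 0 16 rfl (by decide) (by decide +kernel)

theorem t16_5 : ∀ x < 1024, Pt.chT D (Jv.jsE K8.RN.E16.z 5) (tE16 5) (tK16 5) (tS16 5) x = true :=
  chT_of b15 (tE16 5) (tK16 5) (tS16 5) 0 4 rfl (by decide) (by decide +kernel)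

theorem t16_6 : ∀ x < 1024, Pt.chT D (Jv.jsE K8.RN.E16.z 6) (tE16 6) (tK16 6) (tS16 6) x = true :=
  chT_of b44 (tE16 6) (tK16 6) (tS16 6) 0 0 rfl (by decide) (by decide +kernel)

theorem c16 : Pt.chN D K K1_16 K2_16 K4_16 = true := by decide +kernel

theorem out16 : Pt.FarY S K8.RN.E16.g.c 7 (Pt.Out X16) :=
  Pt.farY_out D D_w K K_eq K8.RN.E16.g K8.RN.E16.z K8.RN.E16.hg (rep_mem 16 (by decide) rfl) X16 okE16 okK16 okS16 c16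
    K10.RN.r1_16 r2_16 (Pt.forall7 _ t16_0 t16_1 t16_2 t16_3 t16_4 t16_5 t16_6) r4_16

theorem t16p1_0 : ∀ x < 1024, Pt.chT D (Jv.jsE K8.RN.E16.z 0) (tE16p1 0) (tK16p1 0) (tS16p1 0) x = true :=
  chT_of b45 (tE16p1 0) (tK16p1 0) (tS16p1 0) 1 7 rfl (by decide) (by decide +kernel)

theorem t16p1_1 : ∀ x < 1024, Pt.chT D (Jv.jsE K8.RN.E16.z 1) (tE16p1 1) (tK16p1 1) (tS16p1 1) x = true :=
  chT_of b07 (tE16p1 1) (tK16p1 1) (tS16p1 1) 0 20 rfl (by decide) (by decide +kernel)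

theorem t16p1_2 : ∀ x < 1024, Pt.chT D (Jv.jsE K8.RN.E16.z 2) (tE16p1 2) (tK16p1 2) (tS16p1 2) x = true :=
  chT_of b08 (tE16p1 2) (tK16p1 2) (tS16p1 2) 0 0 rfl (by decide) (by decide +kernel)

theorem t16p1_3 : ∀ x < 1024, Pt.chT D (Jv.jsE K8.RN.E16.z 3) (tE16p1 3) (tK16p1 3) (tS16p1 3) x = true :=
  chT_of b08 (tE16p1 3) (tK16p1 3) (tS16p1 3) 0 1 rfl (by decide) (by decide +kernel)

theorem t16p1_4 : ∀ x < 1024, Pt.chT D (Jv.jsE K8.RN.E16.z 4) (tE16p1 4) (tK16p1 4) (tS16p1 4) x = true :=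
  chT_of b12 (tE16p1 4) (tK16p1 4) (tS16p1 4) 0 17 rfl (by decide) (by decide +kernel)

theorem t16p1_5 : ∀ x < 1024, Pt.chT D (Jv.jsE K8.RN.E16.z 5) (tE16p1 5) (tK16p1 5) (tS16p1 5) x = true :=
  chT_of b15 (tE16p1 5) (tK16p1 5) (tS16p1 5) 0 5 rfl (by decide) (by decide +kernel)

theorem t16p1_6 : ∀ x < 1024, Pt.chT D (Jv.jsE K8.RN.E16.z 6) (tE16p1 6) (tK16p1 6) (tS16p1 6) x = true :=
  chT_of b44 (tE16p1 6) (tK16p1 6) (tS16p1 6) 0 1 rfl (by decide) (by decide +kernel)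

theorem c16p1 : Pt.chN D K K1_16p1 K2_16p1 K4_16p1 = true := by decide +kernel

theorem y16p1 : Pt.FarY S K8.RN.E16.g.c 7 (fun y => y ∈ Y16p1) :=
  Pt.farY_lst D D_w K K_eq K8.RN.E16.g K8.RN.E16.z K8.RN.E16.hg (rep_mem 16 (by decide) rfl) Y16p1 okE16p1 okK16p1 okS16p1 c16p1
    r1_16p1 r2_16p1 (Pt.forall7 _ t16p1_0 t16p1_1 t16p1_2 t16p1_3 t16p1_4 t16p1_5 t16p1_6) r4_16p1

theorem x16p1 : ∀ l ∈ X16p1, Pt.FarY S K8.RN.E16.g.c 7 (fun y => y ∈ l) :=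
  Pt.tr_spec w0_16 y16p1 (fun _ h => h) w16p1

theorem far16 : Pt.Far S K8.RN.E16.g.c 7 := Pt.far_of_out out16 x16p1

end Pool.Agent.Lib.MP_afdd4d_co.K10.RP
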