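import Pool.Agent.Lib.MP_afdd4d_co.K10.RP.B27_0
import Pool.Agent.Lib.MP_afdd4d_co.K10.RP.B27_1

/-!
# The pairs of the class 27
-/

namespace Pool.Agent.Lib.MP_afdd4d_co.K10.RP

open K8 K10.RS

theorem b27 : ∀ y < 1024, ∀ e ∈ L27, Pt.leP D (D.tP (Nat.xor 8464 (Pt.fu y))) y e = true :=
  Pt.blk16 D (Pt.forall16' _ b27_0 b27_1 b27_2 b27_3 b27_4 b27_5 b27_6 b27_7 b27_8 b27_9 b27_10 b27_11 b27_12 b27_13 b27_14 b27_15)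

end Pool.Agent.Lib.MP_afdd4d_co.K10.RP
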