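import Pool.Agent.Lib.MP_afdd4d_co.K10.RP.B29_0
import Pool.Agent.Lib.MP_afdd4d_co.K10.RP.B29_1

/-!
# The pairs of the class 29
-/

namespace Pool.Agent.Lib.MP_afdd4d_co.K10.RP

open K8 K10.RS

theorem b29 : ∀ y < 1024, ∀ e ∈ L29, Pt.leP D (D.tP (Nat.xor 10256 (Pt.fu y))) y e = true :=
  Pt.blk16 D (Pt.forall16' _ b29_0 b29_1 b29_2 b29_3 b29_4 b29_5 b29_6 b29_7 b29_8 b29_9 b29_10 b29_11 b29_12 b29_13 b29_14 b29_15)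

end Pool.Agent.Lib.MP_afdd4d_co.K10.RP
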