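import Pool.Agent.Lib.MP_afdd4d_co.K10.RP.X17
import Pool.Agent.Lib.MP_afdd4d_co.K8.RN.E17
import Pool.Agent.Lib.MP_afdd4d_co.K10.RP.T17p1

/-!
# The equivalences of the coset number 17
-/

namespace Pool.Agent.Lib.MP_afdd4d_co.K10.RP

open K8

set_option maxRecDepth 100000

theorem w0_17 : Pt.c0 K8.RN.E17.g.c = true := by decide +kernel

/-- The permutations of the part 1. -/
def P17p1 : List (List ℕ) := [
  [1754760, 207053, 178318],
  [1754760, 1524936, 207053, 1582861, 178318, 1324302],
  [1754760, 1524936, 207053, 1582861, 178318, 1324302],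
  [1754760, 1524936, 207053, 1582861, 178318, 1324302],
  [1754760, 1524936, 207053, 1582861, 178318, 1324302],
  [1754760, 1524936, 207053, 1582861, 178318, 1324302],
  [1754760, 1524936, 207053, 1582861, 178318, 1324302],
  [1754760, 1524936, 207053, 1582861, 178318, 1324302],
  [1754760, 1524936, 207053, 1582861, 178318, 1324302],
  [1754760, 1524936, 207053, 1582861, 178318, 1324302],
  [1754760, 1524936, 207053, 1582861, 178318, 1324302],
  [1754760, 1524936, 207053, 1582861, 178318, 1324302],
  [1754760, 1524936, 207053, 1582861, 178318, 1324302],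
  [1754760, 1524936, 207053, 1582861, 178318, 1324302],
  [1754760, 1524936, 207053, 1582861, 178318, 1324302],
  [1754760, 1524936, 207053, 1582861, 178318, 1324302],
  [1754760, 1524936, 207053, 1582861, 178318, 1324302],
  [1754760, 1524936, 207053, 1582861, 178318, 1324302],
  [1754760, 1524936, 207053, 1582861, 178318, 1324302],
  [1754760, 1524936, 207053, 1582861, 178318, 1324302],
  [1754760, 1524936, 207053, 1582861, 178318, 1324302],
  [1754760, 1524936, 207053, 1582861, 178318, 1324302],
  [1754760, 1524936, 1582861],
  [1754760, 207053, 178318],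
  [1754760, 1524936, 207053, 1582861, 178318, 1324302],
  [1754760, 1524936, 207053, 1582861, 178318, 1324302],
  [1754760, 1524936, 207053, 1582861, 178318, 1324302],
  [1754760, 1524936, 207053, 1582861, 178318, 1324302],
  [1754760, 1524936, 207053, 1582861, 178318, 1324302],
  [1754760, 1524936, 207053, 1582861, 178318, 1324302],
  [1754760, 1524936, 207053, 1582861, 178318, 1324302],
  [1754760, 1524936, 207053, 1582861, 178318, 1324302],
  [1754760, 1524936, 207053, 1582861, 178318, 1324302],
  [1754760, 1524936, 207053, 1582861, 178318, 1324302],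
  [1754760, 1524936, 207053, 1582861, 178318, 1324302],
  [1754760, 1524936, 207053, 1582861, 178318, 1324302],
  [1754760, 1524936, 207053, 1582861, 178318, 1324302],
  [1754760, 1524936, 207053, 1582861, 178318, 1324302],
  [1754760, 1524936, 207053, 1582861, 178318, 1324302],
  [1754760, 1524936, 207053, 1582861, 178318, 1324302],
  [1754760, 1524936, 1582861],
  [1754760, 1524936, 1582861],
  [1754760, 1524936, 207053, 1582861, 178318, 1324302],
  [1754760, 1524936, 207053, 1582861, 178318, 1324302],
  [1754760, 1524936, 207053, 1582861, 178318, 1324302],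
  [1754760, 1524936, 207053, 1582861, 178318, 1324302]]

theorem w17p1 : Pt.tr K8.RN.E17.g.c Y17p1 X17p1 P17p1 = true := by decide +kernel

end Pool.Agent.Lib.MP_afdd4d_co.K10.RP
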