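import Pool.Agent.Lib.MP_afdd4d_co.K10.RN.Q17
import Pool.Agent.Lib.MP_afdd4d_co.K10.RP.Blk
import Pool.Agent.Lib.MP_afdd4d_co.K10.RP.E17
import Pool.Agent.Lib.MP_afdd4d_co.K10.RP.D17
import Pool.Agent.Lib.MP_afdd4d_co.K10.RP.E17p1
import Pool.Agent.Lib.MP_afdd4d_co.K10.RP.D17p1
import Pool.Agent.Lib.MP_afdd4d_co.K10.RP.Q17p1
import Pool.Agent.Lib.MP_afdd4d_co.K10.RP.W17
import Pool.Agent.Lib.MP_afdd4d_co.K10.RP.B03
import Pool.Agent.Lib.MP_afdd4d_co.K10.RP.B08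
import Pool.Agent.Lib.MP_afdd4d_co.K10.RP.B12
import Pool.Agent.Lib.MP_afdd4d_co.K10.RP.B15
import Pool.Agent.Lib.MP_afdd4d_co.K10.RP.B20
import Pool.Agent.Lib.MP_afdd4d_co.K10.RP.B27
import Pool.Agent.Lib.MP_afdd4d_co.K10.RP.B29

/-!
# The far pairs of the coset number 17
-/

namespace Pool.Agent.Lib.MP_afdd4d_co.K10.RP

open K8 K10.RS

theorem t17_0 : ∀ x < 1024, Pt.chT D (Jv.jsE K8.RN.E17.z 0) (tE17 0) (tK17 0) (tS17 0) x = true :=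
  chT_of b29 (tE17 0) (tK17 0) (tS17 0) 3 4 rfl (by decide) (by decide +kernel)

theorem t17_1 : ∀ x < 1024, Pt.chT D (Jv.jsE K8.RN.E17.z 1) (tE17 1) (tK17 1) (tS17 1) x = true :=
  chT_of b03 (tE17 1) (tK17 1) (tS17 1) 0 8 rfl (by decide) (by decide +kernel)

theorem t17_2 : ∀ x < 1024, Pt.chT D (Jv.jsE K8.RN.E17.z 2) (tE17 2) (tK17 2) (tS17 2) x = true :=
  chT_of b08 (tE17 2) (tK17 2) (tS17 2) 0 2 rfl (by decide) (by decide +kernel)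

theorem t17_3 : ∀ x < 1024, Pt.chT D (Jv.jsE K8.RN.E17.z 3) (tE17 3) (tK17 3) (tS17 3) x = true :=
  chT_of b12 (tE17 3) (tK17 3) (tS17 3) 0 18 rfl (by decide) (by decide +kernel)

theorem t17_4 : ∀ x < 1024, Pt.chT D (Jv.jsE K8.RN.E17.z 4) (tE17 4) (tK17 4) (tS17 4) x = true :=
  chT_of b15 (tE17 4) (tK17 4) (tS17 4) 0 6 rfl (by decide) (by decide +kernel)

theorem t17_5 : ∀ x < 1024, Pt.chT D (Jv.jsE K8.RN.E17.z 5) (tE17 5) (tK17 5) (tS17 5) x = true :=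
  chT_of b20 (tE17 5) (tK17 5) (tS17 5) 0 9 rfl (by decide) (by decide +kernel)

theorem t17_6 : ∀ x < 1024, Pt.chT D (Jv.jsE K8.RN.E17.z 6) (tE17 6) (tK17 6) (tS17 6) x = true :=
  chT_of b27 (tE17 6) (tK17 6) (tS17 6) 0 0 rfl (by decide) (by decide +kernel)

theorem c17 : Pt.chN D K K1_17 K2_17 K4_17 = true := by decide +kernel

theorem out17 : Pt.FarY S K8.RN.E17.g.c 7 (Pt.Out X17) :=
  Pt.farY_out D D_w K K_eq K8.RN.E17.g K8.RN.E17.z K8.RN.E17.hg (rep_mem 17 (by decide) rfl) X17 okE17 okK17 okS17 c17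
    K10.RN.r1_17 r2_17 (Pt.forall7 _ t17_0 t17_1 t17_2 t17_3 t17_4 t17_5 t17_6) r4_17

theorem t17p1_0 : ∀ x < 1024, Pt.chT D (Jv.jsE K8.RN.E17.z 0) (tE17p1 0) (tK17p1 0) (tS17p1 0) x = true :=
  chT_of b29 (tE17p1 0) (tK17p1 0) (tS17p1 0) 3 5 rfl (by decide) (by decide +kernel)

theorem t17p1_1 : ∀ x < 1024, Pt.chT D (Jv.jsE K8.RN.E17.z 1) (tE17p1 1) (tK17p1 1) (tS17p1 1) x = true :=
  chT_of b03 (tE17p1 1) (tK17p1 1) (tS17p1 1) 0 9 rfl (by decide) (by decide +kernel)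

theorem t17p1_2 : ∀ x < 1024, Pt.chT D (Jv.jsE K8.RN.E17.z 2) (tE17p1 2) (tK17p1 2) (tS17p1 2) x = true :=
  chT_of b08 (tE17p1 2) (tK17p1 2) (tS17p1 2) 0 3 rfl (by decide) (by decide +kernel)

theorem t17p1_3 : ∀ x < 1024, Pt.chT D (Jv.jsE K8.RN.E17.z 3) (tE17p1 3) (tK17p1 3) (tS17p1 3) x = true :=
  chT_of b12 (tE17p1 3) (tK17p1 3) (tS17p1 3) 0 19 rfl (by decide) (by decide +kernel)

theorem t17p1_4 : ∀ x < 1024, Pt.chT D (Jv.jsE K8.RN.E17.z 4) (tE17p1 4) (tK17p1 4) (tS17p1 4) x = true :=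
  chT_of b15 (tE17p1 4) (tK17p1 4) (tS17p1 4) 0 7 rfl (by decide) (by decide +kernel)

theorem t17p1_5 : ∀ x < 1024, Pt.chT D (Jv.jsE K8.RN.E17.z 5) (tE17p1 5) (tK17p1 5) (tS17p1 5) x = true :=
  chT_of b20 (tE17p1 5) (tK17p1 5) (tS17p1 5) 0 10 rfl (by decide) (by decide +kernel)

theorem t17p1_6 : ∀ x < 1024, Pt.chT D (Jv.jsE K8.RN.E17.z 6) (tE17p1 6) (tK17p1 6) (tS17p1 6) x = true :=
  chT_of b27 (tE17p1 6) (tK17p1 6) (tS17p1 6) 0 1 rfl (by decide) (by decide +kernel)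

theorem c17p1 : Pt.chN D K K1_17p1 K2_17p1 K4_17p1 = true := by decide +kernel

theorem y17p1 : Pt.FarY S K8.RN.E17.g.c 7 (fun y => y ∈ Y17p1) :=
  Pt.farY_lst D D_w K K_eq K8.RN.E17.g K8.RN.E17.z K8.RN.E17.hg (rep_mem 17 (by decide) rfl) Y17p1 okE17p1 okK17p1 okS17p1 c17p1
    r1_17p1 r2_17p1 (Pt.forall7 _ t17p1_0 t17p1_1 t17p1_2 t17p1_3 t17p1_4 t17p1_5 t17p1_6) r4_17p1

theorem x17p1 : ∀ l ∈ X17p1, Pt.FarY S K8.RN.E17.g.c 7 (fun y => y ∈ l) :=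
  Pt.tr_spec w0_17 y17p1 (fun _ h => h) w17p1

theorem far17 : Pt.Far S K8.RN.E17.g.c 7 := Pt.far_of_out out17 x17p1

end Pool.Agent.Lib.MP_afdd4d_co.K10.RP
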