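import Pool.Agent.Lib.MP_afdd4d_co.K10.RP.B08_0
import Pool.Agent.Lib.MP_afdd4d_co.K10.RP.B08_1

/-!
# The pairs of the class 8
-/

namespace Pool.Agent.Lib.MP_afdd4d_co.K10.RP

open K8 K10.RS

theorem b08 : ∀ y < 1024, ∀ e ∈ L08, Pt.leP D (D.tP (Nat.xor 16 (Pt.fu y))) y e = true :=
  Pt.blk16 D (Pt.forall16' _ b08_0 b08_1 b08_2 b08_3 b08_4 b08_5 b08_6 b08_7 b08_8 b08_9 b08_10 b08_11 b08_12 b08_13 b08_14 b08_15)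

end Pool.Agent.Lib.MP_afdd4d_co.K10.RP
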