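import Pool.Agent.Lib.MP_afdd4d_co.K10.RP.B13_0
import Pool.Agent.Lib.MP_afdd4d_co.K10.RP.B13_1

/-!
# The pairs of the class 13
-/

namespace Pool.Agent.Lib.MP_afdd4d_co.K10.RP

open K8 K10.RS

theorem b13 : ∀ y < 1024, ∀ e ∈ L13, Pt.leP D (D.tP (Nat.xor 256 (Pt.fu y))) y e = true :=
  Pt.blk16 D (Pt.forall16' _ b13_0 b13_1 b13_2 b13_3 b13_4 b13_5 b13_6 b13_7 b13_8 b13_9 b13_10 b13_11 b13_12 b13_13 b13_14 b13_15)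

end Pool.Agent.Lib.MP_afdd4d_co.K10.RP
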