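import Pool.Agent.Lib.MP_afdd4d_co.K10.RP.B40_0
import Pool.Agent.Lib.MP_afdd4d_co.K10.RP.B40_1

/-!
# The pairs of the class 40
-/

namespace Pool.Agent.Lib.MP_afdd4d_co.K10.RP

open K8 K10.RS

theorem b40 : ∀ y < 1024, ∀ e ∈ L40, Pt.leP D (D.tP (Nat.xor 24592 (Pt.fu y))) y e = true :=
  Pt.blk16 D (Pt.forall16' _ b40_0 b40_1 b40_2 b40_3 b40_4 b40_5 b40_6 b40_7 b40_8 b40_9 b40_10 b40_11 b40_12 b40_13 b40_14 b40_15)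

end Pool.Agent.Lib.MP_afdd4d_co.K10.RP
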