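import Pool.Agent.Lib.MP_afdd4d_co.K10.RP.X18
import Pool.Agent.Lib.MP_afdd4d_co.K8.RN.E18
import Pool.Agent.Lib.MP_afdd4d_co.K10.RP.T18p1

/-!
# The equivalences of the coset number 18
-/

namespace Pool.Agent.Lib.MP_afdd4d_co.K10.RP

open K8

set_option maxRecDepth 100000

theorem w0_18 : Pt.c0 K8.RN.E18.g.c = true := by decide +kernel

/-- The permutations of the part 1. -/
def P18p1 : List (List ℕ) := [
  [1754760, 1751176, 1516312, 1512728],
  [1754760, 1754704, 1516312, 1516256],
  [1754760, 1751176, 1754704, 1751120, 1516312, 1512728, 1516256, 1512672],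
  [1754760, 1751176, 1516312, 1512728],
  [1754760, 1516312],
  [1754760, 1516312],
  [1754760, 1751176, 1754704, 1751120, 1516312, 1512728, 1516256, 1512672],
  [1754760, 1751176, 1516312, 1512728],
  [1754760, 1751176, 1516312, 1512728],
  [1754760, 1751176, 1754704, 1751120, 1516312, 1512728, 1516256, 1512672],
  [1754760, 1751176, 1516312, 1512728],
  [1754760, 1754704, 1516312, 1516256],
  [1754760, 1751176, 1754704, 1751120, 1516312, 1512728, 1516256, 1512672],
  [1754760, 1751176, 1754704, 1751120, 1516312, 1512728, 1516256, 1512672],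
  [1754760, 1751176, 1754704, 1751120, 1516312, 1512728, 1516256, 1512672],
  [1754760, 1751176, 1754704, 1751120, 1516312, 1512728, 1516256, 1512672],
  [1754760, 1751176, 1754704, 1751120, 1516312, 1512728, 1516256, 1512672],
  [1754760, 1754704, 1516312, 1516256],
  [1754760, 1751176, 1516312, 1512728],
  [1754760, 1516312],
  [1754760, 1751176, 1516312, 1512728],
  [1754760, 1754704, 1516312, 1516256],
  [1754760, 1754704, 1516312, 1516256],
  [1754760, 1751176, 1754704, 1751120, 1516312, 1512728, 1516256, 1512672],
  [1754760, 1751176, 1754704, 1751120, 1516312, 1512728, 1516256, 1512672],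
  [1754760, 1751176, 1754704, 1751120, 1516312, 1512728, 1516256, 1512672],
  [1754760, 1754704, 1516312, 1516256],
  [1754760, 1751176, 1516312, 1512728],
  [1754760, 1751176, 1754704, 1751120, 1516312, 1512728, 1516256, 1512672],
  [1754760, 1751176, 1754704, 1751120, 1516312, 1512728, 1516256, 1512672]]

theorem w18p1 : Pt.tr K8.RN.E18.g.c Y18p1 X18p1 P18p1 = true := by decide +kernel

end Pool.Agent.Lib.MP_afdd4d_co.K10.RP
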