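import Pool.Agent.Lib.MP_afdd4d_co.K10.RN.Q18
import Pool.Agent.Lib.MP_afdd4d_co.K10.RP.Blk
import Pool.Agent.Lib.MP_afdd4d_co.K10.RP.E18
import Pool.Agent.Lib.MP_afdd4d_co.K10.RP.D18
import Pool.Agent.Lib.MP_afdd4d_co.K10.RP.E18p1
import Pool.Agent.Lib.MP_afdd4d_co.K10.RP.D18p1
import Pool.Agent.Lib.MP_afdd4d_co.K10.RP.Q18p1
import Pool.Agent.Lib.MP_afdd4d_co.K10.RP.W18
import Pool.Agent.Lib.MP_afdd4d_co.K10.RP.B08
import Pool.Agent.Lib.MP_afdd4d_co.K10.RP.B12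
import Pool.Agent.Lib.MP_afdd4d_co.K10.RP.B13
import Pool.Agent.Lib.MP_afdd4d_co.K10.RP.B20
import Pool.Agent.Lib.MP_afdd4d_co.K10.RP.B40
import Pool.Agent.Lib.MP_afdd4d_co.K10.RP.B46

/-!
# The far pairs of the coset number 18
-/

namespace Pool.Agent.Lib.MP_afdd4d_co.K10.RP

open K8 K10.RS

theorem t18_0 : ∀ x < 1024, Pt.chT D (Jv.jsE K8.RN.E18.z 0) (tE18 0) (tK18 0) (tS18 0) x = true :=
  chT_of b46 (tE18 0) (tK18 0) (tS18 0) 3 6 rfl (by decide) (by decide +kernel)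

theorem t18_1 : ∀ x < 1024, Pt.chT D (Jv.jsE K8.RN.E18.z 1) (tE18 1) (tK18 1) (tS18 1) x = true :=
  chT_of b08 (tE18 1) (tK18 1) (tS18 1) 0 4 rfl (by decide) (by decide +kernel)

theorem t18_2 : ∀ x < 1024, Pt.chT D (Jv.jsE K8.RN.E18.z 2) (tE18 2) (tK18 2) (tS18 2) x = true :=
  chT_of b08 (tE18 2) (tK18 2) (tS18 2) 0 5 rfl (by decide) (by decide +kernel)

theorem t18_3 : ∀ x < 1024, Pt.chT D (Jv.jsE K8.RN.E18.z 3) (tE18 3) (tK18 3) (tS18 3) x = true :=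
  chT_of b12 (tE18 3) (tK18 3) (tS18 3) 0 20 rfl (by decide) (by decide +kernel)

theorem t18_4 : ∀ x < 1024, Pt.chT D (Jv.jsE K8.RN.E18.z 4) (tE18 4) (tK18 4) (tS18 4) x = true :=
  chT_of b12 (tE18 4) (tK18 4) (tS18 4) 0 21 rfl (by decide) (by decide +kernel)

theorem t18_5 : ∀ x < 1024, Pt.chT D (Jv.jsE K8.RN.E18.z 5) (tE18 5) (tK18 5) (tS18 5) x = true :=
  chT_of b20 (tE18 5) (tK18 5) (tS18 5) 0 11 rfl (by decide) (by decide +kernel)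

theorem t18_6 : ∀ x < 1024, Pt.chT D (Jv.jsE K8.RN.E18.z 6) (tE18 6) (tK18 6) (tS18 6) x = true :=
  chT_of b40 (tE18 6) (tK18 6) (tS18 6) 0 0 rfl (by decide) (by decide +kernel)

theorem c18 : Pt.chN D K K1_18 K2_18 K4_18 = true := by decide +kernel

theorem out18 : Pt.FarY S K8.RN.E18.g.c 7 (Pt.Out X18) :=
  Pt.farY_out D D_w K K_eq K8.RN.E18.g K8.RN.E18.z K8.RN.E18.hg (rep_mem 18 (by decide) rfl) X18 okE18 okK18 okS18 c18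
    K10.RN.r1_18 r2_18 (Pt.forall7 _ t18_0 t18_1 t18_2 t18_3 t18_4 t18_5 t18_6) r4_18

theorem t18p1_0 : ∀ x < 1024, Pt.chT D (Jv.jsE K8.RN.E18.z 0) (tE18p1 0) (tK18p1 0) (tS18p1 0) x = true :=
  chT_of b46 (tE18p1 0) (tK18p1 0) (tS18p1 0) 3 7 rfl (by decide) (by decide +kernel)

theorem t18p1_1 : ∀ x < 1024, Pt.chT D (Jv.jsE K8.RN.E18.z 1) (tE18p1 1) (tK18p1 1) (tS18p1 1) x = true :=
  chT_of b08 (tE18p1 1) (tK18p1 1) (tS18p1 1) 0 6 rfl (by decide) (by decide +kernel)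

theorem t18p1_2 : ∀ x < 1024, Pt.chT D (Jv.jsE K8.RN.E18.z 2) (tE18p1 2) (tK18p1 2) (tS18p1 2) x = true :=
  chT_of b08 (tE18p1 2) (tK18p1 2) (tS18p1 2) 0 7 rfl (by decide) (by decide +kernel)

theorem t18p1_3 : ∀ x < 1024, Pt.chT D (Jv.jsE K8.RN.E18.z 3) (tE18p1 3) (tK18p1 3) (tS18p1 3) x = true :=
  chT_of b13 (tE18p1 3) (tK18p1 3) (tS18p1 3) 0 0 rfl (by decide) (by decide +kernel)

theorem t18p1_4 : ∀ x < 1024, Pt.chT D (Jv.jsE K8.RN.E18.z 4) (tE18p1 4) (tK18p1 4) (tS18p1 4) x = true :=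
  chT_of b13 (tE18p1 4) (tK18p1 4) (tS18p1 4) 0 1 rfl (by decide) (by decide +kernel)

theorem t18p1_5 : ∀ x < 1024, Pt.chT D (Jv.jsE K8.RN.E18.z 5) (tE18p1 5) (tK18p1 5) (tS18p1 5) x = true :=
  chT_of b20 (tE18p1 5) (tK18p1 5) (tS18p1 5) 0 12 rfl (by decide) (by decide +kernel)

theorem t18p1_6 : ∀ x < 1024, Pt.chT D (Jv.jsE K8.RN.E18.z 6) (tE18p1 6) (tK18p1 6) (tS18p1 6) x = true :=
  chT_of b40 (tE18p1 6) (tK18p1 6) (tS18p1 6) 0 1 rfl (by decide) (by decide +kernel)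

theorem c18p1 : Pt.chN D K K1_18p1 K2_18p1 K4_18p1 = true := by decide +kernel

theorem y18p1 : Pt.FarY S K8.RN.E18.g.c 7 (fun y => y ∈ Y18p1) :=
  Pt.farY_lst D D_w K K_eq K8.RN.E18.g K8.RN.E18.z K8.RN.E18.hg (rep_mem 18 (by decide) rfl) Y18p1 okE18p1 okK18p1 okS18p1 c18p1
    r1_18p1 r2_18p1 (Pt.forall7 _ t18p1_0 t18p1_1 t18p1_2 t18p1_3 t18p1_4 t18p1_5 t18p1_6) r4_18p1

theorem x18p1 : ∀ l ∈ X18p1, Pt.FarY S K8.RN.E18.g.c 7 (fun y => y ∈ l) :=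
  Pt.tr_spec w0_18 y18p1 (fun _ h => h) w18p1

theorem far18 : Pt.Far S K8.RN.E18.g.c 7 := Pt.far_of_out out18 x18p1

end Pool.Agent.Lib.MP_afdd4d_co.K10.RP
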