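import Pool.Agent.Lib.MP_afdd4d_co.K10.RP.B19_0
import Pool.Agent.Lib.MP_afdd4d_co.K10.RP.B19_1

/-!
# The pairs of the class 19
-/

namespace Pool.Agent.Lib.MP_afdd4d_co.K10.RP

open K8 K10.RS

theorem b19 : ∀ y < 1024, ∀ e ∈ L19, Pt.leP D (D.tP (Nat.xor 2304 (Pt.fu y))) y e = true :=
  Pt.blk16 D (Pt.forall16' _ b19_0 b19_1 b19_2 b19_3 b19_4 b19_5 b19_6 b19_7 b19_8 b19_9 b19_10 b19_11 b19_12 b19_13 b19_14 b19_15)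

end Pool.Agent.Lib.MP_afdd4d_co.K10.RP
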