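import Pool.Agent.Lib.MP_afdd4d_co.K10.RN.Q20
import Pool.Agent.Lib.MP_afdd4d_co.K10.RP.Blk
import Pool.Agent.Lib.MP_afdd4d_co.K10.RP.E20
import Pool.Agent.Lib.MP_afdd4d_co.K10.RP.D20
import Pool.Agent.Lib.MP_afdd4d_co.K10.RP.E20p1
import Pool.Agent.Lib.MP_afdd4d_co.K10.RP.D20p1
import Pool.Agent.Lib.MP_afdd4d_co.K10.RP.Q20p1
import Pool.Agent.Lib.MP_afdd4d_co.K10.RP.W20
import Pool.Agent.Lib.MP_afdd4d_co.K10.RP.B08
import Pool.Agent.Lib.MP_afdd4d_co.K10.RP.B18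
import Pool.Agent.Lib.MP_afdd4d_co.K10.RP.B19
import Pool.Agent.Lib.MP_afdd4d_co.K10.RP.B39

/-!
# The far pairs of the coset number 20
-/

namespace Pool.Agent.Lib.MP_afdd4d_co.K10.RP

open K8 K10.RS

theorem t20_0 : ∀ x < 1024, Pt.chT D (Jv.jsE K8.RN.E20.z 0) (tE20 0) (tK20 0) (tS20 0) x = true :=
  chT_of b39 (tE20 0) (tK20 0) (tS20 0) 19 3 rfl (by decide) (by decide +kernel)

theorem t20_1 : ∀ x < 1024, Pt.chT D (Jv.jsE K8.RN.E20.z 1) (tE20 1) (tK20 1) (tS20 1) x = true :=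
  chT_of b08 (tE20 1) (tK20 1) (tS20 1) 0 14 rfl (by decide) (by decide +kernel)

theorem t20_2 : ∀ x < 1024, Pt.chT D (Jv.jsE K8.RN.E20.z 2) (tE20 2) (tK20 2) (tS20 2) x = true :=
  chT_of b08 (tE20 2) (tK20 2) (tS20 2) 0 15 rfl (by decide) (by decide +kernel)

theorem t20_3 : ∀ x < 1024, Pt.chT D (Jv.jsE K8.RN.E20.z 3) (tE20 3) (tK20 3) (tS20 3) x = true :=
  chT_of b18 (tE20 3) (tK20 3) (tS20 3) 0 18 rfl (by decide) (by decide +kernel)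

theorem t20_4 : ∀ x < 1024, Pt.chT D (Jv.jsE K8.RN.E20.z 4) (tE20 4) (tK20 4) (tS20 4) x = true :=
  chT_of b18 (tE20 4) (tK20 4) (tS20 4) 0 19 rfl (by decide) (by decide +kernel)

theorem t20_5 : ∀ x < 1024, Pt.chT D (Jv.jsE K8.RN.E20.z 5) (tE20 5) (tK20 5) (tS20 5) x = true :=
  chT_of b18 (tE20 5) (tK20 5) (tS20 5) 0 20 rfl (by decide) (by decide +kernel)

theorem t20_6 : ∀ x < 1024, Pt.chT D (Jv.jsE K8.RN.E20.z 6) (tE20 6) (tK20 6) (tS20 6) x = true :=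
  chT_of b39 (tE20 6) (tK20 6) (tS20 6) 0 4 rfl (by decide) (by decide +kernel)

theorem c20 : Pt.chN D K K1_20 K2_20 K4_20 = true := by decide +kernel

theorem out20 : Pt.FarY S K8.RN.E20.g.c 7 (Pt.Out X20) :=
  Pt.farY_out D D_w K K_eq K8.RN.E20.g K8.RN.E20.z K8.RN.E20.hg (rep_mem 20 (by decide) rfl) X20 okE20 okK20 okS20 c20
    K10.RN.r1_20 r2_20 (Pt.forall7 _ t20_0 t20_1 t20_2 t20_3 t20_4 t20_5 t20_6) r4_20

theorem t20p1_0 : ∀ x < 1024, Pt.chT D (Jv.jsE K8.RN.E20.z 0) (tE20p1 0) (tK20p1 0) (tS20p1 0) x = true :=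
  chT_of b39 (tE20p1 0) (tK20p1 0) (tS20p1 0) 19 5 rfl (by decide) (by decide +kernel)

theorem t20p1_1 : ∀ x < 1024, Pt.chT D (Jv.jsE K8.RN.E20.z 1) (tE20p1 1) (tK20p1 1) (tS20p1 1) x = true :=
  chT_of b08 (tE20p1 1) (tK20p1 1) (tS20p1 1) 0 16 rfl (by decide) (by decide +kernel)

theorem t20p1_2 : ∀ x < 1024, Pt.chT D (Jv.jsE K8.RN.E20.z 2) (tE20p1 2) (tK20p1 2) (tS20p1 2) x = true :=
  chT_of b08 (tE20p1 2) (tK20p1 2) (tS20p1 2) 0 17 rfl (by decide) (by decide +kernel)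

theorem t20p1_3 : ∀ x < 1024, Pt.chT D (Jv.jsE K8.RN.E20.z 3) (tE20p1 3) (tK20p1 3) (tS20p1 3) x = true :=
  chT_of b19 (tE20p1 3) (tK20p1 3) (tS20p1 3) 0 0 rfl (by decide) (by decide +kernel)

theorem t20p1_4 : ∀ x < 1024, Pt.chT D (Jv.jsE K8.RN.E20.z 4) (tE20p1 4) (tK20p1 4) (tS20p1 4) x = true :=
  chT_of b19 (tE20p1 4) (tK20p1 4) (tS20p1 4) 0 1 rfl (by decide) (by decide +kernel)

theorem t20p1_5 : ∀ x < 1024, Pt.chT D (Jv.jsE K8.RN.E20.z 5) (tE20p1 5) (tK20p1 5) (tS20p1 5) x = true :=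
  chT_of b19 (tE20p1 5) (tK20p1 5) (tS20p1 5) 0 2 rfl (by decide) (by decide +kernel)

theorem t20p1_6 : ∀ x < 1024, Pt.chT D (Jv.jsE K8.RN.E20.z 6) (tE20p1 6) (tK20p1 6) (tS20p1 6) x = true :=
  chT_of b39 (tE20p1 6) (tK20p1 6) (tS20p1 6) 0 6 rfl (by decide) (by decide +kernel)

theorem c20p1 : Pt.chN D K K1_20p1 K2_20p1 K4_20p1 = true := by decide +kernel

theorem y20p1 : Pt.FarY S K8.RN.E20.g.c 7 (fun y => y ∈ Y20p1) :=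
  Pt.farY_lst D D_w K K_eq K8.RN.E20.g K8.RN.E20.z K8.RN.E20.hg (rep_mem 20 (by decide) rfl) Y20p1 okE20p1 okK20p1 okS20p1 c20p1
    r1_20p1 r2_20p1 (Pt.forall7 _ t20p1_0 t20p1_1 t20p1_2 t20p1_3 t20p1_4 t20p1_5 t20p1_6) r4_20p1

theorem x20p1 : ∀ l ∈ X20p1, Pt.FarY S K8.RN.E20.g.c 7 (fun y => y ∈ l) :=
  Pt.tr_spec w0_20 y20p1 (fun _ h => h) w20p1

theorem far20 : Pt.Far S K8.RN.E20.g.c 7 := Pt.far_of_out out20 x20p1

end Pool.Agent.Lib.MP_afdd4d_co.K10.RP
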