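import Pool.Agent.Lib.MP_afdd4d_co.K10.RP.B34_0
import Pool.Agent.Lib.MP_afdd4d_co.K10.RP.B34_1

/-!
# The pairs of the class 34
-/

namespace Pool.Agent.Lib.MP_afdd4d_co.K10.RP

open K8 K10.RS

theorem b34 : ∀ y < 1024, ∀ e ∈ L34, Pt.leP D (D.tP (Nat.xor 16656 (Pt.fu y))) y e = true :=
  Pt.blk16 D (Pt.forall16' _ b34_0 b34_1 b34_2 b34_3 b34_4 b34_5 b34_6 b34_7 b34_8 b34_9 b34_10 b34_11 b34_12 b34_13 b34_14 b34_15)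

end Pool.Agent.Lib.MP_afdd4d_co.K10.RP
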