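import Pool.Agent.Lib.MP_afdd4d_co.K10.RN.Q21
import Pool.Agent.Lib.MP_afdd4d_co.K10.RP.Blk
import Pool.Agent.Lib.MP_afdd4d_co.K10.RP.E21
import Pool.Agent.Lib.MP_afdd4d_co.K10.RP.D21
import Pool.Agent.Lib.MP_afdd4d_co.K10.RP.E21p1
import Pool.Agent.Lib.MP_afdd4d_co.K10.RP.D21p1
import Pool.Agent.Lib.MP_afdd4d_co.K10.RP.Q21p1
import Pool.Agent.Lib.MP_afdd4d_co.K10.RP.W21
import Pool.Agent.Lib.MP_afdd4d_co.K10.RP.B08
import Pool.Agent.Lib.MP_afdd4d_co.K10.RP.B13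
import Pool.Agent.Lib.MP_afdd4d_co.K10.RP.B16
import Pool.Agent.Lib.MP_afdd4d_co.K10.RP.B17
import Pool.Agent.Lib.MP_afdd4d_co.K10.RP.B25
import Pool.Agent.Lib.MP_afdd4d_co.K10.RP.B34
import Pool.Agent.Lib.MP_afdd4d_co.K10.RP.B43

/-!
# The far pairs of the coset number 21
-/

namespace Pool.Agent.Lib.MP_afdd4d_co.K10.RP

open K8 K10.RS

theorem t21_0 : ∀ x < 1024, Pt.chT D (Jv.jsE K8.RN.E21.z 0) (tE21 0) (tK21 0) (tS21 0) x = true :=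
  chT_of b43 (tE21 0) (tK21 0) (tS21 0) 20 5 rfl (by decide) (by decide +kernel)

theorem t21_1 : ∀ x < 1024, Pt.chT D (Jv.jsE K8.RN.E21.z 1) (tE21 1) (tK21 1) (tS21 1) x = true :=
  chT_of b08 (tE21 1) (tK21 1) (tS21 1) 0 18 rfl (by decide) (by decide +kernel)

theorem t21_2 : ∀ x < 1024, Pt.chT D (Jv.jsE K8.RN.E21.z 2) (tE21 2) (tK21 2) (tS21 2) x = true :=
  chT_of b13 (tE21 2) (tK21 2) (tS21 2) 0 5 rfl (by decide) (by decide +kernel)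

theorem t21_3 : ∀ x < 1024, Pt.chT D (Jv.jsE K8.RN.E21.z 3) (tE21 3) (tK21 3) (tS21 3) x = true :=
  chT_of b16 (tE21 3) (tK21 3) (tS21 3) 0 13 rfl (by decide) (by decide +kernel)

theorem t21_4 : ∀ x < 1024, Pt.chT D (Jv.jsE K8.RN.E21.z 4) (tE21 4) (tK21 4) (tS21 4) x = true :=
  chT_of b17 (tE21 4) (tK21 4) (tS21 4) 0 3 rfl (by decide) (by decide +kernel)

theorem t21_5 : ∀ x < 1024, Pt.chT D (Jv.jsE K8.RN.E21.z 5) (tE21 5) (tK21 5) (tS21 5) x = true :=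
  chT_of b25 (tE21 5) (tK21 5) (tS21 5) 0 3 rfl (by decide) (by decide +kernel)

theorem t21_6 : ∀ x < 1024, Pt.chT D (Jv.jsE K8.RN.E21.z 6) (tE21 6) (tK21 6) (tS21 6) x = true :=
  chT_of b34 (tE21 6) (tK21 6) (tS21 6) 0 0 rfl (by decide) (by decide +kernel)

theorem c21 : Pt.chN D K K1_21 K2_21 K4_21 = true := by decide +kernel

theorem out21 : Pt.FarY S K8.RN.E21.g.c 7 (Pt.Out X21) :=
  Pt.farY_out D D_w K K_eq K8.RN.E21.g K8.RN.E21.z K8.RN.E21.hg (rep_mem 21 (by decide) rfl) X21 okE21 okK21 okS21 c21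
    K10.RN.r1_21 r2_21 (Pt.forall7 _ t21_0 t21_1 t21_2 t21_3 t21_4 t21_5 t21_6) r4_21

theorem t21p1_0 : ∀ x < 1024, Pt.chT D (Jv.jsE K8.RN.E21.z 0) (tE21p1 0) (tK21p1 0) (tS21p1 0) x = true :=
  chT_of b43 (tE21p1 0) (tK21p1 0) (tS21p1 0) 20 6 rfl (by decide) (by decide +kernel)

theorem t21p1_1 : ∀ x < 1024, Pt.chT D (Jv.jsE K8.RN.E21.z 1) (tE21p1 1) (tK21p1 1) (tS21p1 1) x = true :=
  chT_of b08 (tE21p1 1) (tK21p1 1) (tS21p1 1) 0 19 rfl (by decide) (by decide +kernel)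

theorem t21p1_2 : ∀ x < 1024, Pt.chT D (Jv.jsE K8.RN.E21.z 2) (tE21p1 2) (tK21p1 2) (tS21p1 2) x = true :=
  chT_of b13 (tE21p1 2) (tK21p1 2) (tS21p1 2) 0 6 rfl (by decide) (by decide +kernel)

theorem t21p1_3 : ∀ x < 1024, Pt.chT D (Jv.jsE K8.RN.E21.z 3) (tE21p1 3) (tK21p1 3) (tS21p1 3) x = true :=
  chT_of b16 (tE21p1 3) (tK21p1 3) (tS21p1 3) 0 14 rfl (by decide) (by decide +kernel)

theorem t21p1_4 : ∀ x < 1024, Pt.chT D (Jv.jsE K8.RN.E21.z 4) (tE21p1 4) (tK21p1 4) (tS21p1 4) x = true :=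
  chT_of b17 (tE21p1 4) (tK21p1 4) (tS21p1 4) 0 4 rfl (by decide) (by decide +kernel)

theorem t21p1_5 : ∀ x < 1024, Pt.chT D (Jv.jsE K8.RN.E21.z 5) (tE21p1 5) (tK21p1 5) (tS21p1 5) x = true :=
  chT_of b25 (tE21p1 5) (tK21p1 5) (tS21p1 5) 0 4 rfl (by decide) (by decide +kernel)

theorem t21p1_6 : ∀ x < 1024, Pt.chT D (Jv.jsE K8.RN.E21.z 6) (tE21p1 6) (tK21p1 6) (tS21p1 6) x = true :=
  chT_of b34 (tE21p1 6) (tK21p1 6) (tS21p1 6) 0 1 rfl (by decide) (by decide +kernel)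

theorem c21p1 : Pt.chN D K K1_21p1 K2_21p1 K4_21p1 = true := by decide +kernel

theorem y21p1 : Pt.FarY S K8.RN.E21.g.c 7 (fun y => y ∈ Y21p1) :=
  Pt.farY_lst D D_w K K_eq K8.RN.E21.g K8.RN.E21.z K8.RN.E21.hg (rep_mem 21 (by decide) rfl) Y21p1 okE21p1 okK21p1 okS21p1 c21p1
    r1_21p1 r2_21p1 (Pt.forall7 _ t21p1_0 t21p1_1 t21p1_2 t21p1_3 t21p1_4 t21p1_5 t21p1_6) r4_21p1

theorem x21p1 : ∀ l ∈ X21p1, Pt.FarY S K8.RN.E21.g.c 7 (fun y => y ∈ l) :=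
  Pt.tr_spec w0_21 y21p1 (fun _ h => h) w21p1

theorem far21 : Pt.Far S K8.RN.E21.g.c 7 := Pt.far_of_out out21 x21p1

end Pool.Agent.Lib.MP_afdd4d_co.K10.RP
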