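import Pool.Agent.Lib.MP_afdd4d_co.K10.RP.B37_0
import Pool.Agent.Lib.MP_afdd4d_co.K10.RP.B37_1

/-!
# The pairs of the class 37
-/

namespace Pool.Agent.Lib.MP_afdd4d_co.K10.RP

open K8 K10.RS

theorem b37 : ∀ y < 1024, ∀ e ∈ L37, Pt.leP D (D.tP (Nat.xor 18688 (Pt.fu y))) y e = true :=
  Pt.blk16 D (Pt.forall16' _ b37_0 b37_1 b37_2 b37_3 b37_4 b37_5 b37_6 b37_7 b37_8 b37_9 b37_10 b37_11 b37_12 b37_13 b37_14 b37_15)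

end Pool.Agent.Lib.MP_afdd4d_co.K10.RP
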