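import Pool.Agent.Lib.MP_afdd4d_co.K10.RP.T22p1
import Pool.Agent.Lib.MP_afdd4d_co.K8.RN.E22

/-!
# The differences, potentials number 1 of the coset number 22
-/

namespace Pool.Agent.Lib.MP_afdd4d_co.K10.RP

open K8

theorem d22p1 :
    (Pt.chD tS22p1 (Jv.jsE K8.RN.E22.z) 120911259989891101 0 = true ∧
    Pt.chD tS22p1 (Jv.jsE K8.RN.E22.z) 120911259989891101 1 = true ∧
    Pt.chD tS22p1 (Jv.jsE K8.RN.E22.z) 120911259989891101 2 = true ∧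
    Pt.chD tS22p1 (Jv.jsE K8.RN.E22.z) 120911259989891101 3 = true) ∧
    (Pt.chD tS22p1 (Jv.jsE K8.RN.E22.z) 120911259989891101 4 = true ∧
    Pt.chD tS22p1 (Jv.jsE K8.RN.E22.z) 120911259989891101 5 = true ∧
    Pt.chD tS22p1 (Jv.jsE K8.RN.E22.z) 120911259989891101 6 = true ∧
    Pt.chD tS22p1 (Jv.jsE K8.RN.E22.z) 120911259989891101 7 = true) ∧
    (Pt.chD tS22p1 (Jv.jsE K8.RN.E22.z) 120911259989891101 8 = true ∧
    Pt.chD tS22p1 (Jv.jsE K8.RN.E22.z) 120911259989891101 9 = true ∧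
    Pt.chD tS22p1 (Jv.jsE K8.RN.E22.z) 120911259989891101 10 = true ∧
    Pt.chD tS22p1 (Jv.jsE K8.RN.E22.z) 120911259989891101 11 = true) ∧
    (Pt.chD tS22p1 (Jv.jsE K8.RN.E22.z) 120911259989891101 12 = true ∧
    Pt.chD tS22p1 (Jv.jsE K8.RN.E22.z) 120911259989891101 13 = true ∧
    Pt.chD tS22p1 (Jv.jsE K8.RN.E22.z) 120911259989891101 14 = true ∧
    Pt.chD tS22p1 (Jv.jsE K8.RN.E22.z) 120911259989891101 15 = true) := by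
  refine ⟨⟨?_, ?_, ?_, ?_⟩, ⟨?_, ?_, ?_, ?_⟩, ⟨?_, ?_, ?_, ?_⟩, ⟨?_, ?_, ?_, ?_⟩⟩ <;> decide +kernel

theorem r4_22p1 : ∀ τ < 16, Pt.chD tS22p1 (Jv.jsE K8.RN.E22.z) 120911259989891101 τ = true :=
  Jv.Tabs.forall16 _ d22p1.1 d22p1.2.1 d22p1.2.2.1 d22p1.2.2.2

end Pool.Agent.Lib.MP_afdd4d_co.K10.RP
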