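import Pool.Agent.Lib.MP_afdd4d_co.K10.RN.Q22
import Pool.Agent.Lib.MP_afdd4d_co.K10.RP.Blk
import Pool.Agent.Lib.MP_afdd4d_co.K10.RP.E22
import Pool.Agent.Lib.MP_afdd4d_co.K10.RP.D22
import Pool.Agent.Lib.MP_afdd4d_co.K10.RP.E22p1
import Pool.Agent.Lib.MP_afdd4d_co.K10.RP.D22p1
import Pool.Agent.Lib.MP_afdd4d_co.K10.RP.Q22p1
import Pool.Agent.Lib.MP_afdd4d_co.K10.RP.W22
import Pool.Agent.Lib.MP_afdd4d_co.K10.RP.B08
import Pool.Agent.Lib.MP_afdd4d_co.K10.RP.B09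
import Pool.Agent.Lib.MP_afdd4d_co.K10.RP.B13
import Pool.Agent.Lib.MP_afdd4d_co.K10.RP.B17
import Pool.Agent.Lib.MP_afdd4d_co.K10.RP.B24
import Pool.Agent.Lib.MP_afdd4d_co.K10.RP.B37
import Pool.Agent.Lib.MP_afdd4d_co.K10.RP.B40

/-!
# The far pairs of the coset number 22
-/

namespace Pool.Agent.Lib.MP_afdd4d_co.K10.RP

open K8 K10.RS

theorem t22_0 : ∀ x < 1024, Pt.chT D (Jv.jsE K8.RN.E22.z 0) (tE22 0) (tK22 0) (tS22 0) x = true :=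
  chT_of b40 (tE22 0) (tK22 0) (tS22 0) 20 2 rfl (by decide) (by decide +kernel)

theorem t22_1 : ∀ x < 1024, Pt.chT D (Jv.jsE K8.RN.E22.z 1) (tE22 1) (tK22 1) (tS22 1) x = true :=
  chT_of b08 (tE22 1) (tK22 1) (tS22 1) 0 20 rfl (by decide) (by decide +kernel)

theorem t22_2 : ∀ x < 1024, Pt.chT D (Jv.jsE K8.RN.E22.z 2) (tE22 2) (tK22 2) (tS22 2) x = true :=
  chT_of b13 (tE22 2) (tK22 2) (tS22 2) 0 7 rfl (by decide) (by decide +kernel)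

theorem t22_3 : ∀ x < 1024, Pt.chT D (Jv.jsE K8.RN.E22.z 3) (tE22 3) (tK22 3) (tS22 3) x = true :=
  chT_of b17 (tE22 3) (tK22 3) (tS22 3) 0 5 rfl (by decide) (by decide +kernel)

theorem t22_4 : ∀ x < 1024, Pt.chT D (Jv.jsE K8.RN.E22.z 4) (tE22 4) (tK22 4) (tS22 4) x = true :=
  chT_of b17 (tE22 4) (tK22 4) (tS22 4) 0 6 rfl (by decide) (by decide +kernel)

theorem t22_5 : ∀ x < 1024, Pt.chT D (Jv.jsE K8.RN.E22.z 5) (tE22 5) (tK22 5) (tS22 5) x = true :=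
  chT_of b24 (tE22 5) (tK22 5) (tS22 5) 0 6 rfl (by decide) (by decide +kernel)

theorem t22_6 : ∀ x < 1024, Pt.chT D (Jv.jsE K8.RN.E22.z 6) (tE22 6) (tK22 6) (tS22 6) x = true :=
  chT_of b37 (tE22 6) (tK22 6) (tS22 6) 0 0 rfl (by decide) (by decide +kernel)

theorem c22 : Pt.chN D K K1_22 K2_22 K4_22 = true := by decide +kernel

theorem out22 : Pt.FarY S K8.RN.E22.g.c 7 (Pt.Out X22) :=
  Pt.farY_out D D_w K K_eq K8.RN.E22.g K8.RN.E22.z K8.RN.E22.hg (rep_mem 22 (by decide) rfl) X22 okE22 okK22 okS22 c22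
    K10.RN.r1_22 r2_22 (Pt.forall7 _ t22_0 t22_1 t22_2 t22_3 t22_4 t22_5 t22_6) r4_22

theorem t22p1_0 : ∀ x < 1024, Pt.chT D (Jv.jsE K8.RN.E22.z 0) (tE22p1 0) (tK22p1 0) (tS22p1 0) x = true :=
  chT_of b40 (tE22p1 0) (tK22p1 0) (tS22p1 0) 20 3 rfl (by decide) (by decide +kernel)

theorem t22p1_1 : ∀ x < 1024, Pt.chT D (Jv.jsE K8.RN.E22.z 1) (tE22p1 1) (tK22p1 1) (tS22p1 1) x = true :=
  chT_of b09 (tE22p1 1) (tK22p1 1) (tS22p1 1) 0 0 rfl (by decide) (by decide +kernel)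

theorem t22p1_2 : ∀ x < 1024, Pt.chT D (Jv.jsE K8.RN.E22.z 2) (tE22p1 2) (tK22p1 2) (tS22p1 2) x = true :=
  chT_of b13 (tE22p1 2) (tK22p1 2) (tS22p1 2) 0 8 rfl (by decide) (by decide +kernel)

theorem t22p1_3 : ∀ x < 1024, Pt.chT D (Jv.jsE K8.RN.E22.z 3) (tE22p1 3) (tK22p1 3) (tS22p1 3) x = true :=
  chT_of b17 (tE22p1 3) (tK22p1 3) (tS22p1 3) 0 7 rfl (by decide) (by decide +kernel)

theorem t22p1_4 : ∀ x < 1024, Pt.chT D (Jv.jsE K8.RN.E22.z 4) (tE22p1 4) (tK22p1 4) (tS22p1 4) x = true :=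
  chT_of b17 (tE22p1 4) (tK22p1 4) (tS22p1 4) 0 8 rfl (by decide) (by decide +kernel)

theorem t22p1_5 : ∀ x < 1024, Pt.chT D (Jv.jsE K8.RN.E22.z 5) (tE22p1 5) (tK22p1 5) (tS22p1 5) x = true :=
  chT_of b24 (tE22p1 5) (tK22p1 5) (tS22p1 5) 0 7 rfl (by decide) (by decide +kernel)

theorem t22p1_6 : ∀ x < 1024, Pt.chT D (Jv.jsE K8.RN.E22.z 6) (tE22p1 6) (tK22p1 6) (tS22p1 6) x = true :=
  chT_of b37 (tE22p1 6) (tK22p1 6) (tS22p1 6) 0 1 rfl (by decide) (by decide +kernel)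

theorem c22p1 : Pt.chN D K K1_22p1 K2_22p1 K4_22p1 = true := by decide +kernel

theorem y22p1 : Pt.FarY S K8.RN.E22.g.c 7 (fun y => y ∈ Y22p1) :=
  Pt.farY_lst D D_w K K_eq K8.RN.E22.g K8.RN.E22.z K8.RN.E22.hg (rep_mem 22 (by decide) rfl) Y22p1 okE22p1 okK22p1 okS22p1 c22p1
    r1_22p1 r2_22p1 (Pt.forall7 _ t22p1_0 t22p1_1 t22p1_2 t22p1_3 t22p1_4 t22p1_5 t22p1_6) r4_22p1

theorem x22p1 : ∀ l ∈ X22p1, Pt.FarY S K8.RN.E22.g.c 7 (fun y => y ∈ l) :=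
  Pt.tr_spec w0_22 y22p1 (fun _ h => h) w22p1

theorem far22 : Pt.Far S K8.RN.E22.g.c 7 := Pt.far_of_out out22 x22p1

end Pool.Agent.Lib.MP_afdd4d_co.K10.RP
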