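import Pool.Agent.Lib.MP_afdd4d_co.K10.RP.B09_0
import Pool.Agent.Lib.MP_afdd4d_co.K10.RP.B09_1

/-!
# The pairs of the class 9
-/

namespace Pool.Agent.Lib.MP_afdd4d_co.K10.RP

open K8 K10.RS

theorem b09 : ∀ y < 1024, ∀ e ∈ L09, Pt.leP D (D.tP (Nat.xor 16 (Pt.fu y))) y e = true :=
  Pt.blk16 D (Pt.forall16' _ b09_0 b09_1 b09_2 b09_3 b09_4 b09_5 b09_6 b09_7 b09_8 b09_9 b09_10 b09_11 b09_12 b09_13 b09_14 b09_15)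

end Pool.Agent.Lib.MP_afdd4d_co.K10.RP
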