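import Pool.Agent.Lib.MP_afdd4d_co.K10.RP.B35_0
import Pool.Agent.Lib.MP_afdd4d_co.K10.RP.B35_1

/-!
# The pairs of the class 35
-/

namespace Pool.Agent.Lib.MP_afdd4d_co.K10.RP

open K8 K10.RS

theorem b35 : ∀ y < 1024, ∀ e ∈ L35, Pt.leP D (D.tP (Nat.xor 18432 (Pt.fu y))) y e = true :=
  Pt.blk16 D (Pt.forall16' _ b35_0 b35_1 b35_2 b35_3 b35_4 b35_5 b35_6 b35_7 b35_8 b35_9 b35_10 b35_11 b35_12 b35_13 b35_14 b35_15)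

end Pool.Agent.Lib.MP_afdd4d_co.K10.RP
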