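import Pool.Agent.Lib.MP_afdd4d_co.K10.RN.Q23
import Pool.Agent.Lib.MP_afdd4d_co.K10.RP.Blk
import Pool.Agent.Lib.MP_afdd4d_co.K10.RP.E23
import Pool.Agent.Lib.MP_afdd4d_co.K10.RP.D23
import Pool.Agent.Lib.MP_afdd4d_co.K10.RP.E23p1
import Pool.Agent.Lib.MP_afdd4d_co.K10.RP.D23p1
import Pool.Agent.Lib.MP_afdd4d_co.K10.RP.Q23p1
import Pool.Agent.Lib.MP_afdd4d_co.K10.RP.W23
import Pool.Agent.Lib.MP_afdd4d_co.K10.RP.B09
import Pool.Agent.Lib.MP_afdd4d_co.K10.RP.B13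
import Pool.Agent.Lib.MP_afdd4d_co.K10.RP.B17
import Pool.Agent.Lib.MP_afdd4d_co.K10.RP.B19
import Pool.Agent.Lib.MP_afdd4d_co.K10.RP.B26
import Pool.Agent.Lib.MP_afdd4d_co.K10.RP.B35
import Pool.Agent.Lib.MP_afdd4d_co.K10.RP.B39

/-!
# The far pairs of the coset number 23
-/

namespace Pool.Agent.Lib.MP_afdd4d_co.K10.RP

open K8 K10.RS

theorem t23_0 : ∀ x < 1024, Pt.chT D (Jv.jsE K8.RN.E23.z 0) (tE23 0) (tK23 0) (tS23 0) x = true :=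
  chT_of b39 (tE23 0) (tK23 0) (tS23 0) 21 7 rfl (by decide) (by decide +kernel)

theorem t23_1 : ∀ x < 1024, Pt.chT D (Jv.jsE K8.RN.E23.z 1) (tE23 1) (tK23 1) (tS23 1) x = true :=
  chT_of b09 (tE23 1) (tK23 1) (tS23 1) 0 1 rfl (by decide) (by decide +kernel)

theorem t23_2 : ∀ x < 1024, Pt.chT D (Jv.jsE K8.RN.E23.z 2) (tE23 2) (tK23 2) (tS23 2) x = true :=
  chT_of b13 (tE23 2) (tK23 2) (tS23 2) 0 9 rfl (by decide) (by decide +kernel)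

theorem t23_3 : ∀ x < 1024, Pt.chT D (Jv.jsE K8.RN.E23.z 3) (tE23 3) (tK23 3) (tS23 3) x = true :=
  chT_of b17 (tE23 3) (tK23 3) (tS23 3) 0 9 rfl (by decide) (by decide +kernel)

theorem t23_4 : ∀ x < 1024, Pt.chT D (Jv.jsE K8.RN.E23.z 4) (tE23 4) (tK23 4) (tS23 4) x = true :=
  chT_of b19 (tE23 4) (tK23 4) (tS23 4) 0 3 rfl (by decide) (by decide +kernel)

theorem t23_5 : ∀ x < 1024, Pt.chT D (Jv.jsE K8.RN.E23.z 5) (tE23 5) (tK23 5) (tS23 5) x = true :=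
  chT_of b26 (tE23 5) (tK23 5) (tS23 5) 0 3 rfl (by decide) (by decide +kernel)

theorem t23_6 : ∀ x < 1024, Pt.chT D (Jv.jsE K8.RN.E23.z 6) (tE23 6) (tK23 6) (tS23 6) x = true :=
  chT_of b35 (tE23 6) (tK23 6) (tS23 6) 0 0 rfl (by decide) (by decide +kernel)

theorem c23 : Pt.chN D K K1_23 K2_23 K4_23 = true := by decide +kernel

theorem out23 : Pt.FarY S K8.RN.E23.g.c 7 (Pt.Out X23) :=
  Pt.farY_out D D_w K K_eq K8.RN.E23.g K8.RN.E23.z K8.RN.E23.hg (rep_mem 23 (by decide) rfl) X23 okE23 okK23 okS23 c23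
    K10.RN.r1_23 r2_23 (Pt.forall7 _ t23_0 t23_1 t23_2 t23_3 t23_4 t23_5 t23_6) r4_23

theorem t23p1_0 : ∀ x < 1024, Pt.chT D (Jv.jsE K8.RN.E23.z 0) (tE23p1 0) (tK23p1 0) (tS23p1 0) x = true :=
  chT_of b39 (tE23p1 0) (tK23p1 0) (tS23p1 0) 21 8 rfl (by decide) (by decide +kernel)

theorem t23p1_1 : ∀ x < 1024, Pt.chT D (Jv.jsE K8.RN.E23.z 1) (tE23p1 1) (tK23p1 1) (tS23p1 1) x = true :=
  chT_of b09 (tE23p1 1) (tK23p1 1) (tS23p1 1) 0 2 rfl (by decide) (by decide +kernel)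

theorem t23p1_2 : ∀ x < 1024, Pt.chT D (Jv.jsE K8.RN.E23.z 2) (tE23p1 2) (tK23p1 2) (tS23p1 2) x = true :=
  chT_of b13 (tE23p1 2) (tK23p1 2) (tS23p1 2) 0 10 rfl (by decide) (by decide +kernel)

theorem t23p1_3 : ∀ x < 1024, Pt.chT D (Jv.jsE K8.RN.E23.z 3) (tE23p1 3) (tK23p1 3) (tS23p1 3) x = true :=
  chT_of b17 (tE23p1 3) (tK23p1 3) (tS23p1 3) 0 10 rfl (by decide) (by decide +kernel)

theorem t23p1_4 : ∀ x < 1024, Pt.chT D (Jv.jsE K8.RN.E23.z 4) (tE23p1 4) (tK23p1 4) (tS23p1 4) x = true :=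
  chT_of b19 (tE23p1 4) (tK23p1 4) (tS23p1 4) 0 4 rfl (by decide) (by decide +kernel)

theorem t23p1_5 : ∀ x < 1024, Pt.chT D (Jv.jsE K8.RN.E23.z 5) (tE23p1 5) (tK23p1 5) (tS23p1 5) x = true :=
  chT_of b26 (tE23p1 5) (tK23p1 5) (tS23p1 5) 0 4 rfl (by decide) (by decide +kernel)

theorem t23p1_6 : ∀ x < 1024, Pt.chT D (Jv.jsE K8.RN.E23.z 6) (tE23p1 6) (tK23p1 6) (tS23p1 6) x = true :=
  chT_of b35 (tE23p1 6) (tK23p1 6) (tS23p1 6) 0 1 rfl (by decide) (by decide +kernel)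

theorem c23p1 : Pt.chN D K K1_23p1 K2_23p1 K4_23p1 = true := by decide +kernel

theorem y23p1 : Pt.FarY S K8.RN.E23.g.c 7 (fun y => y ∈ Y23p1) :=
  Pt.farY_lst D D_w K K_eq K8.RN.E23.g K8.RN.E23.z K8.RN.E23.hg (rep_mem 23 (by decide) rfl) Y23p1 okE23p1 okK23p1 okS23p1 c23p1
    r1_23p1 r2_23p1 (Pt.forall7 _ t23p1_0 t23p1_1 t23p1_2 t23p1_3 t23p1_4 t23p1_5 t23p1_6) r4_23p1

theorem x23p1 : ∀ l ∈ X23p1, Pt.FarY S K8.RN.E23.g.c 7 (fun y => y ∈ l) :=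
  Pt.tr_spec w0_23 y23p1 (fun _ h => h) w23p1

theorem far23 : Pt.Far S K8.RN.E23.g.c 7 := Pt.far_of_out out23 x23p1

end Pool.Agent.Lib.MP_afdd4d_co.K10.RP
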