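import Pool.Agent.Lib.MP_afdd4d_co.K10.RP.B42_0
import Pool.Agent.Lib.MP_afdd4d_co.K10.RP.B42_1

/-!
# The pairs of the class 42
-/

namespace Pool.Agent.Lib.MP_afdd4d_co.K10.RP

open K8 K10.RS

theorem b42 : ∀ y < 1024, ∀ e ∈ L42, Pt.leP D (D.tP (Nat.xor 24848 (Pt.fu y))) y e = true :=
  Pt.blk16 D (Pt.forall16' _ b42_0 b42_1 b42_2 b42_3 b42_4 b42_5 b42_6 b42_7 b42_8 b42_9 b42_10 b42_11 b42_12 b42_13 b42_14 b42_15)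

end Pool.Agent.Lib.MP_afdd4d_co.K10.RP
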