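import Pool.Agent.Lib.MP_afdd4d_co.K10.RN.Q24
import Pool.Agent.Lib.MP_afdd4d_co.K10.RP.Blk
import Pool.Agent.Lib.MP_afdd4d_co.K10.RP.E24
import Pool.Agent.Lib.MP_afdd4d_co.K10.RP.D24
import Pool.Agent.Lib.MP_afdd4d_co.K10.RP.E24p1
import Pool.Agent.Lib.MP_afdd4d_co.K10.RP.D24p1
import Pool.Agent.Lib.MP_afdd4d_co.K10.RP.Q24p1
import Pool.Agent.Lib.MP_afdd4d_co.K10.RP.W24
import Pool.Agent.Lib.MP_afdd4d_co.K10.RP.B09
import Pool.Agent.Lib.MP_afdd4d_co.K10.RP.B13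
import Pool.Agent.Lib.MP_afdd4d_co.K10.RP.B15
import Pool.Agent.Lib.MP_afdd4d_co.K10.RP.B20
import Pool.Agent.Lib.MP_afdd4d_co.K10.RP.B42
import Pool.Agent.Lib.MP_afdd4d_co.K10.RP.B44

/-!
# The far pairs of the coset number 24
-/

namespace Pool.Agent.Lib.MP_afdd4d_co.K10.RP

open K8 K10.RS

theorem t24_0 : ∀ x < 1024, Pt.chT D (Jv.jsE K8.RN.E24.z 0) (tE24 0) (tK24 0) (tS24 0) x = true :=
  chT_of b44 (tE24 0) (tK24 0) (tS24 0) 3 2 rfl (by decide) (by decide +kernel)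

theorem t24_1 : ∀ x < 1024, Pt.chT D (Jv.jsE K8.RN.E24.z 1) (tE24 1) (tK24 1) (tS24 1) x = true :=
  chT_of b09 (tE24 1) (tK24 1) (tS24 1) 0 3 rfl (by decide) (by decide +kernel)

theorem t24_2 : ∀ x < 1024, Pt.chT D (Jv.jsE K8.RN.E24.z 2) (tE24 2) (tK24 2) (tS24 2) x = true :=
  chT_of b09 (tE24 2) (tK24 2) (tS24 2) 0 4 rfl (by decide) (by decide +kernel)

theorem t24_3 : ∀ x < 1024, Pt.chT D (Jv.jsE K8.RN.E24.z 3) (tE24 3) (tK24 3) (tS24 3) x = true :=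
  chT_of b13 (tE24 3) (tK24 3) (tS24 3) 0 11 rfl (by decide) (by decide +kernel)

theorem t24_4 : ∀ x < 1024, Pt.chT D (Jv.jsE K8.RN.E24.z 4) (tE24 4) (tK24 4) (tS24 4) x = true :=
  chT_of b15 (tE24 4) (tK24 4) (tS24 4) 0 11 rfl (by decide) (by decide +kernel)

theorem t24_5 : ∀ x < 1024, Pt.chT D (Jv.jsE K8.RN.E24.z 5) (tE24 5) (tK24 5) (tS24 5) x = true :=
  chT_of b20 (tE24 5) (tK24 5) (tS24 5) 0 13 rfl (by decide) (by decide +kernel)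

theorem t24_6 : ∀ x < 1024, Pt.chT D (Jv.jsE K8.RN.E24.z 6) (tE24 6) (tK24 6) (tS24 6) x = true :=
  chT_of b42 (tE24 6) (tK24 6) (tS24 6) 0 0 rfl (by decide) (by decide +kernel)

theorem c24 : Pt.chN D K K1_24 K2_24 K4_24 = true := by decide +kernel

theorem out24 : Pt.FarY S K8.RN.E24.g.c 7 (Pt.Out X24) :=
  Pt.farY_out D D_w K K_eq K8.RN.E24.g K8.RN.E24.z K8.RN.E24.hg (rep_mem 24 (by decide) rfl) X24 okE24 okK24 okS24 c24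
    K10.RN.r1_24 r2_24 (Pt.forall7 _ t24_0 t24_1 t24_2 t24_3 t24_4 t24_5 t24_6) r4_24

theorem t24p1_0 : ∀ x < 1024, Pt.chT D (Jv.jsE K8.RN.E24.z 0) (tE24p1 0) (tK24p1 0) (tS24p1 0) x = true :=
  chT_of b44 (tE24p1 0) (tK24p1 0) (tS24p1 0) 3 3 rfl (by decide) (by decide +kernel)

theorem t24p1_1 : ∀ x < 1024, Pt.chT D (Jv.jsE K8.RN.E24.z 1) (tE24p1 1) (tK24p1 1) (tS24p1 1) x = true :=
  chT_of b09 (tE24p1 1) (tK24p1 1) (tS24p1 1) 0 5 rfl (by decide) (by decide +kernel)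

theorem t24p1_2 : ∀ x < 1024, Pt.chT D (Jv.jsE K8.RN.E24.z 2) (tE24p1 2) (tK24p1 2) (tS24p1 2) x = true :=
  chT_of b09 (tE24p1 2) (tK24p1 2) (tS24p1 2) 0 6 rfl (by decide) (by decide +kernel)

theorem t24p1_3 : ∀ x < 1024, Pt.chT D (Jv.jsE K8.RN.E24.z 3) (tE24p1 3) (tK24p1 3) (tS24p1 3) x = true :=
  chT_of b13 (tE24p1 3) (tK24p1 3) (tS24p1 3) 0 12 rfl (by decide) (by decide +kernel)

theorem t24p1_4 : ∀ x < 1024, Pt.chT D (Jv.jsE K8.RN.E24.z 4) (tE24p1 4) (tK24p1 4) (tS24p1 4) x = true :=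
  chT_of b15 (tE24p1 4) (tK24p1 4) (tS24p1 4) 0 12 rfl (by decide) (by decide +kernel)

theorem t24p1_5 : ∀ x < 1024, Pt.chT D (Jv.jsE K8.RN.E24.z 5) (tE24p1 5) (tK24p1 5) (tS24p1 5) x = true :=
  chT_of b20 (tE24p1 5) (tK24p1 5) (tS24p1 5) 0 14 rfl (by decide) (by decide +kernel)

theorem t24p1_6 : ∀ x < 1024, Pt.chT D (Jv.jsE K8.RN.E24.z 6) (tE24p1 6) (tK24p1 6) (tS24p1 6) x = true :=
  chT_of b42 (tE24p1 6) (tK24p1 6) (tS24p1 6) 0 1 rfl (by decide) (by decide +kernel)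

theorem c24p1 : Pt.chN D K K1_24p1 K2_24p1 K4_24p1 = true := by decide +kernel

theorem y24p1 : Pt.FarY S K8.RN.E24.g.c 7 (fun y => y ∈ Y24p1) :=
  Pt.farY_lst D D_w K K_eq K8.RN.E24.g K8.RN.E24.z K8.RN.E24.hg (rep_mem 24 (by decide) rfl) Y24p1 okE24p1 okK24p1 okS24p1 c24p1
    r1_24p1 r2_24p1 (Pt.forall7 _ t24p1_0 t24p1_1 t24p1_2 t24p1_3 t24p1_4 t24p1_5 t24p1_6) r4_24p1

theorem x24p1 : ∀ l ∈ X24p1, Pt.FarY S K8.RN.E24.g.c 7 (fun y => y ∈ l) :=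
  Pt.tr_spec w0_24 y24p1 (fun _ h => h) w24p1

theorem far24 : Pt.Far S K8.RN.E24.g.c 7 := Pt.far_of_out out24 x24p1

end Pool.Agent.Lib.MP_afdd4d_co.K10.RP
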