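import Pool.Agent.Lib.MP_afdd4d_co.K10.RP.B21_0
import Pool.Agent.Lib.MP_afdd4d_co.K10.RP.B21_1

/-!
# The pairs of the class 21
-/

namespace Pool.Agent.Lib.MP_afdd4d_co.K10.RP

open K8 K10.RS

theorem b21 : ∀ y < 1024, ∀ e ∈ L21, Pt.leP D (D.tP (Nat.xor 2320 (Pt.fu y))) y e = true :=
  Pt.blk16 D (Pt.forall16' _ b21_0 b21_1 b21_2 b21_3 b21_4 b21_5 b21_6 b21_7 b21_8 b21_9 b21_10 b21_11 b21_12 b21_13 b21_14 b21_15)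

end Pool.Agent.Lib.MP_afdd4d_co.K10.RP
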