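import Pool.Agent.Lib.MP_afdd4d_co.K10.RN.Q25
import Pool.Agent.Lib.MP_afdd4d_co.K10.RP.Blk
import Pool.Agent.Lib.MP_afdd4d_co.K10.RP.E25
import Pool.Agent.Lib.MP_afdd4d_co.K10.RP.D25
import Pool.Agent.Lib.MP_afdd4d_co.K10.RP.E25p1
import Pool.Agent.Lib.MP_afdd4d_co.K10.RP.D25p1
import Pool.Agent.Lib.MP_afdd4d_co.K10.RP.Q25p1
import Pool.Agent.Lib.MP_afdd4d_co.K10.RP.W25
import Pool.Agent.Lib.MP_afdd4d_co.K10.RP.B03
import Pool.Agent.Lib.MP_afdd4d_co.K10.RP.B20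
import Pool.Agent.Lib.MP_afdd4d_co.K10.RP.B21

/-!
# The far pairs of the coset number 25
-/

namespace Pool.Agent.Lib.MP_afdd4d_co.K10.RP

open K8 K10.RS

theorem t25_0 : ∀ x < 1024, Pt.chT D (Jv.jsE K8.RN.E25.z 0) (tE25 0) (tK25 0) (tS25 0) x = true :=
  chT_of b20 (tE25 0) (tK25 0) (tS25 0) 19 15 rfl (by decide) (by decide +kernel)

theorem t25_1 : ∀ x < 1024, Pt.chT D (Jv.jsE K8.RN.E25.z 1) (tE25 1) (tK25 1) (tS25 1) x = true :=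
  chT_of b03 (tE25 1) (tK25 1) (tS25 1) 0 10 rfl (by decide) (by decide +kernel)

theorem t25_2 : ∀ x < 1024, Pt.chT D (Jv.jsE K8.RN.E25.z 2) (tE25 2) (tK25 2) (tS25 2) x = true :=
  chT_of b03 (tE25 2) (tK25 2) (tS25 2) 0 11 rfl (by decide) (by decide +kernel)

theorem t25_3 : ∀ x < 1024, Pt.chT D (Jv.jsE K8.RN.E25.z 3) (tE25 3) (tK25 3) (tS25 3) x = true :=
  chT_of b20 (tE25 3) (tK25 3) (tS25 3) 0 16 rfl (by decide) (by decide +kernel)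

theorem t25_4 : ∀ x < 1024, Pt.chT D (Jv.jsE K8.RN.E25.z 4) (tE25 4) (tK25 4) (tS25 4) x = true :=
  chT_of b20 (tE25 4) (tK25 4) (tS25 4) 0 17 rfl (by decide) (by decide +kernel)

theorem t25_5 : ∀ x < 1024, Pt.chT D (Jv.jsE K8.RN.E25.z 5) (tE25 5) (tK25 5) (tS25 5) x = true :=
  chT_of b20 (tE25 5) (tK25 5) (tS25 5) 0 18 rfl (by decide) (by decide +kernel)

theorem t25_6 : ∀ x < 1024, Pt.chT D (Jv.jsE K8.RN.E25.z 6) (tE25 6) (tK25 6) (tS25 6) x = true :=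
  chT_of b21 (tE25 6) (tK25 6) (tS25 6) 0 0 rfl (by decide) (by decide +kernel)

theorem c25 : Pt.chN D K K1_25 K2_25 K4_25 = true := by decide +kernel

theorem out25 : Pt.FarY S K8.RN.E25.g.c 7 (Pt.Out X25) :=
  Pt.farY_out D D_w K K_eq K8.RN.E25.g K8.RN.E25.z K8.RN.E25.hg (rep_mem 25 (by decide) rfl) X25 okE25 okK25 okS25 c25
    K10.RN.r1_25 r2_25 (Pt.forall7 _ t25_0 t25_1 t25_2 t25_3 t25_4 t25_5 t25_6) r4_25

theorem t25p1_0 : ∀ x < 1024, Pt.chT D (Jv.jsE K8.RN.E25.z 0) (tE25p1 0) (tK25p1 0) (tS25p1 0) x = true :=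
  chT_of b21 (tE25p1 0) (tK25p1 0) (tS25p1 0) 19 1 rfl (by decide) (by decide +kernel)

theorem t25p1_1 : ∀ x < 1024, Pt.chT D (Jv.jsE K8.RN.E25.z 1) (tE25p1 1) (tK25p1 1) (tS25p1 1) x = true :=
  chT_of b03 (tE25p1 1) (tK25p1 1) (tS25p1 1) 0 12 rfl (by decide) (by decide +kernel)

theorem t25p1_2 : ∀ x < 1024, Pt.chT D (Jv.jsE K8.RN.E25.z 2) (tE25p1 2) (tK25p1 2) (tS25p1 2) x = true :=
  chT_of b03 (tE25p1 2) (tK25p1 2) (tS25p1 2) 0 13 rfl (by decide) (by decide +kernel)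

theorem t25p1_3 : ∀ x < 1024, Pt.chT D (Jv.jsE K8.RN.E25.z 3) (tE25p1 3) (tK25p1 3) (tS25p1 3) x = true :=
  chT_of b21 (tE25p1 3) (tK25p1 3) (tS25p1 3) 0 2 rfl (by decide) (by decide +kernel)

theorem t25p1_4 : ∀ x < 1024, Pt.chT D (Jv.jsE K8.RN.E25.z 4) (tE25p1 4) (tK25p1 4) (tS25p1 4) x = true :=
  chT_of b21 (tE25p1 4) (tK25p1 4) (tS25p1 4) 0 3 rfl (by decide) (by decide +kernel)

theorem t25p1_5 : ∀ x < 1024, Pt.chT D (Jv.jsE K8.RN.E25.z 5) (tE25p1 5) (tK25p1 5) (tS25p1 5) x = true :=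
  chT_of b21 (tE25p1 5) (tK25p1 5) (tS25p1 5) 0 4 rfl (by decide) (by decide +kernel)

theorem t25p1_6 : ∀ x < 1024, Pt.chT D (Jv.jsE K8.RN.E25.z 6) (tE25p1 6) (tK25p1 6) (tS25p1 6) x = true :=
  chT_of b21 (tE25p1 6) (tK25p1 6) (tS25p1 6) 0 5 rfl (by decide) (by decide +kernel)

theorem c25p1 : Pt.chN D K K1_25p1 K2_25p1 K4_25p1 = true := by decide +kernel

theorem y25p1 : Pt.FarY S K8.RN.E25.g.c 7 (fun y => y ∈ Y25p1) :=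
  Pt.farY_lst D D_w K K_eq K8.RN.E25.g K8.RN.E25.z K8.RN.E25.hg (rep_mem 25 (by decide) rfl) Y25p1 okE25p1 okK25p1 okS25p1 c25p1
    r1_25p1 r2_25p1 (Pt.forall7 _ t25p1_0 t25p1_1 t25p1_2 t25p1_3 t25p1_4 t25p1_5 t25p1_6) r4_25p1

theorem x25p1 : ∀ l ∈ X25p1, Pt.FarY S K8.RN.E25.g.c 7 (fun y => y ∈ l) :=
  Pt.tr_spec w0_25 y25p1 (fun _ h => h) w25p1

theorem far25 : Pt.Far S K8.RN.E25.g.c 7 := Pt.far_of_out out25 x25p1

end Pool.Agent.Lib.MP_afdd4d_co.K10.RP
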