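import Pool.Agent.Lib.MP_afdd4d_co.K10.RP.T26
import Pool.Agent.Lib.MP_afdd4d_co.K8.RN.E26

/-!
# The differences, potentials number 0 of the coset number 26
-/

namespace Pool.Agent.Lib.MP_afdd4d_co.K10.RP

open K8

theorem d26 :
    (Pt.chD tS26 (Jv.jsE K8.RN.E26.z) 120911139627605689 0 = true ∧
    Pt.chD tS26 (Jv.jsE K8.RN.E26.z) 120911139627605689 1 = true ∧
    Pt.chD tS26 (Jv.jsE K8.RN.E26.z) 120911139627605689 2 = true ∧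
    Pt.chD tS26 (Jv.jsE K8.RN.E26.z) 120911139627605689 3 = true) ∧
    (Pt.chD tS26 (Jv.jsE K8.RN.E26.z) 120911139627605689 4 = true ∧
    Pt.chD tS26 (Jv.jsE K8.RN.E26.z) 120911139627605689 5 = true ∧
    Pt.chD tS26 (Jv.jsE K8.RN.E26.z) 120911139627605689 6 = true ∧
    Pt.chD tS26 (Jv.jsE K8.RN.E26.z) 120911139627605689 7 = true) ∧
    (Pt.chD tS26 (Jv.jsE K8.RN.E26.z) 120911139627605689 8 = true ∧
    Pt.chD tS26 (Jv.jsE K8.RN.E26.z) 120911139627605689 9 = true ∧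
    Pt.chD tS26 (Jv.jsE K8.RN.E26.z) 120911139627605689 10 = true ∧
    Pt.chD tS26 (Jv.jsE K8.RN.E26.z) 120911139627605689 11 = true) ∧
    (Pt.chD tS26 (Jv.jsE K8.RN.E26.z) 120911139627605689 12 = true ∧
    Pt.chD tS26 (Jv.jsE K8.RN.E26.z) 120911139627605689 13 = true ∧
    Pt.chD tS26 (Jv.jsE K8.RN.E26.z) 120911139627605689 14 = true ∧
    Pt.chD tS26 (Jv.jsE K8.RN.E26.z) 120911139627605689 15 = true) := by
  refine ⟨⟨?_, ?_, ?_, ?_⟩, ⟨?_, ?_, ?_, ?_⟩, ⟨?_, ?_, ?_, ?_⟩, ⟨?_, ?_, ?_, ?_⟩⟩ <;> decide +kernel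

theorem r4_26 : ∀ τ < 16, Pt.chD tS26 (Jv.jsE K8.RN.E26.z) 120911139627605689 τ = true :=
  Jv.Tabs.forall16 _ d26.1 d26.2.1 d26.2.2.1 d26.2.2.2

end Pool.Agent.Lib.MP_afdd4d_co.K10.RP
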