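import Pool.Agent.Lib.MP_afdd4d_co.K10.RP.X26
import Pool.Agent.Lib.MP_afdd4d_co.K8.RN.E26
import Pool.Agent.Lib.MP_afdd4d_co.K10.RP.T26p1

/-!
# The equivalences of the coset number 26
-/

namespace Pool.Agent.Lib.MP_afdd4d_co.K10.RP

open K8

set_option maxRecDepth 100000

theorem w0_26 : Pt.c0 K8.RN.E26.g.c = true := by decide +kernel

/-- The permutations of the part 1. -/
def P26p1 : List (List ℕ) := [
  [1754760, 1726088, 1508556, 1336524],
  [1754760, 1508556],
  [1754760, 1726088, 1508556, 1336524],
  [1754760, 1508556],
  [1754760, 1508556, 1246413, 181902],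
  [1754760, 1726088, 1508556, 1336524, 1246413, 1074381, 181902, 153230],
  [1754760, 1508556],
  [1754760, 1508556],
  [1754760, 1508556, 1246413, 181902],
  [1754760, 1508556],
  [1754760, 1508556],
  [1754760, 1508556],
  [1754760, 1726088, 1508556, 1336524, 1246413, 1074381, 181902, 153230],
  [1754760, 1726088, 1508556, 1336524, 1246413, 1074381, 181902, 153230],
  [1754760, 1726088],
  [1754760, 1508556, 1246413, 181902],
  [1754760, 1726088, 1508556, 1336524],
  [1754760, 1726088, 1508556, 1336524, 1246413, 1074381, 181902, 153230],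
  [1754760, 1726088, 1508556, 1336524, 1246413, 1074381, 181902, 153230],
  [1754760, 1726088, 1508556, 1336524, 1246413, 1074381, 181902, 153230],
  [1754760, 1508556, 1246413, 181902],
  [1754760, 1726088, 1508556, 1336524],
  [1754760, 1726088, 1508556, 1336524],
  [1754760, 1726088, 1508556, 1336524, 1246413, 1074381, 181902, 153230],
  [1754760, 1726088, 1508556, 1336524],
  [1754760, 1726088, 1508556, 1336524],
  [1754760, 1508556, 1246413, 181902],
  [1754760, 1726088, 1508556, 1336524, 1246413, 1074381, 181902, 153230],
  [1754760, 1726088, 1508556, 1336524, 1246413, 1074381, 181902, 153230],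
  [1754760, 1508556, 1246413, 181902],
  [1754760, 1726088, 1508556, 1336524, 1246413, 1074381, 181902, 153230],
  [1754760, 1726088, 1508556, 1336524, 1246413, 1074381, 181902, 153230],
  [1754760, 1726088, 1508556, 1336524, 1246413, 1074381, 181902, 153230],
  [1754760, 1726088, 1508556, 1336524, 1246413, 1074381, 181902, 153230],
  [1754760, 1726088, 1508556, 1336524, 1246413, 1074381, 181902, 153230],
  [1754760, 1726088, 1508556, 1336524, 1246413, 1074381, 181902, 153230],
  [1754760, 1726088, 1508556, 1336524, 1246413, 1074381, 181902, 153230]]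

theorem w26p1 : Pt.tr K8.RN.E26.g.c Y26p1 X26p1 P26p1 = true := by decide +kernel

end Pool.Agent.Lib.MP_afdd4d_co.K10.RP
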