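import Pool.Agent.Lib.MP_afdd4d_co.K10.RN.Q26
import Pool.Agent.Lib.MP_afdd4d_co.K10.RP.Blk
import Pool.Agent.Lib.MP_afdd4d_co.K10.RP.E26
import Pool.Agent.Lib.MP_afdd4d_co.K10.RP.D26
import Pool.Agent.Lib.MP_afdd4d_co.K10.RP.E26p1
import Pool.Agent.Lib.MP_afdd4d_co.K10.RP.D26p1
import Pool.Agent.Lib.MP_afdd4d_co.K10.RP.Q26p1
import Pool.Agent.Lib.MP_afdd4d_co.K10.RP.W26
import Pool.Agent.Lib.MP_afdd4d_co.K10.RP.B03
import Pool.Agent.Lib.MP_afdd4d_co.K10.RP.B09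
import Pool.Agent.Lib.MP_afdd4d_co.K10.RP.B19
import Pool.Agent.Lib.MP_afdd4d_co.K10.RP.B21
import Pool.Agent.Lib.MP_afdd4d_co.K10.RP.B27

/-!
# The far pairs of the coset number 26
-/

namespace Pool.Agent.Lib.MP_afdd4d_co.K10.RP

open K8 K10.RS

theorem t26_0 : ∀ x < 1024, Pt.chT D (Jv.jsE K8.RN.E26.z 0) (tE26 0) (tK26 0) (tS26 0) x = true :=
  chT_of b27 (tE26 0) (tK26 0) (tS26 0) 19 2 rfl (by decide) (by decide +kernel)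

theorem t26_1 : ∀ x < 1024, Pt.chT D (Jv.jsE K8.RN.E26.z 1) (tE26 1) (tK26 1) (tS26 1) x = true :=
  chT_of b03 (tE26 1) (tK26 1) (tS26 1) 0 14 rfl (by decide) (by decide +kernel)

theorem t26_2 : ∀ x < 1024, Pt.chT D (Jv.jsE K8.RN.E26.z 2) (tE26 2) (tK26 2) (tS26 2) x = true :=
  chT_of b09 (tE26 2) (tK26 2) (tS26 2) 0 7 rfl (by decide) (by decide +kernel)

theorem t26_3 : ∀ x < 1024, Pt.chT D (Jv.jsE K8.RN.E26.z 3) (tE26 3) (tK26 3) (tS26 3) x = true :=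
  chT_of b19 (tE26 3) (tK26 3) (tS26 3) 0 5 rfl (by decide) (by decide +kernel)

theorem t26_4 : ∀ x < 1024, Pt.chT D (Jv.jsE K8.RN.E26.z 4) (tE26 4) (tK26 4) (tS26 4) x = true :=
  chT_of b21 (tE26 4) (tK26 4) (tS26 4) 0 6 rfl (by decide) (by decide +kernel)

theorem t26_5 : ∀ x < 1024, Pt.chT D (Jv.jsE K8.RN.E26.z 5) (tE26 5) (tK26 5) (tS26 5) x = true :=
  chT_of b21 (tE26 5) (tK26 5) (tS26 5) 0 7 rfl (by decide) (by decide +kernel)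

theorem t26_6 : ∀ x < 1024, Pt.chT D (Jv.jsE K8.RN.E26.z 6) (tE26 6) (tK26 6) (tS26 6) x = true :=
  chT_of b27 (tE26 6) (tK26 6) (tS26 6) 0 3 rfl (by decide) (by decide +kernel)

theorem c26 : Pt.chN D K K1_26 K2_26 K4_26 = true := by decide +kernel

theorem out26 : Pt.FarY S K8.RN.E26.g.c 7 (Pt.Out X26) :=
  Pt.farY_out D D_w K K_eq K8.RN.E26.g K8.RN.E26.z K8.RN.E26.hg (rep_mem 26 (by decide) rfl) X26 okE26 okK26 okS26 c26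
    K10.RN.r1_26 r2_26 (Pt.forall7 _ t26_0 t26_1 t26_2 t26_3 t26_4 t26_5 t26_6) r4_26

theorem t26p1_0 : ∀ x < 1024, Pt.chT D (Jv.jsE K8.RN.E26.z 0) (tE26p1 0) (tK26p1 0) (tS26p1 0) x = true :=
  chT_of b27 (tE26p1 0) (tK26p1 0) (tS26p1 0) 19 4 rfl (by decide) (by decide +kernel)

theorem t26p1_1 : ∀ x < 1024, Pt.chT D (Jv.jsE K8.RN.E26.z 1) (tE26p1 1) (tK26p1 1) (tS26p1 1) x = true :=
  chT_of b03 (tE26p1 1) (tK26p1 1) (tS26p1 1) 0 15 rfl (by decide) (by decide +kernel)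

theorem t26p1_2 : ∀ x < 1024, Pt.chT D (Jv.jsE K8.RN.E26.z 2) (tE26p1 2) (tK26p1 2) (tS26p1 2) x = true :=
  chT_of b09 (tE26p1 2) (tK26p1 2) (tS26p1 2) 0 8 rfl (by decide) (by decide +kernel)

theorem t26p1_3 : ∀ x < 1024, Pt.chT D (Jv.jsE K8.RN.E26.z 3) (tE26p1 3) (tK26p1 3) (tS26p1 3) x = true :=
  chT_of b19 (tE26p1 3) (tK26p1 3) (tS26p1 3) 0 6 rfl (by decide) (by decide +kernel)

theorem t26p1_4 : ∀ x < 1024, Pt.chT D (Jv.jsE K8.RN.E26.z 4) (tE26p1 4) (tK26p1 4) (tS26p1 4) x = true :=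
  chT_of b21 (tE26p1 4) (tK26p1 4) (tS26p1 4) 0 8 rfl (by decide) (by decide +kernel)

theorem t26p1_5 : ∀ x < 1024, Pt.chT D (Jv.jsE K8.RN.E26.z 5) (tE26p1 5) (tK26p1 5) (tS26p1 5) x = true :=
  chT_of b21 (tE26p1 5) (tK26p1 5) (tS26p1 5) 0 9 rfl (by decide) (by decide +kernel)

theorem t26p1_6 : ∀ x < 1024, Pt.chT D (Jv.jsE K8.RN.E26.z 6) (tE26p1 6) (tK26p1 6) (tS26p1 6) x = true :=
  chT_of b27 (tE26p1 6) (tK26p1 6) (tS26p1 6) 0 5 rfl (by decide) (by decide +kernel)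

theorem c26p1 : Pt.chN D K K1_26p1 K2_26p1 K4_26p1 = true := by decide +kernel

theorem y26p1 : Pt.FarY S K8.RN.E26.g.c 7 (fun y => y ∈ Y26p1) :=
  Pt.farY_lst D D_w K K_eq K8.RN.E26.g K8.RN.E26.z K8.RN.E26.hg (rep_mem 26 (by decide) rfl) Y26p1 okE26p1 okK26p1 okS26p1 c26p1
    r1_26p1 r2_26p1 (Pt.forall7 _ t26p1_0 t26p1_1 t26p1_2 t26p1_3 t26p1_4 t26p1_5 t26p1_6) r4_26p1

theorem x26p1 : ∀ l ∈ X26p1, Pt.FarY S K8.RN.E26.g.c 7 (fun y => y ∈ l) :=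
  Pt.tr_spec w0_26 y26p1 (fun _ h => h) w26p1

theorem far26 : Pt.Far S K8.RN.E26.g.c 7 := Pt.far_of_out out26 x26p1

end Pool.Agent.Lib.MP_afdd4d_co.K10.RP
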