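import Pool.Agent.Lib.MP_afdd4d_co.K10.RP.X27
import Pool.Agent.Lib.MP_afdd4d_co.K8.RN.E27
import Pool.Agent.Lib.MP_afdd4d_co.K10.RP.T27p1

/-!
# The equivalences of the coset number 27
-/

namespace Pool.Agent.Lib.MP_afdd4d_co.K10.RP

open K8

set_option maxRecDepth 100000

theorem w0_27 : Pt.c0 K8.RN.E27.g.c = true := by decide +kernel

/-- The permutations of the part 1. -/
def P27p1 : List (List ℕ) := [
  [1754760, 1754704],
  [1754760, 1751176, 1754704, 1751120],
  [1754760, 1751176, 1754704, 1751120, 181902, 178318, 181846, 178262],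
  [1754760, 1751176, 181902, 178318],
  [1754760, 1754704],
  [1754760],
  [1754760, 1751176, 181902, 178318],
  [1754760, 1751176, 181902, 178318],
  [1754760, 1751176, 181902, 178318],
  [1754760, 1751176, 181902, 178318],
  [1754760, 1751176, 1754704, 1751120, 181902, 178318, 181846, 178262],
  [1754760, 1751176, 1754704, 1751120, 181902, 178318, 181846, 178262],
  [1754760, 1751176, 1754704, 1751120],
  [1754760, 1751176, 1754704, 1751120, 181902, 178318, 181846, 178262],
  [1754760, 1751176, 181902, 178318],
  [1754760, 1751176, 1754704, 1751120],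
  [1754760, 1751176, 1754704, 1751120, 181902, 178318, 181846, 178262],
  [1754760, 1751176, 181902, 178318],
  [1754760, 1751176, 181902, 178318],
  [1754760],
  [1754760, 1751176, 1754704, 1751120],
  [1754760, 1751176, 1754704, 1751120],
  [1754760, 1751176, 1754704, 1751120, 181902, 178318, 181846, 178262],
  [1754760, 1751176, 1754704, 1751120, 181902, 178318, 181846, 178262],
  [1754760, 1751176, 1754704, 1751120, 181902, 178318, 181846, 178262],
  [1754760, 1751176, 1754704, 1751120, 181902, 178318, 181846, 178262],
  [1754760, 1751176, 1754704, 1751120, 181902, 178318, 181846, 178262],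
  [1754760, 1751176, 1754704, 1751120, 181902, 178318, 181846, 178262],
  [1754760, 1751176],
  [1754760, 1754704, 181902, 181846],
  [1754760, 1751176, 1754704, 1751120],
  [1754760, 1751176, 181902, 178318],
  [1754760, 1751176, 181902, 178318],
  [1754760, 1751176, 181902, 178318]]

theorem w27p1 : Pt.tr K8.RN.E27.g.c Y27p1 X27p1 P27p1 = true := by decide +kernel

end Pool.Agent.Lib.MP_afdd4d_co.K10.RP
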