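import Pool.Agent.Lib.MP_afdd4d_co.K10.RN.Q27
import Pool.Agent.Lib.MP_afdd4d_co.K10.RP.Blk
import Pool.Agent.Lib.MP_afdd4d_co.K10.RP.E27
import Pool.Agent.Lib.MP_afdd4d_co.K10.RP.D27
import Pool.Agent.Lib.MP_afdd4d_co.K10.RP.E27p1
import Pool.Agent.Lib.MP_afdd4d_co.K10.RP.D27p1
import Pool.Agent.Lib.MP_afdd4d_co.K10.RP.Q27p1
import Pool.Agent.Lib.MP_afdd4d_co.K10.RP.W27
import Pool.Agent.Lib.MP_afdd4d_co.K10.RP.B09
import Pool.Agent.Lib.MP_afdd4d_co.K10.RP.B19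
import Pool.Agent.Lib.MP_afdd4d_co.K10.RP.B21
import Pool.Agent.Lib.MP_afdd4d_co.K10.RP.B40

/-!
# The far pairs of the coset number 27
-/

namespace Pool.Agent.Lib.MP_afdd4d_co.K10.RP

open K8 K10.RS

theorem t27_0 : ∀ x < 1024, Pt.chT D (Jv.jsE K8.RN.E27.z 0) (tE27 0) (tK27 0) (tS27 0) x = true :=
  chT_of b40 (tE27 0) (tK27 0) (tS27 0) 19 4 rfl (by decide) (by decide +kernel)

theorem t27_1 : ∀ x < 1024, Pt.chT D (Jv.jsE K8.RN.E27.z 1) (tE27 1) (tK27 1) (tS27 1) x = true :=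
  chT_of b09 (tE27 1) (tK27 1) (tS27 1) 0 9 rfl (by decide) (by decide +kernel)

theorem t27_2 : ∀ x < 1024, Pt.chT D (Jv.jsE K8.RN.E27.z 2) (tE27 2) (tK27 2) (tS27 2) x = true :=
  chT_of b09 (tE27 2) (tK27 2) (tS27 2) 0 10 rfl (by decide) (by decide +kernel)

theorem t27_3 : ∀ x < 1024, Pt.chT D (Jv.jsE K8.RN.E27.z 3) (tE27 3) (tK27 3) (tS27 3) x = true :=
  chT_of b19 (tE27 3) (tK27 3) (tS27 3) 0 7 rfl (by decide) (by decide +kernel)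

theorem t27_4 : ∀ x < 1024, Pt.chT D (Jv.jsE K8.RN.E27.z 4) (tE27 4) (tK27 4) (tS27 4) x = true :=
  chT_of b19 (tE27 4) (tK27 4) (tS27 4) 0 8 rfl (by decide) (by decide +kernel)

theorem t27_5 : ∀ x < 1024, Pt.chT D (Jv.jsE K8.RN.E27.z 5) (tE27 5) (tK27 5) (tS27 5) x = true :=
  chT_of b21 (tE27 5) (tK27 5) (tS27 5) 0 10 rfl (by decide) (by decide +kernel)

theorem t27_6 : ∀ x < 1024, Pt.chT D (Jv.jsE K8.RN.E27.z 6) (tE27 6) (tK27 6) (tS27 6) x = true :=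
  chT_of b40 (tE27 6) (tK27 6) (tS27 6) 0 5 rfl (by decide) (by decide +kernel)

theorem c27 : Pt.chN D K K1_27 K2_27 K4_27 = true := by decide +kernel

theorem out27 : Pt.FarY S K8.RN.E27.g.c 7 (Pt.Out X27) :=
  Pt.farY_out D D_w K K_eq K8.RN.E27.g K8.RN.E27.z K8.RN.E27.hg (rep_mem 27 (by decide) rfl) X27 okE27 okK27 okS27 c27
    K10.RN.r1_27 r2_27 (Pt.forall7 _ t27_0 t27_1 t27_2 t27_3 t27_4 t27_5 t27_6) r4_27

theorem t27p1_0 : ∀ x < 1024, Pt.chT D (Jv.jsE K8.RN.E27.z 0) (tE27p1 0) (tK27p1 0) (tS27p1 0) x = true :=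
  chT_of b40 (tE27p1 0) (tK27p1 0) (tS27p1 0) 19 6 rfl (by decide) (by decide +kernel)

theorem t27p1_1 : ∀ x < 1024, Pt.chT D (Jv.jsE K8.RN.E27.z 1) (tE27p1 1) (tK27p1 1) (tS27p1 1) x = true :=
  chT_of b09 (tE27p1 1) (tK27p1 1) (tS27p1 1) 0 11 rfl (by decide) (by decide +kernel)

theorem t27p1_2 : ∀ x < 1024, Pt.chT D (Jv.jsE K8.RN.E27.z 2) (tE27p1 2) (tK27p1 2) (tS27p1 2) x = true :=
  chT_of b09 (tE27p1 2) (tK27p1 2) (tS27p1 2) 0 12 rfl (by decide) (by decide +kernel)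

theorem t27p1_3 : ∀ x < 1024, Pt.chT D (Jv.jsE K8.RN.E27.z 3) (tE27p1 3) (tK27p1 3) (tS27p1 3) x = true :=
  chT_of b19 (tE27p1 3) (tK27p1 3) (tS27p1 3) 0 9 rfl (by decide) (by decide +kernel)

theorem t27p1_4 : ∀ x < 1024, Pt.chT D (Jv.jsE K8.RN.E27.z 4) (tE27p1 4) (tK27p1 4) (tS27p1 4) x = true :=
  chT_of b19 (tE27p1 4) (tK27p1 4) (tS27p1 4) 0 10 rfl (by decide) (by decide +kernel)

theorem t27p1_5 : ∀ x < 1024, Pt.chT D (Jv.jsE K8.RN.E27.z 5) (tE27p1 5) (tK27p1 5) (tS27p1 5) x = true :=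
  chT_of b21 (tE27p1 5) (tK27p1 5) (tS27p1 5) 0 11 rfl (by decide) (by decide +kernel)

theorem t27p1_6 : ∀ x < 1024, Pt.chT D (Jv.jsE K8.RN.E27.z 6) (tE27p1 6) (tK27p1 6) (tS27p1 6) x = true :=
  chT_of b40 (tE27p1 6) (tK27p1 6) (tS27p1 6) 0 7 rfl (by decide) (by decide +kernel)

theorem c27p1 : Pt.chN D K K1_27p1 K2_27p1 K4_27p1 = true := by decide +kernel

theorem y27p1 : Pt.FarY S K8.RN.E27.g.c 7 (fun y => y ∈ Y27p1) :=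
  Pt.farY_lst D D_w K K_eq K8.RN.E27.g K8.RN.E27.z K8.RN.E27.hg (rep_mem 27 (by decide) rfl) Y27p1 okE27p1 okK27p1 okS27p1 c27p1
    r1_27p1 r2_27p1 (Pt.forall7 _ t27p1_0 t27p1_1 t27p1_2 t27p1_3 t27p1_4 t27p1_5 t27p1_6) r4_27p1

theorem x27p1 : ∀ l ∈ X27p1, Pt.FarY S K8.RN.E27.g.c 7 (fun y => y ∈ l) :=
  Pt.tr_spec w0_27 y27p1 (fun _ h => h) w27p1

theorem far27 : Pt.Far S K8.RN.E27.g.c 7 := Pt.far_of_out out27 x27p1

end Pool.Agent.Lib.MP_afdd4d_co.K10.RP
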