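import Pool.Agent.Lib.MP_afdd4d_co.K10.RN.Q28
import Pool.Agent.Lib.MP_afdd4d_co.K10.RP.Blk
import Pool.Agent.Lib.MP_afdd4d_co.K10.RP.E28
import Pool.Agent.Lib.MP_afdd4d_co.K10.RP.D28
import Pool.Agent.Lib.MP_afdd4d_co.K10.RP.B09
import Pool.Agent.Lib.MP_afdd4d_co.K10.RP.B13
import Pool.Agent.Lib.MP_afdd4d_co.K10.RP.B16
import Pool.Agent.Lib.MP_afdd4d_co.K10.RP.B21
import Pool.Agent.Lib.MP_afdd4d_co.K10.RP.B27
import Pool.Agent.Lib.MP_afdd4d_co.K10.RP.B34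
import Pool.Agent.Lib.MP_afdd4d_co.K10.RP.B46

/-!
# The far pairs of the coset number 28
-/

namespace Pool.Agent.Lib.MP_afdd4d_co.K10.RP

open K8 K10.RS

theorem t28_0 : ∀ x < 1024, Pt.chT D (Jv.jsE K8.RN.E28.z 0) (tE28 0) (tK28 0) (tS28 0) x = true :=
  chT_of b46 (tE28 0) (tK28 0) (tS28 0) 21 8 rfl (by decide) (by decide +kernel)

theorem t28_1 : ∀ x < 1024, Pt.chT D (Jv.jsE K8.RN.E28.z 1) (tE28 1) (tK28 1) (tS28 1) x = true :=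
  chT_of b09 (tE28 1) (tK28 1) (tS28 1) 0 13 rfl (by decide) (by decide +kernel)

theorem t28_2 : ∀ x < 1024, Pt.chT D (Jv.jsE K8.RN.E28.z 2) (tE28 2) (tK28 2) (tS28 2) x = true :=
  chT_of b13 (tE28 2) (tK28 2) (tS28 2) 0 13 rfl (by decide) (by decide +kernel)

theorem t28_3 : ∀ x < 1024, Pt.chT D (Jv.jsE K8.RN.E28.z 3) (tE28 3) (tK28 3) (tS28 3) x = true :=
  chT_of b16 (tE28 3) (tK28 3) (tS28 3) 0 15 rfl (by decide) (by decide +kernel)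

theorem t28_4 : ∀ x < 1024, Pt.chT D (Jv.jsE K8.RN.E28.z 4) (tE28 4) (tK28 4) (tS28 4) x = true :=
  chT_of b21 (tE28 4) (tK28 4) (tS28 4) 0 12 rfl (by decide) (by decide +kernel)

theorem t28_5 : ∀ x < 1024, Pt.chT D (Jv.jsE K8.RN.E28.z 5) (tE28 5) (tK28 5) (tS28 5) x = true :=
  chT_of b27 (tE28 5) (tK28 5) (tS28 5) 0 6 rfl (by decide) (by decide +kernel)

theorem t28_6 : ∀ x < 1024, Pt.chT D (Jv.jsE K8.RN.E28.z 6) (tE28 6) (tK28 6) (tS28 6) x = true :=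
  chT_of b34 (tE28 6) (tK28 6) (tS28 6) 0 2 rfl (by decide) (by decide +kernel)

theorem c28 : Pt.chN D K K1_28 K2_28 K4_28 = true := by decide +kernel

theorem out28 : Pt.FarY S K8.RN.E28.g.c 7 (Pt.Out X28) :=
  Pt.farY_out D D_w K K_eq K8.RN.E28.g K8.RN.E28.z K8.RN.E28.hg (rep_mem 28 (by decide) rfl) X28 okE28 okK28 okS28 c28
    K10.RN.r1_28 r2_28 (Pt.forall7 _ t28_0 t28_1 t28_2 t28_3 t28_4 t28_5 t28_6) r4_28

theorem far28 : Pt.Far S K8.RN.E28.g.c 7 := Pt.far_of_out out28 (fun l hl => absurd hl List.not_mem_nil)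

end Pool.Agent.Lib.MP_afdd4d_co.K10.RP
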