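import Pool.Agent.Lib.MP_afdd4d_co.K10.RP.X30
import Pool.Agent.Lib.MP_afdd4d_co.K8.RN.E30
import Pool.Agent.Lib.MP_afdd4d_co.K10.RP.T30p1

/-!
# The equivalences of the coset number 30
-/

namespace Pool.Agent.Lib.MP_afdd4d_co.K10.RP

open K8

set_option maxRecDepth 100000

theorem w0_30 : Pt.c0 K8.RN.E30.g.c = true := by decide +kernel

/-- The permutations of the part 1. -/
def P30p1 : List (List ℕ) := [
  [1754760],
  [1754760, 1726088, 1693832, 181902, 153230, 120974],
  [1754760, 1726088, 1693832, 181902, 153230, 120974],
  [1754760, 1726088, 1751176, 1693832, 1718920, 1690248],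
  [1754760],
  [1754760, 1726088, 1751176, 1693832, 1718920, 1690248],
  [1754760, 1726088, 1693832, 181902, 153230, 120974],
  [1754760, 1726088, 1693832, 181902, 153230, 120974],
  [1754760, 1751176, 1718920],
  [1754760, 1751176, 1718920],
  [1754760],
  [1754760],
  [1754760, 1726088, 1693832, 181902, 153230, 120974],
  [1754760, 1751176, 1718920, 181902, 178318, 146062],
  [1754760, 1726088, 1751176, 1693832, 1718920, 1690248],
  [1754760, 1726088, 1751176, 1693832, 1718920, 1690248],
  [1754760, 1726088, 1751176, 1693832, 1718920, 1690248],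
  [1754760, 1726088, 1751176, 1693832, 1718920, 1690248],
  [1754760, 1726088, 1751176, 1693832, 1718920, 1690248, 181902, 153230, 178318, 120974, 146062, 117390],
  [1754760, 1751176, 1718920],
  [1754760, 1751176, 1718920],
  [1754760, 1751176, 1718920],
  [1754760, 1751176, 1718920],
  [1754760, 1726088, 1751176, 1693832, 1718920, 1690248, 181902, 153230, 178318, 120974, 146062, 117390],
  [1754760, 1726088, 1751176, 1693832, 1718920, 1690248, 181902, 153230, 178318, 120974, 146062, 117390],
  [1754760, 1751176, 1718920],
  [1754760, 1726088, 1751176, 1693832, 1718920, 1690248],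
  [1754760, 1751176, 1718920, 181902, 178318, 146062],
  [1754760, 1726088, 1693832, 181902, 153230, 120974],
  [1754760, 1726088, 1693832, 181902, 153230, 120974],
  [1754760, 181902],
  [1754760, 1751176, 1718920, 181902, 178318, 146062],
  [1754760, 1751176, 1718920, 181902, 178318, 146062],
  [1754760, 1726088, 1693832, 181902, 153230, 120974],
  [1754760, 1751176, 1718920, 181902, 178318, 146062],
  [1754760, 181902],
  [1754760, 1726088, 1693832, 181902, 153230, 120974],
  [1754760, 1751176, 1718920, 181902, 178318, 146062]]

theorem w30p1 : Pt.tr K8.RN.E30.g.c Y30p1 X30p1 P30p1 = true := by decide +kernel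

end Pool.Agent.Lib.MP_afdd4d_co.K10.RP
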