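import Pool.Agent.Lib.MP_afdd4d_co.K10.RN.Q30
import Pool.Agent.Lib.MP_afdd4d_co.K10.RP.Blk
import Pool.Agent.Lib.MP_afdd4d_co.K10.RP.E30
import Pool.Agent.Lib.MP_afdd4d_co.K10.RP.D30
import Pool.Agent.Lib.MP_afdd4d_co.K10.RP.E30p1
import Pool.Agent.Lib.MP_afdd4d_co.K10.RP.D30p1
import Pool.Agent.Lib.MP_afdd4d_co.K10.RP.Q30p1
import Pool.Agent.Lib.MP_afdd4d_co.K10.RP.W30
import Pool.Agent.Lib.MP_afdd4d_co.K10.RP.B03
import Pool.Agent.Lib.MP_afdd4d_co.K10.RP.B09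
import Pool.Agent.Lib.MP_afdd4d_co.K10.RP.B21
import Pool.Agent.Lib.MP_afdd4d_co.K10.RP.B31

/-!
# The far pairs of the coset number 30
-/

namespace Pool.Agent.Lib.MP_afdd4d_co.K10.RP

open K8 K10.RS

theorem t30_0 : ∀ x < 1024, Pt.chT D (Jv.jsE K8.RN.E30.z 0) (tE30 0) (tK30 0) (tS30 0) x = true :=
  chT_of b31 (tE30 0) (tK30 0) (tS30 0) 19 8 rfl (by decide) (by decide +kernel)

theorem t30_1 : ∀ x < 1024, Pt.chT D (Jv.jsE K8.RN.E30.z 1) (tE30 1) (tK30 1) (tS30 1) x = true :=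
  chT_of b03 (tE30 1) (tK30 1) (tS30 1) 0 16 rfl (by decide) (by decide +kernel)

theorem t30_2 : ∀ x < 1024, Pt.chT D (Jv.jsE K8.RN.E30.z 2) (tE30 2) (tK30 2) (tS30 2) x = true :=
  chT_of b09 (tE30 2) (tK30 2) (tS30 2) 0 18 rfl (by decide) (by decide +kernel)

theorem t30_3 : ∀ x < 1024, Pt.chT D (Jv.jsE K8.RN.E30.z 3) (tE30 3) (tK30 3) (tS30 3) x = true :=
  chT_of b21 (tE30 3) (tK30 3) (tS30 3) 0 13 rfl (by decide) (by decide +kernel)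

theorem t30_4 : ∀ x < 1024, Pt.chT D (Jv.jsE K8.RN.E30.z 4) (tE30 4) (tK30 4) (tS30 4) x = true :=
  chT_of b21 (tE30 4) (tK30 4) (tS30 4) 0 14 rfl (by decide) (by decide +kernel)

theorem t30_5 : ∀ x < 1024, Pt.chT D (Jv.jsE K8.RN.E30.z 5) (tE30 5) (tK30 5) (tS30 5) x = true :=
  chT_of b21 (tE30 5) (tK30 5) (tS30 5) 0 15 rfl (by decide) (by decide +kernel)

theorem t30_6 : ∀ x < 1024, Pt.chT D (Jv.jsE K8.RN.E30.z 6) (tE30 6) (tK30 6) (tS30 6) x = true :=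
  chT_of b31 (tE30 6) (tK30 6) (tS30 6) 0 9 rfl (by decide) (by decide +kernel)

theorem c30 : Pt.chN D K K1_30 K2_30 K4_30 = true := by decide +kernel

theorem out30 : Pt.FarY S K8.RN.E30.g.c 7 (Pt.Out X30) :=
  Pt.farY_out D D_w K K_eq K8.RN.E30.g K8.RN.E30.z K8.RN.E30.hg (rep_mem 30 (by decide) rfl) X30 okE30 okK30 okS30 c30
    K10.RN.r1_30 r2_30 (Pt.forall7 _ t30_0 t30_1 t30_2 t30_3 t30_4 t30_5 t30_6) r4_30

theorem t30p1_0 : ∀ x < 1024, Pt.chT D (Jv.jsE K8.RN.E30.z 0) (tE30p1 0) (tK30p1 0) (tS30p1 0) x = true :=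
  chT_of b31 (tE30p1 0) (tK30p1 0) (tS30p1 0) 19 10 rfl (by decide) (by decide +kernel)

theorem t30p1_1 : ∀ x < 1024, Pt.chT D (Jv.jsE K8.RN.E30.z 1) (tE30p1 1) (tK30p1 1) (tS30p1 1) x = true :=
  chT_of b03 (tE30p1 1) (tK30p1 1) (tS30p1 1) 0 17 rfl (by decide) (by decide +kernel)

theorem t30p1_2 : ∀ x < 1024, Pt.chT D (Jv.jsE K8.RN.E30.z 2) (tE30p1 2) (tK30p1 2) (tS30p1 2) x = true :=
  chT_of b09 (tE30p1 2) (tK30p1 2) (tS30p1 2) 0 19 rfl (by decide) (by decide +kernel)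

theorem t30p1_3 : ∀ x < 1024, Pt.chT D (Jv.jsE K8.RN.E30.z 3) (tE30p1 3) (tK30p1 3) (tS30p1 3) x = true :=
  chT_of b21 (tE30p1 3) (tK30p1 3) (tS30p1 3) 0 16 rfl (by decide) (by decide +kernel)

theorem t30p1_4 : ∀ x < 1024, Pt.chT D (Jv.jsE K8.RN.E30.z 4) (tE30p1 4) (tK30p1 4) (tS30p1 4) x = true :=
  chT_of b21 (tE30p1 4) (tK30p1 4) (tS30p1 4) 0 17 rfl (by decide) (by decide +kernel)

theorem t30p1_5 : ∀ x < 1024, Pt.chT D (Jv.jsE K8.RN.E30.z 5) (tE30p1 5) (tK30p1 5) (tS30p1 5) x = true :=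
  chT_of b21 (tE30p1 5) (tK30p1 5) (tS30p1 5) 0 18 rfl (by decide) (by decide +kernel)

theorem t30p1_6 : ∀ x < 1024, Pt.chT D (Jv.jsE K8.RN.E30.z 6) (tE30p1 6) (tK30p1 6) (tS30p1 6) x = true :=
  chT_of b31 (tE30p1 6) (tK30p1 6) (tS30p1 6) 0 11 rfl (by decide) (by decide +kernel)

theorem c30p1 : Pt.chN D K K1_30p1 K2_30p1 K4_30p1 = true := by decide +kernel

theorem y30p1 : Pt.FarY S K8.RN.E30.g.c 7 (fun y => y ∈ Y30p1) :=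
  Pt.farY_lst D D_w K K_eq K8.RN.E30.g K8.RN.E30.z K8.RN.E30.hg (rep_mem 30 (by decide) rfl) Y30p1 okE30p1 okK30p1 okS30p1 c30p1
    r1_30p1 r2_30p1 (Pt.forall7 _ t30p1_0 t30p1_1 t30p1_2 t30p1_3 t30p1_4 t30p1_5 t30p1_6) r4_30p1

theorem x30p1 : ∀ l ∈ X30p1, Pt.FarY S K8.RN.E30.g.c 7 (fun y => y ∈ l) :=
  Pt.tr_spec w0_30 y30p1 (fun _ h => h) w30p1

theorem far30 : Pt.Far S K8.RN.E30.g.c 7 := Pt.far_of_out out30 x30p1

end Pool.Agent.Lib.MP_afdd4d_co.K10.RP
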