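import Pool.Agent.Lib.MP_afdd4d_co.K10.RP.B22_0
import Pool.Agent.Lib.MP_afdd4d_co.K10.RP.B22_1

/-!
# The pairs of the class 22
-/

namespace Pool.Agent.Lib.MP_afdd4d_co.K10.RP

open K8 K10.RS

theorem b22 : ∀ y < 1024, ∀ e ∈ L22, Pt.leP D (D.tP (Nat.xor 2320 (Pt.fu y))) y e = true :=
  Pt.blk16 D (Pt.forall16' _ b22_0 b22_1 b22_2 b22_3 b22_4 b22_5 b22_6 b22_7 b22_8 b22_9 b22_10 b22_11 b22_12 b22_13 b22_14 b22_15)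

end Pool.Agent.Lib.MP_afdd4d_co.K10.RP
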