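import Pool.Agent.Lib.MP_afdd4d_co.K10.RP.X31
import Pool.Agent.Lib.MP_afdd4d_co.K8.RN.E31
import Pool.Agent.Lib.MP_afdd4d_co.K10.RP.T31p1

/-!
# The equivalences of the coset number 31
-/

namespace Pool.Agent.Lib.MP_afdd4d_co.K10.RP

open K8

set_option maxRecDepth 100000

theorem w0_31 : Pt.c0 K8.RN.E31.g.c = true := by decide +kernel

/-- The permutations of the part 1. -/
def P31p1 : List (List ℕ) := [
  [1754760],
  [1754760, 1726088, 1754704, 1726032, 181902, 153230, 181846, 153174],
  [1754760, 181902],
  [1754760, 181902],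
  [1754760, 1754704],
  [1754760, 1726088, 181902, 153230],
  [1754760, 1754704],
  [1754760, 1726088, 1754704, 1726032],
  [1754760, 1726088, 1754704, 1726032],
  [1754760, 1726088, 1754704, 1726032],
  [1754760, 1726088, 1754704, 1726032, 181902, 153230, 181846, 153174],
  [1754760, 1726088],
  [1754760, 1726088],
  [1754760, 1726088, 181902, 153230],
  [1754760, 1726088, 1754704, 1726032],
  [1754760, 1726088, 1754704, 1726032],
  [1754760, 1726088],
  [1754760, 1726088],
  [1754760, 1726088],
  [1754760, 1726088, 1754704, 1726032, 181902, 153230, 181846, 153174],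
  [1754760, 1726088, 1754704, 1726032, 181902, 153230, 181846, 153174],
  [1754760, 1726088, 181902, 153230],
  [1754760, 181902],
  [1754760, 1726088, 181902, 153230],
  [1754760, 1754704, 181902, 181846],
  [1754760, 1754704, 181902, 181846],
  [1754760, 1726088, 1754704, 1726032, 181902, 153230, 181846, 153174],
  [1754760, 181902],
  [1754760, 1754704, 181902, 181846]]

theorem w31p1 : Pt.tr K8.RN.E31.g.c Y31p1 X31p1 P31p1 = true := by decide +kernel

end Pool.Agent.Lib.MP_afdd4d_co.K10.RP
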