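import Pool.Agent.Lib.MP_afdd4d_co.K10.RN.Q31
import Pool.Agent.Lib.MP_afdd4d_co.K10.RP.Blk
import Pool.Agent.Lib.MP_afdd4d_co.K10.RP.E31
import Pool.Agent.Lib.MP_afdd4d_co.K10.RP.D31
import Pool.Agent.Lib.MP_afdd4d_co.K10.RP.E31p1
import Pool.Agent.Lib.MP_afdd4d_co.K10.RP.D31p1
import Pool.Agent.Lib.MP_afdd4d_co.K10.RP.Q31p1
import Pool.Agent.Lib.MP_afdd4d_co.K10.RP.W31
import Pool.Agent.Lib.MP_afdd4d_co.K10.RP.B09
import Pool.Agent.Lib.MP_afdd4d_co.K10.RP.B10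
import Pool.Agent.Lib.MP_afdd4d_co.K10.RP.B19
import Pool.Agent.Lib.MP_afdd4d_co.K10.RP.B22
import Pool.Agent.Lib.MP_afdd4d_co.K10.RP.B42

/-!
# The far pairs of the coset number 31
-/

namespace Pool.Agent.Lib.MP_afdd4d_co.K10.RP

open K8 K10.RS

theorem t31_0 : ∀ x < 1024, Pt.chT D (Jv.jsE K8.RN.E31.z 0) (tE31 0) (tK31 0) (tS31 0) x = true :=
  chT_of b42 (tE31 0) (tK31 0) (tS31 0) 19 2 rfl (by decide) (by decide +kernel)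

theorem t31_1 : ∀ x < 1024, Pt.chT D (Jv.jsE K8.RN.E31.z 1) (tE31 1) (tK31 1) (tS31 1) x = true :=
  chT_of b09 (tE31 1) (tK31 1) (tS31 1) 0 20 rfl (by decide) (by decide +kernel)

theorem t31_2 : ∀ x < 1024, Pt.chT D (Jv.jsE K8.RN.E31.z 2) (tE31 2) (tK31 2) (tS31 2) x = true :=
  chT_of b10 (tE31 2) (tK31 2) (tS31 2) 0 0 rfl (by decide) (by decide +kernel)

theorem t31_3 : ∀ x < 1024, Pt.chT D (Jv.jsE K8.RN.E31.z 3) (tE31 3) (tK31 3) (tS31 3) x = true :=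
  chT_of b19 (tE31 3) (tK31 3) (tS31 3) 0 15 rfl (by decide) (by decide +kernel)

theorem t31_4 : ∀ x < 1024, Pt.chT D (Jv.jsE K8.RN.E31.z 4) (tE31 4) (tK31 4) (tS31 4) x = true :=
  chT_of b22 (tE31 4) (tK31 4) (tS31 4) 0 0 rfl (by decide) (by decide +kernel)

theorem t31_5 : ∀ x < 1024, Pt.chT D (Jv.jsE K8.RN.E31.z 5) (tE31 5) (tK31 5) (tS31 5) x = true :=
  chT_of b22 (tE31 5) (tK31 5) (tS31 5) 0 1 rfl (by decide) (by decide +kernel)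

theorem t31_6 : ∀ x < 1024, Pt.chT D (Jv.jsE K8.RN.E31.z 6) (tE31 6) (tK31 6) (tS31 6) x = true :=
  chT_of b42 (tE31 6) (tK31 6) (tS31 6) 0 3 rfl (by decide) (by decide +kernel)

theorem c31 : Pt.chN D K K1_31 K2_31 K4_31 = true := by decide +kernel

theorem out31 : Pt.FarY S K8.RN.E31.g.c 7 (Pt.Out X31) :=
  Pt.farY_out D D_w K K_eq K8.RN.E31.g K8.RN.E31.z K8.RN.E31.hg (rep_mem 31 (by decide) rfl) X31 okE31 okK31 okS31 c31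
    K10.RN.r1_31 r2_31 (Pt.forall7 _ t31_0 t31_1 t31_2 t31_3 t31_4 t31_5 t31_6) r4_31

theorem t31p1_0 : ∀ x < 1024, Pt.chT D (Jv.jsE K8.RN.E31.z 0) (tE31p1 0) (tK31p1 0) (tS31p1 0) x = true :=
  chT_of b42 (tE31p1 0) (tK31p1 0) (tS31p1 0) 19 4 rfl (by decide) (by decide +kernel)

theorem t31p1_1 : ∀ x < 1024, Pt.chT D (Jv.jsE K8.RN.E31.z 1) (tE31p1 1) (tK31p1 1) (tS31p1 1) x = true :=
  chT_of b10 (tE31p1 1) (tK31p1 1) (tS31p1 1) 0 1 rfl (by decide) (by decide +kernel)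

theorem t31p1_2 : ∀ x < 1024, Pt.chT D (Jv.jsE K8.RN.E31.z 2) (tE31p1 2) (tK31p1 2) (tS31p1 2) x = true :=
  chT_of b10 (tE31p1 2) (tK31p1 2) (tS31p1 2) 0 2 rfl (by decide) (by decide +kernel)

theorem t31p1_3 : ∀ x < 1024, Pt.chT D (Jv.jsE K8.RN.E31.z 3) (tE31p1 3) (tK31p1 3) (tS31p1 3) x = true :=
  chT_of b19 (tE31p1 3) (tK31p1 3) (tS31p1 3) 0 16 rfl (by decide) (by decide +kernel)

theorem t31p1_4 : ∀ x < 1024, Pt.chT D (Jv.jsE K8.RN.E31.z 4) (tE31p1 4) (tK31p1 4) (tS31p1 4) x = true :=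
  chT_of b22 (tE31p1 4) (tK31p1 4) (tS31p1 4) 0 2 rfl (by decide) (by decide +kernel)

theorem t31p1_5 : ∀ x < 1024, Pt.chT D (Jv.jsE K8.RN.E31.z 5) (tE31p1 5) (tK31p1 5) (tS31p1 5) x = true :=
  chT_of b22 (tE31p1 5) (tK31p1 5) (tS31p1 5) 0 3 rfl (by decide) (by decide +kernel)

theorem t31p1_6 : ∀ x < 1024, Pt.chT D (Jv.jsE K8.RN.E31.z 6) (tE31p1 6) (tK31p1 6) (tS31p1 6) x = true :=
  chT_of b42 (tE31p1 6) (tK31p1 6) (tS31p1 6) 0 5 rfl (by decide) (by decide +kernel)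

theorem c31p1 : Pt.chN D K K1_31p1 K2_31p1 K4_31p1 = true := by decide +kernel

theorem y31p1 : Pt.FarY S K8.RN.E31.g.c 7 (fun y => y ∈ Y31p1) :=
  Pt.farY_lst D D_w K K_eq K8.RN.E31.g K8.RN.E31.z K8.RN.E31.hg (rep_mem 31 (by decide) rfl) Y31p1 okE31p1 okK31p1 okS31p1 c31p1
    r1_31p1 r2_31p1 (Pt.forall7 _ t31p1_0 t31p1_1 t31p1_2 t31p1_3 t31p1_4 t31p1_5 t31p1_6) r4_31p1

theorem x31p1 : ∀ l ∈ X31p1, Pt.FarY S K8.RN.E31.g.c 7 (fun y => y ∈ l) :=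
  Pt.tr_spec w0_31 y31p1 (fun _ h => h) w31p1

theorem far31 : Pt.Far S K8.RN.E31.g.c 7 := Pt.far_of_out out31 x31p1

end Pool.Agent.Lib.MP_afdd4d_co.K10.RP
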