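import Pool.Agent.Lib.MP_afdd4d_co.K10.RP.B10_0
import Pool.Agent.Lib.MP_afdd4d_co.K10.RP.B10_1

/-!
# The pairs of the class 10
-/

namespace Pool.Agent.Lib.MP_afdd4d_co.K10.RP

open K8 K10.RS

theorem b10 : ∀ y < 1024, ∀ e ∈ L10, Pt.leP D (D.tP (Nat.xor 16 (Pt.fu y))) y e = true :=
  Pt.blk16 D (Pt.forall16' _ b10_0 b10_1 b10_2 b10_3 b10_4 b10_5 b10_6 b10_7 b10_8 b10_9 b10_10 b10_11 b10_12 b10_13 b10_14 b10_15)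

end Pool.Agent.Lib.MP_afdd4d_co.K10.RP
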