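import Pool.Agent.Lib.MP_afdd4d_co.K10.RP.B38_0
import Pool.Agent.Lib.MP_afdd4d_co.K10.RP.B38_1

/-!
# The pairs of the class 38
-/

namespace Pool.Agent.Lib.MP_afdd4d_co.K10.RP

open K8 K10.RS

theorem b38 : ∀ y < 1024, ∀ e ∈ L38, Pt.leP D (D.tP (Nat.xor 18704 (Pt.fu y))) y e = true :=
  Pt.blk16 D (Pt.forall16' _ b38_0 b38_1 b38_2 b38_3 b38_4 b38_5 b38_6 b38_7 b38_8 b38_9 b38_10 b38_11 b38_12 b38_13 b38_14 b38_15)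

end Pool.Agent.Lib.MP_afdd4d_co.K10.RP
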