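import Pool.Agent.Lib.MP_afdd4d_co.K10.RP.X32
import Pool.Agent.Lib.MP_afdd4d_co.K8.RN.E32
import Pool.Agent.Lib.MP_afdd4d_co.K10.RP.T32p1

/-!
# The equivalences of the coset number 32
-/

namespace Pool.Agent.Lib.MP_afdd4d_co.K10.RP

open K8

set_option maxRecDepth 100000

theorem w0_32 : Pt.c0 K8.RN.E32.g.c = true := by decide +kernel

/-- The permutations of the part 1. -/
def P32p1 : List (List ℕ) := [
  [1754760, 152782],
  [1754760, 152782],
  [1754760, 152782],
  [1754760, 152782],
  [1754760, 152782],
  [1754760, 152782],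
  [1754760, 152782],
  [1754760],
  [1754760, 152782],
  [1754760, 152782],
  [1754760, 152782],
  [1754760, 152782],
  [1754760, 152782],
  [1754760, 152782],
  [1754760, 152782],
  [1754760, 152782],
  [1754760, 152782],
  [1754760, 152782],
  [1754760, 152782],
  [1754760, 152782],
  [1754760, 152782],
  [1754760, 152782],
  [1754760, 152782],
  [1754760, 152782],
  [1754760, 152782],
  [1754760, 152782],
  [1754760, 152782],
  [1754760, 152782],
  [1754760, 152782],
  [1754760, 152782],
  [1754760, 152782],
  [1754760, 152782],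
  [1754760, 152782],
  [1754760, 152782],
  [1754760, 152782],
  [1754760, 152782],
  [1754760, 152782],
  [1754760, 152782]]

theorem w32p1 : Pt.tr K8.RN.E32.g.c Y32p1 X32p1 P32p1 = true := by decide +kernel

end Pool.Agent.Lib.MP_afdd4d_co.K10.RP
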