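import Pool.Agent.Lib.MP_afdd4d_co.K10.RN.Q32
import Pool.Agent.Lib.MP_afdd4d_co.K10.RP.Blk
import Pool.Agent.Lib.MP_afdd4d_co.K10.RP.E32
import Pool.Agent.Lib.MP_afdd4d_co.K10.RP.D32
import Pool.Agent.Lib.MP_afdd4d_co.K10.RP.E32p1
import Pool.Agent.Lib.MP_afdd4d_co.K10.RP.D32p1
import Pool.Agent.Lib.MP_afdd4d_co.K10.RP.Q32p1
import Pool.Agent.Lib.MP_afdd4d_co.K10.RP.W32
import Pool.Agent.Lib.MP_afdd4d_co.K10.RP.B10
import Pool.Agent.Lib.MP_afdd4d_co.K10.RP.B13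
import Pool.Agent.Lib.MP_afdd4d_co.K10.RP.B17
import Pool.Agent.Lib.MP_afdd4d_co.K10.RP.B22
import Pool.Agent.Lib.MP_afdd4d_co.K10.RP.B27
import Pool.Agent.Lib.MP_afdd4d_co.K10.RP.B38
import Pool.Agent.Lib.MP_afdd4d_co.K10.RP.B42

/-!
# The far pairs of the coset number 32
-/

namespace Pool.Agent.Lib.MP_afdd4d_co.K10.RP

open K8 K10.RS

theorem t32_0 : ∀ x < 1024, Pt.chT D (Jv.jsE K8.RN.E32.z 0) (tE32 0) (tK32 0) (tS32 0) x = true :=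
  chT_of b42 (tE32 0) (tK32 0) (tS32 0) 21 6 rfl (by decide) (by decide +kernel)

theorem t32_1 : ∀ x < 1024, Pt.chT D (Jv.jsE K8.RN.E32.z 1) (tE32 1) (tK32 1) (tS32 1) x = true :=
  chT_of b10 (tE32 1) (tK32 1) (tS32 1) 0 3 rfl (by decide) (by decide +kernel)

theorem t32_2 : ∀ x < 1024, Pt.chT D (Jv.jsE K8.RN.E32.z 2) (tE32 2) (tK32 2) (tS32 2) x = true :=
  chT_of b13 (tE32 2) (tK32 2) (tS32 2) 0 18 rfl (by decide) (by decide +kernel)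

theorem t32_3 : ∀ x < 1024, Pt.chT D (Jv.jsE K8.RN.E32.z 3) (tE32 3) (tK32 3) (tS32 3) x = true :=
  chT_of b17 (tE32 3) (tK32 3) (tS32 3) 0 15 rfl (by decide) (by decide +kernel)

theorem t32_4 : ∀ x < 1024, Pt.chT D (Jv.jsE K8.RN.E32.z 4) (tE32 4) (tK32 4) (tS32 4) x = true :=
  chT_of b22 (tE32 4) (tK32 4) (tS32 4) 0 4 rfl (by decide) (by decide +kernel)

theorem t32_5 : ∀ x < 1024, Pt.chT D (Jv.jsE K8.RN.E32.z 5) (tE32 5) (tK32 5) (tS32 5) x = true :=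
  chT_of b27 (tE32 5) (tK32 5) (tS32 5) 0 11 rfl (by decide) (by decide +kernel)

theorem t32_6 : ∀ x < 1024, Pt.chT D (Jv.jsE K8.RN.E32.z 6) (tE32 6) (tK32 6) (tS32 6) x = true :=
  chT_of b38 (tE32 6) (tK32 6) (tS32 6) 0 0 rfl (by decide) (by decide +kernel)

theorem c32 : Pt.chN D K K1_32 K2_32 K4_32 = true := by decide +kernel

theorem out32 : Pt.FarY S K8.RN.E32.g.c 7 (Pt.Out X32) :=
  Pt.farY_out D D_w K K_eq K8.RN.E32.g K8.RN.E32.z K8.RN.E32.hg (rep_mem 32 (by decide) rfl) X32 okE32 okK32 okS32 c32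
    K10.RN.r1_32 r2_32 (Pt.forall7 _ t32_0 t32_1 t32_2 t32_3 t32_4 t32_5 t32_6) r4_32

theorem t32p1_0 : ∀ x < 1024, Pt.chT D (Jv.jsE K8.RN.E32.z 0) (tE32p1 0) (tK32p1 0) (tS32p1 0) x = true :=
  chT_of b42 (tE32p1 0) (tK32p1 0) (tS32p1 0) 21 7 rfl (by decide) (by decide +kernel)

theorem t32p1_1 : ∀ x < 1024, Pt.chT D (Jv.jsE K8.RN.E32.z 1) (tE32p1 1) (tK32p1 1) (tS32p1 1) x = true :=
  chT_of b10 (tE32p1 1) (tK32p1 1) (tS32p1 1) 0 4 rfl (by decide) (by decide +kernel)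

theorem t32p1_2 : ∀ x < 1024, Pt.chT D (Jv.jsE K8.RN.E32.z 2) (tE32p1 2) (tK32p1 2) (tS32p1 2) x = true :=
  chT_of b13 (tE32p1 2) (tK32p1 2) (tS32p1 2) 0 19 rfl (by decide) (by decide +kernel)

theorem t32p1_3 : ∀ x < 1024, Pt.chT D (Jv.jsE K8.RN.E32.z 3) (tE32p1 3) (tK32p1 3) (tS32p1 3) x = true :=
  chT_of b17 (tE32p1 3) (tK32p1 3) (tS32p1 3) 0 16 rfl (by decide) (by decide +kernel)

theorem t32p1_4 : ∀ x < 1024, Pt.chT D (Jv.jsE K8.RN.E32.z 4) (tE32p1 4) (tK32p1 4) (tS32p1 4) x = true :=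
  chT_of b22 (tE32p1 4) (tK32p1 4) (tS32p1 4) 0 5 rfl (by decide) (by decide +kernel)

theorem t32p1_5 : ∀ x < 1024, Pt.chT D (Jv.jsE K8.RN.E32.z 5) (tE32p1 5) (tK32p1 5) (tS32p1 5) x = true :=
  chT_of b27 (tE32p1 5) (tK32p1 5) (tS32p1 5) 0 12 rfl (by decide) (by decide +kernel)

theorem t32p1_6 : ∀ x < 1024, Pt.chT D (Jv.jsE K8.RN.E32.z 6) (tE32p1 6) (tK32p1 6) (tS32p1 6) x = true :=
  chT_of b38 (tE32p1 6) (tK32p1 6) (tS32p1 6) 0 1 rfl (by decide) (by decide +kernel)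

theorem c32p1 : Pt.chN D K K1_32p1 K2_32p1 K4_32p1 = true := by decide +kernel

theorem y32p1 : Pt.FarY S K8.RN.E32.g.c 7 (fun y => y ∈ Y32p1) :=
  Pt.farY_lst D D_w K K_eq K8.RN.E32.g K8.RN.E32.z K8.RN.E32.hg (rep_mem 32 (by decide) rfl) Y32p1 okE32p1 okK32p1 okS32p1 c32p1
    r1_32p1 r2_32p1 (Pt.forall7 _ t32p1_0 t32p1_1 t32p1_2 t32p1_3 t32p1_4 t32p1_5 t32p1_6) r4_32p1

theorem x32p1 : ∀ l ∈ X32p1, Pt.FarY S K8.RN.E32.g.c 7 (fun y => y ∈ l) :=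
  Pt.tr_spec w0_32 y32p1 (fun _ h => h) w32p1

theorem far32 : Pt.Far S K8.RN.E32.g.c 7 := Pt.far_of_out out32 x32p1

end Pool.Agent.Lib.MP_afdd4d_co.K10.RP
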