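import Pool.Agent.Lib.MP_afdd4d_co.K10.RP.L30
import Pool.Agent.Lib.MP_afdd4d_co.K10.RS.Dat

/-!
# The pairs of the class 30, part 1
-/

namespace Pool.Agent.Lib.MP_afdd4d_co.K10.RP

open K8 K10.RS

theorem b30_p1 :
    Pt.chB D 10496 L30 512 64 = true ∧
    Pt.chB D 10496 L30 576 64 = true ∧
    Pt.chB D 10496 L30 640 64 = true ∧
    Pt.chB D 10496 L30 704 64 = true ∧
    Pt.chB D 10496 L30 768 64 = true ∧
    Pt.chB D 10496 L30 832 64 = true ∧
    Pt.chB D 10496 L30 896 64 = true ∧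
    Pt.chB D 10496 L30 960 64 = true := by
  refine ⟨?_, ?_, ?_, ?_, ?_, ?_, ?_, ?_⟩ <;> decide +kernel

theorem b30_8 : Pt.chB D 10496 L30 512 64 = true := b30_p1.1

theorem b30_9 : Pt.chB D 10496 L30 576 64 = true := b30_p1.2.1

theorem b30_10 : Pt.chB D 10496 L30 640 64 = true := b30_p1.2.2.1

theorem b30_11 : Pt.chB D 10496 L30 704 64 = true := b30_p1.2.2.2.1

theorem b30_12 : Pt.chB D 10496 L30 768 64 = true := b30_p1.2.2.2.2.1

theorem b30_13 : Pt.chB D 10496 L30 832 64 = true := b30_p1.2.2.2.2.2.1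

theorem b30_14 : Pt.chB D 10496 L30 896 64 = true := b30_p1.2.2.2.2.2.2.1

theorem b30_15 : Pt.chB D 10496 L30 960 64 = true := b30_p1.2.2.2.2.2.2.2

end Pool.Agent.Lib.MP_afdd4d_co.K10.RP
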