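import Pool.Agent.Lib.MP_afdd4d_co.K10.RP.B30_0
import Pool.Agent.Lib.MP_afdd4d_co.K10.RP.B30_1

/-!
# The pairs of the class 30
-/

namespace Pool.Agent.Lib.MP_afdd4d_co.K10.RP

open K8 K10.RS

theorem b30 : ∀ y < 1024, ∀ e ∈ L30, Pt.leP D (D.tP (Nat.xor 10496 (Pt.fu y))) y e = true :=
  Pt.blk16 D (Pt.forall16' _ b30_0 b30_1 b30_2 b30_3 b30_4 b30_5 b30_6 b30_7 b30_8 b30_9 b30_10 b30_11 b30_12 b30_13 b30_14 b30_15)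

end Pool.Agent.Lib.MP_afdd4d_co.K10.RP
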