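import Pool.Agent.Lib.MP_afdd4d_co.K10.RN.Q33
import Pool.Agent.Lib.MP_afdd4d_co.K10.RP.Blk
import Pool.Agent.Lib.MP_afdd4d_co.K10.RP.E33
import Pool.Agent.Lib.MP_afdd4d_co.K10.RP.D33
import Pool.Agent.Lib.MP_afdd4d_co.K10.RP.B10
import Pool.Agent.Lib.MP_afdd4d_co.K10.RP.B13
import Pool.Agent.Lib.MP_afdd4d_co.K10.RP.B22
import Pool.Agent.Lib.MP_afdd4d_co.K10.RP.B30
import Pool.Agent.Lib.MP_afdd4d_co.K10.RP.B37
import Pool.Agent.Lib.MP_afdd4d_co.K10.RP.B46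

/-!
# The far pairs of the coset number 33
-/

namespace Pool.Agent.Lib.MP_afdd4d_co.K10.RP

open K8 K10.RS

theorem t33_0 : ∀ x < 1024, Pt.chT D (Jv.jsE K8.RN.E33.z 0) (tE33 0) (tK33 0) (tS33 0) x = true :=
  chT_of b46 (tE33 0) (tK33 0) (tS33 0) 23 9 rfl (by decide) (by decide +kernel)

theorem t33_1 : ∀ x < 1024, Pt.chT D (Jv.jsE K8.RN.E33.z 1) (tE33 1) (tK33 1) (tS33 1) x = true :=
  chT_of b10 (tE33 1) (tK33 1) (tS33 1) 0 5 rfl (by decide) (by decide +kernel)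

theorem t33_2 : ∀ x < 1024, Pt.chT D (Jv.jsE K8.RN.E33.z 2) (tE33 2) (tK33 2) (tS33 2) x = true :=
  chT_of b13 (tE33 2) (tK33 2) (tS33 2) 0 20 rfl (by decide) (by decide +kernel)

theorem t33_3 : ∀ x < 1024, Pt.chT D (Jv.jsE K8.RN.E33.z 3) (tE33 3) (tK33 3) (tS33 3) x = true :=
  chT_of b22 (tE33 3) (tK33 3) (tS33 3) 0 6 rfl (by decide) (by decide +kernel)

theorem t33_4 : ∀ x < 1024, Pt.chT D (Jv.jsE K8.RN.E33.z 4) (tE33 4) (tK33 4) (tS33 4) x = true :=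
  chT_of b22 (tE33 4) (tK33 4) (tS33 4) 0 7 rfl (by decide) (by decide +kernel)

theorem t33_5 : ∀ x < 1024, Pt.chT D (Jv.jsE K8.RN.E33.z 5) (tE33 5) (tK33 5) (tS33 5) x = true :=
  chT_of b30 (tE33 5) (tK33 5) (tS33 5) 0 4 rfl (by decide) (by decide +kernel)

theorem t33_6 : ∀ x < 1024, Pt.chT D (Jv.jsE K8.RN.E33.z 6) (tE33 6) (tK33 6) (tS33 6) x = true :=
  chT_of b37 (tE33 6) (tK33 6) (tS33 6) 0 2 rfl (by decide) (by decide +kernel)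

theorem c33 : Pt.chN D K K1_33 K2_33 K4_33 = true := by decide +kernel

theorem out33 : Pt.FarY S K8.RN.E33.g.c 7 (Pt.Out X33) :=
  Pt.farY_out D D_w K K_eq K8.RN.E33.g K8.RN.E33.z K8.RN.E33.hg (rep_mem 33 (by decide) rfl) X33 okE33 okK33 okS33 c33
    K10.RN.r1_33 r2_33 (Pt.forall7 _ t33_0 t33_1 t33_2 t33_3 t33_4 t33_5 t33_6) r4_33

theorem far33 : Pt.Far S K8.RN.E33.g.c 7 := Pt.far_of_out out33 (fun l hl => absurd hl List.not_mem_nil)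

end Pool.Agent.Lib.MP_afdd4d_co.K10.RP
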