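import Pool.Agent.Lib.MP_afdd4d_co.K10.RP.B28_0
import Pool.Agent.Lib.MP_afdd4d_co.K10.RP.B28_1

/-!
# The pairs of the class 28
-/

namespace Pool.Agent.Lib.MP_afdd4d_co.K10.RP

open K8 K10.RS

theorem b28 : ∀ y < 1024, ∀ e ∈ L28, Pt.leP D (D.tP (Nat.xor 10240 (Pt.fu y))) y e = true :=
  Pt.blk16 D (Pt.forall16' _ b28_0 b28_1 b28_2 b28_3 b28_4 b28_5 b28_6 b28_7 b28_8 b28_9 b28_10 b28_11 b28_12 b28_13 b28_14 b28_15)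

end Pool.Agent.Lib.MP_afdd4d_co.K10.RP
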