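import Pool.Agent.Lib.MP_afdd4d_co.K10.RP.B36_0
import Pool.Agent.Lib.MP_afdd4d_co.K10.RP.B36_1

/-!
# The pairs of the class 36
-/

namespace Pool.Agent.Lib.MP_afdd4d_co.K10.RP

open K8 K10.RS

theorem b36 : ∀ y < 1024, ∀ e ∈ L36, Pt.leP D (D.tP (Nat.xor 18448 (Pt.fu y))) y e = true :=
  Pt.blk16 D (Pt.forall16' _ b36_0 b36_1 b36_2 b36_3 b36_4 b36_5 b36_6 b36_7 b36_8 b36_9 b36_10 b36_11 b36_12 b36_13 b36_14 b36_15)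

end Pool.Agent.Lib.MP_afdd4d_co.K10.RP
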