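import Pool.Agent.Lib.MP_afdd4d_co.K10.RP.T34p1
import Pool.Agent.Lib.MP_afdd4d_co.K8.RN.E34

/-!
# The differences, potentials number 1 of the coset number 34
-/

namespace Pool.Agent.Lib.MP_afdd4d_co.K10.RP

open K8

theorem d34p1 :
    (Pt.chD tS34p1 (Jv.jsE K8.RN.E34.z) 120911609509145675 0 = true ∧
    Pt.chD tS34p1 (Jv.jsE K8.RN.E34.z) 120911609509145675 1 = true ∧
    Pt.chD tS34p1 (Jv.jsE K8.RN.E34.z) 120911609509145675 2 = true ∧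
    Pt.chD tS34p1 (Jv.jsE K8.RN.E34.z) 120911609509145675 3 = true) ∧
    (Pt.chD tS34p1 (Jv.jsE K8.RN.E34.z) 120911609509145675 4 = true ∧
    Pt.chD tS34p1 (Jv.jsE K8.RN.E34.z) 120911609509145675 5 = true ∧
    Pt.chD tS34p1 (Jv.jsE K8.RN.E34.z) 120911609509145675 6 = true ∧
    Pt.chD tS34p1 (Jv.jsE K8.RN.E34.z) 120911609509145675 7 = true) ∧
    (Pt.chD tS34p1 (Jv.jsE K8.RN.E34.z) 120911609509145675 8 = true ∧
    Pt.chD tS34p1 (Jv.jsE K8.RN.E34.z) 120911609509145675 9 = true ∧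
    Pt.chD tS34p1 (Jv.jsE K8.RN.E34.z) 120911609509145675 10 = true ∧
    Pt.chD tS34p1 (Jv.jsE K8.RN.E34.z) 120911609509145675 11 = true) ∧
    (Pt.chD tS34p1 (Jv.jsE K8.RN.E34.z) 120911609509145675 12 = true ∧
    Pt.chD tS34p1 (Jv.jsE K8.RN.E34.z) 120911609509145675 13 = true ∧
    Pt.chD tS34p1 (Jv.jsE K8.RN.E34.z) 120911609509145675 14 = true ∧
    Pt.chD tS34p1 (Jv.jsE K8.RN.E34.z) 120911609509145675 15 = true) := by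
  refine ⟨⟨?_, ?_, ?_, ?_⟩, ⟨?_, ?_, ?_, ?_⟩, ⟨?_, ?_, ?_, ?_⟩, ⟨?_, ?_, ?_, ?_⟩⟩ <;> decide +kernel

theorem r4_34p1 : ∀ τ < 16, Pt.chD tS34p1 (Jv.jsE K8.RN.E34.z) 120911609509145675 τ = true :=
  Jv.Tabs.forall16 _ d34p1.1 d34p1.2.1 d34p1.2.2.1 d34p1.2.2.2

end Pool.Agent.Lib.MP_afdd4d_co.K10.RP
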