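import Pool.Agent.Lib.MP_afdd4d_co.K10.RN.Q34
import Pool.Agent.Lib.MP_afdd4d_co.K10.RP.Blk
import Pool.Agent.Lib.MP_afdd4d_co.K10.RP.E34
import Pool.Agent.Lib.MP_afdd4d_co.K10.RP.D34
import Pool.Agent.Lib.MP_afdd4d_co.K10.RP.E34p1
import Pool.Agent.Lib.MP_afdd4d_co.K10.RP.D34p1
import Pool.Agent.Lib.MP_afdd4d_co.K10.RP.Q34p1
import Pool.Agent.Lib.MP_afdd4d_co.K10.RP.W34
import Pool.Agent.Lib.MP_afdd4d_co.K10.RP.B10
import Pool.Agent.Lib.MP_afdd4d_co.K10.RP.B19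
import Pool.Agent.Lib.MP_afdd4d_co.K10.RP.B22
import Pool.Agent.Lib.MP_afdd4d_co.K10.RP.B28
import Pool.Agent.Lib.MP_afdd4d_co.K10.RP.B29
import Pool.Agent.Lib.MP_afdd4d_co.K10.RP.B36

/-!
# The far pairs of the coset number 34
-/

namespace Pool.Agent.Lib.MP_afdd4d_co.K10.RP

open K8 K10.RS

theorem t34_0 : ∀ x < 1024, Pt.chT D (Jv.jsE K8.RN.E34.z 0) (tE34 0) (tK34 0) (tS34 0) x = true :=
  chT_of b36 (tE34 0) (tK34 0) (tS34 0) 54 4 rfl (by decide) (by decide +kernel)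

theorem t34_1 : ∀ x < 1024, Pt.chT D (Jv.jsE K8.RN.E34.z 1) (tE34 1) (tK34 1) (tS34 1) x = true :=
  chT_of b10 (tE34 1) (tK34 1) (tS34 1) 0 6 rfl (by decide) (by decide +kernel)

theorem t34_2 : ∀ x < 1024, Pt.chT D (Jv.jsE K8.RN.E34.z 2) (tE34 2) (tK34 2) (tS34 2) x = true :=
  chT_of b19 (tE34 2) (tK34 2) (tS34 2) 0 17 rfl (by decide) (by decide +kernel)

theorem t34_3 : ∀ x < 1024, Pt.chT D (Jv.jsE K8.RN.E34.z 3) (tE34 3) (tK34 3) (tS34 3) x = true :=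
  chT_of b22 (tE34 3) (tK34 3) (tS34 3) 0 8 rfl (by decide) (by decide +kernel)

theorem t34_4 : ∀ x < 1024, Pt.chT D (Jv.jsE K8.RN.E34.z 4) (tE34 4) (tK34 4) (tS34 4) x = true :=
  chT_of b28 (tE34 4) (tK34 4) (tS34 4) 0 7 rfl (by decide) (by decide +kernel)

theorem t34_5 : ∀ x < 1024, Pt.chT D (Jv.jsE K8.RN.E34.z 5) (tE34 5) (tK34 5) (tS34 5) x = true :=
  chT_of b29 (tE34 5) (tK34 5) (tS34 5) 0 6 rfl (by decide) (by decide +kernel)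

theorem t34_6 : ∀ x < 1024, Pt.chT D (Jv.jsE K8.RN.E34.z 6) (tE34 6) (tK34 6) (tS34 6) x = true :=
  chT_of b36 (tE34 6) (tK34 6) (tS34 6) 0 5 rfl (by decide) (by decide +kernel)

theorem c34 : Pt.chN D K K1_34 K2_34 K4_34 = true := by decide +kernel

theorem out34 : Pt.FarY S K8.RN.E34.g.c 7 (Pt.Out X34) :=
  Pt.farY_out D D_w K K_eq K8.RN.E34.g K8.RN.E34.z K8.RN.E34.hg (rep_mem 34 (by decide) rfl) X34 okE34 okK34 okS34 c34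
    K10.RN.r1_34 r2_34 (Pt.forall7 _ t34_0 t34_1 t34_2 t34_3 t34_4 t34_5 t34_6) r4_34

theorem t34p1_0 : ∀ x < 1024, Pt.chT D (Jv.jsE K8.RN.E34.z 0) (tE34p1 0) (tK34p1 0) (tS34p1 0) x = true :=
  chT_of b36 (tE34p1 0) (tK34p1 0) (tS34p1 0) 54 6 rfl (by decide) (by decide +kernel)

theorem t34p1_1 : ∀ x < 1024, Pt.chT D (Jv.jsE K8.RN.E34.z 1) (tE34p1 1) (tK34p1 1) (tS34p1 1) x = true :=
  chT_of b10 (tE34p1 1) (tK34p1 1) (tS34p1 1) 0 7 rfl (by decide) (by decide +kernel)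

theorem t34p1_2 : ∀ x < 1024, Pt.chT D (Jv.jsE K8.RN.E34.z 2) (tE34p1 2) (tK34p1 2) (tS34p1 2) x = true :=
  chT_of b19 (tE34p1 2) (tK34p1 2) (tS34p1 2) 0 18 rfl (by decide) (by decide +kernel)

theorem t34p1_3 : ∀ x < 1024, Pt.chT D (Jv.jsE K8.RN.E34.z 3) (tE34p1 3) (tK34p1 3) (tS34p1 3) x = true :=
  chT_of b22 (tE34p1 3) (tK34p1 3) (tS34p1 3) 0 9 rfl (by decide) (by decide +kernel)

theorem t34p1_4 : ∀ x < 1024, Pt.chT D (Jv.jsE K8.RN.E34.z 4) (tE34p1 4) (tK34p1 4) (tS34p1 4) x = true :=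
  chT_of b28 (tE34p1 4) (tK34p1 4) (tS34p1 4) 0 8 rfl (by decide) (by decide +kernel)

theorem t34p1_5 : ∀ x < 1024, Pt.chT D (Jv.jsE K8.RN.E34.z 5) (tE34p1 5) (tK34p1 5) (tS34p1 5) x = true :=
  chT_of b29 (tE34p1 5) (tK34p1 5) (tS34p1 5) 0 7 rfl (by decide) (by decide +kernel)

theorem t34p1_6 : ∀ x < 1024, Pt.chT D (Jv.jsE K8.RN.E34.z 6) (tE34p1 6) (tK34p1 6) (tS34p1 6) x = true :=
  chT_of b36 (tE34p1 6) (tK34p1 6) (tS34p1 6) 0 7 rfl (by decide) (by decide +kernel)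

theorem c34p1 : Pt.chN D K K1_34p1 K2_34p1 K4_34p1 = true := by decide +kernel

theorem y34p1 : Pt.FarY S K8.RN.E34.g.c 7 (fun y => y ∈ Y34p1) :=
  Pt.farY_lst D D_w K K_eq K8.RN.E34.g K8.RN.E34.z K8.RN.E34.hg (rep_mem 34 (by decide) rfl) Y34p1 okE34p1 okK34p1 okS34p1 c34p1
    r1_34p1 r2_34p1 (Pt.forall7 _ t34p1_0 t34p1_1 t34p1_2 t34p1_3 t34p1_4 t34p1_5 t34p1_6) r4_34p1

theorem x34p1 : ∀ l ∈ X34p1, Pt.FarY S K8.RN.E34.g.c 7 (fun y => y ∈ l) :=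
  Pt.tr_spec w0_34 y34p1 (fun _ h => h) w34p1

theorem far34 : Pt.Far S K8.RN.E34.g.c 7 := Pt.far_of_out out34 x34p1

end Pool.Agent.Lib.MP_afdd4d_co.K10.RP
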