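import Pool.Agent.Lib.MP_afdd4d_co.K10.RP.T35p1
import Pool.Agent.Lib.MP_afdd4d_co.K8.RN.E35

/-!
# The differences, potentials number 1 of the coset number 35
-/

namespace Pool.Agent.Lib.MP_afdd4d_co.K10.RP

open K8

theorem d35p1 :
    (Pt.chD tS35p1 (Jv.jsE K8.RN.E35.z) 120911385802311306 0 = true ∧
    Pt.chD tS35p1 (Jv.jsE K8.RN.E35.z) 120911385802311306 1 = true ∧
    Pt.chD tS35p1 (Jv.jsE K8.RN.E35.z) 120911385802311306 2 = true ∧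
    Pt.chD tS35p1 (Jv.jsE K8.RN.E35.z) 120911385802311306 3 = true) ∧
    (Pt.chD tS35p1 (Jv.jsE K8.RN.E35.z) 120911385802311306 4 = true ∧
    Pt.chD tS35p1 (Jv.jsE K8.RN.E35.z) 120911385802311306 5 = true ∧
    Pt.chD tS35p1 (Jv.jsE K8.RN.E35.z) 120911385802311306 6 = true ∧
    Pt.chD tS35p1 (Jv.jsE K8.RN.E35.z) 120911385802311306 7 = true) ∧
    (Pt.chD tS35p1 (Jv.jsE K8.RN.E35.z) 120911385802311306 8 = true ∧
    Pt.chD tS35p1 (Jv.jsE K8.RN.E35.z) 120911385802311306 9 = true ∧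
    Pt.chD tS35p1 (Jv.jsE K8.RN.E35.z) 120911385802311306 10 = true ∧
    Pt.chD tS35p1 (Jv.jsE K8.RN.E35.z) 120911385802311306 11 = true) ∧
    (Pt.chD tS35p1 (Jv.jsE K8.RN.E35.z) 120911385802311306 12 = true ∧
    Pt.chD tS35p1 (Jv.jsE K8.RN.E35.z) 120911385802311306 13 = true ∧
    Pt.chD tS35p1 (Jv.jsE K8.RN.E35.z) 120911385802311306 14 = true ∧
    Pt.chD tS35p1 (Jv.jsE K8.RN.E35.z) 120911385802311306 15 = true) := by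
  refine ⟨⟨?_, ?_, ?_, ?_⟩, ⟨?_, ?_, ?_, ?_⟩, ⟨?_, ?_, ?_, ?_⟩, ⟨?_, ?_, ?_, ?_⟩⟩ <;> decide +kernel

theorem r4_35p1 : ∀ τ < 16, Pt.chD tS35p1 (Jv.jsE K8.RN.E35.z) 120911385802311306 τ = true :=
  Jv.Tabs.forall16 _ d35p1.1 d35p1.2.1 d35p1.2.2.1 d35p1.2.2.2

end Pool.Agent.Lib.MP_afdd4d_co.K10.RP
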