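import Pool.Agent.Lib.MP_afdd4d_co.K10.RP.X35
import Pool.Agent.Lib.MP_afdd4d_co.K8.RN.E35
import Pool.Agent.Lib.MP_afdd4d_co.K10.RP.T35p1

/-!
# The equivalences of the coset number 35
-/

namespace Pool.Agent.Lib.MP_afdd4d_co.K10.RP

open K8

set_option maxRecDepth 100000

theorem w0_35 : Pt.c0 K8.RN.E35.g.c = true := by decide +kernel

/-- The permutations of the part 1. -/
def P35p1 : List (List ℕ) := [
  [1754760, 1726088, 1751176, 1693832, 1718920, 1690248, 1747144, 1661128, 1714888, 1657544, 1682184, 1653512,
    444080, 415408, 440496, 383152, 408240, 379568, 436464, 350448, 404208, 346864, 371504, 342832],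
  [1754760, 1726088, 1693832, 1661128, 444080, 415408, 383152, 350448],
  [1754760, 1726088, 1693832, 1661128],
  [1754760, 1751176, 1718920, 1747144, 1714888, 1682184, 444080, 440496, 408240, 436464, 404208, 371504],
  [1754760, 1751176, 1718920, 1754312, 1747144, 1714888, 1750280, 1746696, 1682184, 1717576, 1713992, 1681736,
    444080, 440496, 408240, 443632, 436464, 404208, 439600, 436016, 371504, 406896, 403312, 371056],
  [1754760, 1751176, 1718920, 1747144, 1714888, 1682184, 444080, 440496, 408240, 436464, 404208, 371504]]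

theorem w35p1 : Pt.tr K8.RN.E35.g.c Y35p1 X35p1 P35p1 = true := by decide +kernel

end Pool.Agent.Lib.MP_afdd4d_co.K10.RP
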