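import Pool.Agent.Lib.MP_afdd4d_co.K10.RN.Q35
import Pool.Agent.Lib.MP_afdd4d_co.K10.RP.Blk
import Pool.Agent.Lib.MP_afdd4d_co.K10.RP.E35
import Pool.Agent.Lib.MP_afdd4d_co.K10.RP.D35
import Pool.Agent.Lib.MP_afdd4d_co.K10.RP.E35p1
import Pool.Agent.Lib.MP_afdd4d_co.K10.RP.D35p1
import Pool.Agent.Lib.MP_afdd4d_co.K10.RP.Q35p1
import Pool.Agent.Lib.MP_afdd4d_co.K10.RP.W35
import Pool.Agent.Lib.MP_afdd4d_co.K10.RP.B10
import Pool.Agent.Lib.MP_afdd4d_co.K10.RP.B30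
import Pool.Agent.Lib.MP_afdd4d_co.K10.RP.B32
import Pool.Agent.Lib.MP_afdd4d_co.K10.RP.B46

/-!
# The far pairs of the coset number 35
-/

namespace Pool.Agent.Lib.MP_afdd4d_co.K10.RP

open K8 K10.RS

theorem t35_0 : ∀ x < 1024, Pt.chT D (Jv.jsE K8.RN.E35.z 0) (tE35 0) (tK35 0) (tS35 0) x = true :=
  chT_of b46 (tE35 0) (tK35 0) (tS35 0) 183 10 rfl (by decide) (by decide +kernel)

theorem t35_1 : ∀ x < 1024, Pt.chT D (Jv.jsE K8.RN.E35.z 1) (tE35 1) (tK35 1) (tS35 1) x = true :=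
  chT_of b10 (tE35 1) (tK35 1) (tS35 1) 0 8 rfl (by decide) (by decide +kernel)

theorem t35_2 : ∀ x < 1024, Pt.chT D (Jv.jsE K8.RN.E35.z 2) (tE35 2) (tK35 2) (tS35 2) x = true :=
  chT_of b30 (tE35 2) (tK35 2) (tS35 2) 0 5 rfl (by decide) (by decide +kernel)

theorem t35_3 : ∀ x < 1024, Pt.chT D (Jv.jsE K8.RN.E35.z 3) (tE35 3) (tK35 3) (tS35 3) x = true :=
  chT_of b30 (tE35 3) (tK35 3) (tS35 3) 0 6 rfl (by decide) (by decide +kernel)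

theorem t35_4 : ∀ x < 1024, Pt.chT D (Jv.jsE K8.RN.E35.z 4) (tE35 4) (tK35 4) (tS35 4) x = true :=
  chT_of b30 (tE35 4) (tK35 4) (tS35 4) 0 7 rfl (by decide) (by decide +kernel)

theorem t35_5 : ∀ x < 1024, Pt.chT D (Jv.jsE K8.RN.E35.z 5) (tE35 5) (tK35 5) (tS35 5) x = true :=
  chT_of b30 (tE35 5) (tK35 5) (tS35 5) 0 8 rfl (by decide) (by decide +kernel)

theorem t35_6 : ∀ x < 1024, Pt.chT D (Jv.jsE K8.RN.E35.z 6) (tE35 6) (tK35 6) (tS35 6) x = true :=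
  chT_of b32 (tE35 6) (tK35 6) (tS35 6) 0 2 rfl (by decide) (by decide +kernel)

theorem c35 : Pt.chN D K K1_35 K2_35 K4_35 = true := by decide +kernel

theorem out35 : Pt.FarY S K8.RN.E35.g.c 7 (Pt.Out X35) :=
  Pt.farY_out D D_w K K_eq K8.RN.E35.g K8.RN.E35.z K8.RN.E35.hg (rep_mem 35 (by decide) rfl) X35 okE35 okK35 okS35 c35
    K10.RN.r1_35 r2_35 (Pt.forall7 _ t35_0 t35_1 t35_2 t35_3 t35_4 t35_5 t35_6) r4_35

theorem t35p1_0 : ∀ x < 1024, Pt.chT D (Jv.jsE K8.RN.E35.z 0) (tE35p1 0) (tK35p1 0) (tS35p1 0) x = true :=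
  chT_of b46 (tE35p1 0) (tK35p1 0) (tS35p1 0) 183 11 rfl (by decide) (by decide +kernel)

theorem t35p1_1 : ∀ x < 1024, Pt.chT D (Jv.jsE K8.RN.E35.z 1) (tE35p1 1) (tK35p1 1) (tS35p1 1) x = true :=
  chT_of b10 (tE35p1 1) (tK35p1 1) (tS35p1 1) 0 9 rfl (by decide) (by decide +kernel)

theorem t35p1_2 : ∀ x < 1024, Pt.chT D (Jv.jsE K8.RN.E35.z 2) (tE35p1 2) (tK35p1 2) (tS35p1 2) x = true :=
  chT_of b30 (tE35p1 2) (tK35p1 2) (tS35p1 2) 0 9 rfl (by decide) (by decide +kernel)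

theorem t35p1_3 : ∀ x < 1024, Pt.chT D (Jv.jsE K8.RN.E35.z 3) (tE35p1 3) (tK35p1 3) (tS35p1 3) x = true :=
  chT_of b30 (tE35p1 3) (tK35p1 3) (tS35p1 3) 0 10 rfl (by decide) (by decide +kernel)

theorem t35p1_4 : ∀ x < 1024, Pt.chT D (Jv.jsE K8.RN.E35.z 4) (tE35p1 4) (tK35p1 4) (tS35p1 4) x = true :=
  chT_of b30 (tE35p1 4) (tK35p1 4) (tS35p1 4) 0 11 rfl (by decide) (by decide +kernel)

theorem t35p1_5 : ∀ x < 1024, Pt.chT D (Jv.jsE K8.RN.E35.z 5) (tE35p1 5) (tK35p1 5) (tS35p1 5) x = true :=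
  chT_of b30 (tE35p1 5) (tK35p1 5) (tS35p1 5) 0 12 rfl (by decide) (by decide +kernel)

theorem t35p1_6 : ∀ x < 1024, Pt.chT D (Jv.jsE K8.RN.E35.z 6) (tE35p1 6) (tK35p1 6) (tS35p1 6) x = true :=
  chT_of b32 (tE35p1 6) (tK35p1 6) (tS35p1 6) 0 3 rfl (by decide) (by decide +kernel)

theorem c35p1 : Pt.chN D K K1_35p1 K2_35p1 K4_35p1 = true := by decide +kernel

theorem y35p1 : Pt.FarY S K8.RN.E35.g.c 7 (fun y => y ∈ Y35p1) :=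
  Pt.farY_lst D D_w K K_eq K8.RN.E35.g K8.RN.E35.z K8.RN.E35.hg (rep_mem 35 (by decide) rfl) Y35p1 okE35p1 okK35p1 okS35p1 c35p1
    r1_35p1 r2_35p1 (Pt.forall7 _ t35p1_0 t35p1_1 t35p1_2 t35p1_3 t35p1_4 t35p1_5 t35p1_6) r4_35p1

theorem x35p1 : ∀ l ∈ X35p1, Pt.FarY S K8.RN.E35.g.c 7 (fun y => y ∈ l) :=
  Pt.tr_spec w0_35 y35p1 (fun _ h => h) w35p1

theorem far35 : Pt.Far S K8.RN.E35.g.c 7 := Pt.far_of_out out35 x35p1

end Pool.Agent.Lib.MP_afdd4d_co.K10.RP
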