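import Pool.Agent.Lib.MP_afdd4d_co.K10.RN.Q36
import Pool.Agent.Lib.MP_afdd4d_co.K10.RP.Blk
import Pool.Agent.Lib.MP_afdd4d_co.K10.RP.E36
import Pool.Agent.Lib.MP_afdd4d_co.K10.RP.D36
import Pool.Agent.Lib.MP_afdd4d_co.K10.RP.B10
import Pool.Agent.Lib.MP_afdd4d_co.K10.RP.B22
import Pool.Agent.Lib.MP_afdd4d_co.K10.RP.B46

/-!
# The far pairs of the coset number 36
-/

namespace Pool.Agent.Lib.MP_afdd4d_co.K10.RP

open K8 K10.RS

theorem t36_0 : ∀ x < 1024, Pt.chT D (Jv.jsE K8.RN.E36.z 0) (tE36 0) (tK36 0) (tS36 0) x = true :=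
  chT_of b46 (tE36 0) (tK36 0) (tS36 0) 19 12 rfl (by decide) (by decide +kernel)

theorem t36_1 : ∀ x < 1024, Pt.chT D (Jv.jsE K8.RN.E36.z 1) (tE36 1) (tK36 1) (tS36 1) x = true :=
  chT_of b10 (tE36 1) (tK36 1) (tS36 1) 0 10 rfl (by decide) (by decide +kernel)

theorem t36_2 : ∀ x < 1024, Pt.chT D (Jv.jsE K8.RN.E36.z 2) (tE36 2) (tK36 2) (tS36 2) x = true :=
  chT_of b10 (tE36 2) (tK36 2) (tS36 2) 0 11 rfl (by decide) (by decide +kernel)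

theorem t36_3 : ∀ x < 1024, Pt.chT D (Jv.jsE K8.RN.E36.z 3) (tE36 3) (tK36 3) (tS36 3) x = true :=
  chT_of b22 (tE36 3) (tK36 3) (tS36 3) 0 10 rfl (by decide) (by decide +kernel)

theorem t36_4 : ∀ x < 1024, Pt.chT D (Jv.jsE K8.RN.E36.z 4) (tE36 4) (tK36 4) (tS36 4) x = true :=
  chT_of b22 (tE36 4) (tK36 4) (tS36 4) 0 11 rfl (by decide) (by decide +kernel)

theorem t36_5 : ∀ x < 1024, Pt.chT D (Jv.jsE K8.RN.E36.z 5) (tE36 5) (tK36 5) (tS36 5) x = true :=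
  chT_of b22 (tE36 5) (tK36 5) (tS36 5) 0 12 rfl (by decide) (by decide +kernel)

theorem t36_6 : ∀ x < 1024, Pt.chT D (Jv.jsE K8.RN.E36.z 6) (tE36 6) (tK36 6) (tS36 6) x = true :=
  chT_of b46 (tE36 6) (tK36 6) (tS36 6) 0 13 rfl (by decide) (by decide +kernel)

theorem c36 : Pt.chN D K K1_36 K2_36 K4_36 = true := by decide +kernel

theorem out36 : Pt.FarY S K8.RN.E36.g.c 7 (Pt.Out X36) :=
  Pt.farY_out D D_w K K_eq K8.RN.E36.g K8.RN.E36.z K8.RN.E36.hg (rep_mem 36 (by decide) rfl) X36 okE36 okK36 okS36 c36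
    K10.RN.r1_36 r2_36 (Pt.forall7 _ t36_0 t36_1 t36_2 t36_3 t36_4 t36_5 t36_6) r4_36

theorem far36 : Pt.Far S K8.RN.E36.g.c 7 := Pt.far_of_out out36 (fun l hl => absurd hl List.not_mem_nil)

end Pool.Agent.Lib.MP_afdd4d_co.K10.RP
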