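import Pool.Agent.Lib.MP_afdd4d_co.K10.RN.Q37
import Pool.Agent.Lib.MP_afdd4d_co.K10.RP.Blk
import Pool.Agent.Lib.MP_afdd4d_co.K10.RP.E37
import Pool.Agent.Lib.MP_afdd4d_co.K10.RP.D37
import Pool.Agent.Lib.MP_afdd4d_co.K10.RP.B10
import Pool.Agent.Lib.MP_afdd4d_co.K10.RP.B13
import Pool.Agent.Lib.MP_afdd4d_co.K10.RP.B22
import Pool.Agent.Lib.MP_afdd4d_co.K10.RP.B31
import Pool.Agent.Lib.MP_afdd4d_co.K10.RP.B38
import Pool.Agent.Lib.MP_afdd4d_co.K10.RP.B45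

/-!
# The far pairs of the coset number 37
-/

namespace Pool.Agent.Lib.MP_afdd4d_co.K10.RP

open K8 K10.RS

theorem t37_0 : ∀ x < 1024, Pt.chT D (Jv.jsE K8.RN.E37.z 0) (tE37 0) (tK37 0) (tS37 0) x = true :=
  chT_of b45 (tE37 0) (tK37 0) (tS37 0) 23 8 rfl (by decide) (by decide +kernel)

theorem t37_1 : ∀ x < 1024, Pt.chT D (Jv.jsE K8.RN.E37.z 1) (tE37 1) (tK37 1) (tS37 1) x = true :=
  chT_of b10 (tE37 1) (tK37 1) (tS37 1) 0 12 rfl (by decide) (by decide +kernel)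

theorem t37_2 : ∀ x < 1024, Pt.chT D (Jv.jsE K8.RN.E37.z 2) (tE37 2) (tK37 2) (tS37 2) x = true :=
  chT_of b13 (tE37 2) (tK37 2) (tS37 2) 0 21 rfl (by decide) (by decide +kernel)

theorem t37_3 : ∀ x < 1024, Pt.chT D (Jv.jsE K8.RN.E37.z 3) (tE37 3) (tK37 3) (tS37 3) x = true :=
  chT_of b22 (tE37 3) (tK37 3) (tS37 3) 0 13 rfl (by decide) (by decide +kernel)

theorem t37_4 : ∀ x < 1024, Pt.chT D (Jv.jsE K8.RN.E37.z 4) (tE37 4) (tK37 4) (tS37 4) x = true :=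
  chT_of b22 (tE37 4) (tK37 4) (tS37 4) 0 14 rfl (by decide) (by decide +kernel)

theorem t37_5 : ∀ x < 1024, Pt.chT D (Jv.jsE K8.RN.E37.z 5) (tE37 5) (tK37 5) (tS37 5) x = true :=
  chT_of b31 (tE37 5) (tK37 5) (tS37 5) 0 12 rfl (by decide) (by decide +kernel)

theorem t37_6 : ∀ x < 1024, Pt.chT D (Jv.jsE K8.RN.E37.z 6) (tE37 6) (tK37 6) (tS37 6) x = true :=
  chT_of b38 (tE37 6) (tK37 6) (tS37 6) 0 2 rfl (by decide) (by decide +kernel)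

theorem c37 : Pt.chN D K K1_37 K2_37 K4_37 = true := by decide +kernel

theorem out37 : Pt.FarY S K8.RN.E37.g.c 7 (Pt.Out X37) :=
  Pt.farY_out D D_w K K_eq K8.RN.E37.g K8.RN.E37.z K8.RN.E37.hg (rep_mem 37 (by decide) rfl) X37 okE37 okK37 okS37 c37
    K10.RN.r1_37 r2_37 (Pt.forall7 _ t37_0 t37_1 t37_2 t37_3 t37_4 t37_5 t37_6) r4_37

theorem far37 : Pt.Far S K8.RN.E37.g.c 7 := Pt.far_of_out out37 (fun l hl => absurd hl List.not_mem_nil)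

end Pool.Agent.Lib.MP_afdd4d_co.K10.RP
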