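import Pool.Agent.Lib.MP_afdd4d_co.K10.RN.Q38
import Pool.Agent.Lib.MP_afdd4d_co.K10.RP.Blk
import Pool.Agent.Lib.MP_afdd4d_co.K10.RP.E38
import Pool.Agent.Lib.MP_afdd4d_co.K10.RP.D38
import Pool.Agent.Lib.MP_afdd4d_co.K10.RP.B03
import Pool.Agent.Lib.MP_afdd4d_co.K10.RP.B22
import Pool.Agent.Lib.MP_afdd4d_co.K10.RP.B29
import Pool.Agent.Lib.MP_afdd4d_co.K10.RP.B31

/-!
# The far pairs of the coset number 38
-/

namespace Pool.Agent.Lib.MP_afdd4d_co.K10.RP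

open K8 K10.RS

theorem t38_0 : ∀ x < 1024, Pt.chT D (Jv.jsE K8.RN.E38.z 0) (tE38 0) (tK38 0) (tS38 0) x = true :=
  chT_of b31 (tE38 0) (tK38 0) (tS38 0) 54 13 rfl (by decide) (by decide +kernel)

theorem t38_1 : ∀ x < 1024, Pt.chT D (Jv.jsE K8.RN.E38.z 1) (tE38 1) (tK38 1) (tS38 1) x = true :=
  chT_of b03 (tE38 1) (tK38 1) (tS38 1) 0 18 rfl (by decide) (by decide +kernel)

theorem t38_2 : ∀ x < 1024, Pt.chT D (Jv.jsE K8.RN.E38.z 2) (tE38 2) (tK38 2) (tS38 2) x = true :=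
  chT_of b22 (tE38 2) (tK38 2) (tS38 2) 0 15 rfl (by decide) (by decide +kernel)

theorem t38_3 : ∀ x < 1024, Pt.chT D (Jv.jsE K8.RN.E38.z 3) (tE38 3) (tK38 3) (tS38 3) x = true :=
  chT_of b22 (tE38 3) (tK38 3) (tS38 3) 0 16 rfl (by decide) (by decide +kernel)

theorem t38_4 : ∀ x < 1024, Pt.chT D (Jv.jsE K8.RN.E38.z 4) (tE38 4) (tK38 4) (tS38 4) x = true :=
  chT_of b29 (tE38 4) (tK38 4) (tS38 4) 0 8 rfl (by decide) (by decide +kernel)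

theorem t38_5 : ∀ x < 1024, Pt.chT D (Jv.jsE K8.RN.E38.z 5) (tE38 5) (tK38 5) (tS38 5) x = true :=
  chT_of b29 (tE38 5) (tK38 5) (tS38 5) 0 9 rfl (by decide) (by decide +kernel)

theorem t38_6 : ∀ x < 1024, Pt.chT D (Jv.jsE K8.RN.E38.z 6) (tE38 6) (tK38 6) (tS38 6) x = true :=
  chT_of b31 (tE38 6) (tK38 6) (tS38 6) 0 14 rfl (by decide) (by decide +kernel)

theorem c38 : Pt.chN D K K1_38 K2_38 K4_38 = true := by decide +kernel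

theorem out38 : Pt.FarY S K8.RN.E38.g.c 7 (Pt.Out X38) :=
  Pt.farY_out D D_w K K_eq K8.RN.E38.g K8.RN.E38.z K8.RN.E38.hg (rep_mem 38 (by decide) rfl) X38 okE38 okK38 okS38 c38
    K10.RN.r1_38 r2_38 (Pt.forall7 _ t38_0 t38_1 t38_2 t38_3 t38_4 t38_5 t38_6) r4_38

theorem far38 : Pt.Far S K8.RN.E38.g.c 7 := Pt.far_of_out out38 (fun l hl => absurd hl List.not_mem_nil)

end Pool.Agent.Lib.MP_afdd4d_co.K10.RP
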