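import Pool.Agent.Lib.MP_afdd4d_co.K10.RN.Q40
import Pool.Agent.Lib.MP_afdd4d_co.K10.RP.Blk
import Pool.Agent.Lib.MP_afdd4d_co.K10.RP.E40
import Pool.Agent.Lib.MP_afdd4d_co.K10.RP.D40
import Pool.Agent.Lib.MP_afdd4d_co.K10.RP.B10
import Pool.Agent.Lib.MP_afdd4d_co.K10.RP.B19
import Pool.Agent.Lib.MP_afdd4d_co.K10.RP.B22
import Pool.Agent.Lib.MP_afdd4d_co.K10.RP.B30
import Pool.Agent.Lib.MP_afdd4d_co.K10.RP.B31
import Pool.Agent.Lib.MP_afdd4d_co.K10.RP.B36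
import Pool.Agent.Lib.MP_afdd4d_co.K10.RP.B37

/-!
# The far pairs of the coset number 40
-/

namespace Pool.Agent.Lib.MP_afdd4d_co.K10.RP

open K8 K10.RS

theorem t40_0 : ∀ x < 1024, Pt.chT D (Jv.jsE K8.RN.E40.z 0) (tE40 0) (tK40 0) (tS40 0) x = true :=
  chT_of b37 (tE40 0) (tK40 0) (tS40 0) 55 3 rfl (by decide) (by decide +kernel)

theorem t40_1 : ∀ x < 1024, Pt.chT D (Jv.jsE K8.RN.E40.z 1) (tE40 1) (tK40 1) (tS40 1) x = true :=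
  chT_of b10 (tE40 1) (tK40 1) (tS40 1) 0 14 rfl (by decide) (by decide +kernel)

theorem t40_2 : ∀ x < 1024, Pt.chT D (Jv.jsE K8.RN.E40.z 2) (tE40 2) (tK40 2) (tS40 2) x = true :=
  chT_of b19 (tE40 2) (tK40 2) (tS40 2) 0 20 rfl (by decide) (by decide +kernel)

theorem t40_3 : ∀ x < 1024, Pt.chT D (Jv.jsE K8.RN.E40.z 3) (tE40 3) (tK40 3) (tS40 3) x = true :=
  chT_of b22 (tE40 3) (tK40 3) (tS40 3) 0 18 rfl (by decide) (by decide +kernel)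

theorem t40_4 : ∀ x < 1024, Pt.chT D (Jv.jsE K8.RN.E40.z 4) (tE40 4) (tK40 4) (tS40 4) x = true :=
  chT_of b30 (tE40 4) (tK40 4) (tS40 4) 0 13 rfl (by decide) (by decide +kernel)

theorem t40_5 : ∀ x < 1024, Pt.chT D (Jv.jsE K8.RN.E40.z 5) (tE40 5) (tK40 5) (tS40 5) x = true :=
  chT_of b31 (tE40 5) (tK40 5) (tS40 5) 0 15 rfl (by decide) (by decide +kernel)

theorem t40_6 : ∀ x < 1024, Pt.chT D (Jv.jsE K8.RN.E40.z 6) (tE40 6) (tK40 6) (tS40 6) x = true :=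
  chT_of b36 (tE40 6) (tK40 6) (tS40 6) 0 8 rfl (by decide) (by decide +kernel)

theorem c40 : Pt.chN D K K1_40 K2_40 K4_40 = true := by decide +kernel

theorem out40 : Pt.FarY S K8.RN.E40.g.c 7 (Pt.Out X40) :=
  Pt.farY_out D D_w K K_eq K8.RN.E40.g K8.RN.E40.z K8.RN.E40.hg (rep_mem 40 (by decide) rfl) X40 okE40 okK40 okS40 c40
    K10.RN.r1_40 r2_40 (Pt.forall7 _ t40_0 t40_1 t40_2 t40_3 t40_4 t40_5 t40_6) r4_40

theorem far40 : Pt.Far S K8.RN.E40.g.c 7 := Pt.far_of_out out40 (fun l hl => absurd hl List.not_mem_nil)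

end Pool.Agent.Lib.MP_afdd4d_co.K10.RP
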