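import Pool.Agent.Lib.MP_afdd4d_co.K10.RP.B23_0
import Pool.Agent.Lib.MP_afdd4d_co.K10.RP.B23_1

/-!
# The pairs of the class 23
-/

namespace Pool.Agent.Lib.MP_afdd4d_co.K10.RP

open K8 K10.RS

theorem b23 : ∀ y < 1024, ∀ e ∈ L23, Pt.leP D (D.tP (Nat.xor 2320 (Pt.fu y))) y e = true :=
  Pt.blk16 D (Pt.forall16' _ b23_0 b23_1 b23_2 b23_3 b23_4 b23_5 b23_6 b23_7 b23_8 b23_9 b23_10 b23_11 b23_12 b23_13 b23_14 b23_15)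

end Pool.Agent.Lib.MP_afdd4d_co.K10.RP
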