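import Pool.Agent.Lib.MP_afdd4d_co.K10.RP.T41
import Pool.Agent.Lib.MP_afdd4d_co.K10.RS.Dat

/-!
# The even 4-graphs, potentials number 0 of the coset number 41
-/

namespace Pool.Agent.Lib.MP_afdd4d_co.K10.RP

open K8 K10.RS

theorem e41 :
    (Pt.chE D tE41 K2_41 0 = true ∧
    Pt.chE D tE41 K2_41 1 = true ∧
    Pt.chE D tE41 K2_41 2 = true ∧
    Pt.chE D tE41 K2_41 3 = true) ∧
    (Pt.chE D tE41 K2_41 4 = true ∧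
    Pt.chE D tE41 K2_41 5 = true ∧
    Pt.chE D tE41 K2_41 6 = true ∧
    Pt.chE D tE41 K2_41 7 = true) ∧
    (Pt.chE D tE41 K2_41 8 = true ∧
    Pt.chE D tE41 K2_41 9 = true ∧
    Pt.chE D tE41 K2_41 10 = true ∧
    Pt.chE D tE41 K2_41 11 = true) ∧
    (Pt.chE D tE41 K2_41 12 = true ∧
    Pt.chE D tE41 K2_41 13 = true ∧
    Pt.chE D tE41 K2_41 14 = true ∧
    Pt.chE D tE41 K2_41 15 = true) := by
  refine ⟨⟨?_, ?_, ?_, ?_⟩, ⟨?_, ?_, ?_, ?_⟩, ⟨?_, ?_, ?_, ?_⟩, ⟨?_, ?_, ?_, ?_⟩⟩ <;> decide +kernel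

theorem r2_41 : ∀ τ < 16, Pt.chE D tE41 K2_41 τ = true :=
  Jv.Tabs.forall16 _ e41.1 e41.2.1 e41.2.2.1 e41.2.2.2

end Pool.Agent.Lib.MP_afdd4d_co.K10.RP
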