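import Pool.Agent.Lib.MP_afdd4d_co.K10.RN.Q41
import Pool.Agent.Lib.MP_afdd4d_co.K10.RP.Blk
import Pool.Agent.Lib.MP_afdd4d_co.K10.RP.E41
import Pool.Agent.Lib.MP_afdd4d_co.K10.RP.D41
import Pool.Agent.Lib.MP_afdd4d_co.K10.RP.B10
import Pool.Agent.Lib.MP_afdd4d_co.K10.RP.B23
import Pool.Agent.Lib.MP_afdd4d_co.K10.RP.B30
import Pool.Agent.Lib.MP_afdd4d_co.K10.RP.B43
import Pool.Agent.Lib.MP_afdd4d_co.K10.RP.B46

/-!
# The far pairs of the coset number 41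
-/

namespace Pool.Agent.Lib.MP_afdd4d_co.K10.RP

open K8 K10.RS

theorem t41_0 : ∀ x < 1024, Pt.chT D (Jv.jsE K8.RN.E41.z 0) (tE41 0) (tK41 0) (tS41 0) x = true :=
  chT_of b46 (tE41 0) (tK41 0) (tS41 0) 55 14 rfl (by decide) (by decide +kernel)

theorem t41_1 : ∀ x < 1024, Pt.chT D (Jv.jsE K8.RN.E41.z 1) (tE41 1) (tK41 1) (tS41 1) x = true :=
  chT_of b10 (tE41 1) (tK41 1) (tS41 1) 0 15 rfl (by decide) (by decide +kernel)

theorem t41_2 : ∀ x < 1024, Pt.chT D (Jv.jsE K8.RN.E41.z 2) (tE41 2) (tK41 2) (tS41 2) x = true :=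
  chT_of b23 (tE41 2) (tK41 2) (tS41 2) 0 0 rfl (by decide) (by decide +kernel)

theorem t41_3 : ∀ x < 1024, Pt.chT D (Jv.jsE K8.RN.E41.z 3) (tE41 3) (tK41 3) (tS41 3) x = true :=
  chT_of b23 (tE41 3) (tK41 3) (tS41 3) 0 1 rfl (by decide) (by decide +kernel)

theorem t41_4 : ∀ x < 1024, Pt.chT D (Jv.jsE K8.RN.E41.z 4) (tE41 4) (tK41 4) (tS41 4) x = true :=
  chT_of b30 (tE41 4) (tK41 4) (tS41 4) 0 14 rfl (by decide) (by decide +kernel)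

theorem t41_5 : ∀ x < 1024, Pt.chT D (Jv.jsE K8.RN.E41.z 5) (tE41 5) (tK41 5) (tS41 5) x = true :=
  chT_of b30 (tE41 5) (tK41 5) (tS41 5) 0 15 rfl (by decide) (by decide +kernel)

theorem t41_6 : ∀ x < 1024, Pt.chT D (Jv.jsE K8.RN.E41.z 6) (tE41 6) (tK41 6) (tS41 6) x = true :=
  chT_of b43 (tE41 6) (tK41 6) (tS41 6) 0 7 rfl (by decide) (by decide +kernel)

theorem c41 : Pt.chN D K K1_41 K2_41 K4_41 = true := by decide +kernel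

theorem out41 : Pt.FarY S K8.RN.E41.g.c 7 (Pt.Out X41) :=
  Pt.farY_out D D_w K K_eq K8.RN.E41.g K8.RN.E41.z K8.RN.E41.hg (rep_mem 41 (by decide) rfl) X41 okE41 okK41 okS41 c41
    K10.RN.r1_41 r2_41 (Pt.forall7 _ t41_0 t41_1 t41_2 t41_3 t41_4 t41_5 t41_6) r4_41

theorem far41 : Pt.Far S K8.RN.E41.g.c 7 := Pt.far_of_out out41 (fun l hl => absurd hl List.not_mem_nil)

end Pool.Agent.Lib.MP_afdd4d_co.K10.RP
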