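import Pool.Agent.Lib.MP_afdd4d_co.K10.RN.Q42
import Pool.Agent.Lib.MP_afdd4d_co.K10.RP.Blk
import Pool.Agent.Lib.MP_afdd4d_co.K10.RP.E42
import Pool.Agent.Lib.MP_afdd4d_co.K10.RP.D42
import Pool.Agent.Lib.MP_afdd4d_co.K10.RP.B10
import Pool.Agent.Lib.MP_afdd4d_co.K10.RP.B30
import Pool.Agent.Lib.MP_afdd4d_co.K10.RP.B31
import Pool.Agent.Lib.MP_afdd4d_co.K10.RP.B33
import Pool.Agent.Lib.MP_afdd4d_co.K10.RP.B45

/-!
# The far pairs of the coset number 42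
-/

namespace Pool.Agent.Lib.MP_afdd4d_co.K10.RP

open K8 K10.RS

theorem t42_0 : ∀ x < 1024, Pt.chT D (Jv.jsE K8.RN.E42.z 0) (tE42 0) (tK42 0) (tS42 0) x = true :=
  chT_of b45 (tE42 0) (tK42 0) (tS42 0) 183 9 rfl (by decide) (by decide +kernel)

theorem t42_1 : ∀ x < 1024, Pt.chT D (Jv.jsE K8.RN.E42.z 1) (tE42 1) (tK42 1) (tS42 1) x = true :=
  chT_of b10 (tE42 1) (tK42 1) (tS42 1) 0 16 rfl (by decide) (by decide +kernel)

theorem t42_2 : ∀ x < 1024, Pt.chT D (Jv.jsE K8.RN.E42.z 2) (tE42 2) (tK42 2) (tS42 2) x = true :=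
  chT_of b30 (tE42 2) (tK42 2) (tS42 2) 0 16 rfl (by decide) (by decide +kernel)

theorem t42_3 : ∀ x < 1024, Pt.chT D (Jv.jsE K8.RN.E42.z 3) (tE42 3) (tK42 3) (tS42 3) x = true :=
  chT_of b30 (tE42 3) (tK42 3) (tS42 3) 0 17 rfl (by decide) (by decide +kernel)

theorem t42_4 : ∀ x < 1024, Pt.chT D (Jv.jsE K8.RN.E42.z 4) (tE42 4) (tK42 4) (tS42 4) x = true :=
  chT_of b30 (tE42 4) (tK42 4) (tS42 4) 0 18 rfl (by decide) (by decide +kernel)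

theorem t42_5 : ∀ x < 1024, Pt.chT D (Jv.jsE K8.RN.E42.z 5) (tE42 5) (tK42 5) (tS42 5) x = true :=
  chT_of b31 (tE42 5) (tK42 5) (tS42 5) 0 16 rfl (by decide) (by decide +kernel)

theorem t42_6 : ∀ x < 1024, Pt.chT D (Jv.jsE K8.RN.E42.z 6) (tE42 6) (tK42 6) (tS42 6) x = true :=
  chT_of b33 (tE42 6) (tK42 6) (tS42 6) 0 3 rfl (by decide) (by decide +kernel)

theorem c42 : Pt.chN D K K1_42 K2_42 K4_42 = true := by decide +kernel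

theorem out42 : Pt.FarY S K8.RN.E42.g.c 7 (Pt.Out X42) :=
  Pt.farY_out D D_w K K_eq K8.RN.E42.g K8.RN.E42.z K8.RN.E42.hg (rep_mem 42 (by decide) rfl) X42 okE42 okK42 okS42 c42
    K10.RN.r1_42 r2_42 (Pt.forall7 _ t42_0 t42_1 t42_2 t42_3 t42_4 t42_5 t42_6) r4_42

theorem far42 : Pt.Far S K8.RN.E42.g.c 7 := Pt.far_of_out out42 (fun l hl => absurd hl List.not_mem_nil)

end Pool.Agent.Lib.MP_afdd4d_co.K10.RP
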