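import Pool.Agent.Lib.MP_afdd4d_co.K10.RP.T43
import Pool.Agent.Lib.MP_afdd4d_co.K8.RN.E43

/-!
# The differences, potentials number 0 of the coset number 43
-/

namespace Pool.Agent.Lib.MP_afdd4d_co.K10.RP

open K8

theorem d43 :
    (Pt.chD tS43 (Jv.jsE K8.RN.E43.z) 120911270850469174 0 = true ∧
    Pt.chD tS43 (Jv.jsE K8.RN.E43.z) 120911270850469174 1 = true ∧
    Pt.chD tS43 (Jv.jsE K8.RN.E43.z) 120911270850469174 2 = true ∧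
    Pt.chD tS43 (Jv.jsE K8.RN.E43.z) 120911270850469174 3 = true) ∧
    (Pt.chD tS43 (Jv.jsE K8.RN.E43.z) 120911270850469174 4 = true ∧
    Pt.chD tS43 (Jv.jsE K8.RN.E43.z) 120911270850469174 5 = true ∧
    Pt.chD tS43 (Jv.jsE K8.RN.E43.z) 120911270850469174 6 = true ∧
    Pt.chD tS43 (Jv.jsE K8.RN.E43.z) 120911270850469174 7 = true) ∧
    (Pt.chD tS43 (Jv.jsE K8.RN.E43.z) 120911270850469174 8 = true ∧
    Pt.chD tS43 (Jv.jsE K8.RN.E43.z) 120911270850469174 9 = true ∧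
    Pt.chD tS43 (Jv.jsE K8.RN.E43.z) 120911270850469174 10 = true ∧
    Pt.chD tS43 (Jv.jsE K8.RN.E43.z) 120911270850469174 11 = true) ∧
    (Pt.chD tS43 (Jv.jsE K8.RN.E43.z) 120911270850469174 12 = true ∧
    Pt.chD tS43 (Jv.jsE K8.RN.E43.z) 120911270850469174 13 = true ∧
    Pt.chD tS43 (Jv.jsE K8.RN.E43.z) 120911270850469174 14 = true ∧
    Pt.chD tS43 (Jv.jsE K8.RN.E43.z) 120911270850469174 15 = true) := by
  refine ⟨⟨?_, ?_, ?_, ?_⟩, ⟨?_, ?_, ?_, ?_⟩, ⟨?_, ?_, ?_, ?_⟩, ⟨?_, ?_, ?_, ?_⟩⟩ <;> decide +kernel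

theorem r4_43 : ∀ τ < 16, Pt.chD tS43 (Jv.jsE K8.RN.E43.z) 120911270850469174 τ = true :=
  Jv.Tabs.forall16 _ d43.1 d43.2.1 d43.2.2.1 d43.2.2.2

end Pool.Agent.Lib.MP_afdd4d_co.K10.RP
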