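import Pool.Agent.Lib.MP_afdd4d_co.K10.RN.Q43
import Pool.Agent.Lib.MP_afdd4d_co.K10.RP.Blk
import Pool.Agent.Lib.MP_afdd4d_co.K10.RP.E43
import Pool.Agent.Lib.MP_afdd4d_co.K10.RP.D43
import Pool.Agent.Lib.MP_afdd4d_co.K10.RP.B10
import Pool.Agent.Lib.MP_afdd4d_co.K10.RP.B23
import Pool.Agent.Lib.MP_afdd4d_co.K10.RP.B29
import Pool.Agent.Lib.MP_afdd4d_co.K10.RP.B46

/-!
# The far pairs of the coset number 43
-/

namespace Pool.Agent.Lib.MP_afdd4d_co.K10.RP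

open K8 K10.RS

theorem t43_0 : ∀ x < 1024, Pt.chT D (Jv.jsE K8.RN.E43.z 0) (tE43 0) (tK43 0) (tS43 0) x = true :=
  chT_of b46 (tE43 0) (tK43 0) (tS43 0) 54 15 rfl (by decide) (by decide +kernel)

theorem t43_1 : ∀ x < 1024, Pt.chT D (Jv.jsE K8.RN.E43.z 1) (tE43 1) (tK43 1) (tS43 1) x = true :=
  chT_of b10 (tE43 1) (tK43 1) (tS43 1) 0 17 rfl (by decide) (by decide +kernel)

theorem t43_2 : ∀ x < 1024, Pt.chT D (Jv.jsE K8.RN.E43.z 2) (tE43 2) (tK43 2) (tS43 2) x = true :=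
  chT_of b23 (tE43 2) (tK43 2) (tS43 2) 0 2 rfl (by decide) (by decide +kernel)

theorem t43_3 : ∀ x < 1024, Pt.chT D (Jv.jsE K8.RN.E43.z 3) (tE43 3) (tK43 3) (tS43 3) x = true :=
  chT_of b23 (tE43 3) (tK43 3) (tS43 3) 0 3 rfl (by decide) (by decide +kernel)

theorem t43_4 : ∀ x < 1024, Pt.chT D (Jv.jsE K8.RN.E43.z 4) (tE43 4) (tK43 4) (tS43 4) x = true :=
  chT_of b29 (tE43 4) (tK43 4) (tS43 4) 0 12 rfl (by decide) (by decide +kernel)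

theorem t43_5 : ∀ x < 1024, Pt.chT D (Jv.jsE K8.RN.E43.z 5) (tE43 5) (tK43 5) (tS43 5) x = true :=
  chT_of b29 (tE43 5) (tK43 5) (tS43 5) 0 13 rfl (by decide) (by decide +kernel)

theorem t43_6 : ∀ x < 1024, Pt.chT D (Jv.jsE K8.RN.E43.z 6) (tE43 6) (tK43 6) (tS43 6) x = true :=
  chT_of b46 (tE43 6) (tK43 6) (tS43 6) 0 16 rfl (by decide) (by decide +kernel)

theorem c43 : Pt.chN D K K1_43 K2_43 K4_43 = true := by decide +kernel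

theorem out43 : Pt.FarY S K8.RN.E43.g.c 7 (Pt.Out X43) :=
  Pt.farY_out D D_w K K_eq K8.RN.E43.g K8.RN.E43.z K8.RN.E43.hg (rep_mem 43 (by decide) rfl) X43 okE43 okK43 okS43 c43
    K10.RN.r1_43 r2_43 (Pt.forall7 _ t43_0 t43_1 t43_2 t43_3 t43_4 t43_5 t43_6) r4_43

theorem far43 : Pt.Far S K8.RN.E43.g.c 7 := Pt.far_of_out out43 (fun l hl => absurd hl List.not_mem_nil)

end Pool.Agent.Lib.MP_afdd4d_co.K10.RP
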