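import Pool.Agent.Lib.MP_afdd4d_co.K10.RN.Q44
import Pool.Agent.Lib.MP_afdd4d_co.K10.RP.Blk
import Pool.Agent.Lib.MP_afdd4d_co.K10.RP.E44
import Pool.Agent.Lib.MP_afdd4d_co.K10.RP.D44
import Pool.Agent.Lib.MP_afdd4d_co.K10.RP.B10
import Pool.Agent.Lib.MP_afdd4d_co.K10.RP.B23
import Pool.Agent.Lib.MP_afdd4d_co.K10.RP.B30
import Pool.Agent.Lib.MP_afdd4d_co.K10.RP.B31
import Pool.Agent.Lib.MP_afdd4d_co.K10.RP.B44
import Pool.Agent.Lib.MP_afdd4d_co.K10.RP.B45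

/-!
# The far pairs of the coset number 44
-/

namespace Pool.Agent.Lib.MP_afdd4d_co.K10.RP

open K8 K10.RS

theorem t44_0 : ∀ x < 1024, Pt.chT D (Jv.jsE K8.RN.E44.z 0) (tE44 0) (tK44 0) (tS44 0) x = true :=
  chT_of b45 (tE44 0) (tK44 0) (tS44 0) 55 10 rfl (by decide) (by decide +kernel)

theorem t44_1 : ∀ x < 1024, Pt.chT D (Jv.jsE K8.RN.E44.z 1) (tE44 1) (tK44 1) (tS44 1) x = true :=
  chT_of b10 (tE44 1) (tK44 1) (tS44 1) 0 18 rfl (by decide) (by decide +kernel)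

theorem t44_2 : ∀ x < 1024, Pt.chT D (Jv.jsE K8.RN.E44.z 2) (tE44 2) (tK44 2) (tS44 2) x = true :=
  chT_of b23 (tE44 2) (tK44 2) (tS44 2) 0 4 rfl (by decide) (by decide +kernel)

theorem t44_3 : ∀ x < 1024, Pt.chT D (Jv.jsE K8.RN.E44.z 3) (tE44 3) (tK44 3) (tS44 3) x = true :=
  chT_of b23 (tE44 3) (tK44 3) (tS44 3) 0 5 rfl (by decide) (by decide +kernel)

theorem t44_4 : ∀ x < 1024, Pt.chT D (Jv.jsE K8.RN.E44.z 4) (tE44 4) (tK44 4) (tS44 4) x = true :=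
  chT_of b30 (tE44 4) (tK44 4) (tS44 4) 0 19 rfl (by decide) (by decide +kernel)

theorem t44_5 : ∀ x < 1024, Pt.chT D (Jv.jsE K8.RN.E44.z 5) (tE44 5) (tK44 5) (tS44 5) x = true :=
  chT_of b31 (tE44 5) (tK44 5) (tS44 5) 0 17 rfl (by decide) (by decide +kernel)

theorem t44_6 : ∀ x < 1024, Pt.chT D (Jv.jsE K8.RN.E44.z 6) (tE44 6) (tK44 6) (tS44 6) x = true :=
  chT_of b44 (tE44 6) (tK44 6) (tS44 6) 0 4 rfl (by decide) (by decide +kernel)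

theorem c44 : Pt.chN D K K1_44 K2_44 K4_44 = true := by decide +kernel

theorem out44 : Pt.FarY S K8.RN.E44.g.c 7 (Pt.Out X44) :=
  Pt.farY_out D D_w K K_eq K8.RN.E44.g K8.RN.E44.z K8.RN.E44.hg (rep_mem 44 (by decide) rfl) X44 okE44 okK44 okS44 c44
    K10.RN.r1_44 r2_44 (Pt.forall7 _ t44_0 t44_1 t44_2 t44_3 t44_4 t44_5 t44_6) r4_44

theorem far44 : Pt.Far S K8.RN.E44.g.c 7 := Pt.far_of_out out44 (fun l hl => absurd hl List.not_mem_nil)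

end Pool.Agent.Lib.MP_afdd4d_co.K10.RP
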