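import Pool.Agent.Lib.MP_afdd4d_co.K10.RP.T45
import Pool.Agent.Lib.MP_afdd4d_co.K10.RS.Dat

/-!
# The even 4-graphs, potentials number 0 of the coset number 45
-/

namespace Pool.Agent.Lib.MP_afdd4d_co.K10.RP

open K8 K10.RS

theorem e45 :
    (Pt.chE D tE45 K2_45 0 = true ∧
    Pt.chE D tE45 K2_45 1 = true ∧
    Pt.chE D tE45 K2_45 2 = true ∧
    Pt.chE D tE45 K2_45 3 = true) ∧
    (Pt.chE D tE45 K2_45 4 = true ∧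
    Pt.chE D tE45 K2_45 5 = true ∧
    Pt.chE D tE45 K2_45 6 = true ∧
    Pt.chE D tE45 K2_45 7 = true) ∧
    (Pt.chE D tE45 K2_45 8 = true ∧
    Pt.chE D tE45 K2_45 9 = true ∧
    Pt.chE D tE45 K2_45 10 = true ∧
    Pt.chE D tE45 K2_45 11 = true) ∧
    (Pt.chE D tE45 K2_45 12 = true ∧
    Pt.chE D tE45 K2_45 13 = true ∧
    Pt.chE D tE45 K2_45 14 = true ∧
    Pt.chE D tE45 K2_45 15 = true) := by
  refine ⟨⟨?_, ?_, ?_, ?_⟩, ⟨?_, ?_, ?_, ?_⟩, ⟨?_, ?_, ?_, ?_⟩, ⟨?_, ?_, ?_, ?_⟩⟩ <;> decide +kernel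

theorem r2_45 : ∀ τ < 16, Pt.chE D tE45 K2_45 τ = true :=
  Jv.Tabs.forall16 _ e45.1 e45.2.1 e45.2.2.1 e45.2.2.2

end Pool.Agent.Lib.MP_afdd4d_co.K10.RP
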