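import Pool.Agent.Lib.MP_afdd4d_co.K10.RN.Q45
import Pool.Agent.Lib.MP_afdd4d_co.K10.RP.Blk
import Pool.Agent.Lib.MP_afdd4d_co.K10.RP.E45
import Pool.Agent.Lib.MP_afdd4d_co.K10.RP.D45
import Pool.Agent.Lib.MP_afdd4d_co.K10.RP.B23
import Pool.Agent.Lib.MP_afdd4d_co.K10.RP.B43
import Pool.Agent.Lib.MP_afdd4d_co.K10.RP.B46

/-!
# The far pairs of the coset number 45
-/

namespace Pool.Agent.Lib.MP_afdd4d_co.K10.RP

open K8 K10.RS

theorem t45_0 : ∀ x < 1024, Pt.chT D (Jv.jsE K8.RN.E45.z 0) (tE45 0) (tK45 0) (tS45 0) x = true :=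
  chT_of b46 (tE45 0) (tK45 0) (tS45 0) 126 17 rfl (by decide) (by decide +kernel)

theorem t45_1 : ∀ x < 1024, Pt.chT D (Jv.jsE K8.RN.E45.z 1) (tE45 1) (tK45 1) (tS45 1) x = true :=
  chT_of b23 (tE45 1) (tK45 1) (tS45 1) 0 6 rfl (by decide) (by decide +kernel)

theorem t45_2 : ∀ x < 1024, Pt.chT D (Jv.jsE K8.RN.E45.z 2) (tE45 2) (tK45 2) (tS45 2) x = true :=
  chT_of b23 (tE45 2) (tK45 2) (tS45 2) 0 7 rfl (by decide) (by decide +kernel)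

theorem t45_3 : ∀ x < 1024, Pt.chT D (Jv.jsE K8.RN.E45.z 3) (tE45 3) (tK45 3) (tS45 3) x = true :=
  chT_of b23 (tE45 3) (tK45 3) (tS45 3) 0 8 rfl (by decide) (by decide +kernel)

theorem t45_4 : ∀ x < 1024, Pt.chT D (Jv.jsE K8.RN.E45.z 4) (tE45 4) (tK45 4) (tS45 4) x = true :=
  chT_of b43 (tE45 4) (tK45 4) (tS45 4) 0 8 rfl (by decide) (by decide +kernel)

theorem t45_5 : ∀ x < 1024, Pt.chT D (Jv.jsE K8.RN.E45.z 5) (tE45 5) (tK45 5) (tS45 5) x = true :=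
  chT_of b43 (tE45 5) (tK45 5) (tS45 5) 0 9 rfl (by decide) (by decide +kernel)

theorem t45_6 : ∀ x < 1024, Pt.chT D (Jv.jsE K8.RN.E45.z 6) (tE45 6) (tK45 6) (tS45 6) x = true :=
  chT_of b43 (tE45 6) (tK45 6) (tS45 6) 0 10 rfl (by decide) (by decide +kernel)

theorem c45 : Pt.chN D K K1_45 K2_45 K4_45 = true := by decide +kernel

theorem out45 : Pt.FarY S K8.RN.E45.g.c 7 (Pt.Out X45) :=
  Pt.farY_out D D_w K K_eq K8.RN.E45.g K8.RN.E45.z K8.RN.E45.hg (rep_mem 45 (by decide) rfl) X45 okE45 okK45 okS45 c45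
    K10.RN.r1_45 r2_45 (Pt.forall7 _ t45_0 t45_1 t45_2 t45_3 t45_4 t45_5 t45_6) r4_45

theorem far45 : Pt.Far S K8.RN.E45.g.c 7 := Pt.far_of_out out45 (fun l hl => absurd hl List.not_mem_nil)

end Pool.Agent.Lib.MP_afdd4d_co.K10.RP
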