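import Pool.Agent.Lib.MP_afdd4d_co.K10.RN.Q46
import Pool.Agent.Lib.MP_afdd4d_co.K10.RP.Blk
import Pool.Agent.Lib.MP_afdd4d_co.K10.RP.E46
import Pool.Agent.Lib.MP_afdd4d_co.K10.RP.D46
import Pool.Agent.Lib.MP_afdd4d_co.K10.RP.B10
import Pool.Agent.Lib.MP_afdd4d_co.K10.RP.B30
import Pool.Agent.Lib.MP_afdd4d_co.K10.RP.B31
import Pool.Agent.Lib.MP_afdd4d_co.K10.RP.B34
import Pool.Agent.Lib.MP_afdd4d_co.K10.RP.B43

/-!
# The far pairs of the coset number 46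
-/

namespace Pool.Agent.Lib.MP_afdd4d_co.K10.RP

open K8 K10.RS

theorem t46_0 : ∀ x < 1024, Pt.chT D (Jv.jsE K8.RN.E46.z 0) (tE46 0) (tK46 0) (tS46 0) x = true :=
  chT_of b43 (tE46 0) (tK46 0) (tS46 0) 183 11 rfl (by decide) (by decide +kernel)

theorem t46_1 : ∀ x < 1024, Pt.chT D (Jv.jsE K8.RN.E46.z 1) (tE46 1) (tK46 1) (tS46 1) x = true :=
  chT_of b10 (tE46 1) (tK46 1) (tS46 1) 0 19 rfl (by decide) (by decide +kernel)

theorem t46_2 : ∀ x < 1024, Pt.chT D (Jv.jsE K8.RN.E46.z 2) (tE46 2) (tK46 2) (tS46 2) x = true :=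
  chT_of b30 (tE46 2) (tK46 2) (tS46 2) 0 20 rfl (by decide) (by decide +kernel)

theorem t46_3 : ∀ x < 1024, Pt.chT D (Jv.jsE K8.RN.E46.z 3) (tE46 3) (tK46 3) (tS46 3) x = true :=
  chT_of b30 (tE46 3) (tK46 3) (tS46 3) 0 21 rfl (by decide) (by decide +kernel)

theorem t46_4 : ∀ x < 1024, Pt.chT D (Jv.jsE K8.RN.E46.z 4) (tE46 4) (tK46 4) (tS46 4) x = true :=
  chT_of b31 (tE46 4) (tK46 4) (tS46 4) 0 18 rfl (by decide) (by decide +kernel)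

theorem t46_5 : ∀ x < 1024, Pt.chT D (Jv.jsE K8.RN.E46.z 5) (tE46 5) (tK46 5) (tS46 5) x = true :=
  chT_of b31 (tE46 5) (tK46 5) (tS46 5) 0 19 rfl (by decide) (by decide +kernel)

theorem t46_6 : ∀ x < 1024, Pt.chT D (Jv.jsE K8.RN.E46.z 6) (tE46 6) (tK46 6) (tS46 6) x = true :=
  chT_of b34 (tE46 6) (tK46 6) (tS46 6) 0 3 rfl (by decide) (by decide +kernel)

theorem c46 : Pt.chN D K K1_46 K2_46 K4_46 = true := by decide +kernel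

theorem out46 : Pt.FarY S K8.RN.E46.g.c 7 (Pt.Out X46) :=
  Pt.farY_out D D_w K K_eq K8.RN.E46.g K8.RN.E46.z K8.RN.E46.hg (rep_mem 46 (by decide) rfl) X46 okE46 okK46 okS46 c46
    K10.RN.r1_46 r2_46 (Pt.forall7 _ t46_0 t46_1 t46_2 t46_3 t46_4 t46_5 t46_6) r4_46

theorem far46 : Pt.Far S K8.RN.E46.g.c 7 := Pt.far_of_out out46 (fun l hl => absurd hl List.not_mem_nil)

end Pool.Agent.Lib.MP_afdd4d_co.K10.RP
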