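import Pool.Agent.Lib.MP_afdd4d_co.K10.RP.B41_0
import Pool.Agent.Lib.MP_afdd4d_co.K10.RP.B41_1

/-!
# The pairs of the class 41
-/

namespace Pool.Agent.Lib.MP_afdd4d_co.K10.RP

open K8 K10.RS

theorem b41 : ∀ y < 1024, ∀ e ∈ L41, Pt.leP D (D.tP (Nat.xor 24832 (Pt.fu y))) y e = true :=
  Pt.blk16 D (Pt.forall16' _ b41_0 b41_1 b41_2 b41_3 b41_4 b41_5 b41_6 b41_7 b41_8 b41_9 b41_10 b41_11 b41_12 b41_13 b41_14 b41_15)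

end Pool.Agent.Lib.MP_afdd4d_co.K10.RP
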