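import Pool.Agent.Lib.MP_afdd4d_co.K10.RP.B47_0
import Pool.Agent.Lib.MP_afdd4d_co.K10.RP.B47_1

/-!
# The pairs of the class 47
-/

namespace Pool.Agent.Lib.MP_afdd4d_co.K10.RP

open K8 K10.RS

theorem b47 : ∀ y < 1024, ∀ e ∈ L47, Pt.leP D (D.tP (Nat.xor 26896 (Pt.fu y))) y e = true :=
  Pt.blk16 D (Pt.forall16' _ b47_0 b47_1 b47_2 b47_3 b47_4 b47_5 b47_6 b47_7 b47_8 b47_9 b47_10 b47_11 b47_12 b47_13 b47_14 b47_15)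

end Pool.Agent.Lib.MP_afdd4d_co.K10.RP
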