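import Pool.Agent.Lib.MP_afdd4d_co.K10.RN.Q47
import Pool.Agent.Lib.MP_afdd4d_co.K10.RP.Blk
import Pool.Agent.Lib.MP_afdd4d_co.K10.RP.E47
import Pool.Agent.Lib.MP_afdd4d_co.K10.RP.D47
import Pool.Agent.Lib.MP_afdd4d_co.K10.RP.B23
import Pool.Agent.Lib.MP_afdd4d_co.K10.RP.B27
import Pool.Agent.Lib.MP_afdd4d_co.K10.RP.B29
import Pool.Agent.Lib.MP_afdd4d_co.K10.RP.B37
import Pool.Agent.Lib.MP_afdd4d_co.K10.RP.B41
import Pool.Agent.Lib.MP_afdd4d_co.K10.RP.B43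
import Pool.Agent.Lib.MP_afdd4d_co.K10.RP.B47

/-!
# The far pairs of the coset number 47
-/

namespace Pool.Agent.Lib.MP_afdd4d_co.K10.RP

open K8 K10.RS

theorem t47_0 : ∀ x < 1024, Pt.chT D (Jv.jsE K8.RN.E47.z 0) (tE47 0) (tK47 0) (tS47 0) x = true :=
  chT_of b47 (tE47 0) (tK47 0) (tS47 0) 221 0 rfl (by decide) (by decide +kernel)

theorem t47_1 : ∀ x < 1024, Pt.chT D (Jv.jsE K8.RN.E47.z 1) (tE47 1) (tK47 1) (tS47 1) x = true :=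
  chT_of b23 (tE47 1) (tK47 1) (tS47 1) 0 9 rfl (by decide) (by decide +kernel)

theorem t47_2 : ∀ x < 1024, Pt.chT D (Jv.jsE K8.RN.E47.z 2) (tE47 2) (tK47 2) (tS47 2) x = true :=
  chT_of b27 (tE47 2) (tK47 2) (tS47 2) 0 13 rfl (by decide) (by decide +kernel)

theorem t47_3 : ∀ x < 1024, Pt.chT D (Jv.jsE K8.RN.E47.z 3) (tE47 3) (tK47 3) (tS47 3) x = true :=
  chT_of b29 (tE47 3) (tK47 3) (tS47 3) 0 14 rfl (by decide) (by decide +kernel)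

theorem t47_4 : ∀ x < 1024, Pt.chT D (Jv.jsE K8.RN.E47.z 4) (tE47 4) (tK47 4) (tS47 4) x = true :=
  chT_of b37 (tE47 4) (tK47 4) (tS47 4) 0 4 rfl (by decide) (by decide +kernel)

theorem t47_5 : ∀ x < 1024, Pt.chT D (Jv.jsE K8.RN.E47.z 5) (tE47 5) (tK47 5) (tS47 5) x = true :=
  chT_of b41 (tE47 5) (tK47 5) (tS47 5) 0 3 rfl (by decide) (by decide +kernel)

theorem t47_6 : ∀ x < 1024, Pt.chT D (Jv.jsE K8.RN.E47.z 6) (tE47 6) (tK47 6) (tS47 6) x = true :=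
  chT_of b43 (tE47 6) (tK47 6) (tS47 6) 0 12 rfl (by decide) (by decide +kernel)

theorem c47 : Pt.chN D K K1_47 K2_47 K4_47 = true := by decide +kernel

theorem out47 : Pt.FarY S K8.RN.E47.g.c 7 (Pt.Out X47) :=
  Pt.farY_out D D_w K K_eq K8.RN.E47.g K8.RN.E47.z K8.RN.E47.hg (rep_mem 47 (by decide) rfl) X47 okE47 okK47 okS47 c47
    K10.RN.r1_47 r2_47 (Pt.forall7 _ t47_0 t47_1 t47_2 t47_3 t47_4 t47_5 t47_6) r4_47

theorem far47 : Pt.Far S K8.RN.E47.g.c 7 := Pt.far_of_out out47 (fun l hl => absurd hl List.not_mem_nil)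

end Pool.Agent.Lib.MP_afdd4d_co.K10.RP
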