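import Pool.Agent.Lib.MP_afdd4d_co.K10.RN.Q48
import Pool.Agent.Lib.MP_afdd4d_co.K10.RP.Blk
import Pool.Agent.Lib.MP_afdd4d_co.K10.RP.E48
import Pool.Agent.Lib.MP_afdd4d_co.K10.RP.D48
import Pool.Agent.Lib.MP_afdd4d_co.K10.RP.B23
import Pool.Agent.Lib.MP_afdd4d_co.K10.RP.B43
import Pool.Agent.Lib.MP_afdd4d_co.K10.RP.B44
import Pool.Agent.Lib.MP_afdd4d_co.K10.RP.B45

/-!
# The far pairs of the coset number 48
-/

namespace Pool.Agent.Lib.MP_afdd4d_co.K10.RP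

open K8 K10.RS

theorem t48_0 : ∀ x < 1024, Pt.chT D (Jv.jsE K8.RN.E48.z 0) (tE48 0) (tK48 0) (tS48 0) x = true :=
  chT_of b45 (tE48 0) (tK48 0) (tS48 0) 126 11 rfl (by decide) (by decide +kernel)

theorem t48_1 : ∀ x < 1024, Pt.chT D (Jv.jsE K8.RN.E48.z 1) (tE48 1) (tK48 1) (tS48 1) x = true :=
  chT_of b23 (tE48 1) (tK48 1) (tS48 1) 0 10 rfl (by decide) (by decide +kernel)

theorem t48_2 : ∀ x < 1024, Pt.chT D (Jv.jsE K8.RN.E48.z 2) (tE48 2) (tK48 2) (tS48 2) x = true :=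
  chT_of b23 (tE48 2) (tK48 2) (tS48 2) 0 11 rfl (by decide) (by decide +kernel)

theorem t48_3 : ∀ x < 1024, Pt.chT D (Jv.jsE K8.RN.E48.z 3) (tE48 3) (tK48 3) (tS48 3) x = true :=
  chT_of b23 (tE48 3) (tK48 3) (tS48 3) 0 12 rfl (by decide) (by decide +kernel)

theorem t48_4 : ∀ x < 1024, Pt.chT D (Jv.jsE K8.RN.E48.z 4) (tE48 4) (tK48 4) (tS48 4) x = true :=
  chT_of b43 (tE48 4) (tK48 4) (tS48 4) 0 13 rfl (by decide) (by decide +kernel)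

theorem t48_5 : ∀ x < 1024, Pt.chT D (Jv.jsE K8.RN.E48.z 5) (tE48 5) (tK48 5) (tS48 5) x = true :=
  chT_of b44 (tE48 5) (tK48 5) (tS48 5) 0 5 rfl (by decide) (by decide +kernel)

theorem t48_6 : ∀ x < 1024, Pt.chT D (Jv.jsE K8.RN.E48.z 6) (tE48 6) (tK48 6) (tS48 6) x = true :=
  chT_of b44 (tE48 6) (tK48 6) (tS48 6) 0 6 rfl (by decide) (by decide +kernel)

theorem c48 : Pt.chN D K K1_48 K2_48 K4_48 = true := by decide +kernel

theorem out48 : Pt.FarY S K8.RN.E48.g.c 7 (Pt.Out X48) :=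
  Pt.farY_out D D_w K K_eq K8.RN.E48.g K8.RN.E48.z K8.RN.E48.hg (rep_mem 48 (by decide) rfl) X48 okE48 okK48 okS48 c48
    K10.RN.r1_48 r2_48 (Pt.forall7 _ t48_0 t48_1 t48_2 t48_3 t48_4 t48_5 t48_6) r4_48

theorem far48 : Pt.Far S K8.RN.E48.g.c 7 := Pt.far_of_out out48 (fun l hl => absurd hl List.not_mem_nil)

end Pool.Agent.Lib.MP_afdd4d_co.K10.RP
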