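import Pool.Agent.Lib.MP_afdd4d_co.K10.RN.Q50
import Pool.Agent.Lib.MP_afdd4d_co.K10.RP.Blk
import Pool.Agent.Lib.MP_afdd4d_co.K10.RP.E50
import Pool.Agent.Lib.MP_afdd4d_co.K10.RP.D50
import Pool.Agent.Lib.MP_afdd4d_co.K10.RP.B23
import Pool.Agent.Lib.MP_afdd4d_co.K10.RP.B27
import Pool.Agent.Lib.MP_afdd4d_co.K10.RP.B29
import Pool.Agent.Lib.MP_afdd4d_co.K10.RP.B37
import Pool.Agent.Lib.MP_afdd4d_co.K10.RP.B42
import Pool.Agent.Lib.MP_afdd4d_co.K10.RP.B44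
import Pool.Agent.Lib.MP_afdd4d_co.K10.RP.B45

/-!
# The far pairs of the coset number 50
-/

namespace Pool.Agent.Lib.MP_afdd4d_co.K10.RP

open K8 K10.RS

theorem t50_0 : ∀ x < 1024, Pt.chT D (Jv.jsE K8.RN.E50.z 0) (tE50 0) (tK50 0) (tS50 0) x = true :=
  chT_of b45 (tE50 0) (tK50 0) (tS50 0) 221 12 rfl (by decide) (by decide +kernel)

theorem t50_1 : ∀ x < 1024, Pt.chT D (Jv.jsE K8.RN.E50.z 1) (tE50 1) (tK50 1) (tS50 1) x = true :=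
  chT_of b23 (tE50 1) (tK50 1) (tS50 1) 0 14 rfl (by decide) (by decide +kernel)

theorem t50_2 : ∀ x < 1024, Pt.chT D (Jv.jsE K8.RN.E50.z 2) (tE50 2) (tK50 2) (tS50 2) x = true :=
  chT_of b27 (tE50 2) (tK50 2) (tS50 2) 0 15 rfl (by decide) (by decide +kernel)

theorem t50_3 : ∀ x < 1024, Pt.chT D (Jv.jsE K8.RN.E50.z 3) (tE50 3) (tK50 3) (tS50 3) x = true :=
  chT_of b29 (tE50 3) (tK50 3) (tS50 3) 0 16 rfl (by decide) (by decide +kernel)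

theorem t50_4 : ∀ x < 1024, Pt.chT D (Jv.jsE K8.RN.E50.z 4) (tE50 4) (tK50 4) (tS50 4) x = true :=
  chT_of b37 (tE50 4) (tK50 4) (tS50 4) 0 5 rfl (by decide) (by decide +kernel)

theorem t50_5 : ∀ x < 1024, Pt.chT D (Jv.jsE K8.RN.E50.z 5) (tE50 5) (tK50 5) (tS50 5) x = true :=
  chT_of b42 (tE50 5) (tK50 5) (tS50 5) 0 8 rfl (by decide) (by decide +kernel)

theorem t50_6 : ∀ x < 1024, Pt.chT D (Jv.jsE K8.RN.E50.z 6) (tE50 6) (tK50 6) (tS50 6) x = true :=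
  chT_of b44 (tE50 6) (tK50 6) (tS50 6) 0 7 rfl (by decide) (by decide +kernel)

theorem c50 : Pt.chN D K K1_50 K2_50 K4_50 = true := by decide +kernel

theorem out50 : Pt.FarY S K8.RN.E50.g.c 7 (Pt.Out X50) :=
  Pt.farY_out D D_w K K_eq K8.RN.E50.g K8.RN.E50.z K8.RN.E50.hg (rep_mem 50 (by decide) rfl) X50 okE50 okK50 okS50 c50
    K10.RN.r1_50 r2_50 (Pt.forall7 _ t50_0 t50_1 t50_2 t50_3 t50_4 t50_5 t50_6) r4_50

theorem far50 : Pt.Far S K8.RN.E50.g.c 7 := Pt.far_of_out out50 (fun l hl => absurd hl List.not_mem_nil)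

end Pool.Agent.Lib.MP_afdd4d_co.K10.RP
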