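import Pool.Agent.Lib.MP_afdd4d_co.K10.RP.T51
import Pool.Agent.Lib.MP_afdd4d_co.K10.RS.Dat

/-!
# The even 4-graphs, potentials number 0 of the coset number 51
-/

namespace Pool.Agent.Lib.MP_afdd4d_co.K10.RP

open K8 K10.RS

theorem e51 :
    (Pt.chE D tE51 K2_51 0 = true ∧
    Pt.chE D tE51 K2_51 1 = true ∧
    Pt.chE D tE51 K2_51 2 = true ∧
    Pt.chE D tE51 K2_51 3 = true) ∧
    (Pt.chE D tE51 K2_51 4 = true ∧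
    Pt.chE D tE51 K2_51 5 = true ∧
    Pt.chE D tE51 K2_51 6 = true ∧
    Pt.chE D tE51 K2_51 7 = true) ∧
    (Pt.chE D tE51 K2_51 8 = true ∧
    Pt.chE D tE51 K2_51 9 = true ∧
    Pt.chE D tE51 K2_51 10 = true ∧
    Pt.chE D tE51 K2_51 11 = true) ∧
    (Pt.chE D tE51 K2_51 12 = true ∧
    Pt.chE D tE51 K2_51 13 = true ∧
    Pt.chE D tE51 K2_51 14 = true ∧
    Pt.chE D tE51 K2_51 15 = true) := by
  refine ⟨⟨?_, ?_, ?_, ?_⟩, ⟨?_, ?_, ?_, ?_⟩, ⟨?_, ?_, ?_, ?_⟩, ⟨?_, ?_, ?_, ?_⟩⟩ <;> decide +kernel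

theorem r2_51 : ∀ τ < 16, Pt.chE D tE51 K2_51 τ = true :=
  Jv.Tabs.forall16 _ e51.1 e51.2.1 e51.2.2.1 e51.2.2.2

end Pool.Agent.Lib.MP_afdd4d_co.K10.RP
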