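import Pool.Agent.Lib.MP_afdd4d_co.K10.RN.Q51
import Pool.Agent.Lib.MP_afdd4d_co.K10.RP.Blk
import Pool.Agent.Lib.MP_afdd4d_co.K10.RP.E51
import Pool.Agent.Lib.MP_afdd4d_co.K10.RP.D51
import Pool.Agent.Lib.MP_afdd4d_co.K10.RP.B23
import Pool.Agent.Lib.MP_afdd4d_co.K10.RP.B27
import Pool.Agent.Lib.MP_afdd4d_co.K10.RP.B34
import Pool.Agent.Lib.MP_afdd4d_co.K10.RP.B47

/-!
# The far pairs of the coset number 51
-/

namespace Pool.Agent.Lib.MP_afdd4d_co.K10.RP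

open K8 K10.RS

theorem t51_0 : ∀ x < 1024, Pt.chT D (Jv.jsE K8.RN.E51.z 0) (tE51 0) (tK51 0) (tS51 0) x = true :=
  chT_of b47 (tE51 0) (tK51 0) (tS51 0) 207 3 rfl (by decide) (by decide +kernel)

theorem t51_1 : ∀ x < 1024, Pt.chT D (Jv.jsE K8.RN.E51.z 1) (tE51 1) (tK51 1) (tS51 1) x = true :=
  chT_of b23 (tE51 1) (tK51 1) (tS51 1) 0 15 rfl (by decide) (by decide +kernel)

theorem t51_2 : ∀ x < 1024, Pt.chT D (Jv.jsE K8.RN.E51.z 2) (tE51 2) (tK51 2) (tS51 2) x = true :=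
  chT_of b27 (tE51 2) (tK51 2) (tS51 2) 0 16 rfl (by decide) (by decide +kernel)

theorem t51_3 : ∀ x < 1024, Pt.chT D (Jv.jsE K8.RN.E51.z 3) (tE51 3) (tK51 3) (tS51 3) x = true :=
  chT_of b27 (tE51 3) (tK51 3) (tS51 3) 0 17 rfl (by decide) (by decide +kernel)

theorem t51_4 : ∀ x < 1024, Pt.chT D (Jv.jsE K8.RN.E51.z 4) (tE51 4) (tK51 4) (tS51 4) x = true :=
  chT_of b34 (tE51 4) (tK51 4) (tS51 4) 0 4 rfl (by decide) (by decide +kernel)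

theorem t51_5 : ∀ x < 1024, Pt.chT D (Jv.jsE K8.RN.E51.z 5) (tE51 5) (tK51 5) (tS51 5) x = true :=
  chT_of b47 (tE51 5) (tK51 5) (tS51 5) 0 4 rfl (by decide) (by decide +kernel)

theorem t51_6 : ∀ x < 1024, Pt.chT D (Jv.jsE K8.RN.E51.z 6) (tE51 6) (tK51 6) (tS51 6) x = true :=
  chT_of b47 (tE51 6) (tK51 6) (tS51 6) 0 5 rfl (by decide) (by decide +kernel)

theorem c51 : Pt.chN D K K1_51 K2_51 K4_51 = true := by decide +kernel

theorem out51 : Pt.FarY S K8.RN.E51.g.c 7 (Pt.Out X51) :=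
  Pt.farY_out D D_w K K_eq K8.RN.E51.g K8.RN.E51.z K8.RN.E51.hg (rep_mem 51 (by decide) rfl) X51 okE51 okK51 okS51 c51
    K10.RN.r1_51 r2_51 (Pt.forall7 _ t51_0 t51_1 t51_2 t51_3 t51_4 t51_5 t51_6) r4_51

theorem far51 : Pt.Far S K8.RN.E51.g.c 7 := Pt.far_of_out out51 (fun l hl => absurd hl List.not_mem_nil)

end Pool.Agent.Lib.MP_afdd4d_co.K10.RP
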