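import Pool.Agent.Lib.MP_afdd4d_co.K10.RN.Q52
import Pool.Agent.Lib.MP_afdd4d_co.K10.RP.Blk
import Pool.Agent.Lib.MP_afdd4d_co.K10.RP.E52
import Pool.Agent.Lib.MP_afdd4d_co.K10.RP.D52
import Pool.Agent.Lib.MP_afdd4d_co.K10.RP.B23
import Pool.Agent.Lib.MP_afdd4d_co.K10.RP.B47

/-!
# The far pairs of the coset number 52
-/

namespace Pool.Agent.Lib.MP_afdd4d_co.K10.RP

open K8 K10.RS

theorem t52_0 : ∀ x < 1024, Pt.chT D (Jv.jsE K8.RN.E52.z 0) (tE52 0) (tK52 0) (tS52 0) x = true :=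
  chT_of b47 (tE52 0) (tK52 0) (tS52 0) 127 6 rfl (by decide) (by decide +kernel)

theorem t52_1 : ∀ x < 1024, Pt.chT D (Jv.jsE K8.RN.E52.z 1) (tE52 1) (tK52 1) (tS52 1) x = true :=
  chT_of b23 (tE52 1) (tK52 1) (tS52 1) 0 16 rfl (by decide) (by decide +kernel)

theorem t52_2 : ∀ x < 1024, Pt.chT D (Jv.jsE K8.RN.E52.z 2) (tE52 2) (tK52 2) (tS52 2) x = true :=
  chT_of b23 (tE52 2) (tK52 2) (tS52 2) 0 17 rfl (by decide) (by decide +kernel)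

theorem t52_3 : ∀ x < 1024, Pt.chT D (Jv.jsE K8.RN.E52.z 3) (tE52 3) (tK52 3) (tS52 3) x = true :=
  chT_of b23 (tE52 3) (tK52 3) (tS52 3) 0 18 rfl (by decide) (by decide +kernel)

theorem t52_4 : ∀ x < 1024, Pt.chT D (Jv.jsE K8.RN.E52.z 4) (tE52 4) (tK52 4) (tS52 4) x = true :=
  chT_of b47 (tE52 4) (tK52 4) (tS52 4) 0 7 rfl (by decide) (by decide +kernel)

theorem t52_5 : ∀ x < 1024, Pt.chT D (Jv.jsE K8.RN.E52.z 5) (tE52 5) (tK52 5) (tS52 5) x = true :=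
  chT_of b47 (tE52 5) (tK52 5) (tS52 5) 0 8 rfl (by decide) (by decide +kernel)

theorem t52_6 : ∀ x < 1024, Pt.chT D (Jv.jsE K8.RN.E52.z 6) (tE52 6) (tK52 6) (tS52 6) x = true :=
  chT_of b47 (tE52 6) (tK52 6) (tS52 6) 0 9 rfl (by decide) (by decide +kernel)

theorem c52 : Pt.chN D K K1_52 K2_52 K4_52 = true := by decide +kernel

theorem out52 : Pt.FarY S K8.RN.E52.g.c 7 (Pt.Out X52) :=
  Pt.farY_out D D_w K K_eq K8.RN.E52.g K8.RN.E52.z K8.RN.E52.hg (rep_mem 52 (by decide) rfl) X52 okE52 okK52 okS52 c52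
    K10.RN.r1_52 r2_52 (Pt.forall7 _ t52_0 t52_1 t52_2 t52_3 t52_4 t52_5 t52_6) r4_52

theorem far52 : Pt.Far S K8.RN.E52.g.c 7 := Pt.far_of_out out52 (fun l hl => absurd hl List.not_mem_nil)

end Pool.Agent.Lib.MP_afdd4d_co.K10.RP
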