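import Pool.Agent.Lib.MP_afdd4d_co.K10.RP.T53
import Pool.Agent.Lib.MP_afdd4d_co.K8.RN.E53

/-!
# The differences, potentials number 0 of the coset number 53
-/

namespace Pool.Agent.Lib.MP_afdd4d_co.K10.RP

open K8

theorem d53 :
    (Pt.chD tS53 (Jv.jsE K8.RN.E53.z) 120911664446123945 0 = true ∧
    Pt.chD tS53 (Jv.jsE K8.RN.E53.z) 120911664446123945 1 = true ∧
    Pt.chD tS53 (Jv.jsE K8.RN.E53.z) 120911664446123945 2 = true ∧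
    Pt.chD tS53 (Jv.jsE K8.RN.E53.z) 120911664446123945 3 = true) ∧
    (Pt.chD tS53 (Jv.jsE K8.RN.E53.z) 120911664446123945 4 = true ∧
    Pt.chD tS53 (Jv.jsE K8.RN.E53.z) 120911664446123945 5 = true ∧
    Pt.chD tS53 (Jv.jsE K8.RN.E53.z) 120911664446123945 6 = true ∧
    Pt.chD tS53 (Jv.jsE K8.RN.E53.z) 120911664446123945 7 = true) ∧
    (Pt.chD tS53 (Jv.jsE K8.RN.E53.z) 120911664446123945 8 = true ∧
    Pt.chD tS53 (Jv.jsE K8.RN.E53.z) 120911664446123945 9 = true ∧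
    Pt.chD tS53 (Jv.jsE K8.RN.E53.z) 120911664446123945 10 = true ∧
    Pt.chD tS53 (Jv.jsE K8.RN.E53.z) 120911664446123945 11 = true) ∧
    (Pt.chD tS53 (Jv.jsE K8.RN.E53.z) 120911664446123945 12 = true ∧
    Pt.chD tS53 (Jv.jsE K8.RN.E53.z) 120911664446123945 13 = true ∧
    Pt.chD tS53 (Jv.jsE K8.RN.E53.z) 120911664446123945 14 = true ∧
    Pt.chD tS53 (Jv.jsE K8.RN.E53.z) 120911664446123945 15 = true) := by
  refine ⟨⟨?_, ?_, ?_, ?_⟩, ⟨?_, ?_, ?_, ?_⟩, ⟨?_, ?_, ?_, ?_⟩, ⟨?_, ?_, ?_, ?_⟩⟩ <;> decide +kernel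

theorem r4_53 : ∀ τ < 16, Pt.chD tS53 (Jv.jsE K8.RN.E53.z) 120911664446123945 τ = true :=
  Jv.Tabs.forall16 _ d53.1 d53.2.1 d53.2.2.1 d53.2.2.2

end Pool.Agent.Lib.MP_afdd4d_co.K10.RP
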