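import Pool.Agent.Lib.MP_afdd4d_co.K10.RN.Q53
import Pool.Agent.Lib.MP_afdd4d_co.K10.RP.Blk
import Pool.Agent.Lib.MP_afdd4d_co.K10.RP.E53
import Pool.Agent.Lib.MP_afdd4d_co.K10.RP.D53
import Pool.Agent.Lib.MP_afdd4d_co.K10.RP.B47

/-!
# The far pairs of the coset number 53
-/

namespace Pool.Agent.Lib.MP_afdd4d_co.K10.RP

open K8 K10.RS

theorem t53_0 : ∀ x < 1024, Pt.chT D (Jv.jsE K8.RN.E53.z 0) (tE53 0) (tK53 0) (tS53 0) x = true :=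
  chT_of b47 (tE53 0) (tK53 0) (tS53 0) 1023 10 rfl (by decide) (by decide +kernel)

theorem t53_1 : ∀ x < 1024, Pt.chT D (Jv.jsE K8.RN.E53.z 1) (tE53 1) (tK53 1) (tS53 1) x = true :=
  chT_of b47 (tE53 1) (tK53 1) (tS53 1) 0 11 rfl (by decide) (by decide +kernel)

theorem t53_2 : ∀ x < 1024, Pt.chT D (Jv.jsE K8.RN.E53.z 2) (tE53 2) (tK53 2) (tS53 2) x = true :=
  chT_of b47 (tE53 2) (tK53 2) (tS53 2) 0 12 rfl (by decide) (by decide +kernel)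

theorem t53_3 : ∀ x < 1024, Pt.chT D (Jv.jsE K8.RN.E53.z 3) (tE53 3) (tK53 3) (tS53 3) x = true :=
  chT_of b47 (tE53 3) (tK53 3) (tS53 3) 0 13 rfl (by decide) (by decide +kernel)

theorem t53_4 : ∀ x < 1024, Pt.chT D (Jv.jsE K8.RN.E53.z 4) (tE53 4) (tK53 4) (tS53 4) x = true :=
  chT_of b47 (tE53 4) (tK53 4) (tS53 4) 0 14 rfl (by decide) (by decide +kernel)

theorem t53_5 : ∀ x < 1024, Pt.chT D (Jv.jsE K8.RN.E53.z 5) (tE53 5) (tK53 5) (tS53 5) x = true :=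
  chT_of b47 (tE53 5) (tK53 5) (tS53 5) 0 15 rfl (by decide) (by decide +kernel)

theorem t53_6 : ∀ x < 1024, Pt.chT D (Jv.jsE K8.RN.E53.z 6) (tE53 6) (tK53 6) (tS53 6) x = true :=
  chT_of b47 (tE53 6) (tK53 6) (tS53 6) 0 16 rfl (by decide) (by decide +kernel)

theorem c53 : Pt.chN D K K1_53 K2_53 K4_53 = true := by decide +kernel

theorem out53 : Pt.FarY S K8.RN.E53.g.c 7 (Pt.Out X53) :=
  Pt.farY_out D D_w K K_eq K8.RN.E53.g K8.RN.E53.z K8.RN.E53.hg (rep_mem 53 (by decide) rfl) X53 okE53 okK53 okS53 c53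
    K10.RN.r1_53 r2_53 (Pt.forall7 _ t53_0 t53_1 t53_2 t53_3 t53_4 t53_5 t53_6) r4_53

theorem far53 : Pt.Far S K8.RN.E53.g.c 7 := Pt.far_of_out out53 (fun l hl => absurd hl List.not_mem_nil)

end Pool.Agent.Lib.MP_afdd4d_co.K10.RP
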