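import Pool.Agent.Lib.MP_afdd4d_co.K10.RP.F00
import Pool.Agent.Lib.MP_afdd4d_co.K10.RP.F01
import Pool.Agent.Lib.MP_afdd4d_co.K10.RP.F02
import Pool.Agent.Lib.MP_afdd4d_co.K10.RP.F03
import Pool.Agent.Lib.MP_afdd4d_co.K10.RP.F04
import Pool.Agent.Lib.MP_afdd4d_co.K10.RP.F05
import Pool.Agent.Lib.MP_afdd4d_co.K10.RP.F06
import Pool.Agent.Lib.MP_afdd4d_co.K10.RP.F07
import Pool.Agent.Lib.MP_afdd4d_co.K10.RP.F08
import Pool.Agent.Lib.MP_afdd4d_co.K10.RP.F09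
import Pool.Agent.Lib.MP_afdd4d_co.K10.RP.F10
import Pool.Agent.Lib.MP_afdd4d_co.K10.RP.F11
import Pool.Agent.Lib.MP_afdd4d_co.K10.RP.F12
import Pool.Agent.Lib.MP_afdd4d_co.K10.RP.F13
import Pool.Agent.Lib.MP_afdd4d_co.K10.RP.F14
import Pool.Agent.Lib.MP_afdd4d_co.K10.RP.F15
import Pool.Agent.Lib.MP_afdd4d_co.K10.RP.F16
import Pool.Agent.Lib.MP_afdd4d_co.K10.RP.F17
import Pool.Agent.Lib.MP_afdd4d_co.K10.RP.F18
import Pool.Agent.Lib.MP_afdd4d_co.K10.RP.F19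
import Pool.Agent.Lib.MP_afdd4d_co.K10.RP.F20
import Pool.Agent.Lib.MP_afdd4d_co.K10.RP.F21
import Pool.Agent.Lib.MP_afdd4d_co.K10.RP.F22
import Pool.Agent.Lib.MP_afdd4d_co.K10.RP.F23
import Pool.Agent.Lib.MP_afdd4d_co.K10.RP.F24
import Pool.Agent.Lib.MP_afdd4d_co.K10.RP.F25
import Pool.Agent.Lib.MP_afdd4d_co.K10.RP.F26
import Pool.Agent.Lib.MP_afdd4d_co.K10.RP.F27
import Pool.Agent.Lib.MP_afdd4d_co.K10.RP.F28
import Pool.Agent.Lib.MP_afdd4d_co.K10.RP.F29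
import Pool.Agent.Lib.MP_afdd4d_co.K10.RP.F30
import Pool.Agent.Lib.MP_afdd4d_co.K10.RP.F31
import Pool.Agent.Lib.MP_afdd4d_co.K10.RP.F32
import Pool.Agent.Lib.MP_afdd4d_co.K10.RP.F33
import Pool.Agent.Lib.MP_afdd4d_co.K10.RP.F34
import Pool.Agent.Lib.MP_afdd4d_co.K10.RP.F35
import Pool.Agent.Lib.MP_afdd4d_co.K10.RP.F36
import Pool.Agent.Lib.MP_afdd4d_co.K10.RP.F37
import Pool.Agent.Lib.MP_afdd4d_co.K10.RP.F38
import Pool.Agent.Lib.MP_afdd4d_co.K10.RP.F39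
import Pool.Agent.Lib.MP_afdd4d_co.K10.RP.F40
import Pool.Agent.Lib.MP_afdd4d_co.K10.RP.F41
import Pool.Agent.Lib.MP_afdd4d_co.K10.RP.F42
import Pool.Agent.Lib.MP_afdd4d_co.K10.RP.F43
import Pool.Agent.Lib.MP_afdd4d_co.K10.RP.F44
import Pool.Agent.Lib.MP_afdd4d_co.K10.RP.F45
import Pool.Agent.Lib.MP_afdd4d_co.K10.RP.F46
import Pool.Agent.Lib.MP_afdd4d_co.K10.RP.F47
import Pool.Agent.Lib.MP_afdd4d_co.K10.RP.F48
import Pool.Agent.Lib.MP_afdd4d_co.K10.RP.F49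
import Pool.Agent.Lib.MP_afdd4d_co.K10.RP.F50
import Pool.Agent.Lib.MP_afdd4d_co.K10.RP.F51
import Pool.Agent.Lib.MP_afdd4d_co.K10.RP.F52
import Pool.Agent.Lib.MP_afdd4d_co.K10.RP.F53
import Pool.Agent.Lib.MP_afdd4d_co.K8.CovDat

/-!
# The far pairs
-/

namespace Pool.Agent.Lib.MP_afdd4d_co.K10.RP

open K8 K10.RS

theorem far : ∀ c ∈ lks cosN 54, Pt.Far S c 7 := by
  have e : lks cosN 54 = [K8.RN.E00.g.c,
    K8.RN.E01.g.c,
    K8.RN.E02.g.c,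
    K8.RN.E03.g.c,
    K8.RN.E04.g.c,
    K8.RN.E05.g.c,
    K8.RN.E06.g.c,
    K8.RN.E07.g.c,
    K8.RN.E08.g.c,
    K8.RN.E09.g.c,
    K8.RN.E10.g.c,
    K8.RN.E11.g.c,
    K8.RN.E12.g.c,
    K8.RN.E13.g.c,
    K8.RN.E14.g.c,
    K8.RN.E15.g.c,
    K8.RN.E16.g.c,
    K8.RN.E17.g.c,
    K8.RN.E18.g.c,
    K8.RN.E19.g.c,
    K8.RN.E20.g.c,
    K8.RN.E21.g.c,
    K8.RN.E22.g.c,
    K8.RN.E23.g.c,
    K8.RN.E24.g.c,
    K8.RN.E25.g.c,
    K8.RN.E26.g.c,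
    K8.RN.E27.g.c,
    K8.RN.E28.g.c,
    K8.RN.E29.g.c,
    K8.RN.E30.g.c,
    K8.RN.E31.g.c,
    K8.RN.E32.g.c,
    K8.RN.E33.g.c,
    K8.RN.E34.g.c,
    K8.RN.E35.g.c,
    K8.RN.E36.g.c,
    K8.RN.E37.g.c,
    K8.RN.E38.g.c,
    K8.RN.E39.g.c,
    K8.RN.E40.g.c,
    K8.RN.E41.g.c,
    K8.RN.E42.g.c,
    K8.RN.E43.g.c,
    K8.RN.E44.g.c,
    K8.RN.E45.g.c,
    K8.RN.E46.g.c,
    K8.RN.E47.g.c,
    K8.RN.E48.g.c,
    K8.RN.E49.g.c,
    K8.RN.E50.g.c,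
    K8.RN.E51.g.c,
    K8.RN.E52.g.c,
    K8.RN.E53.g.c] := by decide +kernel
  intro c hc
  rw [e] at hc
  simp only [List.mem_cons, List.not_mem_nil, or_false] at hc
  rcases hc with rfl | rfl | rfl | rfl | rfl | rfl | rfl | rfl | rfl | rfl | rfl | rfl | rfl | rfl | rfl | rfl | rfl | rfl |
    rfl | rfl | rfl | rfl | rfl | rfl | rfl | rfl | rfl | rfl | rfl | rfl | rfl | rfl | rfl | rfl | rfl | rfl |
    rfl | rfl | rfl | rfl | rfl | rfl | rfl | rfl | rfl | rfl | rfl | rfl | rfl | rfl | rfl | rfl | rfl | rfl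
  · exact far00
  · exact far01
  · exact far02
  · exact far03
  · exact far04
  · exact far05
  · exact far06
  · exact far07
  · exact far08
  · exact far09
  · exact far10
  · exact far11
  · exact far12
  · exact far13
  · exact far14
  · exact far15
  · exact far16
  · exact far17
  · exact far18
  · exact far19
  · exact far20
  · exact far21
  · exact far22
  · exact far23
  · exact far24
  · exact far25
  · exact far26
  · exact far27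
  · exact far28
  · exact far29
  · exact far30
  · exact far31
  · exact far32
  · exact far33
  · exact far34
  · exact far35
  · exact far36
  · exact far37
  · exact far38
  · exact far39
  · exact far40
  · exact far41
  · exact far42
  · exact far43
  · exact far44
  · exact far45
  · exact far46
  · exact far47
  · exact far48
  · exact far49
  · exact far50
  · exact far51
  · exact far52
  · exact far53

end Pool.Agent.Lib.MP_afdd4d_co.K10.RP
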