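import Pool.Agent.Lib.MP_afdd4d_co.K10.RP.L07
import Pool.Agent.Lib.MP_afdd4d_co.K10.RS.Dat

/-!
# The pairs of the class 7, part 0
-/

namespace Pool.Agent.Lib.MP_afdd4d_co.K10.RP

open K8 K10.RS

theorem b07_p0 :
    Pt.chB D 16 L07 0 64 = true ∧
    Pt.chB D 16 L07 64 64 = true ∧
    Pt.chB D 16 L07 128 64 = true ∧
    Pt.chB D 16 L07 192 64 = true ∧
    Pt.chB D 16 L07 256 64 = true ∧
    Pt.chB D 16 L07 320 64 = true ∧
    Pt.chB D 16 L07 384 64 = true ∧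
    Pt.chB D 16 L07 448 64 = true := by
  refine ⟨?_, ?_, ?_, ?_, ?_, ?_, ?_, ?_⟩ <;> decide +kernel

theorem b07_0 : Pt.chB D 16 L07 0 64 = true := b07_p0.1

theorem b07_1 : Pt.chB D 16 L07 64 64 = true := b07_p0.2.1

theorem b07_2 : Pt.chB D 16 L07 128 64 = true := b07_p0.2.2.1

theorem b07_3 : Pt.chB D 16 L07 192 64 = true := b07_p0.2.2.2.1

theorem b07_4 : Pt.chB D 16 L07 256 64 = true := b07_p0.2.2.2.2.1

theorem b07_5 : Pt.chB D 16 L07 320 64 = true := b07_p0.2.2.2.2.2.1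

theorem b07_6 : Pt.chB D 16 L07 384 64 = true := b07_p0.2.2.2.2.2.2.1

theorem b07_7 : Pt.chB D 16 L07 448 64 = true := b07_p0.2.2.2.2.2.2.2

end Pool.Agent.Lib.MP_afdd4d_co.K10.RP
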