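import Pool.Agent.Lib.MP_afdd4d_co.K10.RP.L46
import Pool.Agent.Lib.MP_afdd4d_co.K10.RS.Dat

/-!
# The pairs of the class 46, part 0
-/

namespace Pool.Agent.Lib.MP_afdd4d_co.K10.RP

open K8 K10.RS

theorem b46_p0 :
    Pt.chB D 26896 L46 0 64 = true ∧
    Pt.chB D 26896 L46 64 64 = true ∧
    Pt.chB D 26896 L46 128 64 = true ∧
    Pt.chB D 26896 L46 192 64 = true ∧
    Pt.chB D 26896 L46 256 64 = true ∧
    Pt.chB D 26896 L46 320 64 = true ∧
    Pt.chB D 26896 L46 384 64 = true ∧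
    Pt.chB D 26896 L46 448 64 = true := by
  refine ⟨?_, ?_, ?_, ?_, ?_, ?_, ?_, ?_⟩ <;> decide +kernel

theorem b46_0 : Pt.chB D 26896 L46 0 64 = true := b46_p0.1

theorem b46_1 : Pt.chB D 26896 L46 64 64 = true := b46_p0.2.1

theorem b46_2 : Pt.chB D 26896 L46 128 64 = true := b46_p0.2.2.1

theorem b46_3 : Pt.chB D 26896 L46 192 64 = true := b46_p0.2.2.2.1

theorem b46_4 : Pt.chB D 26896 L46 256 64 = true := b46_p0.2.2.2.2.1

theorem b46_5 : Pt.chB D 26896 L46 320 64 = true := b46_p0.2.2.2.2.2.1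

theorem b46_6 : Pt.chB D 26896 L46 384 64 = true := b46_p0.2.2.2.2.2.2.1

theorem b46_7 : Pt.chB D 26896 L46 448 64 = true := b46_p0.2.2.2.2.2.2.2

end Pool.Agent.Lib.MP_afdd4d_co.K10.RP
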