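import Pool.Agent.Lib.MP_afdd4d_co.K10.RP.T06p2
import Pool.Agent.Lib.MP_afdd4d_co.K8.RN.E06

/-!
# The differences, potentials number 2 of the coset number 6
-/

namespace Pool.Agent.Lib.MP_afdd4d_co.K10.RP

open K8

theorem d06p2 :
    (Pt.chD tS06p2 (Jv.jsE K8.RN.E06.z) 120911216421399828 0 = true ∧
    Pt.chD tS06p2 (Jv.jsE K8.RN.E06.z) 120911216421399828 1 = true ∧
    Pt.chD tS06p2 (Jv.jsE K8.RN.E06.z) 120911216421399828 2 = true ∧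
    Pt.chD tS06p2 (Jv.jsE K8.RN.E06.z) 120911216421399828 3 = true) ∧
    (Pt.chD tS06p2 (Jv.jsE K8.RN.E06.z) 120911216421399828 4 = true ∧
    Pt.chD tS06p2 (Jv.jsE K8.RN.E06.z) 120911216421399828 5 = true ∧
    Pt.chD tS06p2 (Jv.jsE K8.RN.E06.z) 120911216421399828 6 = true ∧
    Pt.chD tS06p2 (Jv.jsE K8.RN.E06.z) 120911216421399828 7 = true) ∧
    (Pt.chD tS06p2 (Jv.jsE K8.RN.E06.z) 120911216421399828 8 = true ∧
    Pt.chD tS06p2 (Jv.jsE K8.RN.E06.z) 120911216421399828 9 = true ∧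
    Pt.chD tS06p2 (Jv.jsE K8.RN.E06.z) 120911216421399828 10 = true ∧
    Pt.chD tS06p2 (Jv.jsE K8.RN.E06.z) 120911216421399828 11 = true) ∧
    (Pt.chD tS06p2 (Jv.jsE K8.RN.E06.z) 120911216421399828 12 = true ∧
    Pt.chD tS06p2 (Jv.jsE K8.RN.E06.z) 120911216421399828 13 = true ∧
    Pt.chD tS06p2 (Jv.jsE K8.RN.E06.z) 120911216421399828 14 = true ∧
    Pt.chD tS06p2 (Jv.jsE K8.RN.E06.z) 120911216421399828 15 = true) := by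
  refine ⟨⟨?_, ?_, ?_, ?_⟩, ⟨?_, ?_, ?_, ?_⟩, ⟨?_, ?_, ?_, ?_⟩, ⟨?_, ?_, ?_, ?_⟩⟩ <;> decide +kernel

theorem r4_06p2 : ∀ τ < 16, Pt.chD tS06p2 (Jv.jsE K8.RN.E06.z) 120911216421399828 τ = true :=
  Jv.Tabs.forall16 _ d06p2.1 d06p2.2.1 d06p2.2.2.1 d06p2.2.2.2

end Pool.Agent.Lib.MP_afdd4d_co.K10.RP
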