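import Pool.Agent.Lib.MP_afdd4d_co.K10.RP.T09p1
import Pool.Agent.Lib.MP_afdd4d_co.K8.RN.E09

/-!
# The differences, potentials number 1 of the coset number 9
-/

namespace Pool.Agent.Lib.MP_afdd4d_co.K10.RP

open K8

theorem d09p1 :
    (Pt.chD tS09p1 (Jv.jsE K8.RN.E09.z) 120911284576091223 0 = true ∧
    Pt.chD tS09p1 (Jv.jsE K8.RN.E09.z) 120911284576091223 1 = true ∧
    Pt.chD tS09p1 (Jv.jsE K8.RN.E09.z) 120911284576091223 2 = true ∧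
    Pt.chD tS09p1 (Jv.jsE K8.RN.E09.z) 120911284576091223 3 = true) ∧
    (Pt.chD tS09p1 (Jv.jsE K8.RN.E09.z) 120911284576091223 4 = true ∧
    Pt.chD tS09p1 (Jv.jsE K8.RN.E09.z) 120911284576091223 5 = true ∧
    Pt.chD tS09p1 (Jv.jsE K8.RN.E09.z) 120911284576091223 6 = true ∧
    Pt.chD tS09p1 (Jv.jsE K8.RN.E09.z) 120911284576091223 7 = true) ∧
    (Pt.chD tS09p1 (Jv.jsE K8.RN.E09.z) 120911284576091223 8 = true ∧
    Pt.chD tS09p1 (Jv.jsE K8.RN.E09.z) 120911284576091223 9 = true ∧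
    Pt.chD tS09p1 (Jv.jsE K8.RN.E09.z) 120911284576091223 10 = true ∧
    Pt.chD tS09p1 (Jv.jsE K8.RN.E09.z) 120911284576091223 11 = true) ∧
    (Pt.chD tS09p1 (Jv.jsE K8.RN.E09.z) 120911284576091223 12 = true ∧
    Pt.chD tS09p1 (Jv.jsE K8.RN.E09.z) 120911284576091223 13 = true ∧
    Pt.chD tS09p1 (Jv.jsE K8.RN.E09.z) 120911284576091223 14 = true ∧
    Pt.chD tS09p1 (Jv.jsE K8.RN.E09.z) 120911284576091223 15 = true) := by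
  refine ⟨⟨?_, ?_, ?_, ?_⟩, ⟨?_, ?_, ?_, ?_⟩, ⟨?_, ?_, ?_, ?_⟩, ⟨?_, ?_, ?_, ?_⟩⟩ <;> decide +kernel

theorem r4_09p1 : ∀ τ < 16, Pt.chD tS09p1 (Jv.jsE K8.RN.E09.z) 120911284576091223 τ = true :=
  Jv.Tabs.forall16 _ d09p1.1 d09p1.2.1 d09p1.2.2.1 d09p1.2.2.2

end Pool.Agent.Lib.MP_afdd4d_co.K10.RP
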