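import Pool.Agent.Lib.MP_afdd4d_co.K10.RP.T09p2
import Pool.Agent.Lib.MP_afdd4d_co.K8.RN.E09

/-!
# The differences, potentials number 2 of the coset number 9
-/

namespace Pool.Agent.Lib.MP_afdd4d_co.K10.RP

open K8

theorem d09p2 :
    (Pt.chD tS09p2 (Jv.jsE K8.RN.E09.z) 120911243891069000 0 = true ∧
    Pt.chD tS09p2 (Jv.jsE K8.RN.E09.z) 120911243891069000 1 = true ∧
    Pt.chD tS09p2 (Jv.jsE K8.RN.E09.z) 120911243891069000 2 = true ∧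
    Pt.chD tS09p2 (Jv.jsE K8.RN.E09.z) 120911243891069000 3 = true) ∧
    (Pt.chD tS09p2 (Jv.jsE K8.RN.E09.z) 120911243891069000 4 = true ∧
    Pt.chD tS09p2 (Jv.jsE K8.RN.E09.z) 120911243891069000 5 = true ∧
    Pt.chD tS09p2 (Jv.jsE K8.RN.E09.z) 120911243891069000 6 = true ∧
    Pt.chD tS09p2 (Jv.jsE K8.RN.E09.z) 120911243891069000 7 = true) ∧
    (Pt.chD tS09p2 (Jv.jsE K8.RN.E09.z) 120911243891069000 8 = true ∧
    Pt.chD tS09p2 (Jv.jsE K8.RN.E09.z) 120911243891069000 9 = true ∧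
    Pt.chD tS09p2 (Jv.jsE K8.RN.E09.z) 120911243891069000 10 = true ∧
    Pt.chD tS09p2 (Jv.jsE K8.RN.E09.z) 120911243891069000 11 = true) ∧
    (Pt.chD tS09p2 (Jv.jsE K8.RN.E09.z) 120911243891069000 12 = true ∧
    Pt.chD tS09p2 (Jv.jsE K8.RN.E09.z) 120911243891069000 13 = true ∧
    Pt.chD tS09p2 (Jv.jsE K8.RN.E09.z) 120911243891069000 14 = true ∧
    Pt.chD tS09p2 (Jv.jsE K8.RN.E09.z) 120911243891069000 15 = true) := by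
  refine ⟨⟨?_, ?_, ?_, ?_⟩, ⟨?_, ?_, ?_, ?_⟩, ⟨?_, ?_, ?_, ?_⟩, ⟨?_, ?_, ?_, ?_⟩⟩ <;> decide +kernel

theorem r4_09p2 : ∀ τ < 16, Pt.chD tS09p2 (Jv.jsE K8.RN.E09.z) 120911243891069000 τ = true :=
  Jv.Tabs.forall16 _ d09p2.1 d09p2.2.1 d09p2.2.2.1 d09p2.2.2.2

end Pool.Agent.Lib.MP_afdd4d_co.K10.RP
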