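import Pool.Agent.Lib.MP_afdd4d_co.K10.RP.T11p2
import Pool.Agent.Lib.MP_afdd4d_co.K8.RN.E11

/-!
# The differences, potentials number 2 of the coset number 11
-/

namespace Pool.Agent.Lib.MP_afdd4d_co.K10.RP

open K8

theorem d11p2 :
    (Pt.chD tS11p2 (Jv.jsE K8.RN.E11.z) 120911379205804776 0 = true ∧
    Pt.chD tS11p2 (Jv.jsE K8.RN.E11.z) 120911379205804776 1 = true ∧
    Pt.chD tS11p2 (Jv.jsE K8.RN.E11.z) 120911379205804776 2 = true ∧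
    Pt.chD tS11p2 (Jv.jsE K8.RN.E11.z) 120911379205804776 3 = true) ∧
    (Pt.chD tS11p2 (Jv.jsE K8.RN.E11.z) 120911379205804776 4 = true ∧
    Pt.chD tS11p2 (Jv.jsE K8.RN.E11.z) 120911379205804776 5 = true ∧
    Pt.chD tS11p2 (Jv.jsE K8.RN.E11.z) 120911379205804776 6 = true ∧
    Pt.chD tS11p2 (Jv.jsE K8.RN.E11.z) 120911379205804776 7 = true) ∧
    (Pt.chD tS11p2 (Jv.jsE K8.RN.E11.z) 120911379205804776 8 = true ∧
    Pt.chD tS11p2 (Jv.jsE K8.RN.E11.z) 120911379205804776 9 = true ∧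
    Pt.chD tS11p2 (Jv.jsE K8.RN.E11.z) 120911379205804776 10 = true ∧
    Pt.chD tS11p2 (Jv.jsE K8.RN.E11.z) 120911379205804776 11 = true) ∧
    (Pt.chD tS11p2 (Jv.jsE K8.RN.E11.z) 120911379205804776 12 = true ∧
    Pt.chD tS11p2 (Jv.jsE K8.RN.E11.z) 120911379205804776 13 = true ∧
    Pt.chD tS11p2 (Jv.jsE K8.RN.E11.z) 120911379205804776 14 = true ∧
    Pt.chD tS11p2 (Jv.jsE K8.RN.E11.z) 120911379205804776 15 = true) := by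
  refine ⟨⟨?_, ?_, ?_, ?_⟩, ⟨?_, ?_, ?_, ?_⟩, ⟨?_, ?_, ?_, ?_⟩, ⟨?_, ?_, ?_, ?_⟩⟩ <;> decide +kernel

theorem r4_11p2 : ∀ τ < 16, Pt.chD tS11p2 (Jv.jsE K8.RN.E11.z) 120911379205804776 τ = true :=
  Jv.Tabs.forall16 _ d11p2.1 d11p2.2.1 d11p2.2.2.1 d11p2.2.2.2

end Pool.Agent.Lib.MP_afdd4d_co.K10.RP
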