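import Pool.Agent.Lib.MP_afdd4d_co.K10.RP.T29p3
import Pool.Agent.Lib.MP_afdd4d_co.K8.RN.E29

/-!
# The differences, potentials number 3 of the coset number 29
-/

namespace Pool.Agent.Lib.MP_afdd4d_co.K10.RP

open K8

theorem d29p3 :
    (Pt.chD tS29p3 (Jv.jsE K8.RN.E29.z) 120911351723626687 0 = true ∧
    Pt.chD tS29p3 (Jv.jsE K8.RN.E29.z) 120911351723626687 1 = true ∧
    Pt.chD tS29p3 (Jv.jsE K8.RN.E29.z) 120911351723626687 2 = true ∧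
    Pt.chD tS29p3 (Jv.jsE K8.RN.E29.z) 120911351723626687 3 = true) ∧
    (Pt.chD tS29p3 (Jv.jsE K8.RN.E29.z) 120911351723626687 4 = true ∧
    Pt.chD tS29p3 (Jv.jsE K8.RN.E29.z) 120911351723626687 5 = true ∧
    Pt.chD tS29p3 (Jv.jsE K8.RN.E29.z) 120911351723626687 6 = true ∧
    Pt.chD tS29p3 (Jv.jsE K8.RN.E29.z) 120911351723626687 7 = true) ∧
    (Pt.chD tS29p3 (Jv.jsE K8.RN.E29.z) 120911351723626687 8 = true ∧
    Pt.chD tS29p3 (Jv.jsE K8.RN.E29.z) 120911351723626687 9 = true ∧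
    Pt.chD tS29p3 (Jv.jsE K8.RN.E29.z) 120911351723626687 10 = true ∧
    Pt.chD tS29p3 (Jv.jsE K8.RN.E29.z) 120911351723626687 11 = true) ∧
    (Pt.chD tS29p3 (Jv.jsE K8.RN.E29.z) 120911351723626687 12 = true ∧
    Pt.chD tS29p3 (Jv.jsE K8.RN.E29.z) 120911351723626687 13 = true ∧
    Pt.chD tS29p3 (Jv.jsE K8.RN.E29.z) 120911351723626687 14 = true ∧
    Pt.chD tS29p3 (Jv.jsE K8.RN.E29.z) 120911351723626687 15 = true) := by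
  refine ⟨⟨?_, ?_, ?_, ?_⟩, ⟨?_, ?_, ?_, ?_⟩, ⟨?_, ?_, ?_, ?_⟩, ⟨?_, ?_, ?_, ?_⟩⟩ <;> decide +kernel

theorem r4_29p3 : ∀ τ < 16, Pt.chD tS29p3 (Jv.jsE K8.RN.E29.z) 120911351723626687 τ = true :=
  Jv.Tabs.forall16 _ d29p3.1 d29p3.2.1 d29p3.2.2.1 d29p3.2.2.2

end Pool.Agent.Lib.MP_afdd4d_co.K10.RP
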