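import Pool.Agent.Lib.MP_afdd4d_co.K10.RP.T09p2
import Pool.Agent.Lib.MP_afdd4d_co.K10.RS.Dat

/-!
# The even 4-graphs, potentials number 2 of the coset number 9
-/

namespace Pool.Agent.Lib.MP_afdd4d_co.K10.RP

open K8 K10.RS

theorem e09p2 :
    (Pt.chE D tE09p2 K2_09p2 0 = true ∧
    Pt.chE D tE09p2 K2_09p2 1 = true ∧
    Pt.chE D tE09p2 K2_09p2 2 = true ∧
    Pt.chE D tE09p2 K2_09p2 3 = true) ∧
    (Pt.chE D tE09p2 K2_09p2 4 = true ∧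
    Pt.chE D tE09p2 K2_09p2 5 = true ∧
    Pt.chE D tE09p2 K2_09p2 6 = true ∧
    Pt.chE D tE09p2 K2_09p2 7 = true) ∧
    (Pt.chE D tE09p2 K2_09p2 8 = true ∧
    Pt.chE D tE09p2 K2_09p2 9 = true ∧
    Pt.chE D tE09p2 K2_09p2 10 = true ∧
    Pt.chE D tE09p2 K2_09p2 11 = true) ∧
    (Pt.chE D tE09p2 K2_09p2 12 = true ∧
    Pt.chE D tE09p2 K2_09p2 13 = true ∧
    Pt.chE D tE09p2 K2_09p2 14 = true ∧
    Pt.chE D tE09p2 K2_09p2 15 = true) := by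
  refine ⟨⟨?_, ?_, ?_, ?_⟩, ⟨?_, ?_, ?_, ?_⟩, ⟨?_, ?_, ?_, ?_⟩, ⟨?_, ?_, ?_, ?_⟩⟩ <;> decide +kernel

theorem r2_09p2 : ∀ τ < 16, Pt.chE D tE09p2 K2_09p2 τ = true :=
  Jv.Tabs.forall16 _ e09p2.1 e09p2.2.1 e09p2.2.2.1 e09p2.2.2.2

end Pool.Agent.Lib.MP_afdd4d_co.K10.RP
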