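import Pool.Agent.Lib.MP_afdd4d_co.K10.RN.Q00
import Pool.Agent.Lib.MP_afdd4d_co.K10.RP.Blk
import Pool.Agent.Lib.MP_afdd4d_co.K10.RP.E00
import Pool.Agent.Lib.MP_afdd4d_co.K10.RP.D00
import Pool.Agent.Lib.MP_afdd4d_co.K10.RP.E00p1
import Pool.Agent.Lib.MP_afdd4d_co.K10.RP.D00p1
import Pool.Agent.Lib.MP_afdd4d_co.K10.RP.Q00p1
import Pool.Agent.Lib.MP_afdd4d_co.K10.RP.W00
import Pool.Agent.Lib.MP_afdd4d_co.K10.RP.B00

/-!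
# The far pairs of the coset number 0
-/

namespace Pool.Agent.Lib.MP_afdd4d_co.K10.RP

open K8 K10.RS

theorem t00_0 : ∀ x < 1024, Pt.chT D (Jv.jsE K8.RN.E00.z 0) (tE00 0) (tK00 0) (tS00 0) x = true :=
  chT_of b00 (tE00 0) (tK00 0) (tS00 0) 0 0 rfl (by decide) (by decide +kernel)

theorem t00_1 : ∀ x < 1024, Pt.chT D (Jv.jsE K8.RN.E00.z 1) (tE00 1) (tK00 1) (tS00 1) x = true :=
  chT_of b00 (tE00 1) (tK00 1) (tS00 1) 0 1 rfl (by decide) (by decide +kernel)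

theorem t00_2 : ∀ x < 1024, Pt.chT D (Jv.jsE K8.RN.E00.z 2) (tE00 2) (tK00 2) (tS00 2) x = true :=
  chT_of b00 (tE00 2) (tK00 2) (tS00 2) 0 2 rfl (by decide) (by decide +kernel)

theorem t00_3 : ∀ x < 1024, Pt.chT D (Jv.jsE K8.RN.E00.z 3) (tE00 3) (tK00 3) (tS00 3) x = true :=
  chT_of b00 (tE00 3) (tK00 3) (tS00 3) 0 3 rfl (by decide) (by decide +kernel)

theorem t00_4 : ∀ x < 1024, Pt.chT D (Jv.jsE K8.RN.E00.z 4) (tE00 4) (tK00 4) (tS00 4) x = true :=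
  chT_of b00 (tE00 4) (tK00 4) (tS00 4) 0 4 rfl (by decide) (by decide +kernel)

theorem t00_5 : ∀ x < 1024, Pt.chT D (Jv.jsE K8.RN.E00.z 5) (tE00 5) (tK00 5) (tS00 5) x = true :=
  chT_of b00 (tE00 5) (tK00 5) (tS00 5) 0 5 rfl (by decide) (by decide +kernel)

theorem t00_6 : ∀ x < 1024, Pt.chT D (Jv.jsE K8.RN.E00.z 6) (tE00 6) (tK00 6) (tS00 6) x = true :=
  chT_of b00 (tE00 6) (tK00 6) (tS00 6) 0 6 rfl (by decide) (by decide +kernel)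

theorem c00 : Pt.chN D K K1_00 K2_00 K4_00 = true := by decide +kernel

theorem out00 : Pt.FarY S K8.RN.E00.g.c 7 (Pt.Out X00) :=
  Pt.farY_out D D_w K K_eq K8.RN.E00.g K8.RN.E00.z K8.RN.E00.hg (rep_mem 0 (by decide) rfl) X00 okE00 okK00 okS00 c00
    K10.RN.r1_00 r2_00 (Pt.forall7 _ t00_0 t00_1 t00_2 t00_3 t00_4 t00_5 t00_6) r4_00

theorem t00p1_0 : ∀ x < 1024, Pt.chT D (Jv.jsE K8.RN.E00.z 0) (tE00p1 0) (tK00p1 0) (tS00p1 0) x = true :=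
  chT_of b00 (tE00p1 0) (tK00p1 0) (tS00p1 0) 0 7 rfl (by decide) (by decide +kernel)

theorem t00p1_1 : ∀ x < 1024, Pt.chT D (Jv.jsE K8.RN.E00.z 1) (tE00p1 1) (tK00p1 1) (tS00p1 1) x = true :=
  chT_of b00 (tE00p1 1) (tK00p1 1) (tS00p1 1) 0 8 rfl (by decide) (by decide +kernel)

theorem t00p1_2 : ∀ x < 1024, Pt.chT D (Jv.jsE K8.RN.E00.z 2) (tE00p1 2) (tK00p1 2) (tS00p1 2) x = true :=
  chT_of b00 (tE00p1 2) (tK00p1 2) (tS00p1 2) 0 9 rfl (by decide) (by decide +kernel)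

theorem t00p1_3 : ∀ x < 1024, Pt.chT D (Jv.jsE K8.RN.E00.z 3) (tE00p1 3) (tK00p1 3) (tS00p1 3) x = true :=
  chT_of b00 (tE00p1 3) (tK00p1 3) (tS00p1 3) 0 10 rfl (by decide) (by decide +kernel)

theorem t00p1_4 : ∀ x < 1024, Pt.chT D (Jv.jsE K8.RN.E00.z 4) (tE00p1 4) (tK00p1 4) (tS00p1 4) x = true :=
  chT_of b00 (tE00p1 4) (tK00p1 4) (tS00p1 4) 0 11 rfl (by decide) (by decide +kernel)

theorem t00p1_5 : ∀ x < 1024, Pt.chT D (Jv.jsE K8.RN.E00.z 5) (tE00p1 5) (tK00p1 5) (tS00p1 5) x = true :=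
  chT_of b00 (tE00p1 5) (tK00p1 5) (tS00p1 5) 0 12 rfl (by decide) (by decide +kernel)

theorem t00p1_6 : ∀ x < 1024, Pt.chT D (Jv.jsE K8.RN.E00.z 6) (tE00p1 6) (tK00p1 6) (tS00p1 6) x = true :=
  chT_of b00 (tE00p1 6) (tK00p1 6) (tS00p1 6) 0 13 rfl (by decide) (by decide +kernel)

theorem c00p1 : Pt.chN D K K1_00p1 K2_00p1 K4_00p1 = true := by decide +kernel

theorem y00p1 : Pt.FarY S K8.RN.E00.g.c 7 (fun y => y ∈ Y00p1) :=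
  Pt.farY_lst D D_w K K_eq K8.RN.E00.g K8.RN.E00.z K8.RN.E00.hg (rep_mem 0 (by decide) rfl) Y00p1 okE00p1 okK00p1 okS00p1 c00p1
    r1_00p1 r2_00p1 (Pt.forall7 _ t00p1_0 t00p1_1 t00p1_2 t00p1_3 t00p1_4 t00p1_5 t00p1_6) r4_00p1

theorem x00p1 : ∀ l ∈ X00p1, Pt.FarY S K8.RN.E00.g.c 7 (fun y => y ∈ l) :=
  Pt.tr_spec w0_00 y00p1 (fun _ h => h) w00p1

theorem far00 : Pt.Far S K8.RN.E00.g.c 7 := Pt.far_of_out out00 x00p1

end Pool.Agent.Lib.MP_afdd4d_co.K10.RP
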