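import Pool.Agent.Lib.MP_afdd4d_co.K10.RN.Q09
import Pool.Agent.Lib.MP_afdd4d_co.K10.RP.Blk
import Pool.Agent.Lib.MP_afdd4d_co.K10.RP.E09
import Pool.Agent.Lib.MP_afdd4d_co.K10.RP.D09
import Pool.Agent.Lib.MP_afdd4d_co.K10.RP.E09p1
import Pool.Agent.Lib.MP_afdd4d_co.K10.RP.D09p1
import Pool.Agent.Lib.MP_afdd4d_co.K10.RP.Q09p1
import Pool.Agent.Lib.MP_afdd4d_co.K10.RP.E09p2
import Pool.Agent.Lib.MP_afdd4d_co.K10.RP.D09p2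
import Pool.Agent.Lib.MP_afdd4d_co.K10.RP.Q09p2
import Pool.Agent.Lib.MP_afdd4d_co.K10.RP.E09p3
import Pool.Agent.Lib.MP_afdd4d_co.K10.RP.D09p3
import Pool.Agent.Lib.MP_afdd4d_co.K10.RP.Q09p3
import Pool.Agent.Lib.MP_afdd4d_co.K10.RP.W09
import Pool.Agent.Lib.MP_afdd4d_co.K10.RP.B02
import Pool.Agent.Lib.MP_afdd4d_co.K10.RP.B03
import Pool.Agent.Lib.MP_afdd4d_co.K10.RP.B06
import Pool.Agent.Lib.MP_afdd4d_co.K10.RP.B11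
import Pool.Agent.Lib.MP_afdd4d_co.K10.RP.B14
import Pool.Agent.Lib.MP_afdd4d_co.K10.RP.B15
import Pool.Agent.Lib.MP_afdd4d_co.K10.RP.B29
import Pool.Agent.Lib.MP_afdd4d_co.K10.RP.B30

/-!
# The far pairs of the coset number 9
-/

namespace Pool.Agent.Lib.MP_afdd4d_co.K10.RP

open K8 K10.RS

theorem t09_0 : ∀ x < 1024, Pt.chT D (Jv.jsE K8.RN.E09.z 0) (tE09 0) (tK09 0) (tS09 0) x = true :=
  chT_of b30 (tE09 0) (tK09 0) (tS09 0) 1 0 rfl (by decide) (by decide +kernel)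

theorem t09_1 : ∀ x < 1024, Pt.chT D (Jv.jsE K8.RN.E09.z 1) (tE09 1) (tK09 1) (tS09 1) x = true :=
  chT_of b02 (tE09 1) (tK09 1) (tS09 1) 0 18 rfl (by decide) (by decide +kernel)

theorem t09_2 : ∀ x < 1024, Pt.chT D (Jv.jsE K8.RN.E09.z 2) (tE09 2) (tK09 2) (tS09 2) x = true :=
  chT_of b06 (tE09 2) (tK09 2) (tS09 2) 0 5 rfl (by decide) (by decide +kernel)

theorem t09_3 : ∀ x < 1024, Pt.chT D (Jv.jsE K8.RN.E09.z 3) (tE09 3) (tK09 3) (tS09 3) x = true :=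
  chT_of b06 (tE09 3) (tK09 3) (tS09 3) 0 6 rfl (by decide) (by decide +kernel)

theorem t09_4 : ∀ x < 1024, Pt.chT D (Jv.jsE K8.RN.E09.z 4) (tE09 4) (tK09 4) (tS09 4) x = true :=
  chT_of b11 (tE09 4) (tK09 4) (tS09 4) 0 19 rfl (by decide) (by decide +kernel)

theorem t09_5 : ∀ x < 1024, Pt.chT D (Jv.jsE K8.RN.E09.z 5) (tE09 5) (tK09 5) (tS09 5) x = true :=
  chT_of b14 (tE09 5) (tK09 5) (tS09 5) 0 11 rfl (by decide) (by decide +kernel)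

theorem t09_6 : ∀ x < 1024, Pt.chT D (Jv.jsE K8.RN.E09.z 6) (tE09 6) (tK09 6) (tS09 6) x = true :=
  chT_of b29 (tE09 6) (tK09 6) (tS09 6) 0 0 rfl (by decide) (by decide +kernel)

theorem c09 : Pt.chN D K K1_09 K2_09 K4_09 = true := by decide +kernel

theorem out09 : Pt.FarY S K8.RN.E09.g.c 7 (Pt.Out X09) :=
  Pt.farY_out D D_w K K_eq K8.RN.E09.g K8.RN.E09.z K8.RN.E09.hg (rep_mem 9 (by decide) rfl) X09 okE09 okK09 okS09 c09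
    K10.RN.r1_09 r2_09 (Pt.forall7 _ t09_0 t09_1 t09_2 t09_3 t09_4 t09_5 t09_6) r4_09

theorem t09p1_0 : ∀ x < 1024, Pt.chT D (Jv.jsE K8.RN.E09.z 0) (tE09p1 0) (tK09p1 0) (tS09p1 0) x = true :=
  chT_of b30 (tE09p1 0) (tK09p1 0) (tS09p1 0) 1 1 rfl (by decide) (by decide +kernel)

theorem t09p1_1 : ∀ x < 1024, Pt.chT D (Jv.jsE K8.RN.E09.z 1) (tE09p1 1) (tK09p1 1) (tS09p1 1) x = true :=
  chT_of b03 (tE09p1 1) (tK09p1 1) (tS09p1 1) 0 0 rfl (by decide) (by decide +kernel)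

theorem t09p1_2 : ∀ x < 1024, Pt.chT D (Jv.jsE K8.RN.E09.z 2) (tE09p1 2) (tK09p1 2) (tS09p1 2) x = true :=
  chT_of b06 (tE09p1 2) (tK09p1 2) (tS09p1 2) 0 7 rfl (by decide) (by decide +kernel)

theorem t09p1_3 : ∀ x < 1024, Pt.chT D (Jv.jsE K8.RN.E09.z 3) (tE09p1 3) (tK09p1 3) (tS09p1 3) x = true :=
  chT_of b06 (tE09p1 3) (tK09p1 3) (tS09p1 3) 0 8 rfl (by decide) (by decide +kernel)

theorem t09p1_4 : ∀ x < 1024, Pt.chT D (Jv.jsE K8.RN.E09.z 4) (tE09p1 4) (tK09p1 4) (tS09p1 4) x = true :=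
  chT_of b11 (tE09p1 4) (tK09p1 4) (tS09p1 4) 0 20 rfl (by decide) (by decide +kernel)

theorem t09p1_5 : ∀ x < 1024, Pt.chT D (Jv.jsE K8.RN.E09.z 5) (tE09p1 5) (tK09p1 5) (tS09p1 5) x = true :=
  chT_of b14 (tE09p1 5) (tK09p1 5) (tS09p1 5) 0 12 rfl (by decide) (by decide +kernel)

theorem t09p1_6 : ∀ x < 1024, Pt.chT D (Jv.jsE K8.RN.E09.z 6) (tE09p1 6) (tK09p1 6) (tS09p1 6) x = true :=
  chT_of b29 (tE09p1 6) (tK09p1 6) (tS09p1 6) 0 1 rfl (by decide) (by decide +kernel)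

theorem c09p1 : Pt.chN D K K1_09p1 K2_09p1 K4_09p1 = true := by decide +kernel

theorem y09p1 : Pt.FarY S K8.RN.E09.g.c 7 (fun y => y ∈ Y09p1) :=
  Pt.farY_lst D D_w K K_eq K8.RN.E09.g K8.RN.E09.z K8.RN.E09.hg (rep_mem 9 (by decide) rfl) Y09p1 okE09p1 okK09p1 okS09p1 c09p1
    r1_09p1 r2_09p1 (Pt.forall7 _ t09p1_0 t09p1_1 t09p1_2 t09p1_3 t09p1_4 t09p1_5 t09p1_6) r4_09p1

theorem x09p1 : ∀ l ∈ X09p1, Pt.FarY S K8.RN.E09.g.c 7 (fun y => y ∈ l) :=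
  Pt.tr_spec w0_09 y09p1 (fun _ h => h) w09p1

theorem t09p2_0 : ∀ x < 1024, Pt.chT D (Jv.jsE K8.RN.E09.z 0) (tE09p2 0) (tK09p2 0) (tS09p2 0) x = true :=
  chT_of b30 (tE09p2 0) (tK09p2 0) (tS09p2 0) 1 2 rfl (by decide) (by decide +kernel)

theorem t09p2_1 : ∀ x < 1024, Pt.chT D (Jv.jsE K8.RN.E09.z 1) (tE09p2 1) (tK09p2 1) (tS09p2 1) x = true :=
  chT_of b03 (tE09p2 1) (tK09p2 1) (tS09p2 1) 0 1 rfl (by decide) (by decide +kernel)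

theorem t09p2_2 : ∀ x < 1024, Pt.chT D (Jv.jsE K8.RN.E09.z 2) (tE09p2 2) (tK09p2 2) (tS09p2 2) x = true :=
  chT_of b06 (tE09p2 2) (tK09p2 2) (tS09p2 2) 0 9 rfl (by decide) (by decide +kernel)

theorem t09p2_3 : ∀ x < 1024, Pt.chT D (Jv.jsE K8.RN.E09.z 3) (tE09p2 3) (tK09p2 3) (tS09p2 3) x = true :=
  chT_of b06 (tE09p2 3) (tK09p2 3) (tS09p2 3) 0 10 rfl (by decide) (by decide +kernel)

theorem t09p2_4 : ∀ x < 1024, Pt.chT D (Jv.jsE K8.RN.E09.z 4) (tE09p2 4) (tK09p2 4) (tS09p2 4) x = true :=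
  chT_of b11 (tE09p2 4) (tK09p2 4) (tS09p2 4) 0 21 rfl (by decide) (by decide +kernel)

theorem t09p2_5 : ∀ x < 1024, Pt.chT D (Jv.jsE K8.RN.E09.z 5) (tE09p2 5) (tK09p2 5) (tS09p2 5) x = true :=
  chT_of b14 (tE09p2 5) (tK09p2 5) (tS09p2 5) 0 13 rfl (by decide) (by decide +kernel)

theorem t09p2_6 : ∀ x < 1024, Pt.chT D (Jv.jsE K8.RN.E09.z 6) (tE09p2 6) (tK09p2 6) (tS09p2 6) x = true :=
  chT_of b29 (tE09p2 6) (tK09p2 6) (tS09p2 6) 0 2 rfl (by decide) (by decide +kernel)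

theorem c09p2 : Pt.chN D K K1_09p2 K2_09p2 K4_09p2 = true := by decide +kernel

theorem y09p2 : Pt.FarY S K8.RN.E09.g.c 7 (fun y => y ∈ Y09p2) :=
  Pt.farY_lst D D_w K K_eq K8.RN.E09.g K8.RN.E09.z K8.RN.E09.hg (rep_mem 9 (by decide) rfl) Y09p2 okE09p2 okK09p2 okS09p2 c09p2
    r1_09p2 r2_09p2 (Pt.forall7 _ t09p2_0 t09p2_1 t09p2_2 t09p2_3 t09p2_4 t09p2_5 t09p2_6) r4_09p2

theorem x09p2 : ∀ l ∈ X09p2, Pt.FarY S K8.RN.E09.g.c 7 (fun y => y ∈ l) :=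
  Pt.tr_spec w0_09 y09p2 (fun _ h => h) w09p2

theorem t09p3_0 : ∀ x < 1024, Pt.chT D (Jv.jsE K8.RN.E09.z 0) (tE09p3 0) (tK09p3 0) (tS09p3 0) x = true :=
  chT_of b30 (tE09p3 0) (tK09p3 0) (tS09p3 0) 1 3 rfl (by decide) (by decide +kernel)

theorem t09p3_1 : ∀ x < 1024, Pt.chT D (Jv.jsE K8.RN.E09.z 1) (tE09p3 1) (tK09p3 1) (tS09p3 1) x = true :=
  chT_of b03 (tE09p3 1) (tK09p3 1) (tS09p3 1) 0 2 rfl (by decide) (by decide +kernel)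

theorem t09p3_2 : ∀ x < 1024, Pt.chT D (Jv.jsE K8.RN.E09.z 2) (tE09p3 2) (tK09p3 2) (tS09p3 2) x = true :=
  chT_of b06 (tE09p3 2) (tK09p3 2) (tS09p3 2) 0 11 rfl (by decide) (by decide +kernel)

theorem t09p3_3 : ∀ x < 1024, Pt.chT D (Jv.jsE K8.RN.E09.z 3) (tE09p3 3) (tK09p3 3) (tS09p3 3) x = true :=
  chT_of b06 (tE09p3 3) (tK09p3 3) (tS09p3 3) 0 12 rfl (by decide) (by decide +kernel)

theorem t09p3_4 : ∀ x < 1024, Pt.chT D (Jv.jsE K8.RN.E09.z 4) (tE09p3 4) (tK09p3 4) (tS09p3 4) x = true :=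
  chT_of b11 (tE09p3 4) (tK09p3 4) (tS09p3 4) 0 22 rfl (by decide) (by decide +kernel)

theorem t09p3_5 : ∀ x < 1024, Pt.chT D (Jv.jsE K8.RN.E09.z 5) (tE09p3 5) (tK09p3 5) (tS09p3 5) x = true :=
  chT_of b15 (tE09p3 5) (tK09p3 5) (tS09p3 5) 0 0 rfl (by decide) (by decide +kernel)

theorem t09p3_6 : ∀ x < 1024, Pt.chT D (Jv.jsE K8.RN.E09.z 6) (tE09p3 6) (tK09p3 6) (tS09p3 6) x = true :=
  chT_of b29 (tE09p3 6) (tK09p3 6) (tS09p3 6) 0 3 rfl (by decide) (by decide +kernel)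

theorem c09p3 : Pt.chN D K K1_09p3 K2_09p3 K4_09p3 = true := by decide +kernel

theorem y09p3 : Pt.FarY S K8.RN.E09.g.c 7 (fun y => y ∈ Y09p3) :=
  Pt.farY_lst D D_w K K_eq K8.RN.E09.g K8.RN.E09.z K8.RN.E09.hg (rep_mem 9 (by decide) rfl) Y09p3 okE09p3 okK09p3 okS09p3 c09p3
    r1_09p3 r2_09p3 (Pt.forall7 _ t09p3_0 t09p3_1 t09p3_2 t09p3_3 t09p3_4 t09p3_5 t09p3_6) r4_09p3

theorem x09p3 : ∀ l ∈ X09p3, Pt.FarY S K8.RN.E09.g.c 7 (fun y => y ∈ l) :=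
  Pt.tr_spec w0_09 y09p3 (fun _ h => h) w09p3

theorem far09 : Pt.Far S K8.RN.E09.g.c 7 := Pt.far_of_out out09 (Pt.farY_all (Pt.farY_all x09p1 x09p2) x09p3)

end Pool.Agent.Lib.MP_afdd4d_co.K10.RP
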