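import Pool.Agent.Lib.MP_afdd4d_co.K10.RP.X19
import Pool.Agent.Lib.MP_afdd4d_co.K8.RN.E19
import Pool.Agent.Lib.MP_afdd4d_co.K10.RP.T19p1
import Pool.Agent.Lib.MP_afdd4d_co.K10.RP.T19p2

/-!
# The equivalences of the coset number 19
-/

namespace Pool.Agent.Lib.MP_afdd4d_co.K10.RP

open K8

set_option maxRecDepth 100000

theorem w0_19 : Pt.c0 K8.RN.E19.g.c = true := by decide +kernel

/-- The permutations of the part 1. -/
def P19p1 : List (List ℕ) := [
  [1754760, 1754704],
  [1754760, 1754704, 178318, 178262],
  [1754760, 178318],
  [1754760, 1754704, 178318, 178262],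
  [1754760, 178318],
  [1754760, 178318],
  [1754760, 178318],
  [1754760, 1754704, 178318, 178262],
  [1754760, 178318],
  [1754760, 178318],
  [1754760, 1754704, 178318, 178262],
  [1754760, 1754704, 178318, 178262],
  [1754760, 1754704, 178318, 178262],
  [1754760, 1754704, 178318, 178262],
  [1754760, 1754704, 178318, 178262],
  [1754760, 1754704, 178318, 178262],
  [1754760, 178318],
  [1754760, 178318],
  [1754760, 178318],
  [1754760, 1754704, 178318, 178262],
  [1754760, 1754704, 178318, 178262],
  [1754760, 1754704, 178318, 178262],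
  [1754760, 1754704, 178318, 178262],
  [1754760, 1754704, 178318, 178262],
  [1754760, 1754704, 178318, 178262],
  [1754760, 1754704, 178318, 178262],
  [1754760, 178318],
  [1754760, 178318],
  [1754760, 1754704, 178318, 178262],
  [1754760, 178318],
  [1754760, 1754704],
  [1754760, 1754704, 178318, 178262],
  [1754760, 1754704],
  [1754760, 1754704, 178318, 178262],
  [1754760, 1754704, 178318, 178262],
  [1754760, 1754704, 178318, 178262],
  [1754760, 1754704, 178318, 178262],
  [1754760, 1754704, 178318, 178262],
  [1754760, 178318],
  [1754760, 178318],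
  [1754760, 178318],
  [1754760, 178318],
  [1754760, 1754704, 178318, 178262],
  [1754760, 178318],
  [1754760, 1754704, 178318, 178262],
  [1754760, 1754704, 178318, 178262],
  [1754760, 1754704, 178318, 178262],
  [1754760, 1754704, 178318, 178262],
  [1754760, 1754704, 178318, 178262],
  [1754760, 1754704, 178318, 178262],
  [1754760, 1754704, 178318, 178262],
  [1754760, 1754704, 178318, 178262],
  [1754760, 1754704, 178318, 178262],
  [1754760, 1754704, 178318, 178262],
  [1754760, 1754704],
  [1754760],
  [1754760, 1754704, 178318, 178262],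
  [1754760, 178318],
  [1754760, 178318],
  [1754760, 178318],
  [1754760, 1754704, 178318, 178262],
  [1754760, 1754704, 178318, 178262],
  [1754760, 1754704, 178318, 178262],
  [1754760, 1754704, 178318, 178262]]

theorem w19p1 : Pt.tr K8.RN.E19.g.c Y19p1 X19p1 P19p1 = true := by decide +kernel

/-- The permutations of the part 2. -/
def P19p2 : List (List ℕ) := [
  [1754760, 1754704, 178318, 178262],
  [1754760, 1754704, 178318, 178262],
  [1754760, 1754704, 178318, 178262],
  [1754760, 1754704, 178318, 178262],
  [1754760, 1754704, 178318, 178262],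
  [1754760, 1754704, 178318, 178262],
  [1754760, 1754704, 178318, 178262],
  [1754760, 1754704, 178318, 178262],
  [1754760, 1754704, 178318, 178262]]

theorem w19p2 : Pt.tr K8.RN.E19.g.c Y19p2 X19p2 P19p2 = true := by decide +kernel

end Pool.Agent.Lib.MP_afdd4d_co.K10.RP
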