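import Pool.Agent.Lib.MP_afdd4d_co.K10.RN.Q19
import Pool.Agent.Lib.MP_afdd4d_co.K10.RP.Blk
import Pool.Agent.Lib.MP_afdd4d_co.K10.RP.E19
import Pool.Agent.Lib.MP_afdd4d_co.K10.RP.D19
import Pool.Agent.Lib.MP_afdd4d_co.K10.RP.E19p1
import Pool.Agent.Lib.MP_afdd4d_co.K10.RP.D19p1
import Pool.Agent.Lib.MP_afdd4d_co.K10.RP.Q19p1
import Pool.Agent.Lib.MP_afdd4d_co.K10.RP.E19p2
import Pool.Agent.Lib.MP_afdd4d_co.K10.RP.D19p2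
import Pool.Agent.Lib.MP_afdd4d_co.K10.RP.Q19p2
import Pool.Agent.Lib.MP_afdd4d_co.K10.RP.W19
import Pool.Agent.Lib.MP_afdd4d_co.K10.RP.B08
import Pool.Agent.Lib.MP_afdd4d_co.K10.RP.B13
import Pool.Agent.Lib.MP_afdd4d_co.K10.RP.B15
import Pool.Agent.Lib.MP_afdd4d_co.K10.RP.B18
import Pool.Agent.Lib.MP_afdd4d_co.K10.RP.B41
import Pool.Agent.Lib.MP_afdd4d_co.K10.RP.B43

/-!
# The far pairs of the coset number 19
-/

namespace Pool.Agent.Lib.MP_afdd4d_co.K10.RP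

open K8 K10.RS

theorem t19_0 : ∀ x < 1024, Pt.chT D (Jv.jsE K8.RN.E19.z 0) (tE19 0) (tK19 0) (tS19 0) x = true :=
  chT_of b43 (tE19 0) (tK19 0) (tS19 0) 3 2 rfl (by decide) (by decide +kernel)

theorem t19_1 : ∀ x < 1024, Pt.chT D (Jv.jsE K8.RN.E19.z 1) (tE19 1) (tK19 1) (tS19 1) x = true :=
  chT_of b08 (tE19 1) (tK19 1) (tS19 1) 0 8 rfl (by decide) (by decide +kernel)

theorem t19_2 : ∀ x < 1024, Pt.chT D (Jv.jsE K8.RN.E19.z 2) (tE19 2) (tK19 2) (tS19 2) x = true :=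
  chT_of b08 (tE19 2) (tK19 2) (tS19 2) 0 9 rfl (by decide) (by decide +kernel)

theorem t19_3 : ∀ x < 1024, Pt.chT D (Jv.jsE K8.RN.E19.z 3) (tE19 3) (tK19 3) (tS19 3) x = true :=
  chT_of b13 (tE19 3) (tK19 3) (tS19 3) 0 2 rfl (by decide) (by decide +kernel)

theorem t19_4 : ∀ x < 1024, Pt.chT D (Jv.jsE K8.RN.E19.z 4) (tE19 4) (tK19 4) (tS19 4) x = true :=
  chT_of b15 (tE19 4) (tK19 4) (tS19 4) 0 8 rfl (by decide) (by decide +kernel)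

theorem t19_5 : ∀ x < 1024, Pt.chT D (Jv.jsE K8.RN.E19.z 5) (tE19 5) (tK19 5) (tS19 5) x = true :=
  chT_of b18 (tE19 5) (tK19 5) (tS19 5) 0 15 rfl (by decide) (by decide +kernel)

theorem t19_6 : ∀ x < 1024, Pt.chT D (Jv.jsE K8.RN.E19.z 6) (tE19 6) (tK19 6) (tS19 6) x = true :=
  chT_of b41 (tE19 6) (tK19 6) (tS19 6) 0 0 rfl (by decide) (by decide +kernel)

theorem c19 : Pt.chN D K K1_19 K2_19 K4_19 = true := by decide +kernel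

theorem out19 : Pt.FarY S K8.RN.E19.g.c 7 (Pt.Out X19) :=
  Pt.farY_out D D_w K K_eq K8.RN.E19.g K8.RN.E19.z K8.RN.E19.hg (rep_mem 19 (by decide) rfl) X19 okE19 okK19 okS19 c19
    K10.RN.r1_19 r2_19 (Pt.forall7 _ t19_0 t19_1 t19_2 t19_3 t19_4 t19_5 t19_6) r4_19

theorem t19p1_0 : ∀ x < 1024, Pt.chT D (Jv.jsE K8.RN.E19.z 0) (tE19p1 0) (tK19p1 0) (tS19p1 0) x = true :=
  chT_of b43 (tE19p1 0) (tK19p1 0) (tS19p1 0) 3 3 rfl (by decide) (by decide +kernel)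

theorem t19p1_1 : ∀ x < 1024, Pt.chT D (Jv.jsE K8.RN.E19.z 1) (tE19p1 1) (tK19p1 1) (tS19p1 1) x = true :=
  chT_of b08 (tE19p1 1) (tK19p1 1) (tS19p1 1) 0 10 rfl (by decide) (by decide +kernel)

theorem t19p1_2 : ∀ x < 1024, Pt.chT D (Jv.jsE K8.RN.E19.z 2) (tE19p1 2) (tK19p1 2) (tS19p1 2) x = true :=
  chT_of b08 (tE19p1 2) (tK19p1 2) (tS19p1 2) 0 11 rfl (by decide) (by decide +kernel)

theorem t19p1_3 : ∀ x < 1024, Pt.chT D (Jv.jsE K8.RN.E19.z 3) (tE19p1 3) (tK19p1 3) (tS19p1 3) x = true :=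
  chT_of b13 (tE19p1 3) (tK19p1 3) (tS19p1 3) 0 3 rfl (by decide) (by decide +kernel)

theorem t19p1_4 : ∀ x < 1024, Pt.chT D (Jv.jsE K8.RN.E19.z 4) (tE19p1 4) (tK19p1 4) (tS19p1 4) x = true :=
  chT_of b15 (tE19p1 4) (tK19p1 4) (tS19p1 4) 0 9 rfl (by decide) (by decide +kernel)

theorem t19p1_5 : ∀ x < 1024, Pt.chT D (Jv.jsE K8.RN.E19.z 5) (tE19p1 5) (tK19p1 5) (tS19p1 5) x = true :=
  chT_of b18 (tE19p1 5) (tK19p1 5) (tS19p1 5) 0 16 rfl (by decide) (by decide +kernel)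

theorem t19p1_6 : ∀ x < 1024, Pt.chT D (Jv.jsE K8.RN.E19.z 6) (tE19p1 6) (tK19p1 6) (tS19p1 6) x = true :=
  chT_of b41 (tE19p1 6) (tK19p1 6) (tS19p1 6) 0 1 rfl (by decide) (by decide +kernel)

theorem c19p1 : Pt.chN D K K1_19p1 K2_19p1 K4_19p1 = true := by decide +kernel

theorem y19p1 : Pt.FarY S K8.RN.E19.g.c 7 (fun y => y ∈ Y19p1) :=
  Pt.farY_lst D D_w K K_eq K8.RN.E19.g K8.RN.E19.z K8.RN.E19.hg (rep_mem 19 (by decide) rfl) Y19p1 okE19p1 okK19p1 okS19p1 c19p1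
    r1_19p1 r2_19p1 (Pt.forall7 _ t19p1_0 t19p1_1 t19p1_2 t19p1_3 t19p1_4 t19p1_5 t19p1_6) r4_19p1

theorem x19p1 : ∀ l ∈ X19p1, Pt.FarY S K8.RN.E19.g.c 7 (fun y => y ∈ l) :=
  Pt.tr_spec w0_19 y19p1 (fun _ h => h) w19p1

theorem t19p2_0 : ∀ x < 1024, Pt.chT D (Jv.jsE K8.RN.E19.z 0) (tE19p2 0) (tK19p2 0) (tS19p2 0) x = true :=
  chT_of b43 (tE19p2 0) (tK19p2 0) (tS19p2 0) 3 4 rfl (by decide) (by decide +kernel)

theorem t19p2_1 : ∀ x < 1024, Pt.chT D (Jv.jsE K8.RN.E19.z 1) (tE19p2 1) (tK19p2 1) (tS19p2 1) x = true :=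
  chT_of b08 (tE19p2 1) (tK19p2 1) (tS19p2 1) 0 12 rfl (by decide) (by decide +kernel)

theorem t19p2_2 : ∀ x < 1024, Pt.chT D (Jv.jsE K8.RN.E19.z 2) (tE19p2 2) (tK19p2 2) (tS19p2 2) x = true :=
  chT_of b08 (tE19p2 2) (tK19p2 2) (tS19p2 2) 0 13 rfl (by decide) (by decide +kernel)

theorem t19p2_3 : ∀ x < 1024, Pt.chT D (Jv.jsE K8.RN.E19.z 3) (tE19p2 3) (tK19p2 3) (tS19p2 3) x = true :=
  chT_of b13 (tE19p2 3) (tK19p2 3) (tS19p2 3) 0 4 rfl (by decide) (by decide +kernel)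

theorem t19p2_4 : ∀ x < 1024, Pt.chT D (Jv.jsE K8.RN.E19.z 4) (tE19p2 4) (tK19p2 4) (tS19p2 4) x = true :=
  chT_of b15 (tE19p2 4) (tK19p2 4) (tS19p2 4) 0 10 rfl (by decide) (by decide +kernel)

theorem t19p2_5 : ∀ x < 1024, Pt.chT D (Jv.jsE K8.RN.E19.z 5) (tE19p2 5) (tK19p2 5) (tS19p2 5) x = true :=
  chT_of b18 (tE19p2 5) (tK19p2 5) (tS19p2 5) 0 17 rfl (by decide) (by decide +kernel)

theorem t19p2_6 : ∀ x < 1024, Pt.chT D (Jv.jsE K8.RN.E19.z 6) (tE19p2 6) (tK19p2 6) (tS19p2 6) x = true :=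
  chT_of b41 (tE19p2 6) (tK19p2 6) (tS19p2 6) 0 2 rfl (by decide) (by decide +kernel)

theorem c19p2 : Pt.chN D K K1_19p2 K2_19p2 K4_19p2 = true := by decide +kernel

theorem y19p2 : Pt.FarY S K8.RN.E19.g.c 7 (fun y => y ∈ Y19p2) :=
  Pt.farY_lst D D_w K K_eq K8.RN.E19.g K8.RN.E19.z K8.RN.E19.hg (rep_mem 19 (by decide) rfl) Y19p2 okE19p2 okK19p2 okS19p2 c19p2
    r1_19p2 r2_19p2 (Pt.forall7 _ t19p2_0 t19p2_1 t19p2_2 t19p2_3 t19p2_4 t19p2_5 t19p2_6) r4_19p2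

theorem x19p2 : ∀ l ∈ X19p2, Pt.FarY S K8.RN.E19.g.c 7 (fun y => y ∈ l) :=
  Pt.tr_spec w0_19 y19p2 (fun _ h => h) w19p2

theorem far19 : Pt.Far S K8.RN.E19.g.c 7 := Pt.far_of_out out19 (Pt.farY_all x19p1 x19p2)

end Pool.Agent.Lib.MP_afdd4d_co.K10.RP
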