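import Pool.Agent.Lib.MP_afdd4d_co.K10.RP.X29
import Pool.Agent.Lib.MP_afdd4d_co.K8.RN.E29
import Pool.Agent.Lib.MP_afdd4d_co.K10.RP.T29p1
import Pool.Agent.Lib.MP_afdd4d_co.K10.RP.T29p2
import Pool.Agent.Lib.MP_afdd4d_co.K10.RP.T29p3

/-!
# The equivalences of the coset number 29
-/

namespace Pool.Agent.Lib.MP_afdd4d_co.K10.RP

open K8

set_option maxRecDepth 100000

theorem w0_29 : Pt.c0 K8.RN.E29.g.c = true := by decide +kernel

/-- The permutations of the part 1. -/
def P29p1 : List (List ℕ) := [
  [1754760, 1521744],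
  [1754760, 1521744],
  [1754760, 1521744],
  [1754760, 1521744],
  [1754760, 1521744],
  [1754760, 1521744],
  [1754760, 1521744],
  [1754760, 1521744],
  [1754760, 1521744],
  [1754760, 1521744],
  [1754760, 1521744],
  [1754760, 1521744],
  [1754760, 1521744],
  [1754760, 1521744],
  [1754760, 1521744],
  [1754760, 1521744],
  [1754760, 1521744],
  [1754760, 1521744],
  [1754760, 1521744],
  [1754760, 1521744],
  [1754760, 1521744],
  [1754760, 1521744],
  [1754760, 1521744],
  [1754760, 1521744],
  [1754760, 1521744],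
  [1754760],
  [1754760],
  [1754760],
  [1754760, 1521744],
  [1754760, 1521744],
  [1754760, 1521744],
  [1754760, 1521744]]

theorem w29p1 : Pt.tr K8.RN.E29.g.c Y29p1 X29p1 P29p1 = true := by decide +kernel

/-- The permutations of the part 2. -/
def P29p2 : List (List ℕ) := [
  [1754760, 1521744],
  [1754760, 1521744],
  [1754760, 1521744],
  [1754760, 1521744],
  [1754760, 1521744],
  [1754760, 1521744],
  [1754760, 1521744],
  [1754760, 1521744],
  [1754760, 1521744],
  [1754760, 1521744],
  [1754760, 1521744],
  [1754760, 1521744],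
  [1754760, 1521744],
  [1754760, 1521744],
  [1754760, 1521744],
  [1754760, 1521744],
  [1754760, 1521744],
  [1754760, 1521744],
  [1754760, 1521744],
  [1754760, 1521744],
  [1754760, 1521744],
  [1754760, 1521744],
  [1754760, 1521744],
  [1754760, 1521744],
  [1754760, 1521744],
  [1754760, 1521744],
  [1754760, 1521744],
  [1754760, 1521744],
  [1754760, 1521744],
  [1754760, 1521744],
  [1754760, 1521744],
  [1754760, 1521744]]

theorem w29p2 : Pt.tr K8.RN.E29.g.c Y29p2 X29p2 P29p2 = true := by decide +kernel

/-- The permutations of the part 3. -/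
def P29p3 : List (List ℕ) := [
  [1754760, 1521744],
  [1754760, 1521744],
  [1754760, 1521744],
  [1754760, 1521744],
  [1754760, 1521744],
  [1754760, 1521744],
  [1754760, 1521744]]

theorem w29p3 : Pt.tr K8.RN.E29.g.c Y29p3 X29p3 P29p3 = true := by decide +kernel

end Pool.Agent.Lib.MP_afdd4d_co.K10.RP
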