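import Pool.Agent.Lib.MP_afdd4d_co.K10.RN.Q29
import Pool.Agent.Lib.MP_afdd4d_co.K10.RP.Blk
import Pool.Agent.Lib.MP_afdd4d_co.K10.RP.E29
import Pool.Agent.Lib.MP_afdd4d_co.K10.RP.D29
import Pool.Agent.Lib.MP_afdd4d_co.K10.RP.E29p1
import Pool.Agent.Lib.MP_afdd4d_co.K10.RP.D29p1
import Pool.Agent.Lib.MP_afdd4d_co.K10.RP.Q29p1
import Pool.Agent.Lib.MP_afdd4d_co.K10.RP.E29p2
import Pool.Agent.Lib.MP_afdd4d_co.K10.RP.D29p2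
import Pool.Agent.Lib.MP_afdd4d_co.K10.RP.Q29p2
import Pool.Agent.Lib.MP_afdd4d_co.K10.RP.E29p3
import Pool.Agent.Lib.MP_afdd4d_co.K10.RP.D29p3
import Pool.Agent.Lib.MP_afdd4d_co.K10.RP.Q29p3
import Pool.Agent.Lib.MP_afdd4d_co.K10.RP.W29
import Pool.Agent.Lib.MP_afdd4d_co.K10.RP.B09
import Pool.Agent.Lib.MP_afdd4d_co.K10.RP.B13
import Pool.Agent.Lib.MP_afdd4d_co.K10.RP.B17
import Pool.Agent.Lib.MP_afdd4d_co.K10.RP.B19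
import Pool.Agent.Lib.MP_afdd4d_co.K10.RP.B27
import Pool.Agent.Lib.MP_afdd4d_co.K10.RP.B36
import Pool.Agent.Lib.MP_afdd4d_co.K10.RP.B40

/-!
# The far pairs of the coset number 29
-/

namespace Pool.Agent.Lib.MP_afdd4d_co.K10.RP

open K8 K10.RS

theorem t29_0 : ∀ x < 1024, Pt.chT D (Jv.jsE K8.RN.E29.z 0) (tE29 0) (tK29 0) (tS29 0) x = true :=
  chT_of b40 (tE29 0) (tK29 0) (tS29 0) 21 8 rfl (by decide) (by decide +kernel)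

theorem t29_1 : ∀ x < 1024, Pt.chT D (Jv.jsE K8.RN.E29.z 1) (tE29 1) (tK29 1) (tS29 1) x = true :=
  chT_of b09 (tE29 1) (tK29 1) (tS29 1) 0 14 rfl (by decide) (by decide +kernel)

theorem t29_2 : ∀ x < 1024, Pt.chT D (Jv.jsE K8.RN.E29.z 2) (tE29 2) (tK29 2) (tS29 2) x = true :=
  chT_of b13 (tE29 2) (tK29 2) (tS29 2) 0 14 rfl (by decide) (by decide +kernel)

theorem t29_3 : ∀ x < 1024, Pt.chT D (Jv.jsE K8.RN.E29.z 3) (tE29 3) (tK29 3) (tS29 3) x = true :=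
  chT_of b17 (tE29 3) (tK29 3) (tS29 3) 0 11 rfl (by decide) (by decide +kernel)

theorem t29_4 : ∀ x < 1024, Pt.chT D (Jv.jsE K8.RN.E29.z 4) (tE29 4) (tK29 4) (tS29 4) x = true :=
  chT_of b19 (tE29 4) (tK29 4) (tS29 4) 0 11 rfl (by decide) (by decide +kernel)

theorem t29_5 : ∀ x < 1024, Pt.chT D (Jv.jsE K8.RN.E29.z 5) (tE29 5) (tK29 5) (tS29 5) x = true :=
  chT_of b27 (tE29 5) (tK29 5) (tS29 5) 0 7 rfl (by decide) (by decide +kernel)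

theorem t29_6 : ∀ x < 1024, Pt.chT D (Jv.jsE K8.RN.E29.z 6) (tE29 6) (tK29 6) (tS29 6) x = true :=
  chT_of b36 (tE29 6) (tK29 6) (tS29 6) 0 0 rfl (by decide) (by decide +kernel)

theorem c29 : Pt.chN D K K1_29 K2_29 K4_29 = true := by decide +kernel

theorem out29 : Pt.FarY S K8.RN.E29.g.c 7 (Pt.Out X29) :=
  Pt.farY_out D D_w K K_eq K8.RN.E29.g K8.RN.E29.z K8.RN.E29.hg (rep_mem 29 (by decide) rfl) X29 okE29 okK29 okS29 c29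
    K10.RN.r1_29 r2_29 (Pt.forall7 _ t29_0 t29_1 t29_2 t29_3 t29_4 t29_5 t29_6) r4_29

theorem t29p1_0 : ∀ x < 1024, Pt.chT D (Jv.jsE K8.RN.E29.z 0) (tE29p1 0) (tK29p1 0) (tS29p1 0) x = true :=
  chT_of b40 (tE29p1 0) (tK29p1 0) (tS29p1 0) 21 9 rfl (by decide) (by decide +kernel)

theorem t29p1_1 : ∀ x < 1024, Pt.chT D (Jv.jsE K8.RN.E29.z 1) (tE29p1 1) (tK29p1 1) (tS29p1 1) x = true :=
  chT_of b09 (tE29p1 1) (tK29p1 1) (tS29p1 1) 0 15 rfl (by decide) (by decide +kernel)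

theorem t29p1_2 : ∀ x < 1024, Pt.chT D (Jv.jsE K8.RN.E29.z 2) (tE29p1 2) (tK29p1 2) (tS29p1 2) x = true :=
  chT_of b13 (tE29p1 2) (tK29p1 2) (tS29p1 2) 0 15 rfl (by decide) (by decide +kernel)

theorem t29p1_3 : ∀ x < 1024, Pt.chT D (Jv.jsE K8.RN.E29.z 3) (tE29p1 3) (tK29p1 3) (tS29p1 3) x = true :=
  chT_of b17 (tE29p1 3) (tK29p1 3) (tS29p1 3) 0 12 rfl (by decide) (by decide +kernel)

theorem t29p1_4 : ∀ x < 1024, Pt.chT D (Jv.jsE K8.RN.E29.z 4) (tE29p1 4) (tK29p1 4) (tS29p1 4) x = true :=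
  chT_of b19 (tE29p1 4) (tK29p1 4) (tS29p1 4) 0 12 rfl (by decide) (by decide +kernel)

theorem t29p1_5 : ∀ x < 1024, Pt.chT D (Jv.jsE K8.RN.E29.z 5) (tE29p1 5) (tK29p1 5) (tS29p1 5) x = true :=
  chT_of b27 (tE29p1 5) (tK29p1 5) (tS29p1 5) 0 8 rfl (by decide) (by decide +kernel)

theorem t29p1_6 : ∀ x < 1024, Pt.chT D (Jv.jsE K8.RN.E29.z 6) (tE29p1 6) (tK29p1 6) (tS29p1 6) x = true :=
  chT_of b36 (tE29p1 6) (tK29p1 6) (tS29p1 6) 0 1 rfl (by decide) (by decide +kernel)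

theorem c29p1 : Pt.chN D K K1_29p1 K2_29p1 K4_29p1 = true := by decide +kernel

theorem y29p1 : Pt.FarY S K8.RN.E29.g.c 7 (fun y => y ∈ Y29p1) :=
  Pt.farY_lst D D_w K K_eq K8.RN.E29.g K8.RN.E29.z K8.RN.E29.hg (rep_mem 29 (by decide) rfl) Y29p1 okE29p1 okK29p1 okS29p1 c29p1
    r1_29p1 r2_29p1 (Pt.forall7 _ t29p1_0 t29p1_1 t29p1_2 t29p1_3 t29p1_4 t29p1_5 t29p1_6) r4_29p1

theorem x29p1 : ∀ l ∈ X29p1, Pt.FarY S K8.RN.E29.g.c 7 (fun y => y ∈ l) :=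
  Pt.tr_spec w0_29 y29p1 (fun _ h => h) w29p1

theorem t29p2_0 : ∀ x < 1024, Pt.chT D (Jv.jsE K8.RN.E29.z 0) (tE29p2 0) (tK29p2 0) (tS29p2 0) x = true :=
  chT_of b40 (tE29p2 0) (tK29p2 0) (tS29p2 0) 21 10 rfl (by decide) (by decide +kernel)

theorem t29p2_1 : ∀ x < 1024, Pt.chT D (Jv.jsE K8.RN.E29.z 1) (tE29p2 1) (tK29p2 1) (tS29p2 1) x = true :=
  chT_of b09 (tE29p2 1) (tK29p2 1) (tS29p2 1) 0 16 rfl (by decide) (by decide +kernel)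

theorem t29p2_2 : ∀ x < 1024, Pt.chT D (Jv.jsE K8.RN.E29.z 2) (tE29p2 2) (tK29p2 2) (tS29p2 2) x = true :=
  chT_of b13 (tE29p2 2) (tK29p2 2) (tS29p2 2) 0 16 rfl (by decide) (by decide +kernel)

theorem t29p2_3 : ∀ x < 1024, Pt.chT D (Jv.jsE K8.RN.E29.z 3) (tE29p2 3) (tK29p2 3) (tS29p2 3) x = true :=
  chT_of b17 (tE29p2 3) (tK29p2 3) (tS29p2 3) 0 13 rfl (by decide) (by decide +kernel)

theorem t29p2_4 : ∀ x < 1024, Pt.chT D (Jv.jsE K8.RN.E29.z 4) (tE29p2 4) (tK29p2 4) (tS29p2 4) x = true :=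
  chT_of b19 (tE29p2 4) (tK29p2 4) (tS29p2 4) 0 13 rfl (by decide) (by decide +kernel)

theorem t29p2_5 : ∀ x < 1024, Pt.chT D (Jv.jsE K8.RN.E29.z 5) (tE29p2 5) (tK29p2 5) (tS29p2 5) x = true :=
  chT_of b27 (tE29p2 5) (tK29p2 5) (tS29p2 5) 0 9 rfl (by decide) (by decide +kernel)

theorem t29p2_6 : ∀ x < 1024, Pt.chT D (Jv.jsE K8.RN.E29.z 6) (tE29p2 6) (tK29p2 6) (tS29p2 6) x = true :=
  chT_of b36 (tE29p2 6) (tK29p2 6) (tS29p2 6) 0 2 rfl (by decide) (by decide +kernel)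

theorem c29p2 : Pt.chN D K K1_29p2 K2_29p2 K4_29p2 = true := by decide +kernel

theorem y29p2 : Pt.FarY S K8.RN.E29.g.c 7 (fun y => y ∈ Y29p2) :=
  Pt.farY_lst D D_w K K_eq K8.RN.E29.g K8.RN.E29.z K8.RN.E29.hg (rep_mem 29 (by decide) rfl) Y29p2 okE29p2 okK29p2 okS29p2 c29p2
    r1_29p2 r2_29p2 (Pt.forall7 _ t29p2_0 t29p2_1 t29p2_2 t29p2_3 t29p2_4 t29p2_5 t29p2_6) r4_29p2

theorem x29p2 : ∀ l ∈ X29p2, Pt.FarY S K8.RN.E29.g.c 7 (fun y => y ∈ l) :=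
  Pt.tr_spec w0_29 y29p2 (fun _ h => h) w29p2

theorem t29p3_0 : ∀ x < 1024, Pt.chT D (Jv.jsE K8.RN.E29.z 0) (tE29p3 0) (tK29p3 0) (tS29p3 0) x = true :=
  chT_of b40 (tE29p3 0) (tK29p3 0) (tS29p3 0) 21 11 rfl (by decide) (by decide +kernel)

theorem t29p3_1 : ∀ x < 1024, Pt.chT D (Jv.jsE K8.RN.E29.z 1) (tE29p3 1) (tK29p3 1) (tS29p3 1) x = true :=
  chT_of b09 (tE29p3 1) (tK29p3 1) (tS29p3 1) 0 17 rfl (by decide) (by decide +kernel)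

theorem t29p3_2 : ∀ x < 1024, Pt.chT D (Jv.jsE K8.RN.E29.z 2) (tE29p3 2) (tK29p3 2) (tS29p3 2) x = true :=
  chT_of b13 (tE29p3 2) (tK29p3 2) (tS29p3 2) 0 17 rfl (by decide) (by decide +kernel)

theorem t29p3_3 : ∀ x < 1024, Pt.chT D (Jv.jsE K8.RN.E29.z 3) (tE29p3 3) (tK29p3 3) (tS29p3 3) x = true :=
  chT_of b17 (tE29p3 3) (tK29p3 3) (tS29p3 3) 0 14 rfl (by decide) (by decide +kernel)

theorem t29p3_4 : ∀ x < 1024, Pt.chT D (Jv.jsE K8.RN.E29.z 4) (tE29p3 4) (tK29p3 4) (tS29p3 4) x = true :=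
  chT_of b19 (tE29p3 4) (tK29p3 4) (tS29p3 4) 0 14 rfl (by decide) (by decide +kernel)

theorem t29p3_5 : ∀ x < 1024, Pt.chT D (Jv.jsE K8.RN.E29.z 5) (tE29p3 5) (tK29p3 5) (tS29p3 5) x = true :=
  chT_of b27 (tE29p3 5) (tK29p3 5) (tS29p3 5) 0 10 rfl (by decide) (by decide +kernel)

theorem t29p3_6 : ∀ x < 1024, Pt.chT D (Jv.jsE K8.RN.E29.z 6) (tE29p3 6) (tK29p3 6) (tS29p3 6) x = true :=
  chT_of b36 (tE29p3 6) (tK29p3 6) (tS29p3 6) 0 3 rfl (by decide) (by decide +kernel)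

theorem c29p3 : Pt.chN D K K1_29p3 K2_29p3 K4_29p3 = true := by decide +kernel

theorem y29p3 : Pt.FarY S K8.RN.E29.g.c 7 (fun y => y ∈ Y29p3) :=
  Pt.farY_lst D D_w K K_eq K8.RN.E29.g K8.RN.E29.z K8.RN.E29.hg (rep_mem 29 (by decide) rfl) Y29p3 okE29p3 okK29p3 okS29p3 c29p3
    r1_29p3 r2_29p3 (Pt.forall7 _ t29p3_0 t29p3_1 t29p3_2 t29p3_3 t29p3_4 t29p3_5 t29p3_6) r4_29p3

theorem x29p3 : ∀ l ∈ X29p3, Pt.FarY S K8.RN.E29.g.c 7 (fun y => y ∈ l) :=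
  Pt.tr_spec w0_29 y29p3 (fun _ h => h) w29p3

theorem far29 : Pt.Far S K8.RN.E29.g.c 7 := Pt.far_of_out out29 (Pt.farY_all (Pt.farY_all x29p1 x29p2) x29p3)

end Pool.Agent.Lib.MP_afdd4d_co.K10.RP
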