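import Pool.Agent.Lib.MP_afdd4d_co.K10.RN.Q39
import Pool.Agent.Lib.MP_afdd4d_co.K10.RP.Blk
import Pool.Agent.Lib.MP_afdd4d_co.K10.RP.E39
import Pool.Agent.Lib.MP_afdd4d_co.K10.RP.D39
import Pool.Agent.Lib.MP_afdd4d_co.K10.RP.B10
import Pool.Agent.Lib.MP_afdd4d_co.K10.RP.B19
import Pool.Agent.Lib.MP_afdd4d_co.K10.RP.B22
import Pool.Agent.Lib.MP_afdd4d_co.K10.RP.B29
import Pool.Agent.Lib.MP_afdd4d_co.K10.RP.B38

/-!
# The far pairs of the coset number 39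
-/

namespace Pool.Agent.Lib.MP_afdd4d_co.K10.RP

open K8 K10.RS

theorem t39_0 : ∀ x < 1024, Pt.chT D (Jv.jsE K8.RN.E39.z 0) (tE39 0) (tK39 0) (tS39 0) x = true :=
  chT_of b38 (tE39 0) (tK39 0) (tS39 0) 54 3 rfl (by decide) (by decide +kernel)

theorem t39_1 : ∀ x < 1024, Pt.chT D (Jv.jsE K8.RN.E39.z 1) (tE39 1) (tK39 1) (tS39 1) x = true :=
  chT_of b10 (tE39 1) (tK39 1) (tS39 1) 0 13 rfl (by decide) (by decide +kernel)

theorem t39_2 : ∀ x < 1024, Pt.chT D (Jv.jsE K8.RN.E39.z 2) (tE39 2) (tK39 2) (tS39 2) x = true :=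
  chT_of b19 (tE39 2) (tK39 2) (tS39 2) 0 19 rfl (by decide) (by decide +kernel)

theorem t39_3 : ∀ x < 1024, Pt.chT D (Jv.jsE K8.RN.E39.z 3) (tE39 3) (tK39 3) (tS39 3) x = true :=
  chT_of b22 (tE39 3) (tK39 3) (tS39 3) 0 17 rfl (by decide) (by decide +kernel)

theorem t39_4 : ∀ x < 1024, Pt.chT D (Jv.jsE K8.RN.E39.z 4) (tE39 4) (tK39 4) (tS39 4) x = true :=
  chT_of b29 (tE39 4) (tK39 4) (tS39 4) 0 10 rfl (by decide) (by decide +kernel)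

theorem t39_5 : ∀ x < 1024, Pt.chT D (Jv.jsE K8.RN.E39.z 5) (tE39 5) (tK39 5) (tS39 5) x = true :=
  chT_of b29 (tE39 5) (tK39 5) (tS39 5) 0 11 rfl (by decide) (by decide +kernel)

theorem t39_6 : ∀ x < 1024, Pt.chT D (Jv.jsE K8.RN.E39.z 6) (tE39 6) (tK39 6) (tS39 6) x = true :=
  chT_of b38 (tE39 6) (tK39 6) (tS39 6) 0 4 rfl (by decide) (by decide +kernel)

theorem c39 : Pt.chN D K K1_39 K2_39 K4_39 = true := by decide +kernel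

theorem out39 : Pt.FarY S K8.RN.E39.g.c 7 (Pt.Out X39) :=
  Pt.farY_out D D_w K K_eq K8.RN.E39.g K8.RN.E39.z K8.RN.E39.hg (rep_mem 39 (by decide) rfl) X39 okE39 okK39 okS39 c39
    K10.RN.r1_39 r2_39 (Pt.forall7 _ t39_0 t39_1 t39_2 t39_3 t39_4 t39_5 t39_6) r4_39

theorem far39 : Pt.Far S K8.RN.E39.g.c 7 := Pt.far_of_out out39 (fun l hl => absurd hl List.not_mem_nil)

end Pool.Agent.Lib.MP_afdd4d_co.K10.RP
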