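import Pool.Agent.Lib.MP_afdd4d_co.K10.RN.Q49
import Pool.Agent.Lib.MP_afdd4d_co.K10.RP.Blk
import Pool.Agent.Lib.MP_afdd4d_co.K10.RP.E49
import Pool.Agent.Lib.MP_afdd4d_co.K10.RP.D49
import Pool.Agent.Lib.MP_afdd4d_co.K10.RP.B23
import Pool.Agent.Lib.MP_afdd4d_co.K10.RP.B27
import Pool.Agent.Lib.MP_afdd4d_co.K10.RP.B29
import Pool.Agent.Lib.MP_afdd4d_co.K10.RP.B36
import Pool.Agent.Lib.MP_afdd4d_co.K10.RP.B40
import Pool.Agent.Lib.MP_afdd4d_co.K10.RP.B47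

/-!
# The far pairs of the coset number 49
-/

namespace Pool.Agent.Lib.MP_afdd4d_co.K10.RP

open K8 K10.RS

theorem t49_0 : ∀ x < 1024, Pt.chT D (Jv.jsE K8.RN.E49.z 0) (tE49 0) (tK49 0) (tS49 0) x = true :=
  chT_of b47 (tE49 0) (tK49 0) (tS49 0) 220 1 rfl (by decide) (by decide +kernel)

theorem t49_1 : ∀ x < 1024, Pt.chT D (Jv.jsE K8.RN.E49.z 1) (tE49 1) (tK49 1) (tS49 1) x = true :=
  chT_of b23 (tE49 1) (tK49 1) (tS49 1) 0 13 rfl (by decide) (by decide +kernel)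

theorem t49_2 : ∀ x < 1024, Pt.chT D (Jv.jsE K8.RN.E49.z 2) (tE49 2) (tK49 2) (tS49 2) x = true :=
  chT_of b27 (tE49 2) (tK49 2) (tS49 2) 0 14 rfl (by decide) (by decide +kernel)

theorem t49_3 : ∀ x < 1024, Pt.chT D (Jv.jsE K8.RN.E49.z 3) (tE49 3) (tK49 3) (tS49 3) x = true :=
  chT_of b29 (tE49 3) (tK49 3) (tS49 3) 0 15 rfl (by decide) (by decide +kernel)

theorem t49_4 : ∀ x < 1024, Pt.chT D (Jv.jsE K8.RN.E49.z 4) (tE49 4) (tK49 4) (tS49 4) x = true :=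
  chT_of b36 (tE49 4) (tK49 4) (tS49 4) 0 9 rfl (by decide) (by decide +kernel)

theorem t49_5 : ∀ x < 1024, Pt.chT D (Jv.jsE K8.RN.E49.z 5) (tE49 5) (tK49 5) (tS49 5) x = true :=
  chT_of b40 (tE49 5) (tK49 5) (tS49 5) 0 12 rfl (by decide) (by decide +kernel)

theorem t49_6 : ∀ x < 1024, Pt.chT D (Jv.jsE K8.RN.E49.z 6) (tE49 6) (tK49 6) (tS49 6) x = true :=
  chT_of b47 (tE49 6) (tK49 6) (tS49 6) 0 2 rfl (by decide) (by decide +kernel)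

theorem c49 : Pt.chN D K K1_49 K2_49 K4_49 = true := by decide +kernel

theorem out49 : Pt.FarY S K8.RN.E49.g.c 7 (Pt.Out X49) :=
  Pt.farY_out D D_w K K_eq K8.RN.E49.g K8.RN.E49.z K8.RN.E49.hg (rep_mem 49 (by decide) rfl) X49 okE49 okK49 okS49 c49
    K10.RN.r1_49 r2_49 (Pt.forall7 _ t49_0 t49_1 t49_2 t49_3 t49_4 t49_5 t49_6) r4_49

theorem far49 : Pt.Far S K8.RN.E49.g.c 7 := Pt.far_of_out out49 (fun l hl => absurd hl List.not_mem_nil)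

end Pool.Agent.Lib.MP_afdd4d_co.K10.RP
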