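import Pool.Agent.Lib.MP_afdd4d_co.K10.RP.T00
import Pool.Agent.Lib.MP_afdd4d_co.K10.RP.T00p1
import Pool.Agent.Lib.MP_afdd4d_co.K10.RP.T01
import Pool.Agent.Lib.MP_afdd4d_co.K10.RP.T01p1

/-!
# The views of the class 0
-/

namespace Pool.Agent.Lib.MP_afdd4d_co.K10.RP

open K8

/-- The views of the class 0. -/
def L00 : List Pt.PE := [
  ⟨tE00 0, tK00 0, tS00 0, 0⟩, ⟨tE00 1, tK00 1, tS00 1, 0⟩,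
  ⟨tE00 2, tK00 2, tS00 2, 0⟩, ⟨tE00 3, tK00 3, tS00 3, 0⟩,
  ⟨tE00 4, tK00 4, tS00 4, 0⟩, ⟨tE00 5, tK00 5, tS00 5, 0⟩,
  ⟨tE00 6, tK00 6, tS00 6, 0⟩, ⟨tE00p1 0, tK00p1 0, tS00p1 0, 0⟩,
  ⟨tE00p1 1, tK00p1 1, tS00p1 1, 0⟩, ⟨tE00p1 2, tK00p1 2, tS00p1 2, 0⟩,
  ⟨tE00p1 3, tK00p1 3, tS00p1 3, 0⟩, ⟨tE00p1 4, tK00p1 4, tS00p1 4, 0⟩,
  ⟨tE00p1 5, tK00p1 5, tS00p1 5, 0⟩, ⟨tE00p1 6, tK00p1 6, tS00p1 6, 0⟩,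
  ⟨tE01 1, tK01 1, tS01 1, 0⟩, ⟨tE01 2, tK01 2, tS01 2, 0⟩,
  ⟨tE01 3, tK01 3, tS01 3, 0⟩, ⟨tE01 4, tK01 4, tS01 4, 0⟩,
  ⟨tE01p1 1, tK01p1 1, tS01p1 1, 0⟩, ⟨tE01p1 2, tK01p1 2, tS01p1 2, 0⟩]

end Pool.Agent.Lib.MP_afdd4d_co.K10.RP
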