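import Pool.Agent.Lib.MP_afdd4d_co.K10.RP.T01p1
import Pool.Agent.Lib.MP_afdd4d_co.K10.RP.T02
import Pool.Agent.Lib.MP_afdd4d_co.K10.RP.T02p1
import Pool.Agent.Lib.MP_afdd4d_co.K10.RP.T02p2
import Pool.Agent.Lib.MP_afdd4d_co.K10.RP.T02p3
import Pool.Agent.Lib.MP_afdd4d_co.K10.RP.T03
import Pool.Agent.Lib.MP_afdd4d_co.K10.RP.T03p1
import Pool.Agent.Lib.MP_afdd4d_co.K10.RP.T03p2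

/-!
# The views of the class 1
-/

namespace Pool.Agent.Lib.MP_afdd4d_co.K10.RP

open K8

/-- The views of the class 1. -/
def L01 : List Pt.PE := [
  ⟨tE01p1 3, tK01p1 3, tS01p1 3, 0⟩, ⟨tE01p1 4, tK01p1 4, tS01p1 4, 0⟩,
  ⟨tE02 1, tK02 1, tS02 1, 0⟩, ⟨tE02 2, tK02 2, tS02 2, 0⟩,
  ⟨tE02 3, tK02 3, tS02 3, 0⟩, ⟨tE02p1 1, tK02p1 1, tS02p1 1, 0⟩,
  ⟨tE02p1 2, tK02p1 2, tS02p1 2, 0⟩, ⟨tE02p1 3, tK02p1 3, tS02p1 3, 0⟩,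
  ⟨tE02p2 1, tK02p2 1, tS02p2 1, 0⟩, ⟨tE02p2 2, tK02p2 2, tS02p2 2, 0⟩,
  ⟨tE02p2 3, tK02p2 3, tS02p2 3, 0⟩, ⟨tE02p3 1, tK02p3 1, tS02p3 1, 0⟩,
  ⟨tE02p3 2, tK02p3 2, tS02p3 2, 0⟩, ⟨tE02p3 3, tK02p3 3, tS02p3 3, 0⟩,
  ⟨tE03 1, tK03 1, tS03 1, 0⟩, ⟨tE03 2, tK03 2, tS03 2, 0⟩,
  ⟨tE03p1 1, tK03p1 1, tS03p1 1, 0⟩, ⟨tE03p1 2, tK03p1 2, tS03p1 2, 0⟩,
  ⟨tE03p2 1, tK03p2 1, tS03p2 1, 0⟩, ⟨tE03p2 2, tK03p2 2, tS03p2 2, 0⟩]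

end Pool.Agent.Lib.MP_afdd4d_co.K10.RP
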