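import Pool.Agent.Lib.MP_afdd4d_co.K10.RP.T04
import Pool.Agent.Lib.MP_afdd4d_co.K10.RP.T04p1
import Pool.Agent.Lib.MP_afdd4d_co.K10.RP.T04p2
import Pool.Agent.Lib.MP_afdd4d_co.K10.RP.T05
import Pool.Agent.Lib.MP_afdd4d_co.K10.RP.T05p1
import Pool.Agent.Lib.MP_afdd4d_co.K10.RP.T05p2
import Pool.Agent.Lib.MP_afdd4d_co.K10.RP.T06
import Pool.Agent.Lib.MP_afdd4d_co.K10.RP.T06p1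
import Pool.Agent.Lib.MP_afdd4d_co.K10.RP.T06p2
import Pool.Agent.Lib.MP_afdd4d_co.K10.RP.T06p3
import Pool.Agent.Lib.MP_afdd4d_co.K10.RP.T08
import Pool.Agent.Lib.MP_afdd4d_co.K10.RP.T08p1
import Pool.Agent.Lib.MP_afdd4d_co.K10.RP.T09

/-!
# The views of the class 2
-/

namespace Pool.Agent.Lib.MP_afdd4d_co.K10.RP

open K8

/-- The views of the class 2. -/
def L02 : List Pt.PE := [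
  ⟨tE04 1, tK04 1, tS04 1, 0⟩, ⟨tE04 2, tK04 2, tS04 2, 0⟩,
  ⟨tE04p1 1, tK04p1 1, tS04p1 1, 0⟩, ⟨tE04p1 2, tK04p1 2, tS04p1 2, 0⟩,
  ⟨tE04p2 1, tK04p2 1, tS04p2 1, 0⟩, ⟨tE04p2 2, tK04p2 2, tS04p2 2, 0⟩,
  ⟨tE05 1, tK05 1, tS05 1, 0⟩, ⟨tE05 2, tK05 2, tS05 2, 0⟩,
  ⟨tE05p1 1, tK05p1 1, tS05p1 1, 0⟩, ⟨tE05p1 2, tK05p1 2, tS05p1 2, 0⟩,
  ⟨tE05p2 1, tK05p2 1, tS05p2 1, 0⟩, ⟨tE05p2 2, tK05p2 2, tS05p2 2, 0⟩,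
  ⟨tE06 1, tK06 1, tS06 1, 0⟩, ⟨tE06p1 1, tK06p1 1, tS06p1 1, 0⟩,
  ⟨tE06p2 1, tK06p2 1, tS06p2 1, 0⟩, ⟨tE06p3 1, tK06p3 1, tS06p3 1, 0⟩,
  ⟨tE08 1, tK08 1, tS08 1, 0⟩, ⟨tE08p1 1, tK08p1 1, tS08p1 1, 0⟩,
  ⟨tE09 1, tK09 1, tS09 1, 0⟩]

end Pool.Agent.Lib.MP_afdd4d_co.K10.RP
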