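import Pool.Agent.Lib.MP_afdd4d_co.K10.RP.T09p1
import Pool.Agent.Lib.MP_afdd4d_co.K10.RP.T09p2
import Pool.Agent.Lib.MP_afdd4d_co.K10.RP.T09p3
import Pool.Agent.Lib.MP_afdd4d_co.K10.RP.T11
import Pool.Agent.Lib.MP_afdd4d_co.K10.RP.T11p1
import Pool.Agent.Lib.MP_afdd4d_co.K10.RP.T11p2
import Pool.Agent.Lib.MP_afdd4d_co.K10.RP.T13
import Pool.Agent.Lib.MP_afdd4d_co.K10.RP.T13p1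
import Pool.Agent.Lib.MP_afdd4d_co.K10.RP.T17
import Pool.Agent.Lib.MP_afdd4d_co.K10.RP.T17p1
import Pool.Agent.Lib.MP_afdd4d_co.K10.RP.T25
import Pool.Agent.Lib.MP_afdd4d_co.K10.RP.T25p1
import Pool.Agent.Lib.MP_afdd4d_co.K10.RP.T26
import Pool.Agent.Lib.MP_afdd4d_co.K10.RP.T26p1
import Pool.Agent.Lib.MP_afdd4d_co.K10.RP.T30
import Pool.Agent.Lib.MP_afdd4d_co.K10.RP.T30p1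
import Pool.Agent.Lib.MP_afdd4d_co.K10.RP.T38

/-!
# The views of the class 3
-/

namespace Pool.Agent.Lib.MP_afdd4d_co.K10.RP

open K8

/-- The views of the class 3. -/
def L03 : List Pt.PE := [
  ⟨tE09p1 1, tK09p1 1, tS09p1 1, 0⟩, ⟨tE09p2 1, tK09p2 1, tS09p2 1, 0⟩,
  ⟨tE09p3 1, tK09p3 1, tS09p3 1, 0⟩, ⟨tE11 1, tK11 1, tS11 1, 0⟩,
  ⟨tE11p1 1, tK11p1 1, tS11p1 1, 0⟩, ⟨tE11p2 1, tK11p2 1, tS11p2 1, 0⟩,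
  ⟨tE13 1, tK13 1, tS13 1, 0⟩, ⟨tE13p1 1, tK13p1 1, tS13p1 1, 0⟩,
  ⟨tE17 1, tK17 1, tS17 1, 0⟩, ⟨tE17p1 1, tK17p1 1, tS17p1 1, 0⟩,
  ⟨tE25 1, tK25 1, tS25 1, 0⟩, ⟨tE25 2, tK25 2, tS25 2, 0⟩,
  ⟨tE25p1 1, tK25p1 1, tS25p1 1, 0⟩, ⟨tE25p1 2, tK25p1 2, tS25p1 2, 0⟩,
  ⟨tE26 1, tK26 1, tS26 1, 0⟩, ⟨tE26p1 1, tK26p1 1, tS26p1 1, 0⟩,
  ⟨tE30 1, tK30 1, tS30 1, 0⟩, ⟨tE30p1 1, tK30p1 1, tS30p1 1, 0⟩,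
  ⟨tE38 1, tK38 1, tS38 1, 0⟩]

end Pool.Agent.Lib.MP_afdd4d_co.K10.RP
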