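import Pool.Agent.Lib.MP_afdd4d_co.K10.RP.T01
import Pool.Agent.Lib.MP_afdd4d_co.K10.RP.T01p1
import Pool.Agent.Lib.MP_afdd4d_co.K10.RP.T02
import Pool.Agent.Lib.MP_afdd4d_co.K10.RP.T02p1
import Pool.Agent.Lib.MP_afdd4d_co.K10.RP.T02p2
import Pool.Agent.Lib.MP_afdd4d_co.K10.RP.T02p3
import Pool.Agent.Lib.MP_afdd4d_co.K10.RP.T03
import Pool.Agent.Lib.MP_afdd4d_co.K10.RP.T03p1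
import Pool.Agent.Lib.MP_afdd4d_co.K10.RP.T03p2
import Pool.Agent.Lib.MP_afdd4d_co.K10.RP.T04
import Pool.Agent.Lib.MP_afdd4d_co.K10.RP.T04p1

/-!
# The views of the class 4
-/

namespace Pool.Agent.Lib.MP_afdd4d_co.K10.RP

open K8

/-- The views of the class 4. -/
def L04 : List Pt.PE := [
  ⟨tE01 0, tK01 0, tS01 0, 0⟩, ⟨tE01 5, tK01 5, tS01 5, 0⟩,
  ⟨tE01 6, tK01 6, tS01 6, 0⟩, ⟨tE01p1 0, tK01p1 0, tS01p1 0, 0⟩,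
  ⟨tE01p1 5, tK01p1 5, tS01p1 5, 0⟩, ⟨tE01p1 6, tK01p1 6, tS01p1 6, 0⟩,
  ⟨tE02 4, tK02 4, tS02 4, 0⟩, ⟨tE02 5, tK02 5, tS02 5, 0⟩,
  ⟨tE02p1 4, tK02p1 4, tS02p1 4, 0⟩, ⟨tE02p1 5, tK02p1 5, tS02p1 5, 0⟩,
  ⟨tE02p2 4, tK02p2 4, tS02p2 4, 0⟩, ⟨tE02p2 5, tK02p2 5, tS02p2 5, 0⟩,
  ⟨tE02p3 4, tK02p3 4, tS02p3 4, 0⟩, ⟨tE02p3 5, tK02p3 5, tS02p3 5, 0⟩,
  ⟨tE03 3, tK03 3, tS03 3, 0⟩, ⟨tE03p1 3, tK03p1 3, tS03p1 3, 0⟩,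
  ⟨tE03p2 3, tK03p2 3, tS03p2 3, 0⟩, ⟨tE04 3, tK04 3, tS04 3, 0⟩,
  ⟨tE04 4, tK04 4, tS04 4, 0⟩, ⟨tE04 5, tK04 5, tS04 5, 0⟩,
  ⟨tE04p1 3, tK04p1 3, tS04p1 3, 0⟩]

end Pool.Agent.Lib.MP_afdd4d_co.K10.RP
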