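import Pool.Agent.Lib.MP_afdd4d_co.K10.RP.T04p1
import Pool.Agent.Lib.MP_afdd4d_co.K10.RP.T04p2
import Pool.Agent.Lib.MP_afdd4d_co.K10.RP.T05
import Pool.Agent.Lib.MP_afdd4d_co.K10.RP.T05p1
import Pool.Agent.Lib.MP_afdd4d_co.K10.RP.T05p2
import Pool.Agent.Lib.MP_afdd4d_co.K10.RP.T06
import Pool.Agent.Lib.MP_afdd4d_co.K10.RP.T06p1
import Pool.Agent.Lib.MP_afdd4d_co.K10.RP.T06p2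
import Pool.Agent.Lib.MP_afdd4d_co.K10.RP.T06p3
import Pool.Agent.Lib.MP_afdd4d_co.K10.RP.T07
import Pool.Agent.Lib.MP_afdd4d_co.K10.RP.T07p1
import Pool.Agent.Lib.MP_afdd4d_co.K10.RP.T08

/-!
# The views of the class 5
-/

namespace Pool.Agent.Lib.MP_afdd4d_co.K10.RP

open K8

/-- The views of the class 5. -/
def L05 : List Pt.PE := [
  ⟨tE04p1 4, tK04p1 4, tS04p1 4, 0⟩, ⟨tE04p1 5, tK04p1 5, tS04p1 5, 0⟩,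
  ⟨tE04p2 3, tK04p2 3, tS04p2 3, 0⟩, ⟨tE04p2 4, tK04p2 4, tS04p2 4, 0⟩,
  ⟨tE04p2 5, tK04p2 5, tS04p2 5, 0⟩, ⟨tE05 3, tK05 3, tS05 3, 0⟩,
  ⟨tE05p1 3, tK05p1 3, tS05p1 3, 0⟩, ⟨tE05p2 3, tK05p2 3, tS05p2 3, 0⟩,
  ⟨tE06 2, tK06 2, tS06 2, 0⟩, ⟨tE06 3, tK06 3, tS06 3, 0⟩,
  ⟨tE06p1 2, tK06p1 2, tS06p1 2, 0⟩, ⟨tE06p1 3, tK06p1 3, tS06p1 3, 0⟩,
  ⟨tE06p2 2, tK06p2 2, tS06p2 2, 0⟩, ⟨tE06p2 3, tK06p2 3, tS06p2 3, 0⟩,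
  ⟨tE06p3 2, tK06p3 2, tS06p3 2, 0⟩, ⟨tE06p3 3, tK06p3 3, tS06p3 3, 0⟩,
  ⟨tE07 1, tK07 1, tS07 1, 0⟩, ⟨tE07p1 1, tK07p1 1, tS07p1 1, 0⟩,
  ⟨tE08 2, tK08 2, tS08 2, 0⟩, ⟨tE08 3, tK08 3, tS08 3, 0⟩,
  ⟨tE08 4, tK08 4, tS08 4, 0⟩]

end Pool.Agent.Lib.MP_afdd4d_co.K10.RP
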