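import Pool.Agent.Lib.MP_afdd4d_co.K10.RP.T08
import Pool.Agent.Lib.MP_afdd4d_co.K10.RP.T08p1
import Pool.Agent.Lib.MP_afdd4d_co.K10.RP.T09
import Pool.Agent.Lib.MP_afdd4d_co.K10.RP.T09p1
import Pool.Agent.Lib.MP_afdd4d_co.K10.RP.T09p2
import Pool.Agent.Lib.MP_afdd4d_co.K10.RP.T09p3
import Pool.Agent.Lib.MP_afdd4d_co.K10.RP.T10
import Pool.Agent.Lib.MP_afdd4d_co.K10.RP.T10p1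
import Pool.Agent.Lib.MP_afdd4d_co.K10.RP.T11
import Pool.Agent.Lib.MP_afdd4d_co.K10.RP.T11p1

/-!
# The views of the class 6
-/

namespace Pool.Agent.Lib.MP_afdd4d_co.K10.RP

open K8

/-- The views of the class 6. -/
def L06 : List Pt.PE := [
  ⟨tE08 5, tK08 5, tS08 5, 0⟩, ⟨tE08p1 2, tK08p1 2, tS08p1 2, 0⟩,
  ⟨tE08p1 3, tK08p1 3, tS08p1 3, 0⟩, ⟨tE08p1 4, tK08p1 4, tS08p1 4, 0⟩,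
  ⟨tE08p1 5, tK08p1 5, tS08p1 5, 0⟩, ⟨tE09 2, tK09 2, tS09 2, 0⟩,
  ⟨tE09 3, tK09 3, tS09 3, 0⟩, ⟨tE09p1 2, tK09p1 2, tS09p1 2, 0⟩,
  ⟨tE09p1 3, tK09p1 3, tS09p1 3, 0⟩, ⟨tE09p2 2, tK09p2 2, tS09p2 2, 0⟩,
  ⟨tE09p2 3, tK09p2 3, tS09p2 3, 0⟩, ⟨tE09p3 2, tK09p3 2, tS09p3 2, 0⟩,
  ⟨tE09p3 3, tK09p3 3, tS09p3 3, 0⟩, ⟨tE10 1, tK10 1, tS10 1, 0⟩,
  ⟨tE10 2, tK10 2, tS10 2, 0⟩, ⟨tE10 3, tK10 3, tS10 3, 0⟩,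
  ⟨tE10p1 1, tK10p1 1, tS10p1 1, 0⟩, ⟨tE10p1 2, tK10p1 2, tS10p1 2, 0⟩,
  ⟨tE10p1 3, tK10p1 3, tS10p1 3, 0⟩, ⟨tE11 2, tK11 2, tS11 2, 0⟩,
  ⟨tE11p1 2, tK11p1 2, tS11p1 2, 0⟩]

end Pool.Agent.Lib.MP_afdd4d_co.K10.RP
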