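import Pool.Agent.Lib.MP_afdd4d_co.K10.RP.T11p2
import Pool.Agent.Lib.MP_afdd4d_co.K10.RP.T12
import Pool.Agent.Lib.MP_afdd4d_co.K10.RP.T12p1
import Pool.Agent.Lib.MP_afdd4d_co.K10.RP.T12p2
import Pool.Agent.Lib.MP_afdd4d_co.K10.RP.T13
import Pool.Agent.Lib.MP_afdd4d_co.K10.RP.T13p1
import Pool.Agent.Lib.MP_afdd4d_co.K10.RP.T14
import Pool.Agent.Lib.MP_afdd4d_co.K10.RP.T14p1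
import Pool.Agent.Lib.MP_afdd4d_co.K10.RP.T14p2
import Pool.Agent.Lib.MP_afdd4d_co.K10.RP.T15
import Pool.Agent.Lib.MP_afdd4d_co.K10.RP.T16
import Pool.Agent.Lib.MP_afdd4d_co.K10.RP.T16p1

/-!
# The views of the class 7
-/

namespace Pool.Agent.Lib.MP_afdd4d_co.K10.RP

open K8

/-- The views of the class 7. -/
def L07 : List Pt.PE := [
  ⟨tE11p2 2, tK11p2 2, tS11p2 2, 0⟩, ⟨tE12 1, tK12 1, tS12 1, 0⟩,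
  ⟨tE12 2, tK12 2, tS12 2, 0⟩, ⟨tE12p1 1, tK12p1 1, tS12p1 1, 0⟩,
  ⟨tE12p1 2, tK12p1 2, tS12p1 2, 0⟩, ⟨tE12p2 1, tK12p2 1, tS12p2 1, 0⟩,
  ⟨tE12p2 2, tK12p2 2, tS12p2 2, 0⟩, ⟨tE13 2, tK13 2, tS13 2, 0⟩,
  ⟨tE13p1 2, tK13p1 2, tS13p1 2, 0⟩, ⟨tE14 1, tK14 1, tS14 1, 0⟩,
  ⟨tE14p1 1, tK14p1 1, tS14p1 1, 0⟩, ⟨tE14p2 1, tK14p2 1, tS14p2 1, 0⟩,
  ⟨tE15 1, tK15 1, tS15 1, 0⟩, ⟨tE15 2, tK15 2, tS15 2, 0⟩,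
  ⟨tE15 3, tK15 3, tS15 3, 0⟩, ⟨tE15 4, tK15 4, tS15 4, 0⟩,
  ⟨tE15 5, tK15 5, tS15 5, 0⟩, ⟨tE16 1, tK16 1, tS16 1, 0⟩,
  ⟨tE16 2, tK16 2, tS16 2, 0⟩, ⟨tE16 3, tK16 3, tS16 3, 0⟩,
  ⟨tE16p1 1, tK16p1 1, tS16p1 1, 0⟩]

end Pool.Agent.Lib.MP_afdd4d_co.K10.RP
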