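import Pool.Agent.Lib.MP_afdd4d_co.K10.RP.T16p1
import Pool.Agent.Lib.MP_afdd4d_co.K10.RP.T17
import Pool.Agent.Lib.MP_afdd4d_co.K10.RP.T17p1
import Pool.Agent.Lib.MP_afdd4d_co.K10.RP.T18
import Pool.Agent.Lib.MP_afdd4d_co.K10.RP.T18p1
import Pool.Agent.Lib.MP_afdd4d_co.K10.RP.T19
import Pool.Agent.Lib.MP_afdd4d_co.K10.RP.T19p1
import Pool.Agent.Lib.MP_afdd4d_co.K10.RP.T19p2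
import Pool.Agent.Lib.MP_afdd4d_co.K10.RP.T20
import Pool.Agent.Lib.MP_afdd4d_co.K10.RP.T20p1
import Pool.Agent.Lib.MP_afdd4d_co.K10.RP.T21
import Pool.Agent.Lib.MP_afdd4d_co.K10.RP.T21p1
import Pool.Agent.Lib.MP_afdd4d_co.K10.RP.T22

/-!
# The views of the class 8
-/

namespace Pool.Agent.Lib.MP_afdd4d_co.K10.RP

open K8

/-- The views of the class 8. -/
def L08 : List Pt.PE := [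
  ⟨tE16p1 2, tK16p1 2, tS16p1 2, 0⟩, ⟨tE16p1 3, tK16p1 3, tS16p1 3, 0⟩,
  ⟨tE17 2, tK17 2, tS17 2, 0⟩, ⟨tE17p1 2, tK17p1 2, tS17p1 2, 0⟩,
  ⟨tE18 1, tK18 1, tS18 1, 0⟩, ⟨tE18 2, tK18 2, tS18 2, 0⟩,
  ⟨tE18p1 1, tK18p1 1, tS18p1 1, 0⟩, ⟨tE18p1 2, tK18p1 2, tS18p1 2, 0⟩,
  ⟨tE19 1, tK19 1, tS19 1, 0⟩, ⟨tE19 2, tK19 2, tS19 2, 0⟩,
  ⟨tE19p1 1, tK19p1 1, tS19p1 1, 0⟩, ⟨tE19p1 2, tK19p1 2, tS19p1 2, 0⟩,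
  ⟨tE19p2 1, tK19p2 1, tS19p2 1, 0⟩, ⟨tE19p2 2, tK19p2 2, tS19p2 2, 0⟩,
  ⟨tE20 1, tK20 1, tS20 1, 0⟩, ⟨tE20 2, tK20 2, tS20 2, 0⟩,
  ⟨tE20p1 1, tK20p1 1, tS20p1 1, 0⟩, ⟨tE20p1 2, tK20p1 2, tS20p1 2, 0⟩,
  ⟨tE21 1, tK21 1, tS21 1, 0⟩, ⟨tE21p1 1, tK21p1 1, tS21p1 1, 0⟩,
  ⟨tE22 1, tK22 1, tS22 1, 0⟩]

end Pool.Agent.Lib.MP_afdd4d_co.K10.RP
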