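import Pool.Agent.Lib.MP_afdd4d_co.K10.RP.T22p1
import Pool.Agent.Lib.MP_afdd4d_co.K10.RP.T23
import Pool.Agent.Lib.MP_afdd4d_co.K10.RP.T23p1
import Pool.Agent.Lib.MP_afdd4d_co.K10.RP.T24
import Pool.Agent.Lib.MP_afdd4d_co.K10.RP.T24p1
import Pool.Agent.Lib.MP_afdd4d_co.K10.RP.T26
import Pool.Agent.Lib.MP_afdd4d_co.K10.RP.T26p1
import Pool.Agent.Lib.MP_afdd4d_co.K10.RP.T27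
import Pool.Agent.Lib.MP_afdd4d_co.K10.RP.T27p1
import Pool.Agent.Lib.MP_afdd4d_co.K10.RP.T28
import Pool.Agent.Lib.MP_afdd4d_co.K10.RP.T29
import Pool.Agent.Lib.MP_afdd4d_co.K10.RP.T29p1
import Pool.Agent.Lib.MP_afdd4d_co.K10.RP.T29p2
import Pool.Agent.Lib.MP_afdd4d_co.K10.RP.T29p3
import Pool.Agent.Lib.MP_afdd4d_co.K10.RP.T30
import Pool.Agent.Lib.MP_afdd4d_co.K10.RP.T30p1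
import Pool.Agent.Lib.MP_afdd4d_co.K10.RP.T31

/-!
# The views of the class 9
-/

namespace Pool.Agent.Lib.MP_afdd4d_co.K10.RP

open K8

/-- The views of the class 9. -/
def L09 : List Pt.PE := [
  ⟨tE22p1 1, tK22p1 1, tS22p1 1, 0⟩, ⟨tE23 1, tK23 1, tS23 1, 0⟩,
  ⟨tE23p1 1, tK23p1 1, tS23p1 1, 0⟩, ⟨tE24 1, tK24 1, tS24 1, 0⟩,
  ⟨tE24 2, tK24 2, tS24 2, 0⟩, ⟨tE24p1 1, tK24p1 1, tS24p1 1, 0⟩,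
  ⟨tE24p1 2, tK24p1 2, tS24p1 2, 0⟩, ⟨tE26 2, tK26 2, tS26 2, 0⟩,
  ⟨tE26p1 2, tK26p1 2, tS26p1 2, 0⟩, ⟨tE27 1, tK27 1, tS27 1, 0⟩,
  ⟨tE27 2, tK27 2, tS27 2, 0⟩, ⟨tE27p1 1, tK27p1 1, tS27p1 1, 0⟩,
  ⟨tE27p1 2, tK27p1 2, tS27p1 2, 0⟩, ⟨tE28 1, tK28 1, tS28 1, 0⟩,
  ⟨tE29 1, tK29 1, tS29 1, 0⟩, ⟨tE29p1 1, tK29p1 1, tS29p1 1, 0⟩,
  ⟨tE29p2 1, tK29p2 1, tS29p2 1, 0⟩, ⟨tE29p3 1, tK29p3 1, tS29p3 1, 0⟩,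
  ⟨tE30 2, tK30 2, tS30 2, 0⟩, ⟨tE30p1 2, tK30p1 2, tS30p1 2, 0⟩,
  ⟨tE31 1, tK31 1, tS31 1, 0⟩]

end Pool.Agent.Lib.MP_afdd4d_co.K10.RP
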