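import Pool.Agent.Lib.MP_afdd4d_co.K10.RP.T31
import Pool.Agent.Lib.MP_afdd4d_co.K10.RP.T31p1
import Pool.Agent.Lib.MP_afdd4d_co.K10.RP.T32
import Pool.Agent.Lib.MP_afdd4d_co.K10.RP.T32p1
import Pool.Agent.Lib.MP_afdd4d_co.K10.RP.T33
import Pool.Agent.Lib.MP_afdd4d_co.K10.RP.T34
import Pool.Agent.Lib.MP_afdd4d_co.K10.RP.T34p1
import Pool.Agent.Lib.MP_afdd4d_co.K10.RP.T35
import Pool.Agent.Lib.MP_afdd4d_co.K10.RP.T35p1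
import Pool.Agent.Lib.MP_afdd4d_co.K10.RP.T36
import Pool.Agent.Lib.MP_afdd4d_co.K10.RP.T37
import Pool.Agent.Lib.MP_afdd4d_co.K10.RP.T39
import Pool.Agent.Lib.MP_afdd4d_co.K10.RP.T40
import Pool.Agent.Lib.MP_afdd4d_co.K10.RP.T41
import Pool.Agent.Lib.MP_afdd4d_co.K10.RP.T42
import Pool.Agent.Lib.MP_afdd4d_co.K10.RP.T43
import Pool.Agent.Lib.MP_afdd4d_co.K10.RP.T44
import Pool.Agent.Lib.MP_afdd4d_co.K10.RP.T46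

/-!
# The views of the class 10
-/

namespace Pool.Agent.Lib.MP_afdd4d_co.K10.RP

open K8

/-- The views of the class 10. -/
def L10 : List Pt.PE := [
  ⟨tE31 2, tK31 2, tS31 2, 0⟩, ⟨tE31p1 1, tK31p1 1, tS31p1 1, 0⟩,
  ⟨tE31p1 2, tK31p1 2, tS31p1 2, 0⟩, ⟨tE32 1, tK32 1, tS32 1, 0⟩,
  ⟨tE32p1 1, tK32p1 1, tS32p1 1, 0⟩, ⟨tE33 1, tK33 1, tS33 1, 0⟩,
  ⟨tE34 1, tK34 1, tS34 1, 0⟩, ⟨tE34p1 1, tK34p1 1, tS34p1 1, 0⟩,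
  ⟨tE35 1, tK35 1, tS35 1, 0⟩, ⟨tE35p1 1, tK35p1 1, tS35p1 1, 0⟩,
  ⟨tE36 1, tK36 1, tS36 1, 0⟩, ⟨tE36 2, tK36 2, tS36 2, 0⟩,
  ⟨tE37 1, tK37 1, tS37 1, 0⟩, ⟨tE39 1, tK39 1, tS39 1, 0⟩,
  ⟨tE40 1, tK40 1, tS40 1, 0⟩, ⟨tE41 1, tK41 1, tS41 1, 0⟩,
  ⟨tE42 1, tK42 1, tS42 1, 0⟩, ⟨tE43 1, tK43 1, tS43 1, 0⟩,
  ⟨tE44 1, tK44 1, tS44 1, 0⟩, ⟨tE46 1, tK46 1, tS46 1, 0⟩]

end Pool.Agent.Lib.MP_afdd4d_co.K10.RP
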