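import Pool.Agent.Lib.MP_afdd4d_co.K10.RP.T03
import Pool.Agent.Lib.MP_afdd4d_co.K10.RP.T03p1
import Pool.Agent.Lib.MP_afdd4d_co.K10.RP.T03p2
import Pool.Agent.Lib.MP_afdd4d_co.K10.RP.T05
import Pool.Agent.Lib.MP_afdd4d_co.K10.RP.T05p1
import Pool.Agent.Lib.MP_afdd4d_co.K10.RP.T05p2
import Pool.Agent.Lib.MP_afdd4d_co.K10.RP.T06
import Pool.Agent.Lib.MP_afdd4d_co.K10.RP.T06p1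
import Pool.Agent.Lib.MP_afdd4d_co.K10.RP.T06p2
import Pool.Agent.Lib.MP_afdd4d_co.K10.RP.T06p3
import Pool.Agent.Lib.MP_afdd4d_co.K10.RP.T07
import Pool.Agent.Lib.MP_afdd4d_co.K10.RP.T07p1
import Pool.Agent.Lib.MP_afdd4d_co.K10.RP.T09
import Pool.Agent.Lib.MP_afdd4d_co.K10.RP.T09p1
import Pool.Agent.Lib.MP_afdd4d_co.K10.RP.T09p2
import Pool.Agent.Lib.MP_afdd4d_co.K10.RP.T09p3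

/-!
# The views of the class 11
-/

namespace Pool.Agent.Lib.MP_afdd4d_co.K10.RP

open K8

/-- The views of the class 11. -/
def L11 : List Pt.PE := [
  ⟨tE03 4, tK03 4, tS03 4, 0⟩, ⟨tE03 5, tK03 5, tS03 5, 0⟩,
  ⟨tE03p1 4, tK03p1 4, tS03p1 4, 0⟩, ⟨tE03p1 5, tK03p1 5, tS03p1 5, 0⟩,
  ⟨tE03p2 4, tK03p2 4, tS03p2 4, 0⟩, ⟨tE03p2 5, tK03p2 5, tS03p2 5, 0⟩,
  ⟨tE05 4, tK05 4, tS05 4, 0⟩, ⟨tE05p1 4, tK05p1 4, tS05p1 4, 0⟩,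
  ⟨tE05p2 4, tK05p2 4, tS05p2 4, 0⟩, ⟨tE06 4, tK06 4, tS06 4, 0⟩,
  ⟨tE06 5, tK06 5, tS06 5, 0⟩, ⟨tE06p1 4, tK06p1 4, tS06p1 4, 0⟩,
  ⟨tE06p1 5, tK06p1 5, tS06p1 5, 0⟩, ⟨tE06p2 4, tK06p2 4, tS06p2 4, 0⟩,
  ⟨tE06p2 5, tK06p2 5, tS06p2 5, 0⟩, ⟨tE06p3 4, tK06p3 4, tS06p3 4, 0⟩,
  ⟨tE06p3 5, tK06p3 5, tS06p3 5, 0⟩, ⟨tE07 2, tK07 2, tS07 2, 0⟩,
  ⟨tE07p1 2, tK07p1 2, tS07p1 2, 0⟩, ⟨tE09 4, tK09 4, tS09 4, 0⟩,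
  ⟨tE09p1 4, tK09p1 4, tS09p1 4, 0⟩, ⟨tE09p2 4, tK09p2 4, tS09p2 4, 0⟩,
  ⟨tE09p3 4, tK09p3 4, tS09p3 4, 0⟩]

end Pool.Agent.Lib.MP_afdd4d_co.K10.RP
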