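import Pool.Agent.Lib.MP_afdd4d_co.K10.RP.T10
import Pool.Agent.Lib.MP_afdd4d_co.K10.RP.T10p1
import Pool.Agent.Lib.MP_afdd4d_co.K10.RP.T11
import Pool.Agent.Lib.MP_afdd4d_co.K10.RP.T11p1
import Pool.Agent.Lib.MP_afdd4d_co.K10.RP.T11p2
import Pool.Agent.Lib.MP_afdd4d_co.K10.RP.T12
import Pool.Agent.Lib.MP_afdd4d_co.K10.RP.T12p1
import Pool.Agent.Lib.MP_afdd4d_co.K10.RP.T12p2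
import Pool.Agent.Lib.MP_afdd4d_co.K10.RP.T14
import Pool.Agent.Lib.MP_afdd4d_co.K10.RP.T14p1
import Pool.Agent.Lib.MP_afdd4d_co.K10.RP.T14p2
import Pool.Agent.Lib.MP_afdd4d_co.K10.RP.T16
import Pool.Agent.Lib.MP_afdd4d_co.K10.RP.T16p1
import Pool.Agent.Lib.MP_afdd4d_co.K10.RP.T17
import Pool.Agent.Lib.MP_afdd4d_co.K10.RP.T17p1
import Pool.Agent.Lib.MP_afdd4d_co.K10.RP.T18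

/-!
# The views of the class 12
-/

namespace Pool.Agent.Lib.MP_afdd4d_co.K10.RP

open K8

/-- The views of the class 12. -/
def L12 : List Pt.PE := [
  ⟨tE10 4, tK10 4, tS10 4, 0⟩, ⟨tE10 5, tK10 5, tS10 5, 0⟩,
  ⟨tE10p1 4, tK10p1 4, tS10p1 4, 0⟩, ⟨tE10p1 5, tK10p1 5, tS10p1 5, 0⟩,
  ⟨tE11 3, tK11 3, tS11 3, 0⟩, ⟨tE11p1 3, tK11p1 3, tS11p1 3, 0⟩,
  ⟨tE11p2 3, tK11p2 3, tS11p2 3, 0⟩, ⟨tE12 3, tK12 3, tS12 3, 0⟩,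
  ⟨tE12 4, tK12 4, tS12 4, 0⟩, ⟨tE12p1 3, tK12p1 3, tS12p1 3, 0⟩,
  ⟨tE12p1 4, tK12p1 4, tS12p1 4, 0⟩, ⟨tE12p2 3, tK12p2 3, tS12p2 3, 0⟩,
  ⟨tE12p2 4, tK12p2 4, tS12p2 4, 0⟩, ⟨tE14 2, tK14 2, tS14 2, 0⟩,
  ⟨tE14p1 2, tK14p1 2, tS14p1 2, 0⟩, ⟨tE14p2 2, tK14p2 2, tS14p2 2, 0⟩,
  ⟨tE16 4, tK16 4, tS16 4, 0⟩, ⟨tE16p1 4, tK16p1 4, tS16p1 4, 0⟩,
  ⟨tE17 3, tK17 3, tS17 3, 0⟩, ⟨tE17p1 3, tK17p1 3, tS17p1 3, 0⟩,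
  ⟨tE18 3, tK18 3, tS18 3, 0⟩, ⟨tE18 4, tK18 4, tS18 4, 0⟩]

end Pool.Agent.Lib.MP_afdd4d_co.K10.RP
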