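import Pool.Agent.Lib.MP_afdd4d_co.K10.RP.T18p1
import Pool.Agent.Lib.MP_afdd4d_co.K10.RP.T19
import Pool.Agent.Lib.MP_afdd4d_co.K10.RP.T19p1
import Pool.Agent.Lib.MP_afdd4d_co.K10.RP.T19p2
import Pool.Agent.Lib.MP_afdd4d_co.K10.RP.T21
import Pool.Agent.Lib.MP_afdd4d_co.K10.RP.T21p1
import Pool.Agent.Lib.MP_afdd4d_co.K10.RP.T22
import Pool.Agent.Lib.MP_afdd4d_co.K10.RP.T22p1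
import Pool.Agent.Lib.MP_afdd4d_co.K10.RP.T23
import Pool.Agent.Lib.MP_afdd4d_co.K10.RP.T23p1
import Pool.Agent.Lib.MP_afdd4d_co.K10.RP.T24
import Pool.Agent.Lib.MP_afdd4d_co.K10.RP.T24p1
import Pool.Agent.Lib.MP_afdd4d_co.K10.RP.T28
import Pool.Agent.Lib.MP_afdd4d_co.K10.RP.T29
import Pool.Agent.Lib.MP_afdd4d_co.K10.RP.T29p1
import Pool.Agent.Lib.MP_afdd4d_co.K10.RP.T29p2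
import Pool.Agent.Lib.MP_afdd4d_co.K10.RP.T29p3
import Pool.Agent.Lib.MP_afdd4d_co.K10.RP.T32
import Pool.Agent.Lib.MP_afdd4d_co.K10.RP.T32p1
import Pool.Agent.Lib.MP_afdd4d_co.K10.RP.T33
import Pool.Agent.Lib.MP_afdd4d_co.K10.RP.T37

/-!
# The views of the class 13
-/

namespace Pool.Agent.Lib.MP_afdd4d_co.K10.RP

open K8

/-- The views of the class 13. -/
def L13 : List Pt.PE := [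
  ⟨tE18p1 3, tK18p1 3, tS18p1 3, 0⟩, ⟨tE18p1 4, tK18p1 4, tS18p1 4, 0⟩,
  ⟨tE19 3, tK19 3, tS19 3, 0⟩, ⟨tE19p1 3, tK19p1 3, tS19p1 3, 0⟩,
  ⟨tE19p2 3, tK19p2 3, tS19p2 3, 0⟩, ⟨tE21 2, tK21 2, tS21 2, 0⟩,
  ⟨tE21p1 2, tK21p1 2, tS21p1 2, 0⟩, ⟨tE22 2, tK22 2, tS22 2, 0⟩,
  ⟨tE22p1 2, tK22p1 2, tS22p1 2, 0⟩, ⟨tE23 2, tK23 2, tS23 2, 0⟩,
  ⟨tE23p1 2, tK23p1 2, tS23p1 2, 0⟩, ⟨tE24 3, tK24 3, tS24 3, 0⟩,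
  ⟨tE24p1 3, tK24p1 3, tS24p1 3, 0⟩, ⟨tE28 2, tK28 2, tS28 2, 0⟩,
  ⟨tE29 2, tK29 2, tS29 2, 0⟩, ⟨tE29p1 2, tK29p1 2, tS29p1 2, 0⟩,
  ⟨tE29p2 2, tK29p2 2, tS29p2 2, 0⟩, ⟨tE29p3 2, tK29p3 2, tS29p3 2, 0⟩,
  ⟨tE32 2, tK32 2, tS32 2, 0⟩, ⟨tE32p1 2, tK32p1 2, tS32p1 2, 0⟩,
  ⟨tE33 2, tK33 2, tS33 2, 0⟩, ⟨tE37 2, tK37 2, tS37 2, 0⟩]

end Pool.Agent.Lib.MP_afdd4d_co.K10.RP
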