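import Pool.Agent.Lib.MP_afdd4d_co.K10.RP.T02
import Pool.Agent.Lib.MP_afdd4d_co.K10.RP.T02p1
import Pool.Agent.Lib.MP_afdd4d_co.K10.RP.T02p2
import Pool.Agent.Lib.MP_afdd4d_co.K10.RP.T02p3
import Pool.Agent.Lib.MP_afdd4d_co.K10.RP.T05
import Pool.Agent.Lib.MP_afdd4d_co.K10.RP.T05p1
import Pool.Agent.Lib.MP_afdd4d_co.K10.RP.T05p2
import Pool.Agent.Lib.MP_afdd4d_co.K10.RP.T09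
import Pool.Agent.Lib.MP_afdd4d_co.K10.RP.T09p1
import Pool.Agent.Lib.MP_afdd4d_co.K10.RP.T09p2

/-!
# The views of the class 14
-/

namespace Pool.Agent.Lib.MP_afdd4d_co.K10.RP

open K8

/-- The views of the class 14. -/
def L14 : List Pt.PE := [
  ⟨tE02 0, tK02 0, tS02 0, 0⟩, ⟨tE02 6, tK02 6, tS02 6, 0⟩,
  ⟨tE02p1 0, tK02p1 0, tS02p1 0, 0⟩, ⟨tE02p1 6, tK02p1 6, tS02p1 6, 0⟩,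
  ⟨tE02p2 0, tK02p2 0, tS02p2 0, 0⟩, ⟨tE02p2 6, tK02p2 6, tS02p2 6, 0⟩,
  ⟨tE02p3 0, tK02p3 0, tS02p3 0, 0⟩, ⟨tE02p3 6, tK02p3 6, tS02p3 6, 0⟩,
  ⟨tE05 5, tK05 5, tS05 5, 0⟩, ⟨tE05p1 5, tK05p1 5, tS05p1 5, 0⟩,
  ⟨tE05p2 5, tK05p2 5, tS05p2 5, 0⟩, ⟨tE09 5, tK09 5, tS09 5, 0⟩,
  ⟨tE09p1 5, tK09p1 5, tS09p1 5, 0⟩, ⟨tE09p2 5, tK09p2 5, tS09p2 5, 0⟩]

end Pool.Agent.Lib.MP_afdd4d_co.K10.RP
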