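import Pool.Agent.Lib.MP_afdd4d_co.K10.RP.T09p3
import Pool.Agent.Lib.MP_afdd4d_co.K10.RP.T11
import Pool.Agent.Lib.MP_afdd4d_co.K10.RP.T11p1
import Pool.Agent.Lib.MP_afdd4d_co.K10.RP.T11p2
import Pool.Agent.Lib.MP_afdd4d_co.K10.RP.T16
import Pool.Agent.Lib.MP_afdd4d_co.K10.RP.T16p1
import Pool.Agent.Lib.MP_afdd4d_co.K10.RP.T17
import Pool.Agent.Lib.MP_afdd4d_co.K10.RP.T17p1
import Pool.Agent.Lib.MP_afdd4d_co.K10.RP.T19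
import Pool.Agent.Lib.MP_afdd4d_co.K10.RP.T19p1
import Pool.Agent.Lib.MP_afdd4d_co.K10.RP.T19p2
import Pool.Agent.Lib.MP_afdd4d_co.K10.RP.T24
import Pool.Agent.Lib.MP_afdd4d_co.K10.RP.T24p1

/-!
# The views of the class 15
-/

namespace Pool.Agent.Lib.MP_afdd4d_co.K10.RP

open K8

/-- The views of the class 15. -/
def L15 : List Pt.PE := [
  ⟨tE09p3 5, tK09p3 5, tS09p3 5, 0⟩, ⟨tE11 4, tK11 4, tS11 4, 0⟩,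
  ⟨tE11p1 4, tK11p1 4, tS11p1 4, 0⟩, ⟨tE11p2 4, tK11p2 4, tS11p2 4, 0⟩,
  ⟨tE16 5, tK16 5, tS16 5, 0⟩, ⟨tE16p1 5, tK16p1 5, tS16p1 5, 0⟩,
  ⟨tE17 4, tK17 4, tS17 4, 0⟩, ⟨tE17p1 4, tK17p1 4, tS17p1 4, 0⟩,
  ⟨tE19 4, tK19 4, tS19 4, 0⟩, ⟨tE19p1 4, tK19p1 4, tS19p1 4, 0⟩,
  ⟨tE19p2 4, tK19p2 4, tS19p2 4, 0⟩, ⟨tE24 4, tK24 4, tS24 4, 0⟩,
  ⟨tE24p1 4, tK24p1 4, tS24p1 4, 0⟩]

end Pool.Agent.Lib.MP_afdd4d_co.K10.RP
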