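import Pool.Agent.Lib.MP_afdd4d_co.K10.RP.T03
import Pool.Agent.Lib.MP_afdd4d_co.K10.RP.T03p1
import Pool.Agent.Lib.MP_afdd4d_co.K10.RP.T03p2
import Pool.Agent.Lib.MP_afdd4d_co.K10.RP.T07
import Pool.Agent.Lib.MP_afdd4d_co.K10.RP.T07p1
import Pool.Agent.Lib.MP_afdd4d_co.K10.RP.T14
import Pool.Agent.Lib.MP_afdd4d_co.K10.RP.T14p1
import Pool.Agent.Lib.MP_afdd4d_co.K10.RP.T14p2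
import Pool.Agent.Lib.MP_afdd4d_co.K10.RP.T21
import Pool.Agent.Lib.MP_afdd4d_co.K10.RP.T21p1
import Pool.Agent.Lib.MP_afdd4d_co.K10.RP.T28

/-!
# The views of the class 16
-/

namespace Pool.Agent.Lib.MP_afdd4d_co.K10.RP

open K8

/-- The views of the class 16. -/
def L16 : List Pt.PE := [
  ⟨tE03 6, tK03 6, tS03 6, 0⟩, ⟨tE03p1 6, tK03p1 6, tS03p1 6, 0⟩,
  ⟨tE03p2 6, tK03p2 6, tS03p2 6, 0⟩, ⟨tE07 3, tK07 3, tS07 3, 0⟩,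
  ⟨tE07 4, tK07 4, tS07 4, 0⟩, ⟨tE07p1 3, tK07p1 3, tS07p1 3, 0⟩,
  ⟨tE07p1 4, tK07p1 4, tS07p1 4, 0⟩, ⟨tE14 3, tK14 3, tS14 3, 0⟩,
  ⟨tE14 4, tK14 4, tS14 4, 0⟩, ⟨tE14p1 3, tK14p1 3, tS14p1 3, 0⟩,
  ⟨tE14p1 4, tK14p1 4, tS14p1 4, 0⟩, ⟨tE14p2 3, tK14p2 3, tS14p2 3, 0⟩,
  ⟨tE14p2 4, tK14p2 4, tS14p2 4, 0⟩, ⟨tE21 3, tK21 3, tS21 3, 0⟩,
  ⟨tE21p1 3, tK21p1 3, tS21p1 3, 0⟩, ⟨tE28 3, tK28 3, tS28 3, 0⟩]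

end Pool.Agent.Lib.MP_afdd4d_co.K10.RP
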