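import Pool.Agent.Lib.MP_afdd4d_co.K10.RP.T05
import Pool.Agent.Lib.MP_afdd4d_co.K10.RP.T05p1
import Pool.Agent.Lib.MP_afdd4d_co.K10.RP.T05p2
import Pool.Agent.Lib.MP_afdd4d_co.K10.RP.T21
import Pool.Agent.Lib.MP_afdd4d_co.K10.RP.T21p1
import Pool.Agent.Lib.MP_afdd4d_co.K10.RP.T22
import Pool.Agent.Lib.MP_afdd4d_co.K10.RP.T22p1
import Pool.Agent.Lib.MP_afdd4d_co.K10.RP.T23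
import Pool.Agent.Lib.MP_afdd4d_co.K10.RP.T23p1
import Pool.Agent.Lib.MP_afdd4d_co.K10.RP.T29
import Pool.Agent.Lib.MP_afdd4d_co.K10.RP.T29p1
import Pool.Agent.Lib.MP_afdd4d_co.K10.RP.T29p2
import Pool.Agent.Lib.MP_afdd4d_co.K10.RP.T29p3
import Pool.Agent.Lib.MP_afdd4d_co.K10.RP.T32
import Pool.Agent.Lib.MP_afdd4d_co.K10.RP.T32p1

/-!
# The views of the class 17
-/

namespace Pool.Agent.Lib.MP_afdd4d_co.K10.RP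

open K8

/-- The views of the class 17. -/
def L17 : List Pt.PE := [
  ⟨tE05 6, tK05 6, tS05 6, 0⟩, ⟨tE05p1 6, tK05p1 6, tS05p1 6, 0⟩,
  ⟨tE05p2 6, tK05p2 6, tS05p2 6, 0⟩, ⟨tE21 4, tK21 4, tS21 4, 0⟩,
  ⟨tE21p1 4, tK21p1 4, tS21p1 4, 0⟩, ⟨tE22 3, tK22 3, tS22 3, 0⟩,
  ⟨tE22 4, tK22 4, tS22 4, 0⟩, ⟨tE22p1 3, tK22p1 3, tS22p1 3, 0⟩,
  ⟨tE22p1 4, tK22p1 4, tS22p1 4, 0⟩, ⟨tE23 3, tK23 3, tS23 3, 0⟩,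
  ⟨tE23p1 3, tK23p1 3, tS23p1 3, 0⟩, ⟨tE29 3, tK29 3, tS29 3, 0⟩,
  ⟨tE29p1 3, tK29p1 3, tS29p1 3, 0⟩, ⟨tE29p2 3, tK29p2 3, tS29p2 3, 0⟩,
  ⟨tE29p3 3, tK29p3 3, tS29p3 3, 0⟩, ⟨tE32 3, tK32 3, tS32 3, 0⟩,
  ⟨tE32p1 3, tK32p1 3, tS32p1 3, 0⟩]

end Pool.Agent.Lib.MP_afdd4d_co.K10.RP
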