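import Pool.Agent.Lib.MP_afdd4d_co.K10.RP.T05
import Pool.Agent.Lib.MP_afdd4d_co.K10.RP.T05p1
import Pool.Agent.Lib.MP_afdd4d_co.K10.RP.T05p2
import Pool.Agent.Lib.MP_afdd4d_co.K10.RP.T11
import Pool.Agent.Lib.MP_afdd4d_co.K10.RP.T11p1
import Pool.Agent.Lib.MP_afdd4d_co.K10.RP.T11p2
import Pool.Agent.Lib.MP_afdd4d_co.K10.RP.T12
import Pool.Agent.Lib.MP_afdd4d_co.K10.RP.T12p1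
import Pool.Agent.Lib.MP_afdd4d_co.K10.RP.T12p2
import Pool.Agent.Lib.MP_afdd4d_co.K10.RP.T13
import Pool.Agent.Lib.MP_afdd4d_co.K10.RP.T13p1
import Pool.Agent.Lib.MP_afdd4d_co.K10.RP.T19
import Pool.Agent.Lib.MP_afdd4d_co.K10.RP.T19p1
import Pool.Agent.Lib.MP_afdd4d_co.K10.RP.T19p2
import Pool.Agent.Lib.MP_afdd4d_co.K10.RP.T20

/-!
# The views of the class 18
-/

namespace Pool.Agent.Lib.MP_afdd4d_co.K10.RP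

open K8

/-- The views of the class 18. -/
def L18 : List Pt.PE := [
  ⟨tE05 0, tK05 0, tS05 0, 1⟩, ⟨tE05p1 0, tK05p1 0, tS05p1 0, 1⟩,
  ⟨tE05p2 0, tK05p2 0, tS05p2 0, 1⟩, ⟨tE11 5, tK11 5, tS11 5, 0⟩,
  ⟨tE11p1 5, tK11p1 5, tS11p1 5, 0⟩, ⟨tE11p2 5, tK11p2 5, tS11p2 5, 0⟩,
  ⟨tE12 5, tK12 5, tS12 5, 0⟩, ⟨tE12p1 5, tK12p1 5, tS12p1 5, 0⟩,
  ⟨tE12p2 5, tK12p2 5, tS12p2 5, 0⟩, ⟨tE13 3, tK13 3, tS13 3, 0⟩,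
  ⟨tE13 4, tK13 4, tS13 4, 0⟩, ⟨tE13 5, tK13 5, tS13 5, 0⟩,
  ⟨tE13p1 3, tK13p1 3, tS13p1 3, 0⟩, ⟨tE13p1 4, tK13p1 4, tS13p1 4, 0⟩,
  ⟨tE13p1 5, tK13p1 5, tS13p1 5, 0⟩, ⟨tE19 5, tK19 5, tS19 5, 0⟩,
  ⟨tE19p1 5, tK19p1 5, tS19p1 5, 0⟩, ⟨tE19p2 5, tK19p2 5, tS19p2 5, 0⟩,
  ⟨tE20 3, tK20 3, tS20 3, 0⟩, ⟨tE20 4, tK20 4, tS20 4, 0⟩,
  ⟨tE20 5, tK20 5, tS20 5, 0⟩]

end Pool.Agent.Lib.MP_afdd4d_co.K10.RP
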