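import Pool.Agent.Lib.MP_afdd4d_co.K10.RP.T20p1
import Pool.Agent.Lib.MP_afdd4d_co.K10.RP.T23
import Pool.Agent.Lib.MP_afdd4d_co.K10.RP.T23p1
import Pool.Agent.Lib.MP_afdd4d_co.K10.RP.T26
import Pool.Agent.Lib.MP_afdd4d_co.K10.RP.T26p1
import Pool.Agent.Lib.MP_afdd4d_co.K10.RP.T27
import Pool.Agent.Lib.MP_afdd4d_co.K10.RP.T27p1
import Pool.Agent.Lib.MP_afdd4d_co.K10.RP.T29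
import Pool.Agent.Lib.MP_afdd4d_co.K10.RP.T29p1
import Pool.Agent.Lib.MP_afdd4d_co.K10.RP.T29p2
import Pool.Agent.Lib.MP_afdd4d_co.K10.RP.T29p3
import Pool.Agent.Lib.MP_afdd4d_co.K10.RP.T31
import Pool.Agent.Lib.MP_afdd4d_co.K10.RP.T31p1
import Pool.Agent.Lib.MP_afdd4d_co.K10.RP.T34
import Pool.Agent.Lib.MP_afdd4d_co.K10.RP.T34p1
import Pool.Agent.Lib.MP_afdd4d_co.K10.RP.T39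
import Pool.Agent.Lib.MP_afdd4d_co.K10.RP.T40

/-!
# The views of the class 19
-/

namespace Pool.Agent.Lib.MP_afdd4d_co.K10.RP

open K8

/-- The views of the class 19. -/
def L19 : List Pt.PE := [
  ⟨tE20p1 3, tK20p1 3, tS20p1 3, 0⟩, ⟨tE20p1 4, tK20p1 4, tS20p1 4, 0⟩,
  ⟨tE20p1 5, tK20p1 5, tS20p1 5, 0⟩, ⟨tE23 4, tK23 4, tS23 4, 0⟩,
  ⟨tE23p1 4, tK23p1 4, tS23p1 4, 0⟩, ⟨tE26 3, tK26 3, tS26 3, 0⟩,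
  ⟨tE26p1 3, tK26p1 3, tS26p1 3, 0⟩, ⟨tE27 3, tK27 3, tS27 3, 0⟩,
  ⟨tE27 4, tK27 4, tS27 4, 0⟩, ⟨tE27p1 3, tK27p1 3, tS27p1 3, 0⟩,
  ⟨tE27p1 4, tK27p1 4, tS27p1 4, 0⟩, ⟨tE29 4, tK29 4, tS29 4, 0⟩,
  ⟨tE29p1 4, tK29p1 4, tS29p1 4, 0⟩, ⟨tE29p2 4, tK29p2 4, tS29p2 4, 0⟩,
  ⟨tE29p3 4, tK29p3 4, tS29p3 4, 0⟩, ⟨tE31 3, tK31 3, tS31 3, 0⟩,
  ⟨tE31p1 3, tK31p1 3, tS31p1 3, 0⟩, ⟨tE34 2, tK34 2, tS34 2, 0⟩,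
  ⟨tE34p1 2, tK34p1 2, tS34p1 2, 0⟩, ⟨tE39 2, tK39 2, tS39 2, 0⟩,
  ⟨tE40 2, tK40 2, tS40 2, 0⟩]

end Pool.Agent.Lib.MP_afdd4d_co.K10.RP
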