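import Pool.Agent.Lib.MP_afdd4d_co.K10.RP.T03
import Pool.Agent.Lib.MP_afdd4d_co.K10.RP.T03p1
import Pool.Agent.Lib.MP_afdd4d_co.K10.RP.T03p2
import Pool.Agent.Lib.MP_afdd4d_co.K10.RP.T04
import Pool.Agent.Lib.MP_afdd4d_co.K10.RP.T04p1
import Pool.Agent.Lib.MP_afdd4d_co.K10.RP.T04p2
import Pool.Agent.Lib.MP_afdd4d_co.K10.RP.T17
import Pool.Agent.Lib.MP_afdd4d_co.K10.RP.T17p1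
import Pool.Agent.Lib.MP_afdd4d_co.K10.RP.T18
import Pool.Agent.Lib.MP_afdd4d_co.K10.RP.T18p1
import Pool.Agent.Lib.MP_afdd4d_co.K10.RP.T24
import Pool.Agent.Lib.MP_afdd4d_co.K10.RP.T24p1
import Pool.Agent.Lib.MP_afdd4d_co.K10.RP.T25

/-!
# The views of the class 20
-/

namespace Pool.Agent.Lib.MP_afdd4d_co.K10.RP

open K8

/-- The views of the class 20. -/
def L20 : List Pt.PE := [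
  ⟨tE03 0, tK03 0, tS03 0, 1⟩, ⟨tE03p1 0, tK03p1 0, tS03p1 0, 1⟩,
  ⟨tE03p2 0, tK03p2 0, tS03p2 0, 1⟩, ⟨tE04 0, tK04 0, tS04 0, 0⟩,
  ⟨tE04 6, tK04 6, tS04 6, 0⟩, ⟨tE04p1 0, tK04p1 0, tS04p1 0, 0⟩,
  ⟨tE04p1 6, tK04p1 6, tS04p1 6, 0⟩, ⟨tE04p2 0, tK04p2 0, tS04p2 0, 0⟩,
  ⟨tE04p2 6, tK04p2 6, tS04p2 6, 0⟩, ⟨tE17 5, tK17 5, tS17 5, 0⟩,
  ⟨tE17p1 5, tK17p1 5, tS17p1 5, 0⟩, ⟨tE18 5, tK18 5, tS18 5, 0⟩,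
  ⟨tE18p1 5, tK18p1 5, tS18p1 5, 0⟩, ⟨tE24 5, tK24 5, tS24 5, 0⟩,
  ⟨tE24p1 5, tK24p1 5, tS24p1 5, 0⟩, ⟨tE25 0, tK25 0, tS25 0, 19⟩,
  ⟨tE25 3, tK25 3, tS25 3, 0⟩, ⟨tE25 4, tK25 4, tS25 4, 0⟩,
  ⟨tE25 5, tK25 5, tS25 5, 0⟩]

end Pool.Agent.Lib.MP_afdd4d_co.K10.RP
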