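import Pool.Agent.Lib.MP_afdd4d_co.K10.RP.T25
import Pool.Agent.Lib.MP_afdd4d_co.K10.RP.T25p1
import Pool.Agent.Lib.MP_afdd4d_co.K10.RP.T26
import Pool.Agent.Lib.MP_afdd4d_co.K10.RP.T26p1
import Pool.Agent.Lib.MP_afdd4d_co.K10.RP.T27
import Pool.Agent.Lib.MP_afdd4d_co.K10.RP.T27p1
import Pool.Agent.Lib.MP_afdd4d_co.K10.RP.T28
import Pool.Agent.Lib.MP_afdd4d_co.K10.RP.T30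
import Pool.Agent.Lib.MP_afdd4d_co.K10.RP.T30p1

/-!
# The views of the class 21
-/

namespace Pool.Agent.Lib.MP_afdd4d_co.K10.RP

open K8

/-- The views of the class 21. -/
def L21 : List Pt.PE := [
  ⟨tE25 6, tK25 6, tS25 6, 0⟩, ⟨tE25p1 0, tK25p1 0, tS25p1 0, 19⟩,
  ⟨tE25p1 3, tK25p1 3, tS25p1 3, 0⟩, ⟨tE25p1 4, tK25p1 4, tS25p1 4, 0⟩,
  ⟨tE25p1 5, tK25p1 5, tS25p1 5, 0⟩, ⟨tE25p1 6, tK25p1 6, tS25p1 6, 0⟩,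
  ⟨tE26 4, tK26 4, tS26 4, 0⟩, ⟨tE26 5, tK26 5, tS26 5, 0⟩,
  ⟨tE26p1 4, tK26p1 4, tS26p1 4, 0⟩, ⟨tE26p1 5, tK26p1 5, tS26p1 5, 0⟩,
  ⟨tE27 5, tK27 5, tS27 5, 0⟩, ⟨tE27p1 5, tK27p1 5, tS27p1 5, 0⟩,
  ⟨tE28 4, tK28 4, tS28 4, 0⟩, ⟨tE30 3, tK30 3, tS30 3, 0⟩,
  ⟨tE30 4, tK30 4, tS30 4, 0⟩, ⟨tE30 5, tK30 5, tS30 5, 0⟩,
  ⟨tE30p1 3, tK30p1 3, tS30p1 3, 0⟩, ⟨tE30p1 4, tK30p1 4, tS30p1 4, 0⟩,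
  ⟨tE30p1 5, tK30p1 5, tS30p1 5, 0⟩]

end Pool.Agent.Lib.MP_afdd4d_co.K10.RP
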