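import Pool.Agent.Lib.MP_afdd4d_co.K10.RP.T31
import Pool.Agent.Lib.MP_afdd4d_co.K10.RP.T31p1
import Pool.Agent.Lib.MP_afdd4d_co.K10.RP.T32
import Pool.Agent.Lib.MP_afdd4d_co.K10.RP.T32p1
import Pool.Agent.Lib.MP_afdd4d_co.K10.RP.T33
import Pool.Agent.Lib.MP_afdd4d_co.K10.RP.T34
import Pool.Agent.Lib.MP_afdd4d_co.K10.RP.T34p1
import Pool.Agent.Lib.MP_afdd4d_co.K10.RP.T36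
import Pool.Agent.Lib.MP_afdd4d_co.K10.RP.T37
import Pool.Agent.Lib.MP_afdd4d_co.K10.RP.T38
import Pool.Agent.Lib.MP_afdd4d_co.K10.RP.T39
import Pool.Agent.Lib.MP_afdd4d_co.K10.RP.T40

/-!
# The views of the class 22
-/

namespace Pool.Agent.Lib.MP_afdd4d_co.K10.RP

open K8

/-- The views of the class 22. -/
def L22 : List Pt.PE := [
  ⟨tE31 4, tK31 4, tS31 4, 0⟩, ⟨tE31 5, tK31 5, tS31 5, 0⟩,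
  ⟨tE31p1 4, tK31p1 4, tS31p1 4, 0⟩, ⟨tE31p1 5, tK31p1 5, tS31p1 5, 0⟩,
  ⟨tE32 4, tK32 4, tS32 4, 0⟩, ⟨tE32p1 4, tK32p1 4, tS32p1 4, 0⟩,
  ⟨tE33 3, tK33 3, tS33 3, 0⟩, ⟨tE33 4, tK33 4, tS33 4, 0⟩,
  ⟨tE34 3, tK34 3, tS34 3, 0⟩, ⟨tE34p1 3, tK34p1 3, tS34p1 3, 0⟩,
  ⟨tE36 3, tK36 3, tS36 3, 0⟩, ⟨tE36 4, tK36 4, tS36 4, 0⟩,
  ⟨tE36 5, tK36 5, tS36 5, 0⟩, ⟨tE37 3, tK37 3, tS37 3, 0⟩,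
  ⟨tE37 4, tK37 4, tS37 4, 0⟩, ⟨tE38 2, tK38 2, tS38 2, 0⟩,
  ⟨tE38 3, tK38 3, tS38 3, 0⟩, ⟨tE39 3, tK39 3, tS39 3, 0⟩,
  ⟨tE40 3, tK40 3, tS40 3, 0⟩]

end Pool.Agent.Lib.MP_afdd4d_co.K10.RP
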