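import Pool.Agent.Lib.MP_afdd4d_co.K10.RP.T41
import Pool.Agent.Lib.MP_afdd4d_co.K10.RP.T43
import Pool.Agent.Lib.MP_afdd4d_co.K10.RP.T44
import Pool.Agent.Lib.MP_afdd4d_co.K10.RP.T45
import Pool.Agent.Lib.MP_afdd4d_co.K10.RP.T47
import Pool.Agent.Lib.MP_afdd4d_co.K10.RP.T48
import Pool.Agent.Lib.MP_afdd4d_co.K10.RP.T49
import Pool.Agent.Lib.MP_afdd4d_co.K10.RP.T50
import Pool.Agent.Lib.MP_afdd4d_co.K10.RP.T51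
import Pool.Agent.Lib.MP_afdd4d_co.K10.RP.T52

/-!
# The views of the class 23
-/

namespace Pool.Agent.Lib.MP_afdd4d_co.K10.RP

open K8

/-- The views of the class 23. -/
def L23 : List Pt.PE := [
  ⟨tE41 2, tK41 2, tS41 2, 0⟩, ⟨tE41 3, tK41 3, tS41 3, 0⟩,
  ⟨tE43 2, tK43 2, tS43 2, 0⟩, ⟨tE43 3, tK43 3, tS43 3, 0⟩,
  ⟨tE44 2, tK44 2, tS44 2, 0⟩, ⟨tE44 3, tK44 3, tS44 3, 0⟩,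
  ⟨tE45 1, tK45 1, tS45 1, 0⟩, ⟨tE45 2, tK45 2, tS45 2, 0⟩,
  ⟨tE45 3, tK45 3, tS45 3, 0⟩, ⟨tE47 1, tK47 1, tS47 1, 0⟩,
  ⟨tE48 1, tK48 1, tS48 1, 0⟩, ⟨tE48 2, tK48 2, tS48 2, 0⟩,
  ⟨tE48 3, tK48 3, tS48 3, 0⟩, ⟨tE49 1, tK49 1, tS49 1, 0⟩,
  ⟨tE50 1, tK50 1, tS50 1, 0⟩, ⟨tE51 1, tK51 1, tS51 1, 0⟩,
  ⟨tE52 1, tK52 1, tS52 1, 0⟩, ⟨tE52 2, tK52 2, tS52 2, 0⟩,
  ⟨tE52 3, tK52 3, tS52 3, 0⟩]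

end Pool.Agent.Lib.MP_afdd4d_co.K10.RP
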