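import Pool.Agent.Lib.MP_afdd4d_co.K10.RP.T07
import Pool.Agent.Lib.MP_afdd4d_co.K10.RP.T07p1
import Pool.Agent.Lib.MP_afdd4d_co.K10.RP.T13
import Pool.Agent.Lib.MP_afdd4d_co.K10.RP.T13p1
import Pool.Agent.Lib.MP_afdd4d_co.K10.RP.T22
import Pool.Agent.Lib.MP_afdd4d_co.K10.RP.T22p1

/-!
# The views of the class 24
-/

namespace Pool.Agent.Lib.MP_afdd4d_co.K10.RP

open K8

/-- The views of the class 24. -/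
def L24 : List Pt.PE := [
  ⟨tE07 5, tK07 5, tS07 5, 0⟩, ⟨tE07p1 5, tK07p1 5, tS07p1 5, 0⟩,
  ⟨tE13 0, tK13 0, tS13 0, 19⟩, ⟨tE13 6, tK13 6, tS13 6, 0⟩,
  ⟨tE13p1 0, tK13p1 0, tS13p1 0, 19⟩, ⟨tE13p1 6, tK13p1 6, tS13p1 6, 0⟩,
  ⟨tE22 5, tK22 5, tS22 5, 0⟩, ⟨tE22p1 5, tK22p1 5, tS22p1 5, 0⟩]

end Pool.Agent.Lib.MP_afdd4d_co.K10.RP
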