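import Pool.Agent.Lib.MP_afdd4d_co.K10.RP.T14
import Pool.Agent.Lib.MP_afdd4d_co.K10.RP.T14p1
import Pool.Agent.Lib.MP_afdd4d_co.K10.RP.T14p2
import Pool.Agent.Lib.MP_afdd4d_co.K10.RP.T21
import Pool.Agent.Lib.MP_afdd4d_co.K10.RP.T21p1

/-!
# The views of the class 25
-/

namespace Pool.Agent.Lib.MP_afdd4d_co.K10.RP

open K8

/-- The views of the class 25. -/
def L25 : List Pt.PE := [
  ⟨tE14 5, tK14 5, tS14 5, 0⟩, ⟨tE14p1 5, tK14p1 5, tS14p1 5, 0⟩,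
  ⟨tE14p2 5, tK14p2 5, tS14p2 5, 0⟩, ⟨tE21 5, tK21 5, tS21 5, 0⟩,
  ⟨tE21p1 5, tK21p1 5, tS21p1 5, 0⟩]

end Pool.Agent.Lib.MP_afdd4d_co.K10.RP
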