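import Pool.Agent.Lib.MP_afdd4d_co.K10.RP.T11
import Pool.Agent.Lib.MP_afdd4d_co.K10.RP.T11p1
import Pool.Agent.Lib.MP_afdd4d_co.K10.RP.T11p2
import Pool.Agent.Lib.MP_afdd4d_co.K10.RP.T23
import Pool.Agent.Lib.MP_afdd4d_co.K10.RP.T23p1

/-!
# The views of the class 26
-/

namespace Pool.Agent.Lib.MP_afdd4d_co.K10.RP

open K8

/-- The views of the class 26. -/
def L26 : List Pt.PE := [
  ⟨tE11 6, tK11 6, tS11 6, 0⟩, ⟨tE11p1 6, tK11p1 6, tS11p1 6, 0⟩,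
  ⟨tE11p2 6, tK11p2 6, tS11p2 6, 0⟩, ⟨tE23 5, tK23 5, tS23 5, 0⟩,
  ⟨tE23p1 5, tK23p1 5, tS23p1 5, 0⟩]

end Pool.Agent.Lib.MP_afdd4d_co.K10.RP
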