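import Pool.Agent.Lib.MP_afdd4d_co.K10.RP.T17
import Pool.Agent.Lib.MP_afdd4d_co.K10.RP.T17p1
import Pool.Agent.Lib.MP_afdd4d_co.K10.RP.T26
import Pool.Agent.Lib.MP_afdd4d_co.K10.RP.T26p1
import Pool.Agent.Lib.MP_afdd4d_co.K10.RP.T28
import Pool.Agent.Lib.MP_afdd4d_co.K10.RP.T29
import Pool.Agent.Lib.MP_afdd4d_co.K10.RP.T29p1
import Pool.Agent.Lib.MP_afdd4d_co.K10.RP.T29p2
import Pool.Agent.Lib.MP_afdd4d_co.K10.RP.T29p3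
import Pool.Agent.Lib.MP_afdd4d_co.K10.RP.T32
import Pool.Agent.Lib.MP_afdd4d_co.K10.RP.T32p1
import Pool.Agent.Lib.MP_afdd4d_co.K10.RP.T47
import Pool.Agent.Lib.MP_afdd4d_co.K10.RP.T49
import Pool.Agent.Lib.MP_afdd4d_co.K10.RP.T50
import Pool.Agent.Lib.MP_afdd4d_co.K10.RP.T51

/-!
# The views of the class 27
-/

namespace Pool.Agent.Lib.MP_afdd4d_co.K10.RP

open K8

/-- The views of the class 27. -/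
def L27 : List Pt.PE := [
  ⟨tE17 6, tK17 6, tS17 6, 0⟩, ⟨tE17p1 6, tK17p1 6, tS17p1 6, 0⟩,
  ⟨tE26 0, tK26 0, tS26 0, 19⟩, ⟨tE26 6, tK26 6, tS26 6, 0⟩,
  ⟨tE26p1 0, tK26p1 0, tS26p1 0, 19⟩, ⟨tE26p1 6, tK26p1 6, tS26p1 6, 0⟩,
  ⟨tE28 5, tK28 5, tS28 5, 0⟩, ⟨tE29 5, tK29 5, tS29 5, 0⟩,
  ⟨tE29p1 5, tK29p1 5, tS29p1 5, 0⟩, ⟨tE29p2 5, tK29p2 5, tS29p2 5, 0⟩,
  ⟨tE29p3 5, tK29p3 5, tS29p3 5, 0⟩, ⟨tE32 5, tK32 5, tS32 5, 0⟩,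
  ⟨tE32p1 5, tK32p1 5, tS32p1 5, 0⟩, ⟨tE47 2, tK47 2, tS47 2, 0⟩,
  ⟨tE49 2, tK49 2, tS49 2, 0⟩, ⟨tE50 2, tK50 2, tS50 2, 0⟩,
  ⟨tE51 2, tK51 2, tS51 2, 0⟩, ⟨tE51 3, tK51 3, tS51 3, 0⟩]

end Pool.Agent.Lib.MP_afdd4d_co.K10.RP
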