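import Pool.Agent.Lib.MP_afdd4d_co.K10.RP.T06
import Pool.Agent.Lib.MP_afdd4d_co.K10.RP.T06p1
import Pool.Agent.Lib.MP_afdd4d_co.K10.RP.T06p2
import Pool.Agent.Lib.MP_afdd4d_co.K10.RP.T06p3
import Pool.Agent.Lib.MP_afdd4d_co.K10.RP.T11
import Pool.Agent.Lib.MP_afdd4d_co.K10.RP.T11p1
import Pool.Agent.Lib.MP_afdd4d_co.K10.RP.T11p2
import Pool.Agent.Lib.MP_afdd4d_co.K10.RP.T34
import Pool.Agent.Lib.MP_afdd4d_co.K10.RP.T34p1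

/-!
# The views of the class 28
-/

namespace Pool.Agent.Lib.MP_afdd4d_co.K10.RP

open K8

/-- The views of the class 28. -/
def L28 : List Pt.PE := [
  ⟨tE06 6, tK06 6, tS06 6, 0⟩, ⟨tE06p1 6, tK06p1 6, tS06p1 6, 0⟩,
  ⟨tE06p2 6, tK06p2 6, tS06p2 6, 0⟩, ⟨tE06p3 6, tK06p3 6, tS06p3 6, 0⟩,
  ⟨tE11 0, tK11 0, tS11 0, 3⟩, ⟨tE11p1 0, tK11p1 0, tS11p1 0, 3⟩,
  ⟨tE11p2 0, tK11p2 0, tS11p2 0, 3⟩, ⟨tE34 4, tK34 4, tS34 4, 0⟩,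
  ⟨tE34p1 4, tK34p1 4, tS34p1 4, 0⟩]

end Pool.Agent.Lib.MP_afdd4d_co.K10.RP
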