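import Pool.Agent.Lib.MP_afdd4d_co.K10.RP.T09
import Pool.Agent.Lib.MP_afdd4d_co.K10.RP.T09p1
import Pool.Agent.Lib.MP_afdd4d_co.K10.RP.T09p2
import Pool.Agent.Lib.MP_afdd4d_co.K10.RP.T09p3
import Pool.Agent.Lib.MP_afdd4d_co.K10.RP.T17
import Pool.Agent.Lib.MP_afdd4d_co.K10.RP.T17p1
import Pool.Agent.Lib.MP_afdd4d_co.K10.RP.T34
import Pool.Agent.Lib.MP_afdd4d_co.K10.RP.T34p1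
import Pool.Agent.Lib.MP_afdd4d_co.K10.RP.T38
import Pool.Agent.Lib.MP_afdd4d_co.K10.RP.T39
import Pool.Agent.Lib.MP_afdd4d_co.K10.RP.T43
import Pool.Agent.Lib.MP_afdd4d_co.K10.RP.T47
import Pool.Agent.Lib.MP_afdd4d_co.K10.RP.T49
import Pool.Agent.Lib.MP_afdd4d_co.K10.RP.T50

/-!
# The views of the class 29
-/

namespace Pool.Agent.Lib.MP_afdd4d_co.K10.RP

open K8

/-- The views of the class 29. -/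
def L29 : List Pt.PE := [
  ⟨tE09 6, tK09 6, tS09 6, 0⟩, ⟨tE09p1 6, tK09p1 6, tS09p1 6, 0⟩,
  ⟨tE09p2 6, tK09p2 6, tS09p2 6, 0⟩, ⟨tE09p3 6, tK09p3 6, tS09p3 6, 0⟩,
  ⟨tE17 0, tK17 0, tS17 0, 3⟩, ⟨tE17p1 0, tK17p1 0, tS17p1 0, 3⟩,
  ⟨tE34 5, tK34 5, tS34 5, 0⟩, ⟨tE34p1 5, tK34p1 5, tS34p1 5, 0⟩,
  ⟨tE38 4, tK38 4, tS38 4, 0⟩, ⟨tE38 5, tK38 5, tS38 5, 0⟩,
  ⟨tE39 4, tK39 4, tS39 4, 0⟩, ⟨tE39 5, tK39 5, tS39 5, 0⟩,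
  ⟨tE43 4, tK43 4, tS43 4, 0⟩, ⟨tE43 5, tK43 5, tS43 5, 0⟩,
  ⟨tE47 3, tK47 3, tS47 3, 0⟩, ⟨tE49 3, tK49 3, tS49 3, 0⟩,
  ⟨tE50 3, tK50 3, tS50 3, 0⟩]

end Pool.Agent.Lib.MP_afdd4d_co.K10.RP
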