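import Pool.Agent.Lib.MP_afdd4d_co.K10.RP.T09
import Pool.Agent.Lib.MP_afdd4d_co.K10.RP.T09p1
import Pool.Agent.Lib.MP_afdd4d_co.K10.RP.T09p2
import Pool.Agent.Lib.MP_afdd4d_co.K10.RP.T09p3
import Pool.Agent.Lib.MP_afdd4d_co.K10.RP.T33
import Pool.Agent.Lib.MP_afdd4d_co.K10.RP.T35
import Pool.Agent.Lib.MP_afdd4d_co.K10.RP.T35p1
import Pool.Agent.Lib.MP_afdd4d_co.K10.RP.T40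
import Pool.Agent.Lib.MP_afdd4d_co.K10.RP.T41
import Pool.Agent.Lib.MP_afdd4d_co.K10.RP.T42
import Pool.Agent.Lib.MP_afdd4d_co.K10.RP.T44
import Pool.Agent.Lib.MP_afdd4d_co.K10.RP.T46

/-!
# The views of the class 30
-/

namespace Pool.Agent.Lib.MP_afdd4d_co.K10.RP

open K8

/-- The views of the class 30. -/
def L30 : List Pt.PE := [
  ⟨tE09 0, tK09 0, tS09 0, 1⟩, ⟨tE09p1 0, tK09p1 0, tS09p1 0, 1⟩,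
  ⟨tE09p2 0, tK09p2 0, tS09p2 0, 1⟩, ⟨tE09p3 0, tK09p3 0, tS09p3 0, 1⟩,
  ⟨tE33 5, tK33 5, tS33 5, 0⟩, ⟨tE35 2, tK35 2, tS35 2, 0⟩,
  ⟨tE35 3, tK35 3, tS35 3, 0⟩, ⟨tE35 4, tK35 4, tS35 4, 0⟩,
  ⟨tE35 5, tK35 5, tS35 5, 0⟩, ⟨tE35p1 2, tK35p1 2, tS35p1 2, 0⟩,
  ⟨tE35p1 3, tK35p1 3, tS35p1 3, 0⟩, ⟨tE35p1 4, tK35p1 4, tS35p1 4, 0⟩,
  ⟨tE35p1 5, tK35p1 5, tS35p1 5, 0⟩, ⟨tE40 4, tK40 4, tS40 4, 0⟩,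
  ⟨tE41 4, tK41 4, tS41 4, 0⟩, ⟨tE41 5, tK41 5, tS41 5, 0⟩,
  ⟨tE42 2, tK42 2, tS42 2, 0⟩, ⟨tE42 3, tK42 3, tS42 3, 0⟩,
  ⟨tE42 4, tK42 4, tS42 4, 0⟩, ⟨tE44 4, tK44 4, tS44 4, 0⟩,
  ⟨tE46 2, tK46 2, tS46 2, 0⟩, ⟨tE46 3, tK46 3, tS46 3, 0⟩]

end Pool.Agent.Lib.MP_afdd4d_co.K10.RP
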