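import Pool.Agent.Lib.MP_afdd4d_co.K10.RP.T06
import Pool.Agent.Lib.MP_afdd4d_co.K10.RP.T06p1
import Pool.Agent.Lib.MP_afdd4d_co.K10.RP.T06p2
import Pool.Agent.Lib.MP_afdd4d_co.K10.RP.T06p3
import Pool.Agent.Lib.MP_afdd4d_co.K10.RP.T08
import Pool.Agent.Lib.MP_afdd4d_co.K10.RP.T08p1
import Pool.Agent.Lib.MP_afdd4d_co.K10.RP.T30
import Pool.Agent.Lib.MP_afdd4d_co.K10.RP.T30p1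
import Pool.Agent.Lib.MP_afdd4d_co.K10.RP.T37
import Pool.Agent.Lib.MP_afdd4d_co.K10.RP.T38
import Pool.Agent.Lib.MP_afdd4d_co.K10.RP.T40
import Pool.Agent.Lib.MP_afdd4d_co.K10.RP.T42
import Pool.Agent.Lib.MP_afdd4d_co.K10.RP.T44
import Pool.Agent.Lib.MP_afdd4d_co.K10.RP.T46

/-!
# The views of the class 31
-/

namespace Pool.Agent.Lib.MP_afdd4d_co.K10.RP

open K8

/-- The views of the class 31. -/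
def L31 : List Pt.PE := [
  ⟨tE06 0, tK06 0, tS06 0, 1⟩, ⟨tE06p1 0, tK06p1 0, tS06p1 0, 1⟩,
  ⟨tE06p2 0, tK06p2 0, tS06p2 0, 1⟩, ⟨tE06p3 0, tK06p3 0, tS06p3 0, 1⟩,
  ⟨tE08 0, tK08 0, tS08 0, 0⟩, ⟨tE08 6, tK08 6, tS08 6, 0⟩,
  ⟨tE08p1 0, tK08p1 0, tS08p1 0, 0⟩, ⟨tE08p1 6, tK08p1 6, tS08p1 6, 0⟩,
  ⟨tE30 0, tK30 0, tS30 0, 19⟩, ⟨tE30 6, tK30 6, tS30 6, 0⟩,
  ⟨tE30p1 0, tK30p1 0, tS30p1 0, 19⟩, ⟨tE30p1 6, tK30p1 6, tS30p1 6, 0⟩,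
  ⟨tE37 5, tK37 5, tS37 5, 0⟩, ⟨tE38 0, tK38 0, tS38 0, 54⟩,
  ⟨tE38 6, tK38 6, tS38 6, 0⟩, ⟨tE40 5, tK40 5, tS40 5, 0⟩,
  ⟨tE42 5, tK42 5, tS42 5, 0⟩, ⟨tE44 5, tK44 5, tS44 5, 0⟩,
  ⟨tE46 4, tK46 4, tS46 4, 0⟩, ⟨tE46 5, tK46 5, tS46 5, 0⟩]

end Pool.Agent.Lib.MP_afdd4d_co.K10.RP
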