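import Pool.Agent.Lib.MP_afdd4d_co.K10.RP.T07
import Pool.Agent.Lib.MP_afdd4d_co.K10.RP.T07p1
import Pool.Agent.Lib.MP_afdd4d_co.K10.RP.T35
import Pool.Agent.Lib.MP_afdd4d_co.K10.RP.T35p1

/-!
# The views of the class 32
-/

namespace Pool.Agent.Lib.MP_afdd4d_co.K10.RP

open K8

/-- The views of the class 32. -/
def L32 : List Pt.PE := [
  ⟨tE07 6, tK07 6, tS07 6, 0⟩, ⟨tE07p1 6, tK07p1 6, tS07p1 6, 0⟩,
  ⟨tE35 6, tK35 6, tS35 6, 0⟩, ⟨tE35p1 6, tK35p1 6, tS35p1 6, 0⟩]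

end Pool.Agent.Lib.MP_afdd4d_co.K10.RP
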