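import Pool.Agent.Lib.MP_afdd4d_co.K10.RP.T14
import Pool.Agent.Lib.MP_afdd4d_co.K10.RP.T14p1
import Pool.Agent.Lib.MP_afdd4d_co.K10.RP.T14p2
import Pool.Agent.Lib.MP_afdd4d_co.K10.RP.T42

/-!
# The views of the class 33
-/

namespace Pool.Agent.Lib.MP_afdd4d_co.K10.RP

open K8

/-- The views of the class 33. -/
def L33 : List Pt.PE := [
  ⟨tE14 6, tK14 6, tS14 6, 0⟩, ⟨tE14p1 6, tK14p1 6, tS14p1 6, 0⟩,
  ⟨tE14p2 6, tK14p2 6, tS14p2 6, 0⟩, ⟨tE42 6, tK42 6, tS42 6, 0⟩]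

end Pool.Agent.Lib.MP_afdd4d_co.K10.RP
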