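import Pool.Agent.Lib.MP_afdd4d_co.K10.RP.T21
import Pool.Agent.Lib.MP_afdd4d_co.K10.RP.T21p1
import Pool.Agent.Lib.MP_afdd4d_co.K10.RP.T28
import Pool.Agent.Lib.MP_afdd4d_co.K10.RP.T46
import Pool.Agent.Lib.MP_afdd4d_co.K10.RP.T51

/-!
# The views of the class 34
-/

namespace Pool.Agent.Lib.MP_afdd4d_co.K10.RP

open K8

/-- The views of the class 34. -/
def L34 : List Pt.PE := [
  ⟨tE21 6, tK21 6, tS21 6, 0⟩, ⟨tE21p1 6, tK21p1 6, tS21p1 6, 0⟩,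
  ⟨tE28 6, tK28 6, tS28 6, 0⟩, ⟨tE46 6, tK46 6, tS46 6, 0⟩,
  ⟨tE51 4, tK51 4, tS51 4, 0⟩]

end Pool.Agent.Lib.MP_afdd4d_co.K10.RP
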