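import Pool.Agent.Lib.MP_afdd4d_co.K10.RP.T23
import Pool.Agent.Lib.MP_afdd4d_co.K10.RP.T23p1

/-!
# The views of the class 35
-/

namespace Pool.Agent.Lib.MP_afdd4d_co.K10.RP

open K8

/-- The views of the class 35. -/
def L35 : List Pt.PE := [
  ⟨tE23 6, tK23 6, tS23 6, 0⟩, ⟨tE23p1 6, tK23p1 6, tS23p1 6, 0⟩]

end Pool.Agent.Lib.MP_afdd4d_co.K10.RP
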