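import Pool.Agent.Lib.MP_afdd4d_co.K10.RP.T29
import Pool.Agent.Lib.MP_afdd4d_co.K10.RP.T29p1
import Pool.Agent.Lib.MP_afdd4d_co.K10.RP.T29p2
import Pool.Agent.Lib.MP_afdd4d_co.K10.RP.T29p3
import Pool.Agent.Lib.MP_afdd4d_co.K10.RP.T34
import Pool.Agent.Lib.MP_afdd4d_co.K10.RP.T34p1
import Pool.Agent.Lib.MP_afdd4d_co.K10.RP.T40
import Pool.Agent.Lib.MP_afdd4d_co.K10.RP.T49

/-!
# The views of the class 36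
-/

namespace Pool.Agent.Lib.MP_afdd4d_co.K10.RP

open K8

/-- The views of the class 36. -/
def L36 : List Pt.PE := [
  ⟨tE29 6, tK29 6, tS29 6, 0⟩, ⟨tE29p1 6, tK29p1 6, tS29p1 6, 0⟩,
  ⟨tE29p2 6, tK29p2 6, tS29p2 6, 0⟩, ⟨tE29p3 6, tK29p3 6, tS29p3 6, 0⟩,
  ⟨tE34 0, tK34 0, tS34 0, 54⟩, ⟨tE34 6, tK34 6, tS34 6, 0⟩,
  ⟨tE34p1 0, tK34p1 0, tS34p1 0, 54⟩, ⟨tE34p1 6, tK34p1 6, tS34p1 6, 0⟩,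
  ⟨tE40 6, tK40 6, tS40 6, 0⟩, ⟨tE49 4, tK49 4, tS49 4, 0⟩]

end Pool.Agent.Lib.MP_afdd4d_co.K10.RP
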