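import Pool.Agent.Lib.MP_afdd4d_co.K10.RP.T22
import Pool.Agent.Lib.MP_afdd4d_co.K10.RP.T22p1
import Pool.Agent.Lib.MP_afdd4d_co.K10.RP.T33
import Pool.Agent.Lib.MP_afdd4d_co.K10.RP.T40
import Pool.Agent.Lib.MP_afdd4d_co.K10.RP.T47
import Pool.Agent.Lib.MP_afdd4d_co.K10.RP.T50

/-!
# The views of the class 37
-/

namespace Pool.Agent.Lib.MP_afdd4d_co.K10.RP

open K8

/-- The views of the class 37. -/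
def L37 : List Pt.PE := [
  ⟨tE22 6, tK22 6, tS22 6, 0⟩, ⟨tE22p1 6, tK22p1 6, tS22p1 6, 0⟩,
  ⟨tE33 6, tK33 6, tS33 6, 0⟩, ⟨tE40 0, tK40 0, tS40 0, 55⟩,
  ⟨tE47 4, tK47 4, tS47 4, 0⟩, ⟨tE50 4, tK50 4, tS50 4, 0⟩]

end Pool.Agent.Lib.MP_afdd4d_co.K10.RP
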