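import Pool.Agent.Lib.MP_afdd4d_co.K10.RP.T32
import Pool.Agent.Lib.MP_afdd4d_co.K10.RP.T32p1
import Pool.Agent.Lib.MP_afdd4d_co.K10.RP.T37
import Pool.Agent.Lib.MP_afdd4d_co.K10.RP.T39

/-!
# The views of the class 38
-/

namespace Pool.Agent.Lib.MP_afdd4d_co.K10.RP

open K8

/-- The views of the class 38. -/
def L38 : List Pt.PE := [
  ⟨tE32 6, tK32 6, tS32 6, 0⟩, ⟨tE32p1 6, tK32p1 6, tS32p1 6, 0⟩,
  ⟨tE37 6, tK37 6, tS37 6, 0⟩, ⟨tE39 0, tK39 0, tS39 0, 54⟩,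
  ⟨tE39 6, tK39 6, tS39 6, 0⟩]

end Pool.Agent.Lib.MP_afdd4d_co.K10.RP
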