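import Pool.Agent.Lib.MP_afdd4d_co.K10.RP.T12
import Pool.Agent.Lib.MP_afdd4d_co.K10.RP.T12p1
import Pool.Agent.Lib.MP_afdd4d_co.K10.RP.T12p2
import Pool.Agent.Lib.MP_afdd4d_co.K10.RP.T20
import Pool.Agent.Lib.MP_afdd4d_co.K10.RP.T20p1
import Pool.Agent.Lib.MP_afdd4d_co.K10.RP.T23
import Pool.Agent.Lib.MP_afdd4d_co.K10.RP.T23p1

/-!
# The views of the class 39
-/

namespace Pool.Agent.Lib.MP_afdd4d_co.K10.RP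

open K8

/-- The views of the class 39. -/
def L39 : List Pt.PE := [
  ⟨tE12 6, tK12 6, tS12 6, 0⟩, ⟨tE12p1 6, tK12p1 6, tS12p1 6, 0⟩,
  ⟨tE12p2 6, tK12p2 6, tS12p2 6, 0⟩, ⟨tE20 0, tK20 0, tS20 0, 19⟩,
  ⟨tE20 6, tK20 6, tS20 6, 0⟩, ⟨tE20p1 0, tK20p1 0, tS20p1 0, 19⟩,
  ⟨tE20p1 6, tK20p1 6, tS20p1 6, 0⟩, ⟨tE23 0, tK23 0, tS23 0, 21⟩,
  ⟨tE23p1 0, tK23p1 0, tS23p1 0, 21⟩]

end Pool.Agent.Lib.MP_afdd4d_co.K10.RP
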