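import Pool.Agent.Lib.MP_afdd4d_co.K10.RP.T18
import Pool.Agent.Lib.MP_afdd4d_co.K10.RP.T18p1
import Pool.Agent.Lib.MP_afdd4d_co.K10.RP.T22
import Pool.Agent.Lib.MP_afdd4d_co.K10.RP.T22p1
import Pool.Agent.Lib.MP_afdd4d_co.K10.RP.T27
import Pool.Agent.Lib.MP_afdd4d_co.K10.RP.T27p1
import Pool.Agent.Lib.MP_afdd4d_co.K10.RP.T29
import Pool.Agent.Lib.MP_afdd4d_co.K10.RP.T29p1
import Pool.Agent.Lib.MP_afdd4d_co.K10.RP.T29p2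
import Pool.Agent.Lib.MP_afdd4d_co.K10.RP.T29p3
import Pool.Agent.Lib.MP_afdd4d_co.K10.RP.T49

/-!
# The views of the class 40
-/

namespace Pool.Agent.Lib.MP_afdd4d_co.K10.RP

open K8

/-- The views of the class 40. -/
def L40 : List Pt.PE := [
  ⟨tE18 6, tK18 6, tS18 6, 0⟩, ⟨tE18p1 6, tK18p1 6, tS18p1 6, 0⟩,
  ⟨tE22 0, tK22 0, tS22 0, 20⟩, ⟨tE22p1 0, tK22p1 0, tS22p1 0, 20⟩,
  ⟨tE27 0, tK27 0, tS27 0, 19⟩, ⟨tE27 6, tK27 6, tS27 6, 0⟩,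
  ⟨tE27p1 0, tK27p1 0, tS27p1 0, 19⟩, ⟨tE27p1 6, tK27p1 6, tS27p1 6, 0⟩,
  ⟨tE29 0, tK29 0, tS29 0, 21⟩, ⟨tE29p1 0, tK29p1 0, tS29p1 0, 21⟩,
  ⟨tE29p2 0, tK29p2 0, tS29p2 0, 21⟩, ⟨tE29p3 0, tK29p3 0, tS29p3 0, 21⟩,
  ⟨tE49 5, tK49 5, tS49 5, 0⟩]

end Pool.Agent.Lib.MP_afdd4d_co.K10.RP
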