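import Pool.Agent.Lib.MP_afdd4d_co.K10.RP.T19
import Pool.Agent.Lib.MP_afdd4d_co.K10.RP.T19p1
import Pool.Agent.Lib.MP_afdd4d_co.K10.RP.T19p2
import Pool.Agent.Lib.MP_afdd4d_co.K10.RP.T47

/-!
# The views of the class 41
-/

namespace Pool.Agent.Lib.MP_afdd4d_co.K10.RP

open K8

/-- The views of the class 41. -/
def L41 : List Pt.PE := [
  ⟨tE19 6, tK19 6, tS19 6, 0⟩, ⟨tE19p1 6, tK19p1 6, tS19p1 6, 0⟩,
  ⟨tE19p2 6, tK19p2 6, tS19p2 6, 0⟩, ⟨tE47 5, tK47 5, tS47 5, 0⟩]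

end Pool.Agent.Lib.MP_afdd4d_co.K10.RP
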