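import Pool.Agent.Lib.MP_afdd4d_co.K10.RP.T24
import Pool.Agent.Lib.MP_afdd4d_co.K10.RP.T24p1
import Pool.Agent.Lib.MP_afdd4d_co.K10.RP.T31
import Pool.Agent.Lib.MP_afdd4d_co.K10.RP.T31p1
import Pool.Agent.Lib.MP_afdd4d_co.K10.RP.T32
import Pool.Agent.Lib.MP_afdd4d_co.K10.RP.T32p1
import Pool.Agent.Lib.MP_afdd4d_co.K10.RP.T50

/-!
# The views of the class 42
-/

namespace Pool.Agent.Lib.MP_afdd4d_co.K10.RP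

open K8

/-- The views of the class 42. -/
def L42 : List Pt.PE := [
  ⟨tE24 6, tK24 6, tS24 6, 0⟩, ⟨tE24p1 6, tK24p1 6, tS24p1 6, 0⟩,
  ⟨tE31 0, tK31 0, tS31 0, 19⟩, ⟨tE31 6, tK31 6, tS31 6, 0⟩,
  ⟨tE31p1 0, tK31p1 0, tS31p1 0, 19⟩, ⟨tE31p1 6, tK31p1 6, tS31p1 6, 0⟩,
  ⟨tE32 0, tK32 0, tS32 0, 21⟩, ⟨tE32p1 0, tK32p1 0, tS32p1 0, 21⟩,
  ⟨tE50 5, tK50 5, tS50 5, 0⟩]

end Pool.Agent.Lib.MP_afdd4d_co.K10.RP
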