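import Pool.Agent.Lib.MP_afdd4d_co.K10.RP.T10
import Pool.Agent.Lib.MP_afdd4d_co.K10.RP.T10p1
import Pool.Agent.Lib.MP_afdd4d_co.K10.RP.T19
import Pool.Agent.Lib.MP_afdd4d_co.K10.RP.T19p1
import Pool.Agent.Lib.MP_afdd4d_co.K10.RP.T19p2
import Pool.Agent.Lib.MP_afdd4d_co.K10.RP.T21
import Pool.Agent.Lib.MP_afdd4d_co.K10.RP.T21p1
import Pool.Agent.Lib.MP_afdd4d_co.K10.RP.T41
import Pool.Agent.Lib.MP_afdd4d_co.K10.RP.T45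
import Pool.Agent.Lib.MP_afdd4d_co.K10.RP.T46
import Pool.Agent.Lib.MP_afdd4d_co.K10.RP.T47
import Pool.Agent.Lib.MP_afdd4d_co.K10.RP.T48

/-!
# The views of the class 43
-/

namespace Pool.Agent.Lib.MP_afdd4d_co.K10.RP

open K8

/-- The views of the class 43. -/
def L43 : List Pt.PE := [
  ⟨tE10 6, tK10 6, tS10 6, 0⟩, ⟨tE10p1 6, tK10p1 6, tS10p1 6, 0⟩,
  ⟨tE19 0, tK19 0, tS19 0, 3⟩, ⟨tE19p1 0, tK19p1 0, tS19p1 0, 3⟩,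
  ⟨tE19p2 0, tK19p2 0, tS19p2 0, 3⟩, ⟨tE21 0, tK21 0, tS21 0, 20⟩,
  ⟨tE21p1 0, tK21p1 0, tS21p1 0, 20⟩, ⟨tE41 6, tK41 6, tS41 6, 0⟩,
  ⟨tE45 4, tK45 4, tS45 4, 0⟩, ⟨tE45 5, tK45 5, tS45 5, 0⟩,
  ⟨tE45 6, tK45 6, tS45 6, 0⟩, ⟨tE46 0, tK46 0, tS46 0, 183⟩,
  ⟨tE47 6, tK47 6, tS47 6, 0⟩, ⟨tE48 4, tK48 4, tS48 4, 0⟩]

end Pool.Agent.Lib.MP_afdd4d_co.K10.RP
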