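import Pool.Agent.Lib.MP_afdd4d_co.K10.RP.T16
import Pool.Agent.Lib.MP_afdd4d_co.K10.RP.T16p1
import Pool.Agent.Lib.MP_afdd4d_co.K10.RP.T24
import Pool.Agent.Lib.MP_afdd4d_co.K10.RP.T24p1
import Pool.Agent.Lib.MP_afdd4d_co.K10.RP.T44
import Pool.Agent.Lib.MP_afdd4d_co.K10.RP.T48
import Pool.Agent.Lib.MP_afdd4d_co.K10.RP.T50

/-!
# The views of the class 44
-/

namespace Pool.Agent.Lib.MP_afdd4d_co.K10.RP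

open K8

/-- The views of the class 44. -/
def L44 : List Pt.PE := [
  ⟨tE16 6, tK16 6, tS16 6, 0⟩, ⟨tE16p1 6, tK16p1 6, tS16p1 6, 0⟩,
  ⟨tE24 0, tK24 0, tS24 0, 3⟩, ⟨tE24p1 0, tK24p1 0, tS24p1 0, 3⟩,
  ⟨tE44 6, tK44 6, tS44 6, 0⟩, ⟨tE48 5, tK48 5, tS48 5, 0⟩,
  ⟨tE48 6, tK48 6, tS48 6, 0⟩, ⟨tE50 6, tK50 6, tS50 6, 0⟩]

end Pool.Agent.Lib.MP_afdd4d_co.K10.RP
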