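import Pool.Agent.Lib.MP_afdd4d_co.K10.RP.T12
import Pool.Agent.Lib.MP_afdd4d_co.K10.RP.T12p1
import Pool.Agent.Lib.MP_afdd4d_co.K10.RP.T12p2
import Pool.Agent.Lib.MP_afdd4d_co.K10.RP.T14
import Pool.Agent.Lib.MP_afdd4d_co.K10.RP.T14p1
import Pool.Agent.Lib.MP_afdd4d_co.K10.RP.T14p2
import Pool.Agent.Lib.MP_afdd4d_co.K10.RP.T16
import Pool.Agent.Lib.MP_afdd4d_co.K10.RP.T16p1
import Pool.Agent.Lib.MP_afdd4d_co.K10.RP.T37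
import Pool.Agent.Lib.MP_afdd4d_co.K10.RP.T42
import Pool.Agent.Lib.MP_afdd4d_co.K10.RP.T44
import Pool.Agent.Lib.MP_afdd4d_co.K10.RP.T48
import Pool.Agent.Lib.MP_afdd4d_co.K10.RP.T50

/-!
# The views of the class 45
-/

namespace Pool.Agent.Lib.MP_afdd4d_co.K10.RP

open K8

/-- The views of the class 45. -/
def L45 : List Pt.PE := [
  ⟨tE12 0, tK12 0, tS12 0, 3⟩, ⟨tE12p1 0, tK12p1 0, tS12p1 0, 3⟩,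
  ⟨tE12p2 0, tK12p2 0, tS12p2 0, 3⟩, ⟨tE14 0, tK14 0, tS14 0, 20⟩,
  ⟨tE14p1 0, tK14p1 0, tS14p1 0, 20⟩, ⟨tE14p2 0, tK14p2 0, tS14p2 0, 20⟩,
  ⟨tE16 0, tK16 0, tS16 0, 1⟩, ⟨tE16p1 0, tK16p1 0, tS16p1 0, 1⟩,
  ⟨tE37 0, tK37 0, tS37 0, 23⟩, ⟨tE42 0, tK42 0, tS42 0, 183⟩,
  ⟨tE44 0, tK44 0, tS44 0, 55⟩, ⟨tE48 0, tK48 0, tS48 0, 126⟩,
  ⟨tE50 0, tK50 0, tS50 0, 221⟩]

end Pool.Agent.Lib.MP_afdd4d_co.K10.RP
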