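import Pool.Agent.Lib.MP_afdd4d_co.K10.RP.T07
import Pool.Agent.Lib.MP_afdd4d_co.K10.RP.T07p1
import Pool.Agent.Lib.MP_afdd4d_co.K10.RP.T10
import Pool.Agent.Lib.MP_afdd4d_co.K10.RP.T10p1
import Pool.Agent.Lib.MP_afdd4d_co.K10.RP.T15
import Pool.Agent.Lib.MP_afdd4d_co.K10.RP.T18
import Pool.Agent.Lib.MP_afdd4d_co.K10.RP.T18p1
import Pool.Agent.Lib.MP_afdd4d_co.K10.RP.T28
import Pool.Agent.Lib.MP_afdd4d_co.K10.RP.T33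
import Pool.Agent.Lib.MP_afdd4d_co.K10.RP.T35
import Pool.Agent.Lib.MP_afdd4d_co.K10.RP.T35p1
import Pool.Agent.Lib.MP_afdd4d_co.K10.RP.T36
import Pool.Agent.Lib.MP_afdd4d_co.K10.RP.T41
import Pool.Agent.Lib.MP_afdd4d_co.K10.RP.T43
import Pool.Agent.Lib.MP_afdd4d_co.K10.RP.T45

/-!
# The views of the class 46
-/

namespace Pool.Agent.Lib.MP_afdd4d_co.K10.RP

open K8

/-- The views of the class 46. -/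
def L46 : List Pt.PE := [
  ⟨tE07 0, tK07 0, tS07 0, 20⟩, ⟨tE07p1 0, tK07p1 0, tS07p1 0, 20⟩,
  ⟨tE10 0, tK10 0, tS10 0, 1⟩, ⟨tE10p1 0, tK10p1 0, tS10p1 0, 1⟩,
  ⟨tE15 0, tK15 0, tS15 0, 0⟩, ⟨tE15 6, tK15 6, tS15 6, 0⟩,
  ⟨tE18 0, tK18 0, tS18 0, 3⟩, ⟨tE18p1 0, tK18p1 0, tS18p1 0, 3⟩,
  ⟨tE28 0, tK28 0, tS28 0, 21⟩, ⟨tE33 0, tK33 0, tS33 0, 23⟩,
  ⟨tE35 0, tK35 0, tS35 0, 183⟩, ⟨tE35p1 0, tK35p1 0, tS35p1 0, 183⟩,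
  ⟨tE36 0, tK36 0, tS36 0, 19⟩, ⟨tE36 6, tK36 6, tS36 6, 0⟩,
  ⟨tE41 0, tK41 0, tS41 0, 55⟩, ⟨tE43 0, tK43 0, tS43 0, 54⟩,
  ⟨tE43 6, tK43 6, tS43 6, 0⟩, ⟨tE45 0, tK45 0, tS45 0, 126⟩]

end Pool.Agent.Lib.MP_afdd4d_co.K10.RP
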