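import Pool.Agent.Lib.MP_afdd4d_co.K10.RP.T47
import Pool.Agent.Lib.MP_afdd4d_co.K10.RP.T49
import Pool.Agent.Lib.MP_afdd4d_co.K10.RP.T51
import Pool.Agent.Lib.MP_afdd4d_co.K10.RP.T52
import Pool.Agent.Lib.MP_afdd4d_co.K10.RP.T53

/-!
# The views of the class 47
-/

namespace Pool.Agent.Lib.MP_afdd4d_co.K10.RP

open K8

/-- The views of the class 47. -/
def L47 : List Pt.PE := [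
  ⟨tE47 0, tK47 0, tS47 0, 221⟩, ⟨tE49 0, tK49 0, tS49 0, 220⟩,
  ⟨tE49 6, tK49 6, tS49 6, 0⟩, ⟨tE51 0, tK51 0, tS51 0, 207⟩,
  ⟨tE51 5, tK51 5, tS51 5, 0⟩, ⟨tE51 6, tK51 6, tS51 6, 0⟩,
  ⟨tE52 0, tK52 0, tS52 0, 127⟩, ⟨tE52 4, tK52 4, tS52 4, 0⟩,
  ⟨tE52 5, tK52 5, tS52 5, 0⟩, ⟨tE52 6, tK52 6, tS52 6, 0⟩,
  ⟨tE53 0, tK53 0, tS53 0, 1023⟩, ⟨tE53 1, tK53 1, tS53 1, 0⟩,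
  ⟨tE53 2, tK53 2, tS53 2, 0⟩, ⟨tE53 3, tK53 3, tS53 3, 0⟩,
  ⟨tE53 4, tK53 4, tS53 4, 0⟩, ⟨tE53 5, tK53 5, tS53 5, 0⟩,
  ⟨tE53 6, tK53 6, tS53 6, 0⟩]

end Pool.Agent.Lib.MP_afdd4d_co.K10.RP
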