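import Pool.Agent.Lib.MP_afdd4d_co.K8.Ar

/-!
# The lanes of the potentials
-/

namespace Pool.Agent.Lib.MP_afdd4d_co.K10.RP

open K8

/-- The mask of the first halves of the blocks of `s` lanes of 24 bits. -/
def spm (s k : ℕ) : ℕ := csG (Nat.mul 64 s) (Nat.sub (Nat.pow 2 (Nat.mul 12 s)) 1) k

/-- The blocks of `s` lanes are divided into two halves. -/
def sph (s k x : ℕ) : ℕ := Nat.lor (Nat.land x (spm s k))
  (Nat.shiftLeft (Nat.land x (Nat.shiftLeft (spm s k) (Nat.mul 12 s))) (Nat.mul 20 s))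

/-- The lanes of 64 bits of 128 numbers of 24 bits, multiplied by `2 ^ 22`. -/
def sp (x : ℕ) : ℕ :=
  Nat.shiftLeft (sph 2 6 (sph 4 5 (sph 8 4 (sph 16 3 (sph 32 2 (sph 64 1 (sph 128 0 x))))))) 22

end Pool.Agent.Lib.MP_afdd4d_co.K10.RP
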