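import Pool.Agent.Lib.MP_afdd4d_co.K8.PsiTr

/-!
# The codes of the parts of the coset number 10
-/

namespace Pool.Agent.Lib.MP_afdd4d_co.K10.RP

open K8

set_option maxRecDepth 100000

/-- The codes of the part 1. -/
def X10p1 : List (List ℕ) := [
  [76863, 76919, 152671, 152699, 301167, 301181],
  [78007, 149851, 296557],
  [78025, 149797, 296467],
  [81078, 154970, 302700],
  [123071, 467191, 188767, 475515, 320111, 492157],
  [222717, 222703, 371451, 371423, 447351, 447295],
  [520374, 518490, 517740],
  [520447, 518527, 517759],
  [522431, 522487, 521407, 521463, 522591, 522619, 519519, 519547, 521839, 521853, 519791, 519805],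
  [522624, 521856, 519936],
  [524272, 524174],
  [555503, 727549, 571103, 857851, 577343, 921463],
  [983176, 581824, 983300, 581920, 983554, 582160],
  [987337, 585929, 985381, 583973, 984595, 583187],
  [585968, 987278, 584048, 985358, 583280, 984590],
  [586639, 988145, 584591, 986097, 583567, 985073],
  [743395, 685981, 891861, 834475, 733155, 618397, 957369, 842695, 864213, 634795, 939961, 710599],
  [717268, 1003946, 848610, 1020572, 649656, 993734, 846690, 1018652, 648888, 992966, 714580, 1001258],
  [718160, 1004810, 850528, 1022476, 650416, 994438],
  [718174, 1004922, 850542, 1022588, 650430, 994550],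
  [998782, 654718, 999038, 654974, 1006846, 720126, 1007230, 720510, 1023230, 851198, 1023358, 851326],
  [752143, 752241, 898319, 898417, 969871, 969969],
  [948701, 776683, 964331, 906973, 883133, 768487, 905063, 962365, 767675, 882391, 773975, 945979],
  [911742, 1026430, 779902, 1009278, 979198, 1036542],
  [979840, 1037184, 912256, 1026944, 780160, 1009536],
  [1011070, 781694, 1027710, 913022, 1012990, 783614, 1037950, 980606, 1030398, 915710, 1038718, 981374],
  [1038527, 981239, 1037503, 980215, 1030495, 915835, 1027423, 912763, 1013359, 783997, 1011311, 781949],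
  [1014123, 784733, 1029725, 915051, 1013991, 784573, 1035837, 978535, 1029335, 914619, 1035579, 978263],
  [1015118, 785784, 1031758, 917112, 1014958, 785652, 1039918, 982644, 1031326, 916722, 1039646, 982386],
  [785792, 1015168, 917120, 1031808, 982784, 1040128],
  [916772, 1031460, 785938, 1015314, 982216, 1039560],
  [1031550, 916862, 1015422, 786046, 1039614, 982270],
  [786316, 1015776, 917386, 1032144, 982918, 1040304],
  [1042735, 1042805, 1041951, 1042035, 1044687, 1044729],
  [1042814, 1042046, 1044734],
  [1045376, 1043328, 1042304],
  [1045424, 1045382, 1043408, 1043338, 1042400, 1042316],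
  [1043838, 1044094, 1045758, 1046142, 1046782, 1046910],
  [1043839, 1044095, 1045759, 1046143, 1046783, 1046911]]

/-- The codes of the parts. -/
def X10 : List (List ℕ) := X10p1

end Pool.Agent.Lib.MP_afdd4d_co.K10.RP
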