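import Pool.Agent.Lib.MP_afdd4d_co.K8.PsiTr

/-!
# The codes of the parts of the coset number 12
-/

namespace Pool.Agent.Lib.MP_afdd4d_co.K10.RP

open K8

set_option maxRecDepth 100000

/-- The codes of the part 1. -/
def X12p1 : List (List ℕ) := [
  [483, 30732],
  [1536],
  [75951, 151887, 268399, 549263],
  [75959, 151899, 301165, 582030],
  [152763, 77143, 564110, 320109],
  [152827, 153019, 77175, 77271, 572302, 580494, 322157, 324205],
  [77332, 153112, 296545, 558978],
  [99507, 165203, 301596, 582172],
  [106750, 100797, 180606, 168413, 309339, 317495, 583963, 585879],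
  [108791, 108983, 184699, 184795, 309373, 317565, 584094, 586142],
  [110775, 116919, 182619, 176475, 301277, 301373, 581950, 581854],
  [110845, 117182, 182653, 176606, 309463, 317755, 583991, 585947],
  [127165, 121022, 190813, 178526, 301527, 301499, 582007, 581883],
  [208276, 207988, 218520, 218232, 840289, 830049, 840578, 830338],
  [208051, 218451, 825964, 844684],
  [228756, 228468, 228760, 228472, 840673, 830433, 840674, 830434],
  [254462, 236029, 850267, 850103],
  [261660, 821235],
  [339198, 601533, 415102, 677341, 375403, 449127, 650123, 717703],
  [375034, 649657, 448886, 717269],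
  [915983, 981519, 460287, 722431],
  [981167, 915791, 727551, 483839],
  [895467, 971239, 489598, 752029],
  [971807, 896031, 754591, 492159],
  [493443, 755299, 874012, 929308],
  [917168, 982864, 499696, 780272],
  [906495, 906687, 961919, 962015, 506783, 514975, 780927, 782975],
  [916720, 916912, 982384, 982480, 506864, 515056, 781296, 783344],
  [982204, 916828, 760819, 517107],
  [517133, 760846, 852823, 918203],
  [517181, 760990, 517213, 761118, 887639, 955067, 893783, 967355],
  [872944, 928240, 522624, 784480],
  [522731, 784875, 522727, 784871, 883198, 948734, 883197, 948733],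
  [522738, 784881, 915960, 981492],
  [522751, 784895, 915967, 981503],
  [863728, 939504, 522848, 785280],
  [896496, 972272, 522864, 785296],
  [524188, 786044, 907251, 962547],
  [1016843, 1016839, 983582, 983581],
  [984247, 984411, 1022477, 1040910],
  [984576],
  [984579, 984588],
  [992769, 986626, 1000961, 988674, 984644, 984616, 984836, 984712],
  [987387, 999867, 985463, 991703, 1030286, 1038606, 1042477, 1044557],
  [1048320, 1048128, 1048192, 1048096, 1001456, 993264, 989168, 987120],
  [989407, 1007935, 989503, 1007839, 1028271, 1034575, 1034415, 1028431],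
  [993467, 1003863, 1022062, 1040781],
  [997485, 1010062, 1005677, 1012110, 993511, 1003883, 993703, 1003979],
  [1004011, 993767, 1014158, 1013869],
  [1029739, 1036171, 1035879, 1030023, 995038, 1005374, 995133, 1005277],
  [1046895, 1046991, 1046767, 1046959, 1010175, 1012223, 997887, 1006079],
  [1028064, 1038304, 1015408, 1015696],
  [1016507, 1016663, 1023006, 1041437],
  [1047071, 1017343],
  [1033915, 1021627, 1025879, 1019735, 1023774, 1023646, 1042013, 1041981],
  [1026227, 1036627, 1022076, 1040796],
  [1026235, 1036631, 1022078, 1040797],
  [1036476, 1026396, 1022355, 1040499],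
  [1027248, 1037648, 1022576, 1041296],
  [1047740, 1047900, 1022963, 1041395],
  [1038011, 1027927, 1023902, 1042045],
  [1037567, 1037759, 1027455, 1027551, 1031071, 1039263, 1043071, 1045119],
  [1038047, 1038143, 1027903, 1027807, 1030047, 1036191, 1035903, 1029759],
  [1038066, 1038257, 1027954, 1028049, 1032088, 1040276, 1044088, 1046132]]

/-- The codes of the part 2. -/
def X12p2 : List (List ℕ) := [
  [1028319, 1034559],
  [1046962, 1046769, 1046994, 1046897, 1038840, 1030644, 1044984, 1042932]]

/-- The codes of the parts. -/
def X12 : List (List ℕ) := X12p1 ++ X12p2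

end Pool.Agent.Lib.MP_afdd4d_co.K10.RP
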