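import Pool.Agent.Lib.MP_afdd4d_co.K8.PsiTr

/-!
# The codes of the parts of the coset number 14
-/

namespace Pool.Agent.Lib.MP_afdd4d_co.K10.RP

open K8

set_option maxRecDepth 100000

/-- The codes of the part 1. -/
def X14p1 : List (List ℕ) := [
  [55267, 64179],
  [76979, 152915],
  [77011, 77107, 150867, 144723],
  [152763, 87223],
  [96755, 163299],
  [107699, 101555, 153363, 153171],
  [120823, 196283],
  [186359, 130747],
  [227547, 227643, 216551, 210407],
  [225534, 219581, 220590, 226541],
  [227835, 228839],
  [294841, 556794, 325109, 581110],
  [296572, 559004, 302620, 583196],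
  [304894, 561085, 319262, 587357],
  [608179, 333555, 717971, 449587],
  [616373, 335606, 718233, 449658],
  [343785, 618410, 448885, 717270],
  [640958, 366333, 718494, 450109],
  [448103, 710535, 367291, 647867],
  [648636, 367868, 685980, 417404],
  [649116, 368252, 714652, 433788],
  [625589, 369398, 718409, 450314],
  [456561, 712658, 376753, 650994],
  [456565, 712662, 376761, 651002],
  [407543, 675831, 392507, 654555],
  [519177, 769034, 459733, 721782],
  [737521, 463282, 744577, 488482],
  [465845, 746230, 521321, 777610],
  [498109, 778494, 489069, 745358],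
  [510541, 766734, 494285, 762670],
  [761736, 517736, 778868, 498580],
  [757677, 501486, 782941, 514846],
  [799220, 805364, 818472, 818376],
  [840887, 808635],
  [810939, 816891, 849143, 843191],
  [817675, 819687],
  [835555, 847843, 850803, 850899],
  [841719, 851643],
  [855477, 861430, 947289, 941338],
  [859109, 877542, 981097, 981386],
  [863216, 982336],
  [864227, 981331],
  [864240, 982352],
  [928951, 873819],
  [873979, 949431],
  [876475, 882427, 980215, 974263],
  [883188, 949736],
  [883379, 972259],
  [883387, 972263],
  [884236, 950780],
  [981528, 886756],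
  [910425, 892186, 921493, 927350],
  [910908, 892572, 956316, 968316],
  [910972, 892828, 958364, 976508],
  [949027, 948931, 897507, 903651],
  [898995, 904947, 980787, 974547],
  [901091, 913379, 981875, 981971],
  [907186, 906993, 980658, 974513],
  [913659, 907707, 941991, 947943],
  [913915, 907771, 950183, 949991],
  [914339, 908003, 979875, 973539],
  [908795, 914939, 950007, 950199],
  [909299, 915443, 982771, 982963],
  [931831, 937975, 916795, 916699]]

/-- The codes of the part 2. -/
def X14p2 : List (List ℕ) := [
  [916987, 950263],
  [989267, 1007891, 986211, 992643],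
  [986341, 992678, 1005657, 1011994],
  [986725, 993158, 1022041, 1040666],
  [990141, 1008382, 1045613, 1039758],
  [1014083, 993763],
  [994272, 1046848],
  [994917, 995206, 1022297, 1040730],
  [994979, 1036627],
  [995300, 1046872],
  [1002467, 996323, 1046723, 1046819],
  [1006078, 1012221, 1015022, 1015213],
  [1023465, 1041898, 1014389, 1014678],
  [1014699, 1014507, 1044967, 1038823],
  [1014739, 1014643, 1043939, 1031651],
  [1014771, 1048035],
  [1047035, 1015783],
  [1037868, 1037964, 1020604, 1032892],
  [1041329, 1022706, 1046401, 1039970],
  [1022781, 1041118, 1029741, 1036174],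
  [1041004, 1022860],
  [1046318, 1040077, 1029054, 1035005],
  [1045350, 1039301, 1031082, 1043177],
  [1037283, 1047203],
  [1047208, 1037284],
  [1039283, 1045235, 1046243, 1040291]]

/-- The codes of the parts. -/
def X14 : List (List ℕ) := X14p1 ++ X14p2

end Pool.Agent.Lib.MP_afdd4d_co.K10.RP
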