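import Pool.Agent.Lib.MP_afdd4d_co.K8.PsiTr

/-!
# The codes of the parts of the coset number 16
-/

namespace Pool.Agent.Lib.MP_afdd4d_co.K10.RP

open K8

set_option maxRecDepth 100000

/-- The codes of the part 1. -/
def X16p1 : List (List ℕ) := [
  [152778, 301260, 77094, 301356, 77334, 153114, 152793, 301289, 77109, 301413, 77363, 153171],
  [491490, 507860, 516024, 261506, 392836, 458504],
  [519353, 521557, 522851, 519408, 521584, 522864],
  [519417, 521589, 522867, 519416, 521588, 522866],
  [519991, 521947, 522733, 519936, 521856, 522624],
  [524272],
  [581817, 581973, 582243, 983238, 983338, 983580],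
  [585529, 587477, 588259, 986992, 988912, 989680],
  [601911, 677595, 825837, 601270, 677210, 825964],
  [863614, 732798, 939262, 743038, 956670, 891262, 634099, 617717, 710003, 685433, 842357, 834169],
  [650295, 717915, 850029, 994438, 1004810, 1022476],
  [650297, 717909, 850019, 994550, 1004922, 1022588],
  [994359, 1004635, 1022061, 650416, 718160, 850528],
  [650417, 718161, 850529, 994358, 1004634, 1022060],
  [650425, 718165, 850531, 994422, 1004666, 1022076],
  [651063, 718555, 850413, 995206, 1005450, 1022860],
  [912889, 782073, 980469, 784245, 981747, 916339, 1027954, 1011572, 1038066, 1013496, 1038836, 1030648],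
  [913305, 782249, 980885, 784325, 981923, 916419, 1027454, 1011326, 1037566, 1013374, 1038590, 1030526],
  [978039, 914555, 784509, 1036046, 1029774, 1014158],
  [915037, 784747, 978493, 784615, 978235, 914647, 1029306, 1013948, 1035606, 1014108, 1035878, 1029738],
  [1036169, 1030021, 1014659, 978118, 914730, 784924],
  [917120, 785792, 982784, 1031284, 1014898, 1039480],
  [917224, 785880, 982884, 785844, 982866, 917170, 1031224, 1014840, 1039444, 1014868, 1039458, 1031266],
  [1040256, 1032064, 1015680, 982222, 916782, 785950],
  [1040270, 1032078, 1015694, 982206, 916830, 786030],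
  [917376, 786304, 982912, 1031540, 1015410, 1039608],
  [917488, 786416, 983024, 1031546, 1015420, 1039606],
  [1043083, 1041805, 1045255, 1042805, 1042035, 1044729],
  [1043195, 1041917, 1045367, 1042811, 1042045, 1044727],
  [1044155, 1043901, 1046359, 1045981, 1047399, 1047275, 1043808, 1044048, 1045728, 1046064, 1046736, 1046832],
  [1044171, 1043917, 1046311, 1045933, 1047319, 1047195, 1043822, 1044062, 1045742, 1046078, 1046750, 1046846]]

/-- The codes of the parts. -/
def X16 : List (List ℕ) := X16p1

end Pool.Agent.Lib.MP_afdd4d_co.K10.RP
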