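import Pool.Agent.Lib.MP_afdd4d_co.K8.PsiTr

/-!
# The codes of the parts of the coset number 17
-/

namespace Pool.Agent.Lib.MP_afdd4d_co.K10.RP

open K8

set_option maxRecDepth 100000

/-- The codes of the part 1. -/
def X17p1 : List (List ℕ) := [
  [11447, 178, 11268],
  [161753, 326377, 318074, 586707, 155484, 588741],
  [311242, 193020, 580538, 324435, 585564, 187333],
  [228700, 367354, 365306, 639884, 228684, 647946],
  [229084, 359162, 378618, 628444, 229164, 620906],
  [368088, 244088, 637864, 387998, 648664, 256926],
  [376278, 244214, 638896, 389013, 650736, 256947],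
  [339927, 260279, 605362, 356312, 601332, 260792],
  [667063, 830647, 449714, 718264, 405364, 831464],
  [686814, 817886, 440030, 708318, 424430, 817982],
  [718813, 850923, 446322, 702418, 450356, 850404],
  [808424, 702056, 694893, 451389, 808283, 446347],
  [460707, 517157, 862245, 862582, 722067, 760982],
  [864215, 784567, 747698, 474072, 863892, 522456],
  [917288, 772088, 727026, 476523, 916580, 497197],
  [487253, 514739, 897274, 904137, 736716, 783129],
  [782814, 900046, 502610, 764829, 514452, 911771],
  [520702, 507854, 868178, 880568, 776436, 782008],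
  [509898, 521004, 907626, 914259, 759644, 777157],
  [917312, 775152, 767994, 511818, 916972, 512828],
  [768985, 915929, 514970, 783315, 519004, 916421],
  [518092, 521130, 908666, 915280, 761724, 777184],
  [884692, 785138, 523230],
  [973662, 919495, 978983],
  [939800, 969320, 978541, 966088, 939963, 963064],
  [939920, 977504, 977509, 965075, 939923, 965077],
  [975582, 949134, 963934, 970462, 956910, 949054],
  [960470, 981414, 965946, 978908, 953852, 981946],
  [1003979, 1028685, 984653, 984862, 1003563, 1034286],
  [1015132, 1022714, 993018, 987020, 1014956, 1040442],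
  [1032162, 1046004, 990130, 1008510, 1043540, 1040014],
  [993941, 1009811, 1009814, 997596, 993942, 997594],
  [1005032, 1029736, 994925, 995133, 1004731, 1035451],
  [995207, 1040567, 1013938, 1014098, 995028, 1022676],
  [995031, 1013943, 1040562, 1022674, 995204, 1014100],
  [995285, 1046707, 1044659, 1039322, 995269, 1047388],
  [997636, 1016018, 1029790, 1035534, 1010158, 1016638],
  [1031131, 1047005, 998299, 1010641, 1042653, 1047185],
  [1005538, 1046116, 1011300, 999294, 1005234, 1039614],
  [1011421, 1014459, 1044722, 1039064, 999364, 1014616],
  [1004267, 1013325, 1007224],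
  [1004280, 1015368, 1015544],
  [1004458, 1041996, 1041993, 1023354, 1004457, 1023356],
  [1047466, 1042396, 1016790, 1016186, 1046790, 1023244],
  [1043427, 1046421, 1016278, 1016698, 1030406, 1039628],
  [1032088, 1042936, 1029051, 1034715, 1043917, 1030941]]

/-- The codes of the parts. -/
def X17 : List (List ℕ) := X17p1

end Pool.Agent.Lib.MP_afdd4d_co.K10.RP
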