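import Pool.Agent.Lib.MP_afdd4d_co.K8.PsiTr

/-!
# The codes of the parts of the coset number 18
-/

namespace Pool.Agent.Lib.MP_afdd4d_co.K10.RP

open K8

set_option maxRecDepth 100000

/-- The codes of the part 1. -/
def X18p1 : List (List ℕ) := [
  [301165, 582030, 75959, 151899],
  [142676, 87224, 582241, 301954],
  [309331, 583955, 317491, 585875, 106748, 180604, 100796, 168412],
  [228464, 228752, 830432, 840672],
  [261120, 787440],
  [261644, 788467],
  [371212, 633356, 446988, 709132, 328819, 394355, 591251, 656787],
  [460785, 722930, 916996, 982536],
  [460787, 722931, 917004, 982540],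
  [471026, 733169, 481266, 743409, 917096, 982628, 917384, 982916],
  [752125, 489982, 981479, 915947],
  [916656, 982352, 498672, 779248],
  [502230, 764277, 512442, 774393, 913529, 977013, 907674, 965014],
  [912496, 900496, 980080, 974224, 502640, 512752, 764880, 775088],
  [514129, 782610, 505905, 780434, 893364, 967128, 887028, 954744],
  [521837, 778126, 519789, 769934, 864215, 939963, 864119, 939771],
  [784755, 522707, 784627, 522675, 977404, 913916, 965116, 907772],
  [949752, 884212, 785378, 523233],
  [984561, 984562, 1047044, 1047048],
  [1017356, 984595],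
  [1017357, 1017358, 984599, 984603],
  [993604, 1003688, 1007713, 989570],
  [1015116, 1014956, 1008611, 990179],
  [1003883, 1003979, 993511, 993703, 1010062, 1012110, 997485, 1005677],
  [1005165, 1005454, 994925, 995214, 995207, 1005451, 994919, 1005163],
  [1029741, 1036174, 1035885, 1030030, 995031, 1005371, 995127, 1005275],
  [1015132, 1014972, 1041379, 1022947],
  [1047453, 1047166, 1037815, 1027579],
  [1047005, 1046910, 1046973, 1046782, 1044983, 1042939, 1038839, 1030651],
  [1031123, 1043315, 1039283, 1045235, 1045756, 1043836, 1039804, 1031644]]

/-- The codes of the parts. -/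
def X18 : List (List ℕ) := X18p1

end Pool.Agent.Lib.MP_afdd4d_co.K10.RP
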