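import Pool.Agent.Lib.MP_afdd4d_co.K8.PsiTr

/-!
# The codes of the parts of the coset number 19
-/

namespace Pool.Agent.Lib.MP_afdd4d_co.K10.RP

open K8

set_option maxRecDepth 100000

/-- The codes of the part 1. -/
def X19p1 : List (List ℕ) := [
  [77310, 153086],
  [107207, 181035, 100797, 168413],
  [227454, 227742],
  [228452, 228456, 228756, 228760],
  [236158, 254462],
  [301164, 582031],
  [301182, 582046],
  [317746, 309458, 585883, 583959],
  [320413, 564125],
  [564862, 321133],
  [339613, 415517, 601533, 677341],
  [372375, 448283, 634808, 710612],
  [374926, 448782, 649403, 717143],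
  [376046, 449902, 650536, 718020],
  [379789, 439181, 635806, 707486],
  [470979, 481187, 732592, 742864],
  [492653, 755186],
  [498589, 779165],
  [499198, 779277],
  [502608, 512688, 764828, 775068],
  [503503, 513839, 765936, 776176],
  [510879, 504735, 766687, 772927],
  [505181, 511165, 773133, 766989],
  [511902, 505758, 767694, 773934],
  [514975, 506783, 783317, 781241],
  [522448, 522544, 784575, 784735],
  [522624, 784879],
  [784480, 522735],
  [828302, 836494, 821671, 823755],
  [844684, 825839],
  [863853, 939629],
  [864215, 939963, 863892, 939800],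
  [864157, 939933],
  [884436, 950072, 884628, 950168],
  [973408, 899680, 979194, 911734],
  [977245, 913597, 965387, 907911],
  [981922, 916418, 981438, 915934],
  [917084, 982588, 916912, 982480],
  [984595, 984579],
  [984606, 984589],
  [984675, 984979],
  [984687, 984991],
  [985709, 987757, 992011, 1000071],
  [990111, 1008624],
  [1003982, 993710, 1003565, 993357],
  [993750, 1003962, 993749, 1003961],
  [994003, 1004339, 994195, 1004435],
  [994920, 1005156, 995131, 1005271],
  [994924, 1005164, 995135, 1005279],
  [995030, 1005370, 995206, 1005450],
  [995287, 1005499, 995268, 1005480],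
  [1002205, 996157, 996338, 1002482],
  [1010143, 1012159, 997782, 1005978],
  [1009733, 1011753, 997871, 1006063],
  [1014110, 1013950],
  [1014174],
  [1014743, 1014715, 1014420, 1014552],
  [1016931, 1017759],
  [1022879, 1040892],
  [1042017, 1023474],
  [1027420, 1037500, 1028067, 1038307],
  [1035037, 1028765, 1028254, 1034526],
  [1029645, 1035789, 1035581, 1029341],
  [1029736, 1035876, 1035451, 1029463]]

/-- The codes of the part 2. -/
def X19p2 : List (List ℕ) := [
  [1029676, 1035852, 1035711, 1029599],
  [1043159, 1045307, 1030610, 1038770],
  [1030807, 1039131, 1042833, 1044881],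
  [1046125, 1044077, 1039604, 1031544],
  [1046061, 1044045, 1039860, 1031672],
  [1031784, 1039972, 1043517, 1045597],
  [1040260, 1032072, 1045949, 1043933],
  [1040304, 1032144, 1045801, 1043653],
  [1047410, 1047282, 1046590, 1046622]]

/-- The codes of the parts. -/
def X19 : List (List ℕ) := X19p1 ++ X19p2

end Pool.Agent.Lib.MP_afdd4d_co.K10.RP
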