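import Pool.Agent.Lib.MP_afdd4d_co.K8.PsiTr

/-!
# The codes of the parts of the coset number 21
-/

namespace Pool.Agent.Lib.MP_afdd4d_co.K10.RP

open K8

set_option maxRecDepth 100000

/-- The codes of the part 1. -/
def X21p1 : List (List ℕ) := [
  [32190, 335606, 616324, 863120],
  [137445, 38043, 623513, 664517],
  [92602, 337638, 85175, 273591],
  [120743, 408499, 682902, 886708],
  [154734, 302202, 648086, 992180],
  [188278, 433982, 779146, 1024992],
  [641982, 927734, 219629, 308955],
  [649658, 992998, 220590, 311026],
  [577419, 921569, 225786, 373486],
  [650313, 994377, 229255, 376753],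
  [286526, 286582, 876982, 877238],
  [324685, 481369, 943787, 903651],
  [815038, 872438, 357997, 358747],
  [880558, 880626, 360012, 359768],
  [1009946, 910948, 384179, 425127],
  [1009938, 910884, 384435, 425639],
  [490430, 391158, 904971, 946017],
  [1041118, 1040892, 450314, 450400],
  [450422, 450366, 1040874, 1041130],
  [1043226, 1042276, 515491, 458403],
  [523488, 523402, 1043843, 1044129],
  [589723, 991205, 751213, 899419],
  [622562, 868266, 621756, 867542],
  [622313, 867787, 621878, 867894],
  [622474, 868320, 622492, 868308],
  [997449, 652361, 892087, 687287],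
  [998466, 654376, 900531, 753319],
  [717270, 1020604, 710535, 957361],
  [957357, 710611, 1020840, 717762],
  [958396, 712662, 1029034, 783330],
  [1022781, 718679, 1022856, 718784],
  [1022905, 718791, 1022873, 718789],
  [720587, 1023465, 783981, 1030491],
  [769450, 769762],
  [883630, 882674, 875850, 818792],
  [883646, 882678, 875854, 818808],
  [876478, 819190, 883163, 882413],
  [905658, 946918, 940269, 840923],
  [939774, 842238, 848202, 1004136],
  [1012059, 914029, 843011, 941601],
  [1011990, 913972, 843411, 941477],
  [908190, 948212, 1005613, 848979],
  [948718, 907002, 906531, 948771],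
  [948654, 906994, 907043, 949027],
  [914923, 1014507, 950012, 908766],
  [1014027, 915041, 909239, 950199],
  [1014858, 916584, 916921, 1015495],
  [1015022, 916730, 916872, 1015488],
  [1015048, 917056, 917427, 1015719],
  [1015566, 917360, 917473, 1015691],
  [1045446, 1045432, 974214, 974512],
  [1045478, 1045434, 974246, 974514],
  [974694, 974650, 1044903, 1045171],
  [1038659, 980521, 1038836, 980638],
  [1038278, 981944, 981267, 1037861],
  [1047113, 1045833, 1039533, 982227],
  [1046601, 1045577, 1039597, 982235],
  [1046810, 1046116, 1039971, 982315],
  [1039758, 982768, 1047267, 1045931]]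

/-- The codes of the parts. -/
def X21 : List (List ℕ) := X21p1

end Pool.Agent.Lib.MP_afdd4d_co.K10.RP
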