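import Pool.Agent.Lib.MP_afdd4d_co.K8.PsiTr

/-!
# The codes of the parts of the coset number 22
-/

namespace Pool.Agent.Lib.MP_afdd4d_co.K10.RP

open K8

set_option maxRecDepth 100000

/-- The codes of the part 1. -/
def X22p1 : List (List ℕ) := [
  [672683, 398059, 819227, 53936],
  [64395, 64107, 830378, 830185, 463919, 464549, 738447, 738982],
  [343791, 618415, 97452, 863751],
  [141648, 99511],
  [141312, 100027],
  [647373, 366894, 583270, 302981, 991307, 161504, 985355, 155552],
  [163152, 993616, 368315, 648891],
  [374511, 642991, 227823, 929767],
  [228576, 228768, 994371, 994563, 375995, 376499, 650427, 650931],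
  [686020, 417636, 1007950, 989517, 891068, 318999, 909500, 587287],
  [686017, 417634, 1007978, 989641, 891053, 319015, 909486, 587399],
  [588299, 326155, 846504, 834216, 988463, 481189, 1000655, 743142],
  [425760, 687808, 997641, 1009738, 384703, 892607, 652991, 911039],
  [753386, 491433, 1011403, 999211, 900699, 392952, 913179, 655288],
  [701871, 445679, 517031, 760551],
  [1041005, 1022862, 718445, 450446, 1041103, 718574, 1022767, 450477],
  [958379, 976619, 514987, 783083, 712286, 1034972, 456477, 1028924],
  [1031083, 1043179, 458667, 720619, 783949, 1042028, 515854, 1023884],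
  [1044395, 1031915, 786347, 524011, 1043521, 785504, 1031426, 523648],
  [785634, 523681, 1043651, 1031459, 1031755, 524008, 1044235, 786344],
  [882281, 876426, 883183, 819175],
  [848623, 842671, 1003692, 939527],
  [850251, 850912, 1005357, 1005262],
  [915467, 851616, 1013155, 1006819],
  [884704, 884043, 884541, 884446],
  [906861, 907150, 948255, 948916],
  [915301, 909254, 914797, 908750, 1014511, 949999, 1014703, 950191],
  [917344, 917440, 916809, 916810, 1015533, 1015407, 1015726, 1015695],
  [1015456, 1014795, 917305, 917210],
  [974394, 980633, 1039001, 1045050, 974523, 1039035, 980667, 1045179],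
  [981323, 981984, 1037601, 1037506],
  [981328, 1037636],
  [1037836, 981528],
  [982352, 1046864, 1039713, 1045954],
  [982355, 1047024, 1039680, 1045824],
  [1046811, 1046619, 982960, 982768, 1045931, 1046435, 1039595, 1040099],
  [1046843, 1046747, 982961, 982770, 1045929, 1046307, 1039594, 1040067]]

/-- The codes of the parts. -/
def X22 : List (List ℕ) := X22p1

end Pool.Agent.Lib.MP_afdd4d_co.K10.RP
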