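import Pool.Agent.Lib.MP_afdd4d_co.K8.PsiTr

/-!
# The codes of the parts of the coset number 23
-/

namespace Pool.Agent.Lib.MP_afdd4d_co.K10.RP

open K8

set_option maxRecDepth 100000

/-- The codes of the part 1. -/
def X23p1 : List (List ℕ) := [
  [265854, 582941, 966640, 777858, 917456, 496561, 192779, 1015402, 68327, 1040885, 9531, 1040650,
    19543, 985701],
  [152654, 73917, 947840, 908207, 889072, 973743, 971786, 684942, 852661, 366829, 549774, 160840,
    301165, 73972],
  [915187, 980723, 77671, 77614, 190811, 182621, 427879, 493543, 649755, 784923, 992741, 1030048,
    1013850, 1039056],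
  [917242, 980981, 273975, 85166, 574811, 151869, 299623, 920301, 582283, 913678, 983540, 1012640,
    1014792, 1038560],
  [339643, 709975, 880447, 880520, 970111, 956788, 710535, 970218, 367291, 883509, 161140, 882564,
    93432, 956664],
  [340605, 713934, 744419, 832654, 522659, 791261, 545547, 521964, 297127, 783100, 148719, 1028872,
    94271, 1018564],
  [406333, 642254, 1039274, 980125, 1039269, 857854, 555915, 980204, 301543, 881404, 153262, 880990,
    118973, 929005],
  [124603, 185975, 995119, 651232, 1034591, 457584, 513991, 976203, 768699, 862839, 767298, 616325,
    469713, 432250],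
  [1028795, 1038023, 994151, 649101, 1042763, 432766, 186215, 1041903, 125627, 1014399, 468711, 915424,
    782427, 981744],
  [849503, 829183, 376002, 228526, 668625, 217597, 307817, 627437, 582342, 455310, 983469, 512298,
    1005582, 740005],
  [227563, 225767, 913791, 1012655, 945903, 1038575, 980868, 905102, 891640, 957245, 685789, 710350,
    374014, 373437],
  [227567, 225775, 389887, 488367, 718575, 776431, 964238, 1022862, 889565, 1022861, 684765, 718542,
    373998, 373501],
  [914659, 946931, 374119, 227886, 682715, 246253, 435060, 886455, 650824, 972315, 994797, 973482,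
    1014110, 906149],
  [906813, 968382, 856033, 552356, 981266, 285048, 284011, 1037677, 551095, 1010366, 853473, 911136,
    948242, 969328],
  [520273, 730850, 985347, 583207, 311931, 410432, 632864],
  [648887, 448123, 994471, 650272, 1003867, 410480, 311933, 847953, 583214, 796386, 985410, 609184,
    993537, 448800],
  [913138, 980849, 929335, 642338, 902491, 412465, 312935, 944993, 582203, 911714, 983410, 1009568,
    1010689, 1038448],
  [1033015, 1035819, 863201, 615729, 981314, 412786, 314731, 1037665, 551735, 1010354, 853601, 911216,
    974866, 978544],
  [685879, 380155, 864226, 617781, 981329, 413050, 315179, 1037636, 576311, 993976, 919425, 648560,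
    890898, 421488],
  [1013223, 1014011, 862183, 616759, 981083, 413035, 315182, 1038116, 576317, 1034936, 919521, 976624,
    915474, 915056],
  [914667, 946935, 898407, 752046, 944859, 481773, 325492, 903101, 585464, 974398, 986605, 974506,
    1014046, 906165],
  [963249, 906946, 1039150, 979981, 1035181, 852734, 549863, 976101, 325739, 881274, 480942, 881134,
    774333, 948461],
  [486123, 782695, 1045311, 1044651, 1036015, 1004263, 848775, 978664, 826091, 914292, 677502, 1012430,
    386237, 1028333],
  [619063, 443627, 1047467, 1045548, 1039335, 1000188, 844715, 980164, 842343, 865016, 939214, 619310,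
    864445, 444653],
  [446525, 607918, 1005984, 849069, 807678, 807240, 796836],
  [601787, 447831, 880503, 880576, 978299, 964976, 775975, 1035594, 510651, 994101, 451921, 649121,
    601714, 449138],
  [865511, 946395, 915431, 1014350, 981755, 1024493, 779054, 1037990, 510573, 1036985, 452077, 979627,
    621182, 905959],
  [996775, 1005787, 616423, 862813, 456827, 959822, 772910, 513190, 510765, 742073, 452581, 832241,
    653946, 849602],
  [1024993, 1047106, 906087, 946779, 977579, 894183, 748391, 1033955, 518507, 1045043, 517741, 1045243,
    778878, 1046247],
  [1011951, 521191, 785131, 1029934, 1034973, 976619, 914039]]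

/-- The codes of the parts. -/
def X23 : List (List ℕ) := X23p1

end Pool.Agent.Lib.MP_afdd4d_co.K10.RP
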