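import Pool.Agent.Lib.MP_afdd4d_co.K8.PsiTr

/-!
# The codes of the parts of the coset number 24
-/

namespace Pool.Agent.Lib.MP_afdd4d_co.K10.RP

open K8

set_option maxRecDepth 100000

/-- The codes of the part 1. -/
def X24p1 : List (List ℕ) := [
  [96698, 162262, 96682, 162246],
  [102074, 169814, 107667, 181523],
  [228448, 228752],
  [228572, 228668, 228652, 228556],
  [228876, 228892],
  [293485, 555501],
  [301680, 582547],
  [320109, 563821],
  [329395, 395091, 591251, 656787],
  [376534, 450362, 651184, 718800],
  [459248, 721811],
  [502096, 512176, 764316, 774556],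
  [506774, 514970, 781235, 783315],
  [784874, 784870, 522630, 522634],
  [784866, 522638],
  [522910, 523038, 785330, 785362],
  [523166, 785394],
  [785004, 523235],
  [826257, 843793],
  [850414, 850914],
  [864215, 939963, 863892, 939800],
  [979863, 912283, 973230, 899534],
  [980877, 913293, 974244, 900552],
  [980881, 913297, 974264, 900564],
  [914016, 977504, 907705, 965077],
  [981894, 916362, 981306, 915670],
  [983762, 983858],
  [984595, 984579],
  [1003962, 993750, 1003961, 993749],
  [1004466, 994258, 1004465, 994257],
  [1005026, 994786, 1004722, 994642],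
  [994916, 1005160, 995127, 1005275],
  [1013869],
  [1014100, 1013944, 1013943, 1014107],
  [1014381],
  [1014686],
  [1017453, 1017234],
  [1024621, 1032813, 1018276, 1020360],
  [1024220, 1032508, 1018646, 1020570],
  [1019806, 1021854, 1025255, 1033579],
  [1042401, 1023378],
  [1042029, 1023486],
  [1027406, 1037486, 1028082, 1038322],
  [1036062, 1029790, 1029262, 1035534],
  [1040260, 1032072, 1045949, 1043933],
  [1046614, 1046586, 1047290, 1047414],
  [1047148, 1046627],
  [1047453, 1046929],
  [1047313, 1047185, 1046973, 1047005],
  [1048324, 1048200, 1047992, 1048020]]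

/-- The codes of the parts. -/
def X24 : List (List ℕ) := X24p1

end Pool.Agent.Lib.MP_afdd4d_co.K10.RP
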