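import Pool.Agent.Lib.MP_afdd4d_co.K8.PsiTr

/-!
# The codes of the parts of the coset number 25
-/

namespace Pool.Agent.Lib.MP_afdd4d_co.K10.RP

open K8

set_option maxRecDepth 100000

/-- The codes of the part 1. -/
def X25p1 : List (List ℕ) := [
  [76983, 152923, 75941, 151881, 75942, 151882, 75956, 151896, 76964, 152904],
  [1003847, 717113, 675785, 448730, 407402, 120668, 993451, 649429, 604069, 375094, 347878, 175804,
    275669, 103595, 76379, 302298, 276090, 104030, 281913, 167239, 152119, 302390, 282230, 167486,
    544054, 115883, 76571, 582969, 544665, 116509, 537818, 173383, 152215, 582869, 538517, 173725,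
    658742, 402645, 76627, 984391, 659395, 403299, 595162, 345401, 152243, 984235, 595875, 345827,
    674870, 406677, 119971, 1003543, 716851, 448659, 603226, 347417, 175427, 993307, 649299, 375059],
  [130019, 474013, 517357, 748158, 761262, 818676, 195555, 482205, 517485, 750206, 761294, 818680,
    76780, 129196, 473316, 152556, 194892, 481640, 747940, 750024],
  [79579, 111835, 341211, 85819, 118075, 609595, 143191, 404823, 666967, 185527, 414903, 677047,
    151351, 183607, 412983, 145111, 177367, 668887, 87739, 349371, 611515, 109915, 339291, 601435,
    602953, 643273, 929993, 600873, 641193, 600233, 600901, 927941, 600261, 643237, 929957, 602277,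
    674469, 698661, 870693, 676549, 700741, 676165, 676521, 872745, 676137, 698697, 870729, 674121,
    346954, 381226, 936234, 338634, 372906, 338090, 338758, 928038, 338214, 381094, 936102, 346278,
    406182, 436422, 864454, 414502, 444742, 414022, 414378, 872650, 413898, 436554, 864586, 405834,
    174936, 438612, 706900, 109272, 372948, 108756, 109368, 641332, 108852, 438452, 706740, 174260,
    119476, 379064, 635064, 185140, 444728, 184632, 185044, 700632, 184536, 379224, 635224, 119128,
    186024, 415428, 677668, 112296],
  [341700, 79524, 118440, 610084, 85668, 405188, 667428, 143012, 110404, 339752, 601800, 184132,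
    413480, 151368, 177988, 669384, 145224, 349992, 612040, 87880],
  [207356, 228524, 92654, 228580, 96686, 211444, 80365, 228772, 96493, 223732, 211181, 223662,
    217596, 228684, 160238, 228712, 162254, 219640, 154093, 228808, 162157, 225784, 219501, 225742,
    80292, 92388, 207020, 154056, 160104, 217420],
  [1047523, 1047453, 1042413, 1047166, 1023982, 851964, 326627, 498589, 517741, 303084, 326268, 498286,
    588771, 778878, 761742, 583660, 588700, 779149, 990109, 1008254, 819184, 985068, 990178, 1008609,
    1041517, 1023374, 851440, 1046556, 1046626, 1046913],
  [972635, 896695, 373449, 445221, 641834, 701126, 928596, 873144, 971940, 896328],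
  [978428, 950204, 1035758, 778214, 1014590, 785270, 966140, 950012, 1029613, 522213, 1014493, 523221,
    908782, 777966, 914925, 522157, 785131, 523179, 883582, 768894, 883677, 519133, 769003, 519147,
    914940, 884700, 1029614, 770026, 1014494, 785146, 908796, 884604, 1035757, 520169, 1014589, 523193,
    966126, 769902, 978413, 520141, 785255, 523207, 948990, 776958, 949181, 521149, 777191, 521191,
    907758, 883566, 913901, 914279, 883661, 908231, 965116, 768892, 1028589, 1028925, 769001, 965561,
    949996, 777964, 1014477, 1035981, 785129, 978665, 965102, 948974, 977389, 977643, 949165, 965547,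
    907772, 776956, 1034733, 1034973, 777189, 908245, 884588, 769900, 1014573, 1029933, 785253, 915301,
    977404, 519132, 1034734, 1034974, 519146, 977658, 950188, 522156, 1014574, 1029934, 523178, 966570,
    913916, 521148, 1028590, 1028926],
  [521190, 914294, 884684, 520140, 1014478, 1035982, 523206, 909254, 778212, 522212, 785268, 915316,
    523220, 909268, 770024, 520168, 785144, 978680, 523192, 966584]]

/-- The codes of the parts. -/
def X25 : List (List ℕ) := X25p1

end Pool.Agent.Lib.MP_afdd4d_co.K10.RP
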