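import Pool.Agent.Lib.MP_afdd4d_co.K8.PsiTr

/-!
# The codes of the parts of the coset number 26
-/

namespace Pool.Agent.Lib.MP_afdd4d_co.K10.RP

open K8

set_option maxRecDepth 100000

/-- The codes of the part 1. -/
def X26p1 : List (List ℕ) := [
  [228428, 228456, 731, 712],
  [302098, 1316],
  [75844, 75816, 4242, 4296],
  [75958, 75959],
  [521452, 76699, 76755, 521381],
  [389564, 504294, 109499, 108983, 338903, 338359, 389302, 503990],
  [373285, 151955],
  [517761, 229248],
  [520923, 229260, 229344, 520833],
  [444763, 302956],
  [373174, 373175],
  [445403, 517996],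
  [446425, 446411, 520041, 520012, 520013, 520040, 446410, 446424],
  [523108, 523052, 449506, 449451, 449436, 449493, 523035, 523091],
  [519075, 519061],
  [676827, 583276, 984684, 675931],
  [700620, 872680, 601563, 601672],
  [1022686, 850682, 620894, 621469, 735610, 736227, 1022125, 850149],
  [1022669, 850665, 620922, 621497, 735582, 736199, 1022142, 850166],
  [1006059, 719325, 638588, 638890, 867950, 868308, 1005726, 719090],
  [899894, 641447, 928181, 899219],
  [928468, 641706, 745618, 746349],
  [641854, 928630, 973694, 972983],
  [978265, 1035595, 694233, 694092, 808907, 808808, 978508, 1035880],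
  [873246, 701298, 974462, 974244],
  [873310, 701306, 970366, 970221],
  [1040894, 701406, 873466, 1041005],
  [969164, 969192, 702299, 702280, 874331, 874312, 969292, 969320],
  [1004107, 717401, 940652, 940969, 711276, 711621, 1004315, 717651],
  [895358, 761262, 818676, 895634],
  [1036718, 979444, 764718, 764914, 879476, 879518, 1037042, 979614],
  [839069, 953827, 962426, 961893, 905054, 904493, 839518, 954234],
  [840054, 954686, 1019751, 1019214, 847677, 847224, 840650, 955352],
  [1022946, 850844, 915716, 916395, 1030432, 1031125, 1022353, 850307],
  [962521, 905163, 912825, 913228, 1027527, 1027944, 961990, 904632],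
  [906709, 964011, 1027939, 1027532, 913181, 912872, 907210, 964568],
  [909252, 966568, 914290, 913912, 1028894, 1028558, 908798, 966142]]

/-- The codes of the parts. -/
def X26 : List (List ℕ) := X26p1

end Pool.Agent.Lib.MP_afdd4d_co.K10.RP
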