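import Pool.Agent.Lib.MP_afdd4d_co.K8.PsiTr

/-!
# The codes of the parts of the coset number 27
-/

namespace Pool.Agent.Lib.MP_afdd4d_co.K10.RP

open K8

set_option maxRecDepth 100000

/-- The codes of the part 1. -/
def X27p1 : List (List ℕ) := [
  [76276, 152056],
  [152297, 152490, 76645, 76742],
  [97660, 97756, 163068, 163260, 97324, 97420, 162892, 163084],
  [203250, 221681, 202861, 221582],
  [228520, 228676],
  [228876],
  [525810, 263665, 525938, 264081],
  [293485, 555918, 293374, 555517],
  [563821, 320398, 564126, 320125],
  [326627, 588771, 326268, 588700],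
  [395235, 657379, 329699, 591843, 394451, 656691, 329011, 591059],
  [634477, 372622, 710253, 448398, 634866, 372721, 710642, 448497],
  [372983, 641463, 444795, 700891],
  [390131, 646131, 453619, 703475, 389881, 646074, 453493, 703446],
  [460771, 722915, 459875, 722307],
  [517857, 761762, 517985, 761794],
  [768246, 518581, 776570, 520665, 768099, 518531, 776291, 520579],
  [784882, 522737, 784493, 522638],
  [785299, 522867, 784908, 522764],
  [819184],
  [852921, 852730, 918485, 918390],
  [873211, 873403, 928631, 928727],
  [910257, 891634, 975825, 957298, 909682, 891345, 975090, 956849],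
  [898664, 905096, 970340, 964484, 898555, 904699, 970231, 964087],
  [899497, 911594, 973253, 979302, 899596, 911884, 973324, 979468],
  [900734, 913309, 974462, 980893, 900552, 912744, 974244, 980196],
  [915300, 909252, 978664, 966568, 914941, 908798, 978429, 966142],
  [916325, 916422, 981737, 981930, 915914, 915817, 981414, 981221],
  [984685, 984974],
  [993780, 1004024, 993604, 1003688],
  [994665, 994762, 1004773, 1004966],
  [1041379, 1022947, 1040496, 1022352],
  [1042401, 1023970, 1041505, 1023362],
  [1047442, 1047153, 1046637, 1046926]]

/-- The codes of the parts. -/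
def X27 : List (List ℕ) := X27p1

end Pool.Agent.Lib.MP_afdd4d_co.K10.RP
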