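import Pool.Agent.Lib.MP_afdd4d_co.K8.PsiTr

/-!
# The codes of the parts of the coset number 29
-/

namespace Pool.Agent.Lib.MP_afdd4d_co.K10.RP

open K8

set_option maxRecDepth 100000

/-- The codes of the part 1. -/
def X29p1 : List (List ℕ) := [
  [160869, 90362],
  [194533, 129786],
  [209405, 228558],
  [236141, 254862],
  [267997, 570526],
  [339844, 694616],
  [341218, 684241],
  [341628, 713948],
  [365814, 685721],
  [369404, 718412],
  [374375, 713435],
  [374379, 713431],
  [375946, 660437],
  [376330, 689109],
  [376562, 718801],
  [404085, 648522],
  [449341, 642990],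
  [650859, 451447],
  [650994, 456561],
  [460883, 730371],
  [742109, 505006],
  [515854, 756669],
  [520933, 783082],
  [849014, 812793],
  [816856, 832756],
  [818684],
  [850912],
  [851952],
  [852661, 971786],
  [854581, 967946],
  [872952, 949412],
  [976995, 877411]]

/-- The codes of the part 2. -/
def X29p2 : List (List ℕ) := [
  [975987, 878195],
  [973172, 880552],
  [881022, 945389],
  [881405, 980206],
  [882657, 981234],
  [889565, 964238],
  [890849, 981650],
  [968661, 900666],
  [905971, 980643],
  [906939, 972471],
  [907000, 980660],
  [914044, 976620],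
  [914046, 976621],
  [914667, 946935],
  [914686, 947965],
  [915187, 980723],
  [915198, 980733],
  [978913, 916338],
  [928757, 916810],
  [983524, 1013768],
  [983796, 1045512],
  [985319, 1011979],
  [985351, 985355],
  [1011806, 992493],
  [994791, 1014107],
  [1004263, 1044651],
  [1006321, 1045922],
  [1006325, 1045930],
  [1041508, 1008248],
  [1012323, 1040611],
  [1014391, 1041899],
  [1039000, 1021860]]

/-- The codes of the part 3. -/
def X29p3 : List (List ℕ) := [
  [1028661, 1033930],
  [1028910, 1034957],
  [1041365, 1031786],
  [1032948, 1046056],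
  [1045294, 1034989],
  [1039096, 1046436],
  [1039205, 1043370]]

/-- The codes of the parts. -/
def X29 : List (List ℕ) := X29p1 ++ X29p2 ++ X29p3

end Pool.Agent.Lib.MP_afdd4d_co.K10.RP
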