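import Pool.Agent.Lib.MP_afdd4d_co.K8.PsiTr

/-!
# The codes of the parts of the coset number 30
-/

namespace Pool.Agent.Lib.MP_afdd4d_co.K10.RP

open K8

set_option maxRecDepth 100000

/-- The codes of the part 1. -/
def X30p1 : List (List ℕ) := [
  [1864],
  [32092, 204138, 222665, 31932, 204006, 222629],
  [34331, 263763, 526099, 33815, 263219, 525459],
  [75816, 75844, 75912, 76036, 75968, 76064],
  [75959],
  [76536, 76494, 76728, 76589, 76742, 76645],
  [87880, 145224, 151368, 87739, 145111, 151351],
  [130040, 474062, 748397, 129207, 473271, 747703],
  [151678, 151965, 152035],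
  [151916, 152012, 152040],
  [152083],
  [152411],
  [174936, 346954, 602953, 174260, 346278, 602277],
  [228059, 228155, 228183, 228040, 228136, 228164],
  [228396, 228452, 228492, 228740, 228576, 228768],
  [583245, 984681, 302862, 984970, 302960, 583632],
  [583385, 984779, 302906, 984875, 302934, 583509],
  [583276, 984684, 302988, 984972, 303072, 583648],
  [713556, 1000234, 432980, 987849, 318250, 586441, 713239, 999987, 432663, 987795, 318003, 586387],
  [372919, 641207, 927927],
  [372990, 641469, 928231],
  [444780, 700876, 872936],
  [445293, 701390, 873464],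
  [1005320, 718656, 1005128, 450368, 718408, 450312, 1005131, 718425, 1005323, 450330, 718673, 450386],
  [508920, 451534, 758776, 695149, 816078, 809837, 508781, 451437, 758734, 695246, 816120, 809976],
  [517157, 760966, 818352],
  [818796, 761452, 819084, 518028, 761824, 518112],
  [518509, 768462, 883192, 518491, 768347, 883035],
  [850264, 1022282, 1040713, 850759, 1022777, 1041114],
  [850268, 1022314, 1040841, 850755, 1022745, 1040986],
  [895835, 895159],
  [896969, 896874, 896860, 896054, 896149, 896163],
  [901064, 913256, 1027916, 900222, 912797, 1027555],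
  [916136, 1030852, 1043236, 915463, 1030193, 1042578],
  [1044425, 1032042, 917340, 1043564, 1031564, 916960],
  [971611, 970935],
  [981484, 1038828, 1044972, 981667, 1038997, 1045046],
  [1047259, 1047355, 1047383, 1046820, 1046724, 1046696]]

/-- The codes of the parts. -/
def X30 : List (List ℕ) := X30p1

end Pool.Agent.Lib.MP_afdd4d_co.K10.RP
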