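import Pool.Agent.Lib.MP_afdd4d_co.K8.PsiTr

/-!
# The codes of the parts of the coset number 31
-/

namespace Pool.Agent.Lib.MP_afdd4d_co.K10.RP

open K8

set_option maxRecDepth 100000

/-- The codes of the part 1. -/
def X31p1 : List (List ℕ) := [
  [1043],
  [227769, 227783, 227797, 227755, 227754, 227796, 227782, 227768],
  [296557, 296449],
  [301587, 301568],
  [302810, 302902],
  [492435, 320403, 492044, 320096],
  [372919, 444763],
  [372974, 372988, 444782, 444796],
  [373434, 373462, 445270, 445242],
  [373730, 373660, 445410, 445340],
  [512374, 454974, 502010, 387294, 512426, 455124, 502214, 387512],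
  [523744, 523660],
  [523872, 523788],
  [983955, 582547, 983936, 582528],
  [582796, 984288, 582924, 984416],
  [583061, 984483, 583065, 984515],
  [583148, 984556],
  [583181, 984673],
  [984962, 583568],
  [719858, 1006494, 654322, 998302, 719581, 1006315, 654141, 998247],
  [772537, 944583, 766421, 881067, 772329, 944333, 766309, 880941],
  [786304, 1015680, 785932, 1015392],
  [820845, 820609],
  [850819, 1022865, 850332, 1022434],
  [899969, 973697, 899108, 972872],
  [974462, 900734, 974244, 900552],
  [962248, 904904, 907044, 964388, 961751, 904379, 906555, 963927],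
  [1041005, 1040894],
  [1043162, 1045302, 1042796, 1044716]]

/-- The codes of the parts. -/
def X31 : List (List ℕ) := X31p1

end Pool.Agent.Lib.MP_afdd4d_co.K10.RP
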