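import Pool.Agent.Lib.MP_afdd4d_co.K8.PsiTr

/-!
# The codes of the parts of the coset number 32
-/

namespace Pool.Agent.Lib.MP_afdd4d_co.K10.RP

open K8

set_option maxRecDepth 100000

/-- The codes of the part 1. -/
def X32p1 : List (List ℕ) := [
  [59029, 461349],
  [403174, 117308],
  [492532, 188763],
  [310506, 220266],
  [228524, 376034],
  [375946, 228582],
  [507018, 261866],
  [286058],
  [515854, 458666],
  [523530, 523786],
  [919461, 576293],
  [642990, 929767],
  [992582, 649912],
  [714579, 1018129],
  [1020619, 717029],
  [1020716, 717406],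
  [1022861, 718542],
  [1022445, 718788],
  [1022456, 718801],
  [769706, 769378],
  [1025735, 780393],
  [1003948, 848110],
  [1005799, 849556],
  [1006317, 849908],
  [879374, 878506],
  [881389, 880987],
  [913899, 1012539],
  [915159, 1013832],
  [1015686, 916746],
  [1032937, 975598],
  [1034976, 976572],
  [979626, 1036984],
  [1036956, 979640],
  [1038828, 980389],
  [1039626, 982330],
  [1042570, 1042278],
  [1044570, 1045424],
  [1046025, 1047224]]

/-- The codes of the parts. -/
def X32 : List (List ℕ) := X32p1

end Pool.Agent.Lib.MP_afdd4d_co.K10.RP
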