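import Pool.Agent.Lib.MP_afdd4d_co.K8.PsiTr

/-!
# The codes of the parts of the coset number 33
-/

namespace Pool.Agent.Lib.MP_afdd4d_co.K10.RP

open K8

set_option maxRecDepth 100000

/-- The codes of the parts. -/
def X33 : List (List ℕ) := []

end Pool.Agent.Lib.MP_afdd4d_co.K10.RP
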