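import Pool.Agent.Lib.MP_afdd4d_co.K8.PsiTr

/-!
# The codes of the parts of the coset number 34
-/

namespace Pool.Agent.Lib.MP_afdd4d_co.K10.RP

open K8

set_option maxRecDepth 100000

/-- The codes of the part 1. -/
def X34p1 : List (List ℕ) := [
  [300158, 926518],
  [991463, 302771, 991319, 302742],
  [834296, 989029, 833992, 988937]]

/-- The codes of the parts. -/
def X34 : List (List ℕ) := X34p1

end Pool.Agent.Lib.MP_afdd4d_co.K10.RP
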