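import Pool.Agent.Lib.MP_afdd4d_co.K8.PsiTr

/-!
# The codes of the parts of the coset number 35
-/

namespace Pool.Agent.Lib.MP_afdd4d_co.K10.RP

open K8

set_option maxRecDepth 100000

/-- The codes of the part 1. -/
def X35p1 : List (List ℕ) := [
  [978696, 1036096, 966216, 1029952, 908872, 915208, 949576, 1014592, 777544, 785160, 521544, 522824,
    12222, 69622, 12029, 75765, 69359, 75695, 11771, 76787, 69087, 76703, 75135, 76415],
  [65520, 466830, 747117, 895323, 929607, 642873, 374490, 227820],
  [984048, 582542, 301677, 152923],
  [529335, 279287, 164543, 164343, 278975, 528639, 971649, 971362, 971292, 971092, 971050, 970953],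
  [442843, 692603, 807263, 443117, 807549, 692847, 693166, 807838, 443279, 807924, 693234, 443377,
    676222, 414173, 184811, 823934, 430827, 316125, 836509, 705451, 578366, 951267, 934869, 922486],
  [970679, 964343, 906943, 948727, 776639, 520447, 974774, 980725, 1037999, 981491, 1038751, 1044607]]

/-- The codes of the parts. -/
def X35 : List (List ℕ) := X35p1

end Pool.Agent.Lib.MP_afdd4d_co.K10.RP
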